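import Pool.Agent.Helper753_MagHom.OM

/-!
# The relation on faces and states; acyclicity of the complexes of faces
-/

set_option autoImplicit false
set_option linter.unusedSectionVars false
set_option linter.unusedDecidableInType false
set_option linter.unusedFintypeInType false
open Finset
namespace Pool.Agent.Helper753_MagHom

section Agsec

variable {E : Type*} [Fintype E] [DecidableEq E]

/-- vertices: faces and states -/
abbrev Vt (E : Type*) := (E → SignType) ⊕ (E → ℕ)

/-- the relation -/
def Rl : Vt E → Vt E → Prop
  | .inl X, .inl Y => le' Y X ∧ Y ≠ X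
  | .inl X, .inr n => (∀ e, n e ≤ 1) ∧ ∀ e, X e = 0 → n e = 1
  | .inr n, .inr m => Rn n m
  | .inr _, .inl _ => False

@[simp] lemma Rl_inl_inl {X Y : E → SignType} :
    Rl (Sum.inl X) (Sum.inl Y) ↔ le' Y X ∧ Y ≠ X := Iff.rfl
@[simp] lemma Rl_inl_inr {X : E → SignType} {n : E → ℕ} :
    Rl (Sum.inl X) (Sum.inr n) ↔ (∀ e, n e ≤ 1) ∧ ∀ e, X e = 0 → n e = 1 := Iff.rfl
@[simp] lemma Rl_inr_inr {n m : E → ℕ} :
    Rl (Sum.inr n : Vt E) (Sum.inr m) ↔ Rn n m := Iff.rfl
@[simp] lemma Rl_inr_inl {n : E → ℕ} {X : E → SignType} :
    Rl (Sum.inr n : Vt E) (Sum.inl X) ↔ False := Iff.rfl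

/-- the rank -/
def rk : Vt E → ℕ
  | .inl X => (zs X).card
  | .inr n => Fintype.card E + 1 + ∑ e, n e

lemma Rn_sum_lt {n m : E → ℕ} (h : Rn n m) : ∑ e, n e < ∑ e, m e := by
  obtain ⟨h1, h2⟩ := h
  apply Finset.sum_lt_sum
  · intro e _; rcases h2 e with h | h <;> omega
  · by_contra hc
    push Not at hc
    apply h1
    funext e
    have := hc e (mem_univ e)
    rcases h2 e with h | h <;> omega

lemma rk_lt : ∀ u v : Vt E, Rl u v → rk u < rk v := by
  rintro (X | n) (Y | m) h
  · exact card_lt_card (le'.zs_ssubset h.1 h.2)
  · have : (zs X).card ≤ Fintype.card E := card_le_univ _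
    simp only [rk]; omega
  · exact h.elim
  · have := Rn_sum_lt h
    simp only [rk]; omega

lemma Rn_mid {u v w x : E → ℕ} (h1 : Rn u v) (h2 : Rn v w) (h3 : Rn w x) (h4 : Rn u x) :
    Rn u w ∧ Rn v x := by
  obtain ⟨a1, b1⟩ := h1
  obtain ⟨a2, b2⟩ := h2
  obtain ⟨a3, b3⟩ := h3
  obtain ⟨a4, b4⟩ := h4
  refine ⟨⟨?_, ?_⟩, ⟨?_, ?_⟩⟩
  · rintro rfl
    apply a1
    funext e
    rcases b1 e with h | h <;> rcases b2 e with h' | h' <;> omega
  · intro e
    rcases b1 e with h | h <;> rcases b2 e with h' | h' <;> rcases b3 e with h'' | h'' <;>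
      rcases b4 e with h''' | h''' <;> omega
  · rintro rfl
    apply a2
    funext e
    rcases b3 e with h | h <;> rcases b2 e with h' | h' <;> omega
  · intro e
    rcases b1 e with h | h <;> rcases b2 e with h' | h' <;> rcases b3 e with h'' | h'' <;>
      rcases b4 e with h''' | h''' <;> omega

lemma QRel_Rl : QRel (Rl (E := E)) := by
  rintro (U | u) (V | v) (W | w) (X | x) h1 h2 h3 h4
  all_goals try exact h1.elim
  all_goals try exact h2.elim
  all_goals try exact h3.elim
  · refine ⟨⟨h2.1.trans h1.1, ?_⟩, ⟨h3.1.trans h2.1, ?_⟩⟩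
    · rintro rfl; exact h1.2 (h1.1.antisymm h2.1)
    · rintro rfl; exact h2.2 (h2.1.antisymm h3.1)
  · refine ⟨⟨h2.1.trans h1.1, ?_⟩, ⟨h3.1, ?_⟩⟩
    · rintro rfl; exact h1.2 (h1.1.antisymm h2.1)
    · intro e he
      exact h3.2 e (mem_zs.mp (h2.1.zs (mem_zs.mpr he)))
  · -- U V faces, w x states
    refine ⟨⟨?_, ?_⟩, ⟨?_, ?_⟩⟩
    · intro e
      have := h4.1 e
      rcases h3.2 e with h | h <;> omega
    · intro e he
      exact h2.2 e (mem_zs.mp (h1.1.zs (mem_zs.mpr he)))
    · exact h4.1
    · intro e he
      have h5 := h2.2 e he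
      have h6 := h4.1 e
      rcases h3.2 e with h | h <;> omega
  · -- U face, v w x states
    refine ⟨⟨?_, ?_⟩, ⟨?_, ?_⟩⟩
    · intro e
      have := h4.1 e
      rcases h3.2 e with h | h <;> omega
    · intro e he
      have h5 := h1.2 e he
      have h6 := h4.1 e
      rcases h3.2 e with h | h <;> rcases h2.2 e with h' | h' <;> omega
    · intro hvx
      have h7 := Rn_sum_lt h2
      have h8 := Rn_sum_lt h3
      rw [hvx] at h7
      omega
    · intro e
      have h6 := h4.1 e
      rcases h3.2 e with h | h <;> rcases h2.2 e with h' | h' <;> omega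
  · exact Rn_mid h1 h2 h3 h4

/-- paths starting at a state -/
lemma Val_inr {n : E → ℕ} {t : Vt E} {u : List (Vt E)} (h : Val Rl (Sum.inr n) t u) :
    (∀ w ∈ u, ∃ m, w = Sum.inr m) ∧ ∃ m, t = Sum.inr m := by
  induction u generalizing n with
  | nil =>
    refine ⟨by simp, ?_⟩
    cases t with
    | inl X => exact (h : False).elim
    | inr m => exact ⟨m, rfl⟩
  | cons v u ih =>
    obtain ⟨h1, h2⟩ := h
    cases v with
    | inl X => exact (h1 : False).elim
    | inr m =>
      obtain ⟨h3, h4⟩ := ih h2
      refine ⟨?_, h4⟩
      intro w hw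
      rcases List.mem_cons.mp hw with rfl | hw
      · exact ⟨m, rfl⟩
      · exact h3 w hw

/-- the faces on a path starting at `X` are smaller than `X` -/
lemma Val_inl_lt {X : E → SignType} {t : Vt E} {u : List (Vt E)} (h : Val Rl (Sum.inl X) t u) :
    ∀ Y, Sum.inl Y ∈ u → le' Y X ∧ Y ≠ X := by
  induction u generalizing X with
  | nil => simp
  | cons v u ih =>
    obtain ⟨h1, h2⟩ := h
    intro Y hY
    rcases List.mem_cons.mp hY with h | hY'
    · rw [← h] at h1; exact h1
    · cases v with
      | inl Z =>
        have h3 := ih h2 Y hY'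
        refine ⟨h3.1.trans h1.1, ?_⟩
        rintro rfl
        exact h1.2 (h1.1.antisymm h3.1)
      | inr n =>
        obtain ⟨m, hm⟩ := (Val_inr h2).1 _ hY'
        cases hm

/-- paths ending at a face -/
lemma Val_inl_gt {s : Vt E} {G : E → SignType} {u : List (Vt E)} (h : Val Rl s (Sum.inl G) u) :
    (∀ w ∈ u, ∃ Y, w = Sum.inl Y ∧ le' G Y ∧ G ≠ Y) ∧ ∃ Y, s = Sum.inl Y ∧ le' G Y ∧ G ≠ Y := by
  induction u generalizing s with
  | nil =>
    refine ⟨by simp, ?_⟩
    cases s with
    | inl Y => exact ⟨Y, rfl, h⟩
    | inr n => exact (h : False).elim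
  | cons v u ih =>
    obtain ⟨h1, h2⟩ := h
    obtain ⟨h3, Z, rfl, h4, h5⟩ := ih h2
    constructor
    · intro w hw
      rcases List.mem_cons.mp hw with rfl | hw
      · exact ⟨Z, rfl, h4, h5⟩
      · exact h3 w hw
    · cases s with
      | inl Y =>
        refine ⟨Y, rfl, h4.trans h1.1, ?_⟩
        rintro rfl
        exact h5 (h4.antisymm h1.1)
      | inr n => exact (h1 : False).elim

variable (L : Set (E → SignType))

/-- proper faces of `X` with zero set inside `S` -/
def Pa (X : E → SignType) (S : Finset E) : Set (Vt E) :=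
  {v | ∃ G ∈ L, v = Sum.inl G ∧ le' G X ∧ G ≠ X ∧ zs G ⊆ S}

/-- faces strictly between `G` and `X`, different from `c` -/
def Pg (X c G : E → SignType) : Set (Vt E) :=
  {v | ∃ Y ∈ L, v = Sum.inl Y ∧ le' G Y ∧ G ≠ Y ∧ le' Y X ∧ Y ≠ X ∧ Y ≠ c}

variable {L}

theorem alpha_gamma (hL : OM L) (N : ℕ) :
    (∀ X y : E → SignType, ∀ t : Vt E, X ∈ L → y ∈ L → zs X = zs y → X ≠ y →
      (sep X y).card ≤ N → Rl (Sum.inl X) t →
      (∀ v ∈ Pa L X (zs X ∪ sep X y), Rl v t) →
      AC (dm Rl (Sum.inl X) t) (C Rl (Pa L X (zs X ∪ sep X y)) (Sum.inl X) t)) ∧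
    (∀ X : E → SignType, ∀ T : Finset E, ∀ G : E → SignType, X ∈ L → zro X T ∈ L → T.Nonempty →
      Disjoint T (zs X) → Par L X T → G ∈ L → le' G (zro X T) → G ≠ zro X T →
      (zs G \ zs (zro X T)).card ≤ N →
      AC (dm Rl (Sum.inl X) (Sum.inl G)) (C Rl (Pg L X (zro X T) G) (Sum.inl X) (Sum.inl G))) := by
  classical
  induction N with
  | zero =>
    constructor
    · intro X y t _ _ hz hne hc _ _
      have := (sep_nonempty hz hne).card_pos
      omega
    · intro X T G _ _ _ _ _ _ hle hne hc
      have h1 := (hle.zs_ssubset hne)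
      have : (zs G \ zs (zro X T)).Nonempty := by
        rw [Finset.sdiff_nonempty]; exact h1.2
      have := this.card_pos
      omega
  | succ N ih =>
    obtain ⟨ihα, ihγ⟩ := ih
    have hα : ∀ X y : E → SignType, ∀ t : Vt E, X ∈ L → y ∈ L → zs X = zs y → X ≠ y →
      (sep X y).card ≤ N + 1 → Rl (Sum.inl X) t →
      (∀ v ∈ Pa L X (zs X ∪ sep X y), Rl v t) →
      AC (dm Rl (Sum.inl X) t) (C Rl (Pa L X (zs X ∪ sep X y)) (Sum.inl X) t) := by
      intro X y t hX hy hz hne hcard hXt hPt
      obtain ⟨ym, hym, w, hw, hzm, hss, hwT, hwoff, hpar⟩ := lemW hL hX hy hz hne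
      set T := sep X y \ sep X ym with hT
      have hTne : T.Nonempty := by rw [hT, Finset.sdiff_nonempty]; exact hss.2
      have hTd : Disjoint T (zs X) := by
        rw [Finset.disjoint_left]
        intro e he h1
        rw [hT] at he
        exact (mem_sep.mp (mem_sdiff.mp he).1).1 (mem_zs.mp h1)
      have hTsub : T ⊆ sep X y := sdiff_subset
      have hcard2 : (sep X ym).card + T.card = (sep X y).card := by
        rw [hT, add_comm]
        exact Finset.card_sdiff_add_card_eq_card hss.1
      have hTpos := hTne.card_pos
      -- the elements of P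
      have hPcase : ∀ G ∈ L, le' G X → zs G ⊆ zs X ∪ sep X y → T ⊆ zs G ∨ zs G ⊆ zs X ∪ sep X ym := by
        intro G hG hGX hGz
        rcases hpar G hG hGX.zs with h | h
        · exact Or.inl h
        · right
          intro e he
          rcases mem_union.mp (hGz he) with h1 | h1
          · exact mem_union_left _ h1
          · apply mem_union_right
            by_contra h2
            exact (Finset.disjoint_left.mp h) (show e ∈ T by rw [hT]; exact mem_sdiff.mpr ⟨h1, h2⟩) he
      by_cases hymX : ym = X
      · -- w is the facet, cone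
        have hse : sep X ym = ∅ := by
          rw [hymX]
          ext e
          simp only [mem_sep, notMem_empty, iff_false]
          cases X e <;> decide
        have hTs : sep X y = T := by rw [hT, hse, sdiff_empty]
        have hwc : w = zro X T := by
          funext e
          simp only [zro]
          split_ifs with he
          · exact hwT e he
          · rw [hwoff e he]
            exact eq_of_notMem_sep hz (by rw [hTs]; exact he)
        have hPeq : Pa L X (zs X ∪ sep X y) = {Sum.inl (zro X T)} := by
          ext v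
          constructor
          · rintro ⟨G, hG, rfl, hGX, hGne, hGz⟩
            have h1 : T ⊆ zs G := by
              rcases hPcase G hG hGX hGz with h | h
              · exact h
              · exfalso
                rw [hse, union_empty] at h
                exact hGne (hGX.eq_of_zs h)
            have h2 : G = zro X T := (le_zro hGX h1).eq_of_zs (by rw [zs_zro, ← hTs]; exact hGz)
            rw [h2]; rfl
          · rintro rfl
            refine ⟨zro X T, hwc ▸ hw, rfl, zro_le X T, zro_ne hTne hTd, ?_⟩
            rw [zs_zro, hTs]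
        have hXc : Rl (Sum.inl X) (Sum.inl (zro X T) : Vt E) := ⟨zro_le X T, zro_ne hTne hTd⟩
        refine AC_cone (p := Sum.inl (zro X T)) QRel_Rl rk_lt ?_ ?_ ?_ ?_
        · rw [hPeq]; rfl
        · apply hPt; rw [hPeq]; rfl
        · exact ⟨fun _ => hXc, fun _ => hXt⟩
        · intro u hu hne'
          rw [hPeq] at hu
          exact absurd hu hne'
      · -- by induction P(ym) is acyclic
        have hcard3 : (sep X ym).card ≤ N := by omega
        have hPmsub : ∀ v ∈ Pa L X (zs X ∪ sep X ym), v ∈ Pa L X (zs X ∪ sep X y) := by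
          rintro v ⟨G, hG, rfl, h1, h2, h3⟩
          exact ⟨G, hG, rfl, h1, h2, h3.trans (union_subset_union_right hss.1)⟩
        have hACm : AC (dm Rl (Sum.inl X) t) (C Rl (Pa L X (zs X ∪ sep X ym)) (Sum.inl X) t) :=
          ihα X ym t hX hym hzm.symm (fun h => hymX h.symm) hcard3 hXt
            (fun v hv => hPt v (hPmsub v hv))
        by_cases hΔ : ∃ G ∈ L, le' G X ∧ T ⊆ zs G ∧ zs G ⊆ zs X ∪ sep X y
        · obtain ⟨G0, hG0, hG0X, hTG0, hG0z⟩ := hΔ
          have hc : zro X T ∈ L := facet_mem hL hz hw hwT hwoff hG0 hG0X hTG0 hG0z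
          have hcX : zro X T ≠ X := zro_ne hTne hTd
          -- the set to be added
          let D : Finset (Vt E) := (univ.filter (fun G : E → SignType =>
            G ∈ L ∧ le' G X ∧ T ⊆ zs G ∧ zs G ⊆ zs X ∪ sep X y ∧ G ≠ zro X T)).image Sum.inl
          have hD : ∀ v, v ∈ D ↔ ∃ G ∈ L, v = Sum.inl G ∧ le' G X ∧ T ⊆ zs G ∧
              zs G ⊆ zs X ∪ sep X y ∧ G ≠ zro X T := by
            intro v
            simp only [D, mem_image, mem_filter, mem_univ, true_and]
            constructor
            · rintro ⟨G, ⟨h1, h2⟩, rfl⟩; exact ⟨G, h1, rfl, h2⟩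
            · rintro ⟨G, h1, rfl, h2⟩; exact ⟨G, ⟨h1, h2⟩, rfl⟩
          have hTnot : ∀ G : E → SignType, T ⊆ zs G → ¬ zs G ⊆ zs X ∪ sep X ym := by
            intro G h1 h2
            obtain ⟨e, he⟩ := hTne
            rcases mem_union.mp (h2 (h1 he)) with h3 | h3
            · exact (Finset.disjoint_left.mp hTd he) h3
            · rw [hT] at he
              exact (mem_sdiff.mp he).2 h3
          have hDW : ∀ v ∈ D, v ∉ Pa L X (zs X ∪ sep X ym) := by
            intro v hv
            obtain ⟨G, hG, rfl, h1, h2, h3, h4⟩ := (hD v).mp hv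
            rintro ⟨G', _, h5, _, _, h6⟩
            cases h5
            exact hTnot G h2 h6
          have hstep1 : AC (dm Rl (Sum.inl X) t)
              (C Rl (Pa L X (zs X ∪ sep X ym) ∪ D) (Sum.inl X) t) := by
            refine ((add_left QRel_Rl rk_lt hDW ?_).1).mpr hACm
            intro v hv
            obtain ⟨G, hG, rfl, h1, h2, h3, h4⟩ := (hD v).mp hv
            have h5 := ihγ X T G hX hc hTne hTd hpar hG (le_zro h1 h2) h4 (by
              have h6 : (zs G \ zs (zro X T)) ⊆ sep X ym := by
                intro e he
                rw [mem_sdiff, zs_zro, mem_union] at he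
                rcases mem_union.mp (h3 he.1) with h7 | h7
                · exact absurd (Or.inl h7) he.2
                · by_contra h8
                  exact he.2 (Or.inr (show e ∈ T by rw [hT]; exact mem_sdiff.mpr ⟨h7, h8⟩))
              exact (card_le_card h6).trans hcard3)
            have h6 : C Rl (Pg L X (zro X T) G) (Sum.inl X) (Sum.inl G) =
                C Rl (Pa L X (zs X ∪ sep X ym) ∪ {u | u ∈ D ∧ rk u < rk (Sum.inl G : Vt E)})
                  (Sum.inl X) (Sum.inl G) := by
              apply C_congr
              intro u hu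
              have hlt := Val_inl_lt hu
              have hgt := (Val_inl_gt hu).1
              constructor
              · intro hmem v hv
                obtain ⟨Y, hYL, rfl, h7, h8, h9, h10, h11⟩ := hmem v hv
                have h12 : zs Y ⊆ zs X ∪ sep X y := (h7.zs).trans h3
                rcases hPcase Y hYL h9 h12 with h13 | h13
                · right
                  refine ⟨(hD _).mpr ⟨Y, hYL, rfl, h9, h13, h12, h11⟩, ?_⟩
                  exact card_lt_card (h7.zs_ssubset h8)
                · left
                  exact ⟨Y, hYL, rfl, h9, h10, h13⟩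
              · intro hmem v hv
                obtain ⟨Y, rfl, h7, h8⟩ := hgt v hv
                obtain ⟨h9, h10⟩ := hlt Y hv
                rcases hmem _ hv with ⟨Y', hY', e1, h11, h12, h13⟩ | ⟨h11, h12⟩
                · cases e1
                  refine ⟨Y, hY', rfl, h7, h8, h9, h10, ?_⟩
                  rintro rfl
                  exact hTnot _ (by rw [zs_zro]; exact subset_union_right) h13
                · obtain ⟨Y', hY', e1, h13, h14, h15, h16⟩ := (hD _).mp h11
                  cases e1
                  exact ⟨Y, hY', rfl, h7, h8, h9, h10, h16⟩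
            rw [← h6]
            exact h5
          -- now add the facet
          have hcnot : (Sum.inl (zro X T) : Vt E) ∉ Pa L X (zs X ∪ sep X ym) ∪ (D : Set (Vt E)) := by
            rintro (⟨G, _, e1, _, _, h3⟩ | h)
            · cases e1
              exact hTnot _ (by rw [zs_zro]; exact subset_union_right) h3
            · obtain ⟨G, _, e1, _, _, _, h3⟩ := (hD _).mp (by simpa using h)
              cases e1
              exact h3 rfl
          have hPall : Pa L X (zs X ∪ sep X y) =
              insert (Sum.inl (zro X T)) (Pa L X (zs X ∪ sep X ym) ∪ (D : Set (Vt E))) := by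
            ext v
            constructor
            · rintro ⟨G, hG, rfl, h1, h2, h3⟩
              by_cases hGc : G = zro X T
              · left; rw [hGc]
              · right
                rcases hPcase G hG h1 h3 with h4 | h4
                · right
                  exact Finset.mem_coe.mpr ((hD _).mpr ⟨G, hG, rfl, h1, h4, h3, hGc⟩)
                · left; exact ⟨G, hG, rfl, h1, h2, h4⟩
            · rintro (rfl | h | h)
              · exact ⟨_, hc, rfl, zro_le X T, hcX, by
                  rw [zs_zro]; exact union_subset_union_right hTsub⟩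
              · exact hPmsub v h
              · obtain ⟨G, hG, rfl, h1, h2, h3, h4⟩ := (hD _).mp (Finset.mem_coe.mp h)
                refine ⟨G, hG, rfl, h1, ?_, h3⟩
                rintro rfl
                obtain ⟨e, he⟩ := hTne
                exact (Finset.disjoint_left.mp hTd he) (h2 he)
          have hwz : zs (zro X T) = zs w := by
            rw [zs_zro]
            ext e
            rw [mem_union, mem_zs, mem_zs]
            by_cases he : e ∈ T
            · simp [he, hwT e he]
            · rw [hwoff e he]
              simp only [he, or_false]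
              rw [← mem_zs, ← mem_zs, hz]
          have hsepcw : sep (zro X T) w = sep X ym := by
            ext e
            rw [mem_sep, mem_sep]
            by_cases he : e ∈ T
            · have h1 : e ∉ sep X ym := by rw [hT] at he; exact (mem_sdiff.mp he).2
              rw [mem_sep] at h1
              simp only [zro, he, if_true]
              constructor
              · rintro ⟨h2, _⟩; exact absurd rfl h2
              · intro h2; exact absurd h2 h1
            · simp only [zro, he, if_false]
              rw [hwoff e he, ← mem_sep, ← mem_sep]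
              constructor
              · intro h1
                by_contra h2
                exact he (by rw [hT]; exact mem_sdiff.mpr ⟨h1, h2⟩)
              · intro h1; exact hss.1 h1
          have hcw : zro X T ≠ w := by
            intro h
            have h1 : (sep X ym).Nonempty := sep_nonempty hzm.symm (fun h => hymX h.symm)
            rw [← hsepcw, ← h] at h1
            obtain ⟨e, he⟩ := h1
            rw [mem_sep] at he
            revert he
            cases zro X T e <;> decide
          have hunion : zs (zro X T) ∪ sep (zro X T) w = zs X ∪ sep X y := by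
            rw [hsepcw, zs_zro]
            ext e
            simp only [mem_union]
            constructor
            · rintro ((h | h) | h)
              · exact Or.inl h
              · exact Or.inr (hTsub h)
              · exact Or.inr (hss.1 h)
            · rintro (h | h)
              · exact Or.inl (Or.inl h)
              · by_cases h2 : e ∈ sep X ym
                · exact Or.inr h2
                · exact Or.inl (Or.inr (by rw [hT]; exact mem_sdiff.mpr ⟨h, h2⟩))
          have hACc : AC (dm Rl (Sum.inl (zro X T)) t)
              (C Rl (Pa L X (zs X ∪ sep X ym) ∪ (D : Set (Vt E))) (Sum.inl (zro X T)) t) := by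
            have h1 := ihα (zro X T) w t hc hw hwz hcw (by rw [hsepcw]; exact hcard3)
              (hPt _ (by rw [hPall]; left; rfl)) (by
                rintro v ⟨G, hG, rfl, h1, h2, h3⟩
                apply hPt
                rw [hunion] at h3
                refine ⟨G, hG, rfl, h1.trans (zro_le X T), ?_, h3⟩
                rintro rfl
                exact hcX ((zro_le _ _).antisymm h1))
            have h2 : C Rl (Pa L (zro X T) (zs (zro X T) ∪ sep (zro X T) w)) (Sum.inl (zro X T)) t =
                C Rl (Pa L X (zs X ∪ sep X ym) ∪ (D : Set (Vt E))) (Sum.inl (zro X T)) t := by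
              apply C_congr
              intro u hu
              have hlt := Val_inl_lt hu
              rw [hunion]
              constructor
              · intro hmem v hv
                obtain ⟨Y, hYL, rfl, h7, h8, h9⟩ := hmem v hv
                right
                apply Finset.mem_coe.mpr
                refine (hD _).mpr ⟨Y, hYL, rfl, h7.trans (zro_le X T), ?_, h9, h8⟩
                have := h7.zs
                rw [zs_zro] at this
                exact subset_union_right.trans this
              · intro hmem v hv
                rcases hmem _ hv with ⟨Y', hY', rfl, h11, h12, h13⟩ | h11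
                · exfalso
                  obtain ⟨h14, h15⟩ := hlt _ hv
                  have := h14.zs
                  rw [zs_zro] at this
                  exact hTnot _ (subset_union_right.trans this) h13
                · obtain ⟨Y', hY', rfl, h13, h14, h15, h16⟩ := (hD _).mp (Finset.mem_coe.mp h11)
                  exact ⟨Y', hY', rfl, le_zro h13 h14, h16, h15⟩
            rw [← h2]
            exact h1
          rw [hPall]
          exact (AC_right QRel_Rl rk_lt hcnot hACc).mpr hstep1
        · have hPeq : Pa L X (zs X ∪ sep X y) = Pa L X (zs X ∪ sep X ym) := by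
            ext v
            constructor
            · rintro ⟨G, hG, rfl, h1, h2, h3⟩
              rcases hPcase G hG h1 h3 with h4 | h4
              · exact absurd ⟨G, hG, h1, h4, h3⟩ hΔ
              · exact ⟨G, hG, rfl, h1, h2, h4⟩
            · exact hPmsub v
          rw [hPeq]
          exact hACm
    refine ⟨hα, ?_⟩
    intro X T G hX hc hTne hTd hpar hG hGc hGne hcard
    set c := zro X T with hcdef
    have hcX : le' c X := zro_le X T
    have hcXne : c ≠ X := zro_ne hTne hTd
    have hGX : le' G X := hGc.trans hcX
    have hzc : zs c = zs X ∪ T := zs_zro X T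
    -- the vector y
    let y := cmp (cmp G (-c)) X
    have hy : y ∈ L := hL.comp _ (hL.comp G hG _ (hL.neg c hc)) X hX
    have hyval : ∀ e, y e = if G e ≠ 0 then X e else if c e ≠ 0 then - X e else X e := by
      intro e
      simp only [y, cmp, Pi.neg_apply]
      by_cases h1 : G e = 0
      · by_cases h2 : c e = 0
        · simp [h1, h2]
        · have h3 : X e = c e := hcX e h2
          have h4 : - c e ≠ 0 := sign_ne_zero_neg h2
          simp [h1, h2, h3]
      · simp [h1, hGX e h1]
    have hzy : zs X = zs y := by
      ext e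
      rw [mem_zs, mem_zs, hyval]
      split_ifs <;> cases X e <;> decide
    have hsep : sep X y = zs G \ zs c := by
      ext e
      rw [mem_sep, mem_sdiff, mem_zs, mem_zs, hyval]
      by_cases h1 : G e = 0
      · by_cases h2 : c e = 0
        · simp only [h1, h2, ne_eq, not_true_eq_false, if_false, and_false, iff_false]
          cases X e <;> decide
        · have h3 : X e = c e := hcX e h2
          simp only [h1, h2, h3, ne_eq, not_true_eq_false, not_false_eq_true, if_false, if_true,
            and_self]
      · have h3 : X e ≠ 0 := by rw [hGX e h1]; exact h1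
        simp only [h1, ne_eq, not_false_eq_true, if_true, false_and, iff_false]
        revert h3
        cases X e <;> decide
    have hXy : X ≠ y := by
      intro h
      have h1 : (zs G \ zs c).Nonempty := by
        rw [Finset.sdiff_nonempty]; exact (hGc.zs_ssubset hGne).2
      rw [← hsep, ← h] at h1
      obtain ⟨e, he⟩ := h1
      rw [mem_sep] at he
      revert he
      cases X e <;> decide
    have hGzc : zs c ⊆ zs G := hGc.zs
    have hTG : T ⊆ zs G := by
      refine subset_trans ?_ hGzc
      rw [hzc]; exact subset_union_right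
    have hGltX : G ≠ X := by
      rintro rfl
      exact hcXne (hcX.antisymm hGc)
    -- structure of P(X,y)
    have hPchar : ∀ Y ∈ L, (le' Y X ∧ Y ≠ X ∧ zs Y ⊆ zs X ∪ sep X y) ↔
        (le' G Y ∧ G ≠ Y ∧ le' Y X ∧ Y ≠ X ∧ Disjoint T (zs Y)) := by
      intro Y hY
      rw [hsep]
      constructor
      · rintro ⟨h1, h2, h3⟩
        have hdis : Disjoint T (zs Y) := by
          rw [Finset.disjoint_left]
          intro e he h4
          rcases mem_union.mp (h3 h4) with h5 | h5
          · exact (Finset.disjoint_left.mp hTd he) h5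
          · rw [mem_sdiff, hzc, mem_union] at h5
            exact h5.2 (Or.inr he)
        have hGY : le' G Y := by
          intro e he
          have h4 : Y e ≠ 0 := by
            intro h5
            rcases mem_union.mp (h3 (mem_zs.mpr h5)) with h6 | h6
            · have := hGX e he
              rw [mem_zs.mp h6] at this
              exact he this.symm
            · exact he (mem_zs.mp (mem_sdiff.mp h6).1)
          rw [← h1 e h4, hGX e he]
        refine ⟨hGY, ?_, h1, h2, hdis⟩
        rintro rfl
        obtain ⟨e, he⟩ := hTne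
        exact (Finset.disjoint_left.mp hdis he) (hTG he)
      · rintro ⟨h1, h2, h3, h4, h5⟩
        refine ⟨h3, h4, ?_⟩
        intro e he
        by_cases h6 : e ∈ zs X
        · exact mem_union_left _ h6
        · apply mem_union_right
          rw [mem_sdiff, hzc, mem_union]
          refine ⟨h1.zs he, ?_⟩
          rintro (h7 | h7)
          · exact h6 h7
          · exact (Finset.disjoint_left.mp h5 h7) he
    have hAC0 : AC (dm Rl (Sum.inl X) (Sum.inl G))
        (C Rl (Pa L X (zs X ∪ sep X y)) (Sum.inl X) (Sum.inl G)) := by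
      refine hα X y (Sum.inl G) hX hy hzy hXy (by rw [hsep]; exact hcard) ⟨hGX, hGltX⟩ ?_
      rintro v ⟨Y, hY, rfl, h1⟩
      have h2 := (hPchar Y hY).mp h1
      exact ⟨h2.1, h2.2.1⟩
    -- the elements to be added
    let D : Finset (Vt E) := (univ.filter (fun Y : E → SignType =>
      Y ∈ L ∧ le' G Y ∧ G ≠ Y ∧ le' Y c ∧ Y ≠ c)).image Sum.inl
    have hD : ∀ v, v ∈ D ↔ ∃ Y ∈ L, v = Sum.inl Y ∧ le' G Y ∧ G ≠ Y ∧ le' Y c ∧ Y ≠ c := by
      intro v
      simp only [D, mem_image, mem_filter, mem_univ, true_and]
      constructor
      · rintro ⟨G, ⟨h1, h2⟩, rfl⟩; exact ⟨G, h1, rfl, h2⟩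
      · rintro ⟨G, h1, rfl, h2⟩; exact ⟨G, ⟨h1, h2⟩, rfl⟩
    have hTc : ∀ Y : E → SignType, le' Y c → ¬ Disjoint T (zs Y) := by
      intro Y h1 h2
      obtain ⟨e, he⟩ := hTne
      refine (Finset.disjoint_left.mp h2 he) (h1.zs ?_)
      rw [hzc]; exact mem_union_right _ he
    have hDW : ∀ v ∈ D, v ∉ Pa L X (zs X ∪ sep X y) := by
      intro v hv
      obtain ⟨Y, hY, rfl, h1, h2, h3, h4⟩ := (hD v).mp hv
      rintro ⟨Y', hY', h5, h6⟩
      cases h5
      exact hTc Y h3 ((hPchar Y hY').mp h6).2.2.2.2
    -- elements strictly between G and X different from c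
    have hcase : ∀ Y ∈ L, le' G Y → G ≠ Y → le' Y X → Y ≠ X → Y ≠ c →
        (Sum.inl Y : Vt E) ∈ Pa L X (zs X ∪ sep X y) ∨ (le' Y c ∧ Y ≠ c) := by
      intro Y hY h1 h2 h3 h4 h5
      rcases hpar Y hY h3.zs with h6 | h6
      · right; exact ⟨le_zro h3 h6, h5⟩
      · left; exact ⟨Y, hY, rfl, (hPchar Y hY).mpr ⟨h1, h2, h3, h4, h6⟩⟩
    have hstep := (add_left (s := Sum.inl X) (t := Sum.inl G) (D := D) QRel_Rl rk_lt hDW ?_).1
    · have hfin : C Rl (Pg L X c G) (Sum.inl X) (Sum.inl G) =
          C Rl (Pa L X (zs X ∪ sep X y) ∪ (D : Set (Vt E))) (Sum.inl X) (Sum.inl G) := by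
        apply C_congr
        intro u hu
        constructor
        · intro hmem v hv
          obtain ⟨Y, hY, rfl, h1, h2, h3, h4, h5⟩ := hmem v hv
          rcases hcase Y hY h1 h2 h3 h4 h5 with h6 | h6
          · exact Or.inl h6
          · exact Or.inr (Finset.mem_coe.mpr ((hD _).mpr ⟨Y, hY, rfl, h1, h2, h6⟩))
        · intro hmem v hv
          rcases hmem v hv with ⟨Y, hY, rfl, h1⟩ | h1
          · have h2 := (hPchar Y hY).mp h1
            refine ⟨Y, hY, rfl, h2.1, h2.2.1, h2.2.2.1, h2.2.2.2.1, ?_⟩
            rintro rfl
            exact hTc _ (le'.refl _) h2.2.2.2.2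
          · obtain ⟨Y, hY, rfl, h2, h3, h4, h5⟩ := (hD _).mp (Finset.mem_coe.mp h1)
            refine ⟨Y, hY, rfl, h2, h3, h4.trans hcX, ?_, h5⟩
            rintro rfl
            exact hcXne (hcX.antisymm h4)
      rw [hfin]
      exact hstep.mpr hAC0
    · intro v hv
      obtain ⟨Y, hY, rfl, h1, h2, h3, h4⟩ := (hD v).mp hv
      have h5 := ihγ X T Y hX hc hTne hTd hpar hY h3 h4 (by
        have h6 : zs Y \ zs c ⊂ zs G \ zs c := by
          obtain ⟨h7, h8⟩ := h1.zs_ssubset h2
          refine ⟨sdiff_subset_sdiff h7 subset_rfl, ?_⟩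
          intro h9
          apply h8
          intro e he
          by_cases h10 : e ∈ zs c
          · exact h3.zs h10
          · exact (mem_sdiff.mp (h9 (mem_sdiff.mpr ⟨he, h10⟩))).1
        have := card_lt_card h6
        change (zs Y \ zs c).card ≤ N
        omega)
      have h6 : C Rl (Pg L X c Y) (Sum.inl X) (Sum.inl Y) =
          C Rl (Pa L X (zs X ∪ sep X y) ∪ {u | u ∈ D ∧ rk u < rk (Sum.inl Y : Vt E)})
            (Sum.inl X) (Sum.inl Y) := by
        apply C_congr
        intro u hu
        have hlt := Val_inl_lt hu
        have hgt := (Val_inl_gt hu).1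
        constructor
        · intro hmem v hv
          obtain ⟨Z, hZ, rfl, h7, h8, h9, h10, h11⟩ := hmem v hv
          have h12 : le' G Z := h1.trans h7
          have h13 : G ≠ Z := by
            rintro rfl
            exact h2 (h1.antisymm h7)
          rcases hcase Z hZ h12 h13 h9 h10 h11 with h14 | h14
          · exact Or.inl h14
          · right
            exact ⟨(hD _).mpr ⟨Z, hZ, rfl, h12, h13, h14⟩, card_lt_card (h7.zs_ssubset h8)⟩
        · intro hmem v hv
          obtain ⟨Z, rfl, h7, h8⟩ := hgt v hv
          obtain ⟨h9, h10⟩ := hlt Z hv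
          rcases hmem _ hv with ⟨Z', hZ', e1, h11⟩ | ⟨h11, h12⟩
          · cases e1
            refine ⟨Z, hZ', rfl, h7, h8, h9, h10, ?_⟩
            rintro rfl
            exact hTc _ (le'.refl _) ((hPchar _ hZ').mp h11).2.2.2.2
          · obtain ⟨Z', hZ', e1, h13, h14, h15, h16⟩ := (hD _).mp h11
            cases e1
            exact ⟨Z, hZ', rfl, h7, h8, h9, h10, h16⟩
      rw [← h6]
      exact h5

end Agsec

end Pool.Agent.Helper753_MagHom
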