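import Mathlib

/-!
# Elementary homological algebra of graded families of submodules

`M : ℕ → Submodule ℤ A` together with an endomorphism `d` of the ambient module `A` (mapping
`M (k+1)` to `M k` and killing `M 0`) is used as a chain complex.
-/

set_option autoImplicit false

namespace Pool.Agent.Helper753_MagHom

section Alg

variable {A : Type*} [AddCommGroup A]

/-- `d` makes `M` a complex. -/
structure IsCx (d : A →ₗ[ℤ] A) (M : ℕ → Submodule ℤ A) : Prop where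
  map : ∀ k, ∀ x ∈ M (k + 1), d x ∈ M k
  zero : ∀ x ∈ M 0, d x = 0
  sq : ∀ k, ∀ x ∈ M k, d (d x) = 0

/-- exactness everywhere (degree `0` included) -/
def AC (d : A →ₗ[ℤ] A) (M : ℕ → Submodule ℤ A) : Prop :=
  ∀ k, ∀ x ∈ M k, d x = 0 → ∃ y ∈ M (k + 1), d y = x

/-- the homology is `ℤ` in degree `k` and `0` in the other degrees -/
def SPH (d : A →ₗ[ℤ] A) (M : ℕ → Submodule ℤ A) (k : ℕ) : Prop :=
  ∃ g ∈ M k, d g = 0 ∧
    (∀ x ∈ M k, d x = 0 → ∃ n : ℤ, ∃ y ∈ M (k + 1), x = n • g + d y) ∧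
    (∀ n : ℤ, ∀ y ∈ M (k + 1), n • g = d y → n = 0) ∧
    (∀ j, j ≠ k → ∀ x ∈ M j, d x = 0 → ∃ y ∈ M (j + 1), d y = x)

/-- the quotient complex `M / N` is exact -/
def Qac (d : A →ₗ[ℤ] A) (M N : ℕ → Submodule ℤ A) : Prop :=
  ∀ k, ∀ x ∈ M k, (∀ j, k = j + 1 → d x ∈ N j) → ∃ y ∈ M (k + 1), x - d y ∈ N k

variable {d : A →ₗ[ℤ] A} {M N : ℕ → Submodule ℤ A}

lemma IsCx.dzero (hM : IsCx d M) {k : ℕ} {x : A} (hx : x ∈ M k) : d (d x) = 0 := hM.sq k x hx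

lemma AC.of_quot (hM : IsCx d M) (hNM : ∀ k, N k ≤ M k) (hQ : Qac d M N)
    (h : AC d N) : AC d M := by
  intro k x hx hdx
  obtain ⟨y, hy, hxy⟩ := hQ k x hx (fun j _ => by rw [hdx]; exact (N j).zero_mem)
  obtain ⟨z, hz, hdz⟩ := h k _ hxy (by rw [map_sub, hdx, hM.sq _ _ hy, sub_zero])
  refine ⟨y + z, (M (k+1)).add_mem hy (hNM _ hz), ?_⟩
  rw [map_add, hdz]; abel

lemma AC.to_sub (hM : IsCx d M) (hNM : ∀ k, N k ≤ M k) (hQ : Qac d M N)
    (h : AC d M) : AC d N := by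
  intro k x hx hdx
  obtain ⟨y, hy, hdy⟩ := h k x (hNM _ hx) hdx
  obtain ⟨z, hz, hyz⟩ := hQ (k+1) y hy (fun j hj => by
    have : k = j := by omega
    subst this; rw [hdy]; exact hx)
  exact ⟨y - d z, hyz, by rw [map_sub, hdy, hM.sq _ _ hz, sub_zero]⟩

lemma AC.quot_iff (hM : IsCx d M) (hNM : ∀ k, N k ≤ M k) (hQ : Qac d M N) :
    AC d M ↔ AC d N := ⟨AC.to_sub hM hNM hQ, AC.of_quot hM hNM hQ⟩

lemma SPH.of_quot (hM : IsCx d M) (hNM : ∀ k, N k ≤ M k) (hQ : Qac d M N) {k : ℕ}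
    (h : SPH d N k) : SPH d M k := by
  obtain ⟨g, hg, hdg, h1, h2, h3⟩ := h
  refine ⟨g, hNM _ hg, hdg, ?_, ?_, ?_⟩
  · intro x hx hdx
    obtain ⟨y, hy, hxy⟩ := hQ k x hx (fun j _ => by rw [hdx]; exact (N j).zero_mem)
    obtain ⟨n, z, hz, e⟩ := h1 _ hxy (by rw [map_sub, hdx, hM.sq _ _ hy, sub_zero])
    refine ⟨n, y + z, (M (k+1)).add_mem hy (hNM _ hz), ?_⟩
    rw [map_add]
    have : x = (x - d y) + d y := by abel
    rw [this, e]; abel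
  · intro n y hy e
    obtain ⟨z, hz, hyz⟩ := hQ (k+1) y hy (fun j hj => by
      have : k = j := by omega
      subst this; rw [← e]; exact (N k).smul_mem _ hg)
    refine h2 n (y - d z) hyz ?_
    rw [map_sub, hM.sq _ _ hz, sub_zero, e]
  · intro j hj x hx hdx
    obtain ⟨y, hy, hxy⟩ := hQ j x hx (fun i _ => by rw [hdx]; exact (N i).zero_mem)
    obtain ⟨z, hz, hdz⟩ := h3 j hj _ hxy (by rw [map_sub, hdx, hM.sq _ _ hy, sub_zero])
    refine ⟨y + z, (M (j+1)).add_mem hy (hNM _ hz), ?_⟩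
    rw [map_add, hdz]; abel

lemma SPH.to_sub (hM : IsCx d M) (hNM : ∀ k, N k ≤ M k) (hQ : Qac d M N) {k : ℕ}
    (h : SPH d M k) : SPH d N k := by
  obtain ⟨g, hg, hdg, h1, h2, h3⟩ := h
  obtain ⟨w, hw, hgw⟩ := hQ k g hg (fun j _ => by rw [hdg]; exact (N j).zero_mem)
  refine ⟨g - d w, hgw, by rw [map_sub, hdg, hM.sq _ _ hw, sub_zero], ?_, ?_, ?_⟩
  · intro x hx hdx
    obtain ⟨n, y, hy, e⟩ := h1 x (hNM _ hx) hdx
    obtain ⟨z, hz, hyz⟩ := hQ (k+1) (y + n • w) ((M (k+1)).add_mem hy ((M (k+1)).smul_mem _ hw))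
      (fun j hj => by
        have : k = j := by omega
        subst this
        have : d (y + n • w) = x - n • (g - d w) := by
          rw [map_add, map_smul, e, smul_sub]; abel
        rw [this]
        exact (N k).sub_mem hx ((N k).smul_mem _ hgw))
    refine ⟨n, (y + n • w) - d z, hyz, ?_⟩
    rw [map_sub, hM.sq _ _ hz, sub_zero, map_add, map_smul, e, smul_sub]; abel
  · intro n y hy e
    refine h2 n (y + n • w) ((M (k+1)).add_mem (hNM _ hy) ((M (k+1)).smul_mem _ hw)) ?_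
    rw [map_add, map_smul, ← e, smul_sub]; abel
  · intro j hj x hx hdx
    obtain ⟨y, hy, hdy⟩ := h3 j hj x (hNM _ hx) hdx
    obtain ⟨z, hz, hyz⟩ := hQ (j+1) y hy (fun i hi => by
      have : j = i := by omega
      subst this; rw [hdy]; exact hx)
    exact ⟨y - d z, hyz, by rw [map_sub, hdy, hM.sq _ _ hz, sub_zero]⟩

/-- If `M` is exact, then the homology of `N` is the homology of the quotient complex `(Q, dQ)`,
shifted by one. -/
lemma SPH.of_quot_AC (hM : IsCx d M) (hNM : ∀ k, N k ≤ M k) {Q : ℕ → Submodule ℤ A}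
    {dQ π : A →ₗ[ℤ] A} (hπM : ∀ k, ∀ x ∈ M k, π x ∈ Q k) (hker : ∀ k, ∀ x ∈ M k, π x = 0 → x ∈ N k)
    (hQM : ∀ k, Q k ≤ M k) (hπQ : ∀ k, ∀ x ∈ Q k, π x = x) (hπN : ∀ k, ∀ x ∈ N k, π x = 0)
    (hd : ∀ k, ∀ x ∈ M k, π (d x) = dQ (π x)) (hAC : AC d M) {k : ℕ} (h : SPH dQ Q (k + 1)) :
    SPH d N k := by
  obtain ⟨g, hg, hdg, h1, h2, h3⟩ := h
  have hgM := hQM _ hg
  have hdgN : d g ∈ N k := hker k _ (hM.map k g hgM) (by
    rw [hd _ g hgM, hπQ _ g hg, hdg])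
  refine ⟨d g, hdgN, hM.sq _ _ hgM, ?_, ?_, ?_⟩
  · intro x hx hdx
    obtain ⟨y, hy, hdy⟩ := hAC k x (hNM _ hx) hdx
    have e1 : dQ (π y) = 0 := by rw [← hd _ y hy, hdy, hπN _ x hx]
    obtain ⟨n, z, hz, e⟩ := h1 (π y) (hπM _ _ hy) e1
    have hzM := hQM _ hz
    refine ⟨n, y - n • g - d z, hker _ _ ?_ ?_, ?_⟩
    · exact (M (k+1)).sub_mem ((M (k+1)).sub_mem hy ((M (k+1)).smul_mem _ hgM)) (hM.map _ _ hzM)
    · rw [map_sub, map_sub, map_smul, e, hπQ _ g hg, hd _ z hzM, hπQ _ z hz]; abel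
    · rw [map_sub, map_sub, hM.sq _ _ hzM, sub_zero, map_smul, hdy]; abel
  · intro n w hw e
    obtain ⟨y, hy, hdy⟩ := hAC (k+1) (n • g - w)
      ((M (k+1)).sub_mem ((M (k+1)).smul_mem _ hgM) (hNM _ hw)) (by
        rw [map_sub, map_smul, e, sub_self])
    refine h2 n (π y) (hπM _ _ hy) ?_
    rw [← hd _ y hy, hdy, map_sub, map_smul, hπQ _ g hg, hπN _ w hw, sub_zero]
  · intro j hj x hx hdx
    obtain ⟨y, hy, hdy⟩ := hAC j x (hNM _ hx) hdx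
    have e1 : dQ (π y) = 0 := by rw [← hd _ y hy, hdy, hπN _ x hx]
    obtain ⟨z, hz, e⟩ := h3 (j+1) (by omega) (π y) (hπM _ _ hy) e1
    have hzM := hQM _ hz
    refine ⟨y - d z, hker _ _ ?_ ?_, ?_⟩
    · exact (M (j+1)).sub_mem hy (hM.map _ _ hzM)
    · rw [map_sub, hd _ z hzM, hπQ _ z hz, e, sub_self]
    · rw [map_sub, hM.sq _ _ hzM, sub_zero, hdy]

lemma AC.of_quot_AC (hM : IsCx d M) (hNM : ∀ k, N k ≤ M k) {Q : ℕ → Submodule ℤ A}
    {dQ π : A →ₗ[ℤ] A} (hπM : ∀ k, ∀ x ∈ M k, π x ∈ Q k) (hker : ∀ k, ∀ x ∈ M k, π x = 0 → x ∈ N k)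
    (hQM : ∀ k, Q k ≤ M k) (hπQ : ∀ k, ∀ x ∈ Q k, π x = x) (hπN : ∀ k, ∀ x ∈ N k, π x = 0)
    (hd : ∀ k, ∀ x ∈ M k, π (d x) = dQ (π x)) (hAC : AC d M) (h : AC dQ Q) :
    AC d N := by
  intro k x hx hdx
  obtain ⟨y, hy, hdy⟩ := hAC k x (hNM _ hx) hdx
  have e1 : dQ (π y) = 0 := by rw [← hd _ y hy, hdy, hπN _ x hx]
  obtain ⟨z, hz, e⟩ := h (k+1) (π y) (hπM _ _ hy) e1
  have hzM := hQM _ hz
  refine ⟨y - d z, hker _ _ ?_ ?_, ?_⟩
  · exact (M (k+1)).sub_mem hy (hM.map _ _ hzM)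
  · rw [map_sub, hd _ z hzM, hπQ _ z hz, e, sub_self]
  · rw [map_sub, hM.sq _ _ hzM, sub_zero, hdy]

/-- `AC` or `SPH` for some degree: what is needed for torsion-freeness -/
lemma tf_of_AC_or_SPH (h : AC d M ∨ ∃ k, SPH d M k) (k : ℕ) (n : ℤ) (hn : n ≠ 0) (x : A)
    (hx : x ∈ M k) (hdx : d x = 0) (y : A) (hy : y ∈ M (k + 1)) (e : n • x = d y) :
    ∃ z ∈ M (k + 1), d z = x := by
  rcases h with h | ⟨j, g, hg, hdg, h1, h2, h3⟩
  · exact h k x hx hdx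
  · by_cases hk : k = j
    · subst hk
      obtain ⟨a, z, hz, ez⟩ := h1 x hx hdx
      have : (n * a) • g = d (y - n • z) := by
        rw [map_sub, ← e, map_smul, ez, smul_add, mul_smul]; abel
      have h0 := h2 (n * a) (y - n • z) ((M (k+1)).sub_mem hy ((M (k+1)).smul_mem _ hz)) this
      have ha : a = 0 := by
        rcases mul_eq_zero.mp h0 with h | h
        · exact absurd h hn
        · exact h
      exact ⟨z, hz, by rw [ez, ha, zero_smul, zero_add]⟩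
    · exact h3 k hk x hx hdx

end Alg

end Pool.Agent.Helper753_MagHom
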