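import Pool.Agent.Helper753_MagHom.Defs2
set_option autoImplicit false
open Finset
namespace Pool.Agent.Helper753_MagHom

/-! ## signs of real numbers -/

theorem arrS_sign_eq {u v : ℝ} (h : 0 < u * v) : SignType.sign u = SignType.sign v := by
  rcases mul_pos_iff.1 h with ⟨h1, h2⟩ | ⟨h1, h2⟩
  · rw [sign_pos h1, sign_pos h2]
  · rw [sign_neg h1, sign_neg h2]

theorem arrS_sign_ne {u v : ℝ} (hu : u ≠ 0) (hv : v ≠ 0) (h : SignType.sign u ≠ SignType.sign v) : u * v < 0 := by
  by_contra h1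
  push Not at h1
  rcases lt_or_eq_of_le h1 with h2 | h2
  · exact h (arrS_sign_eq h2)
  · exact mul_ne_zero hu hv h2.symm

theorem arrS_sign_add {u v : ℝ} (hu : u ≠ 0) (h : |v| < |u|) : SignType.sign (u + v) = SignType.sign u := by
  apply arrS_sign_eq
  have h1 := abs_lt.1 h
  rcases lt_or_gt_of_ne hu with h2 | h2
  · rw [abs_of_neg h2] at h1
    nlinarith [h1.1, h1.2]
  · rw [abs_of_pos h2] at h1
    nlinarith [h1.1, h1.2]

theorem arrS_sign_zero {u : ℝ} : SignType.sign u = 0 ↔ u = 0 := sign_eq_zero_iff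

theorem arrS_sign_mul_pos {c u : ℝ} (hc : 0 < c) : SignType.sign (c * u) = SignType.sign u := by
  rw [sign_mul, sign_pos hc, one_mul]

/-- Small perturbations. -/
theorem arrS_small {M ι : Type} [AddCommGroup M] [Module ℝ M] [Finite ι] (φ : ι → (M →ₗ[ℝ] ℝ)) (x y : M) :
    ∃ ε : ℝ, 0 < ε ∧ ∀ i, φ i x ≠ 0 → SignType.sign (φ i (x + ε • y)) = SignType.sign (φ i x) := by
  have := Fintype.ofFinite ι
  classical
  have h1 : ∀ s : Finset ι, ∃ ε : ℝ, 0 < ε ∧ ∀ i ∈ s, φ i x ≠ 0 → ε * |φ i y| < |φ i x| := by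
    intro s
    induction s using Finset.induction_on with
    | empty => exact ⟨1, one_pos, fun i hi => absurd hi (Finset.notMem_empty i)⟩
    | insert j s hj ih =>
      obtain ⟨ε, h1, h2⟩ := ih
      by_cases hx : φ j x = 0
      · refine ⟨ε, h1, fun i hi hi' => ?_⟩
        rcases Finset.mem_insert.1 hi with rfl | hi
        · exact absurd hx hi'
        · exact h2 i hi hi'
      · have hx' : 0 < |φ j x| := abs_pos.2 hx
        have hy' : 0 ≤ |φ j y| := abs_nonneg _
        refine ⟨min ε (|φ j x| / (|φ j y| + 1)), lt_min h1 (by positivity), fun i hi hi' => ?_⟩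
        rcases Finset.mem_insert.1 hi with rfl | hi
        · calc min ε (|φ i x| / (|φ i y| + 1)) * |φ i y| ≤ (|φ i x| / (|φ i y| + 1)) * |φ i y| :=
                mul_le_mul_of_nonneg_right (min_le_right _ _) hy'
            _ < (|φ i x| / (|φ i y| + 1)) * (|φ i y| + 1) := by
                apply mul_lt_mul_of_pos_left (by linarith) (by positivity)
            _ = |φ i x| := by field_simp
        · exact lt_of_le_of_lt (mul_le_mul_of_nonneg_right (min_le_left _ _) (abs_nonneg _)) (h2 i hi hi')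
  obtain ⟨ε, h2, h3⟩ := h1 Finset.univ
  refine ⟨ε, h2, fun i hi => ?_⟩
  rw [map_add, map_smul, smul_eq_mul]
  apply arrS_sign_add hi
  rw [abs_mul, abs_of_pos h2]
  exact h3 i (Finset.mem_univ i) hi

theorem OM_signs {M ι : Type} [AddCommGroup M] [Module ℝ M] [Finite ι]
    (φ : ι → (M →ₗ[ℝ] ℝ)) : OM (signs φ) where
  neg := by
    rintro _ ⟨x, rfl⟩
    refine ⟨-x, ?_⟩
    funext i
    change SignType.sign (φ i (-x)) = -SignType.sign (φ i x)
    rw [map_neg, Left.sign_neg]
  comp := by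
    rintro _ ⟨x, rfl⟩ _ ⟨y, rfl⟩
    obtain ⟨ε, h1, h2⟩ := arrS_small φ x y
    refine ⟨x + ε • y, ?_⟩
    funext i
    change SignType.sign (φ i (x + ε • y)) =
      if SignType.sign (φ i x) = 0 then SignType.sign (φ i y) else SignType.sign (φ i x)
    split_ifs with h
    · rw [arrS_sign_zero] at h
      rw [map_add, h, zero_add, map_smul, smul_eq_mul, arrS_sign_mul_pos h1]
    · exact h2 i fun h' => h (arrS_sign_zero.2 h')
  elim := by
    rintro _ ⟨x, rfl⟩ _ ⟨y, rfl⟩ e he he'
    change SignType.sign (φ e x) ≠ 0 at he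
    change SignType.sign (φ e y) = -SignType.sign (φ e x) at he'
    have hx : φ e x ≠ 0 := fun h => he (arrS_sign_zero.2 h)
    have hy : φ e y ≠ 0 := by
      intro h
      rw [arrS_sign_zero.2 h] at he'
      apply he
      have := congrArg (fun s => -s) he'
      simpa using this.symm
    have hax : 0 < |φ e x| := abs_pos.2 hx
    have hay : 0 < |φ e y| := abs_pos.2 hy
    have key : ∀ f, SignType.sign (φ f (|φ e y| • x + |φ e x| • y)) =
        SignType.sign (|φ e y| * φ f x + |φ e x| * φ f y) := by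
      intro f; rw [map_add, map_smul, map_smul, smul_eq_mul, smul_eq_mul]
    refine ⟨_, ⟨|φ e y| • x + |φ e x| • y, rfl⟩, ?_, ?_⟩
    · change SignType.sign (φ e (|φ e y| • x + |φ e x| • y)) = 0
      rw [key, arrS_sign_zero]
      rcases lt_or_gt_of_ne hx with h1 | h1
      · have h2 : 0 < φ e y := by
          rw [sign_neg h1] at he'
          have h3 : SignType.sign (φ e y) = 1 := by simpa using he'
          exact sign_eq_one_iff.1 h3
        rw [abs_of_neg h1, abs_of_pos h2]; ring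
      · have h2 : φ e y < 0 := by
          rw [sign_pos h1] at he'
          exact sign_eq_neg_one_iff.1 he'
        rw [abs_of_pos h1, abs_of_neg h2]; ring
    · intro f hf
      change SignType.sign (φ f (|φ e y| • x + |φ e x| • y)) =
        if SignType.sign (φ f x) = 0 then SignType.sign (φ f y) else SignType.sign (φ f x)
      rw [key]
      by_cases h1 : φ f x = 0
      · rw [if_pos (arrS_sign_zero.2 h1), h1, mul_zero, zero_add, arrS_sign_mul_pos hax]
      · rw [if_neg fun h => h1 (arrS_sign_zero.1 h)]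
        by_cases h2 : φ f y = 0
        · rw [h2, mul_zero, add_zero, arrS_sign_mul_pos hay]
        · have h3 : ¬ φ f x * φ f y < 0 := by
            intro h3
            apply hf
            refine ⟨fun h => h1 (arrS_sign_zero.1 h), ?_⟩
            change SignType.sign (φ f y) = -SignType.sign (φ f x)
            rcases mul_neg_iff.1 h3 with ⟨h4, h5⟩ | ⟨h4, h5⟩
            · rw [sign_pos h4, sign_neg h5]
            · rw [sign_neg h4, sign_pos h5]; rfl
          have h4 : 0 < φ f x * φ f y := lt_of_le_of_ne (not_lt.1 h3) (mul_ne_zero h1 h2).symm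
          apply arrS_sign_eq
          have h5 : 0 < φ f x * φ f x := mul_self_pos.2 h1
          have h6 : (|φ e y| * φ f x + |φ e x| * φ f y) * φ f x =
              |φ e y| * (φ f x * φ f x) + |φ e x| * (φ f x * φ f y) := by ring
          rw [h6]; positivity

theorem exists_functionals {d : ℕ} (A : Arrangement d) :
    ∃ φ : A.hyps → ((Fin d → ℝ) →ₗ[ℝ] ℝ), ∀ H, LinearMap.ker (φ H) = H.1 := by
  have h : ∀ H : A.hyps, ∃ f : (Fin d → ℝ) →ₗ[ℝ] ℝ, LinearMap.ker f = H.1 := by
    intro H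
    have h1 := A.codim_one H.1 H.2
    have h2 := Submodule.finrank_quotient_add_finrank H.1
    have h3 : Module.finrank ℝ ((Fin d → ℝ) ⧸ H.1) = Module.finrank ℝ ℝ := by
      rw [Module.finrank_self]
      have h4 : Module.finrank ℝ (Fin d → ℝ) = d := by simp
      omega
    let e := LinearEquiv.ofFinrankEq _ _ h3
    refine ⟨e.toLinearMap.comp H.1.mkQ, ?_⟩
    ext x
    simp
  choose f hf using h
  exact ⟨f, hf⟩

section

variable {d : ℕ} (A : Arrangement d) (φ : A.hyps → ((Fin d → ℝ) →ₗ[ℝ] ℝ))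

/-- The sign vector of a point. -/
noncomputable def arrS_sv (x : A.Compl) : A.hyps → SignType := fun e => SignType.sign (φ e x.1)

variable (hφ : ∀ H, LinearMap.ker (φ H) = H.1)

include hφ

theorem arrS_ne (x : A.Compl) (e : A.hyps) : φ e x.1 ≠ 0 := by
  intro h
  refine x.2 e.1 e.2 ?_
  rw [← hφ e]; exact h

theorem arrS_cont : Continuous (arrS_sv A φ) := by
  refine continuous_pi fun e => ?_
  rw [continuous_iff_continuousAt]
  intro x
  have h1 : ContinuousAt (SignType.sign : ℝ → SignType) (φ e x.1) := continuousAt_sign_of_ne_zero (arrS_ne A φ hφ x e)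
  have h2 : Continuous fun x : A.Compl => φ e x.1 :=
    (LinearMap.continuous_of_finiteDimensional (φ e)).comp continuous_subtype_val
  exact ContinuousAt.comp (f := fun x : A.Compl => φ e x.1) h1 h2.continuousAt

/-- The map of the statement. -/
noncomputable def arrS_sigma : A.Chamber → (A.hyps → SignType) :=
  (arrS_cont A φ hφ).connectedComponentsLift

theorem arrS_sigma_apply (x : A.Compl) : arrS_sigma A φ hφ (A.chamber x) = arrS_sv A φ x :=
  (arrS_cont A φ hφ).connectedComponentsLift_apply_coe x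

theorem arrS_inj (x y : A.Compl) (h : arrS_sv A φ x = arrS_sv A φ y) : A.chamber x = A.chamber y := by
  have hin : ∀ t : unitInterval, ∀ H ∈ A.hyps, (1 - (t : ℝ)) • x.1 + (t : ℝ) • y.1 ∉ H := by
    intro t H hH hmem
    have h1 : φ ⟨H, hH⟩ ((1 - (t : ℝ)) • x.1 + (t : ℝ) • y.1) = 0 := by
      have : (1 - (t : ℝ)) • x.1 + (t : ℝ) • y.1 ∈ LinearMap.ker (φ ⟨H, hH⟩) := by rw [hφ]; exact hmem
      exact this
    rw [map_add, map_smul, map_smul, smul_eq_mul, smul_eq_mul] at h1
    have hx := arrS_ne A φ hφ x ⟨H, hH⟩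
    have hy := arrS_ne A φ hφ y ⟨H, hH⟩
    have hs : SignType.sign (φ ⟨H, hH⟩ x.1) = SignType.sign (φ ⟨H, hH⟩ y.1) := congrFun h ⟨H, hH⟩
    have ht0 : 0 ≤ (t : ℝ) := t.2.1
    have ht1 : 0 ≤ 1 - (t : ℝ) := by linarith [t.2.2]
    rcases lt_or_gt_of_ne hx with h2 | h2
    · rw [sign_neg h2] at hs
      have h3 : φ ⟨H, hH⟩ y.1 < 0 := sign_eq_neg_one_iff.1 hs.symm
      have e1 := mul_nonpos_of_nonneg_of_nonpos ht1 h2.le
      have e2 := mul_nonpos_of_nonneg_of_nonpos ht0 h3.le
      have e3 : (1 - (t : ℝ)) * φ ⟨H, hH⟩ x.1 = 0 := by linarith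
      have e4 : (t : ℝ) * φ ⟨H, hH⟩ y.1 = 0 := by linarith
      have e5 := (mul_eq_zero.1 e3).resolve_right h2.ne
      have e6 := (mul_eq_zero.1 e4).resolve_right h3.ne
      linarith
    · rw [sign_pos h2] at hs
      have h3 : 0 < φ ⟨H, hH⟩ y.1 := sign_eq_one_iff.1 hs.symm
      have e1 := mul_nonneg ht1 h2.le
      have e2 := mul_nonneg ht0 h3.le
      have e3 : (1 - (t : ℝ)) * φ ⟨H, hH⟩ x.1 = 0 := by linarith
      have e4 : (t : ℝ) * φ ⟨H, hH⟩ y.1 = 0 := by linarith
      have e5 := (mul_eq_zero.1 e3).resolve_right h2.ne'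
      have e6 := (mul_eq_zero.1 e4).resolve_right h3.ne'
      linarith
  let f : unitInterval → A.Compl := fun t => ⟨(1 - (t : ℝ)) • x.1 + (t : ℝ) • y.1, hin t⟩
  have hf : Continuous f := by
    refine Continuous.subtype_mk ?_ _
    fun_prop
  have h0 : f 0 = x := by
    apply Subtype.ext
    change (1 - ((0 : unitInterval) : ℝ)) • x.1 + ((0 : unitInterval) : ℝ) • y.1 = x.1
    simp
  have h1 : f 1 = y := by
    apply Subtype.ext
    change (1 - ((1 : unitInterval) : ℝ)) • x.1 + ((1 : unitInterval) : ℝ) • y.1 = y.1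
    simp
  have h2 : IsPreconnected (Set.range f) := isPreconnected_range hf
  have h3 : y ∈ connectedComponent x := h2.subset_connectedComponent ⟨0, h0⟩ ⟨1, h1⟩
  exact (ConnectedComponents.coe_eq_coe'.2 h3).symm

theorem arrS_sep (H : A.hyps) (x y : A.Compl) :
    A.Separates H.1 (A.chamber x) (A.chamber y) ↔ arrS_sv A φ x H ≠ arrS_sv A φ y H := by
  have hx := arrS_ne A φ hφ x H
  have hy := arrS_ne A φ hφ y H
  constructor
  · rintro ⟨f, hf, h1, h2⟩ h3
    have h4 := h1 x rfl
    have h5 := h2 y rfl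
    have h6 : |φ H y.1| • x.1 - |φ H x.1| • y.1 ∈ LinearMap.ker (φ H) := by
      change φ H (|φ H y.1| • x.1 - |φ H x.1| • y.1) = 0
      rw [map_sub, map_smul, map_smul, smul_eq_mul, smul_eq_mul]
      change SignType.sign (φ H x.1) = SignType.sign (φ H y.1) at h3
      rcases lt_or_gt_of_ne hx with h7 | h7
      · rw [sign_neg h7] at h3
        have h8 : φ H y.1 < 0 := sign_eq_neg_one_iff.1 h3.symm
        rw [abs_of_neg h7, abs_of_neg h8]; ring
      · rw [sign_pos h7] at h3
        have h8 : 0 < φ H y.1 := sign_eq_one_iff.1 h3.symm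
        rw [abs_of_pos h7, abs_of_pos h8]; ring
    rw [hφ, ← hf] at h6
    have h7 : f (|φ H y.1| • x.1 - |φ H x.1| • y.1) = 0 := h6
    rw [map_sub, map_smul, map_smul, smul_eq_mul, smul_eq_mul] at h7
    have hax : 0 < |φ H x.1| := abs_pos.2 hx
    have hay : 0 < |φ H y.1| := abs_pos.2 hy
    nlinarith [mul_neg_of_pos_of_neg hay h4, mul_pos hax h5]
  · intro h
    have hlt := arrS_sign_ne hx hy h
    have hC : ∀ z : A.Compl, A.chamber z = A.chamber x → arrS_sv A φ z H = arrS_sv A φ x H := by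
      intro z hz
      rw [← arrS_sigma_apply A φ hφ z, hz, arrS_sigma_apply]
    have hD : ∀ z : A.Compl, A.chamber z = A.chamber y → arrS_sv A φ z H = arrS_sv A φ y H := by
      intro z hz
      rw [← arrS_sigma_apply A φ hφ z, hz, arrS_sigma_apply]
    rcases mul_neg_iff.1 hlt with ⟨h1, h2⟩ | ⟨h1, h2⟩
    · refine ⟨-φ H, ?_, ?_, ?_⟩
      · rw [← hφ H]; ext z; simp
      · intro z hz
        have h3 := hC z hz
        change SignType.sign (φ H z.1) = SignType.sign (φ H x.1) at h3
        rw [sign_pos h1] at h3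
        have := sign_eq_one_iff.1 h3
        simpa using this
      · intro z hz
        have h3 := hD z hz
        change SignType.sign (φ H z.1) = SignType.sign (φ H y.1) at h3
        rw [sign_neg h2] at h3
        have := sign_eq_neg_one_iff.1 h3
        simpa using this
    · refine ⟨φ H, hφ H, ?_, ?_⟩
      · intro z hz
        have h3 := hC z hz
        change SignType.sign (φ H z.1) = SignType.sign (φ H x.1) at h3
        rw [sign_neg h1] at h3
        exact sign_eq_neg_one_iff.1 h3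
      · intro z hz
        have h3 := hD z hz
        change SignType.sign (φ H z.1) = SignType.sign (φ H y.1) at h3
        rw [sign_pos h2] at h3
        exact sign_eq_one_iff.1 h3

theorem arrS_adj (C D : A.Chamber) : A.topeGraph.Adj C D ↔ hammingDist (arrS_sigma A φ hφ C) (arrS_sigma A φ hφ D) = 1 := by
  obtain ⟨x, rfl⟩ := Quotient.exists_rep C
  obtain ⟨y, rfl⟩ := Quotient.exists_rep D
  change (∃! H, H ∈ A.hyps ∧ A.Separates H (A.chamber x) (A.chamber y)) ↔
    hammingDist (arrS_sigma A φ hφ (A.chamber x)) (arrS_sigma A φ hφ (A.chamber y)) = 1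
  rw [arrS_sigma_apply, arrS_sigma_apply]
  unfold hammingDist
  rw [Finset.card_eq_one]
  constructor
  · rintro ⟨H, ⟨hH, h1⟩, h2⟩
    refine ⟨⟨H, hH⟩, ?_⟩
    ext e
    simp only [mem_filter, mem_univ, true_and, mem_singleton]
    constructor
    · intro h3
      exact Subtype.ext (h2 e.1 ⟨e.2, (arrS_sep A φ hφ e x y).2 h3⟩)
    · rintro rfl
      exact (arrS_sep A φ hφ ⟨H, hH⟩ x y).1 h1
  · rintro ⟨e, he⟩
    refine ⟨e.1, ⟨e.2, (arrS_sep A φ hφ e x y).2 ?_⟩, ?_⟩
    · have : e ∈ univ.filter (fun e => arrS_sv A φ x e ≠ arrS_sv A φ y e) := by rw [he]; exact mem_singleton_self e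
      exact (mem_filter.1 this).2
    · rintro H ⟨hH, h1⟩
      have : (⟨H, hH⟩ : A.hyps) ∈ univ.filter (fun e => arrS_sv A φ x e ≠ arrS_sv A φ y e) :=
        mem_filter.2 ⟨mem_univ _, (arrS_sep A φ hφ ⟨H, hH⟩ x y).1 h1⟩
      rw [he, mem_singleton] at this
      exact congrArg Subtype.val this

/-- Different hyperplanes are not parallel. -/
theorem arrS_notpar (e f : A.hyps) (hef : e ≠ f) : ∃ z, φ e z = 0 ∧ φ f z ≠ 0 := by
  by_contra h
  push Not at h
  apply hef
  apply Subtype.ext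
  have h1 : e.1 ≤ f.1 := by
    intro z hz
    rw [← hφ] at hz ⊢
    exact h z hz
  apply Submodule.eq_of_le_of_finrank_eq h1
  have h2 := A.codim_one e.1 e.2
  have h3 := A.codim_one f.1 f.2
  omega

omit hφ in
theorem arrS_seg {a b t : ℝ} (hab : a * b < 0) :
    (a / (a - b) < t → 0 < (a - t * (a - b)) * b) ∧ (t < a / (a - b) → 0 < (a - t * (a - b)) * a) := by
  rcases mul_neg_iff.1 hab with ⟨h1, h2⟩ | ⟨h1, h2⟩
  · have hD : 0 < a - b := by linarith
    rw [div_lt_iff₀ hD, lt_div_iff₀ hD]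
    exact ⟨fun h => mul_pos_of_neg_of_neg (by linarith) h2, fun h => mul_pos (by linarith) h1⟩
  · have hD : a - b < 0 := by linarith
    rw [div_lt_iff_of_neg hD, lt_div_iff_of_neg hD]
    exact ⟨fun h => mul_pos (by linarith) h2, fun h => mul_pos_of_neg_of_neg (by linarith) h1⟩

/-- A point between, for points with different crossing times. -/
theorem arrS_between (x y : A.Compl) (e f : A.hyps) (he : arrS_sv A φ x e ≠ arrS_sv A φ y e)
    (hf : arrS_sv A φ x f ≠ arrS_sv A φ y f)
    (hlt : φ e x.1 / (φ e x.1 - φ e y.1) < φ f x.1 / (φ f x.1 - φ f y.1)) :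
    ∃ z : A.Compl, (∀ g, arrS_sv A φ z g = arrS_sv A φ x g ∨ arrS_sv A φ z g = arrS_sv A φ y g) ∧
      arrS_sv A φ z e = arrS_sv A φ y e ∧ arrS_sv A φ z f = arrS_sv A φ x f := by
  classical
  obtain ⟨t, ht, htB⟩ := (Set.Ioo_infinite hlt).exists_notMem_finset
    (Finset.univ.image fun g : A.hyps => φ g x.1 / (φ g x.1 - φ g y.1))
  have hval : ∀ g : A.hyps, φ g (x.1 - t • (x.1 - y.1)) = φ g x.1 - t * (φ g x.1 - φ g y.1) := by
    intro g; rw [map_sub, map_smul, map_sub, smul_eq_mul]
  have hne : ∀ g : A.hyps, φ g (x.1 - t • (x.1 - y.1)) ≠ 0 := by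
    intro g h
    rw [hval] at h
    apply htB
    refine Finset.mem_image.2 ⟨g, Finset.mem_univ _, ?_⟩
    have hD : φ g x.1 - φ g y.1 ≠ 0 := by
      intro h1
      rw [h1, mul_zero, sub_zero] at h
      exact arrS_ne A φ hφ x g h
    rw [div_eq_iff hD]; linarith
  let z : A.Compl := ⟨x.1 - t • (x.1 - y.1), fun H hH hmem => hne ⟨H, hH⟩ (by
    have : x.1 - t • (x.1 - y.1) ∈ LinearMap.ker (φ ⟨H, hH⟩) := by rw [hφ]; exact hmem
    exact this)⟩
  have h0e := arrS_sign_ne (arrS_ne A φ hφ x e) (arrS_ne A φ hφ y e) he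
  have h0f := arrS_sign_ne (arrS_ne A φ hφ x f) (arrS_ne A φ hφ y f) hf
  have ht01 : 0 < t ∧ t < 1 := by
    constructor
    · refine lt_trans ?_ ht.1
      rcases mul_neg_iff.1 h0e with ⟨h1, h2⟩ | ⟨h1, h2⟩
      · exact div_pos h1 (by linarith)
      · exact div_pos_of_neg_of_neg h1 (by linarith)
    · refine lt_trans ht.2 ?_
      rcases mul_neg_iff.1 h0f with ⟨h1, h2⟩ | ⟨h1, h2⟩
      · rw [div_lt_one (by linarith)]; linarith
      · rw [div_lt_one_of_neg (by linarith)]; linarith
  refine ⟨z, ?_, ?_, ?_⟩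
  · intro g
    by_cases hg : arrS_sv A φ x g = arrS_sv A φ y g
    · left
      change SignType.sign (φ g (x.1 - t • (x.1 - y.1))) = SignType.sign (φ g x.1)
      change SignType.sign (φ g x.1) = SignType.sign (φ g y.1) at hg
      apply arrS_sign_eq
      rw [hval]
      have hx := arrS_ne A φ hφ x g
      rcases lt_or_gt_of_ne hx with h2 | h2
      · rw [sign_neg h2] at hg
        have h3 : φ g y.1 < 0 := sign_eq_neg_one_iff.1 hg.symm
        apply mul_pos_of_neg_of_neg _ h2
        nlinarith [ht01.1, ht01.2, mul_neg_of_pos_of_neg ht01.1 h3, mul_neg_of_pos_of_neg (sub_pos.2 ht01.2) h2]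
      · rw [sign_pos h2] at hg
        have h3 : 0 < φ g y.1 := sign_eq_one_iff.1 hg.symm
        apply mul_pos _ h2
        nlinarith [ht01.1, ht01.2, mul_pos ht01.1 h3, mul_pos (sub_pos.2 ht01.2) h2]
    · have hx := arrS_ne A φ hφ x g
      have hy := arrS_ne A φ hφ y g
      have hxy := arrS_sign_ne hx hy hg
      have hz := hne g
      rcases mul_neg_iff.1 hxy with ⟨h1, h2⟩ | ⟨h1, h2⟩
      · rcases lt_or_gt_of_ne hz with h3 | h3
        · right; exact arrS_sign_eq (mul_pos_of_neg_of_neg h3 h2)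
        · left; exact arrS_sign_eq (mul_pos h3 h1)
      · rcases lt_or_gt_of_ne hz with h3 | h3
        · left; exact arrS_sign_eq (mul_pos_of_neg_of_neg h3 h1)
        · right; exact arrS_sign_eq (mul_pos h3 h2)
  · change SignType.sign (φ e (x.1 - t • (x.1 - y.1))) = SignType.sign (φ e y.1)
    apply arrS_sign_eq
    rw [hval]
    exact (arrS_seg h0e).1 ht.1
  · change SignType.sign (φ f (x.1 - t • (x.1 - y.1))) = SignType.sign (φ f x.1)
    apply arrS_sign_eq
    rw [hval]
    exact (arrS_seg h0f).2 ht.2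

theorem arrS_mid (x y : A.Compl) (e f : A.hyps) (hef : e ≠ f) (he : arrS_sv A φ x e ≠ arrS_sv A φ y e)
    (hf : arrS_sv A φ x f ≠ arrS_sv A φ y f) :
    ∃ z : A.Compl, (∀ g, arrS_sv A φ z g = arrS_sv A φ x g ∨ arrS_sv A φ z g = arrS_sv A φ y g) ∧
      (∃ g, arrS_sv A φ x g ≠ arrS_sv A φ y g ∧ arrS_sv A φ z g = arrS_sv A φ y g) ∧
      ∃ g, arrS_sv A φ x g ≠ arrS_sv A φ y g ∧ arrS_sv A φ z g = arrS_sv A φ x g := by
  -- a point of the chamber of `y` with different crossing times
  obtain ⟨y', hy', hne⟩ : ∃ y' : A.Compl, arrS_sv A φ y' = arrS_sv A φ y ∧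
      φ e x.1 * φ f y'.1 ≠ φ f x.1 * φ e y'.1 := by
    by_cases h0 : φ e x.1 * φ f y.1 = φ f x.1 * φ e y.1
    · obtain ⟨z, hz1, hz2⟩ := arrS_notpar A φ hφ e f hef
      obtain ⟨ε, h1, h2⟩ := arrS_small φ y.1 z
      have h3 : ∀ g, SignType.sign (φ g (y.1 + ε • z)) = SignType.sign (φ g y.1) :=
        fun g => h2 g (arrS_ne A φ hφ y g)
      refine ⟨⟨y.1 + ε • z, fun H hH hmem => ?_⟩, ?_, ?_⟩
      · have h4 : φ ⟨H, hH⟩ (y.1 + ε • z) = 0 := by
          have : y.1 + ε • z ∈ LinearMap.ker (φ ⟨H, hH⟩) := by rw [hφ]; exact hmem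
          exact this
        have h5 := h3 ⟨H, hH⟩
        rw [h4, sign_zero] at h5
        exact arrS_ne A φ hφ y ⟨H, hH⟩ (arrS_sign_zero.1 h5.symm)
      · funext g; exact h3 g
      · change φ e x.1 * φ f (y.1 + ε • z) ≠ φ f x.1 * φ e (y.1 + ε • z)
        rw [map_add, map_add, map_smul, map_smul, smul_eq_mul, smul_eq_mul, hz1, mul_zero, add_zero, mul_add, h0]
        intro h4
        have h5 : φ e x.1 * (ε * φ f z) = 0 := by linarith
        exact mul_ne_zero (arrS_ne A φ hφ x e) (mul_ne_zero h1.ne' hz2) h5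
    · exact ⟨y, rfl, h0⟩
  rw [← hy'] at he hf ⊢
  have h0e := arrS_sign_ne (arrS_ne A φ hφ x e) (arrS_ne A φ hφ y' e) he
  have h0f := arrS_sign_ne (arrS_ne A φ hφ x f) (arrS_ne A φ hφ y' f) hf
  have hDe : φ e x.1 - φ e y'.1 ≠ 0 := by
    intro h
    have : φ e x.1 = φ e y'.1 := by linarith
    rw [this] at h0e
    exact absurd (mul_self_nonneg (φ e y'.1)) (not_le.2 h0e)
  have hDf : φ f x.1 - φ f y'.1 ≠ 0 := by
    intro h
    have : φ f x.1 = φ f y'.1 := by linarith
    rw [this] at h0f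
    exact absurd (mul_self_nonneg (φ f y'.1)) (not_le.2 h0f)
  have htne : φ e x.1 / (φ e x.1 - φ e y'.1) ≠ φ f x.1 / (φ f x.1 - φ f y'.1) := by
    intro h
    rw [div_eq_div_iff hDe hDf] at h
    apply hne; linarith
  rcases lt_or_gt_of_ne htne with h1 | h1
  · obtain ⟨z, hz1, hz2, hz3⟩ := arrS_between A φ hφ x y' e f he hf h1
    exact ⟨z, hz1, ⟨e, he, hz2⟩, ⟨f, hf, hz3⟩⟩
  · obtain ⟨z, hz1, hz2, hz3⟩ := arrS_between A φ hφ x y' f e hf he h1
    exact ⟨z, hz1, ⟨f, hf, hz2⟩, ⟨e, he, hz3⟩⟩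

theorem arrS_walk : ∀ (n : ℕ) (C D : A.Chamber),
    hammingDist (arrS_sigma A φ hφ C) (arrS_sigma A φ hφ D) = n → ∃ p : A.topeGraph.Walk C D, p.length = n := by
  intro n
  induction n using Nat.strong_induction_on with
  | _ n ih =>
    intro C D hn
    obtain ⟨x, rfl⟩ := Quotient.exists_rep C
    obtain ⟨y, rfl⟩ := Quotient.exists_rep D
    change hammingDist (arrS_sigma A φ hφ (A.chamber x)) (arrS_sigma A φ hφ (A.chamber y)) = n at hn
    change ∃ p : A.topeGraph.Walk (A.chamber x) (A.chamber y), p.length = n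
    rcases Nat.lt_or_ge n 2 with h2 | h2
    · interval_cases n
      · have h3 : arrS_sv A φ x = arrS_sv A φ y := by
          rw [hammingDist_eq_zero, arrS_sigma_apply, arrS_sigma_apply] at hn
          exact hn
        have h4 := arrS_inj A φ hφ x y h3
        rw [h4]
        exact ⟨SimpleGraph.Walk.nil, rfl⟩
      · have h3 := (arrS_adj A φ hφ (A.chamber x) (A.chamber y)).2 hn
        exact ⟨SimpleGraph.Walk.cons h3 SimpleGraph.Walk.nil, rfl⟩
    · rw [arrS_sigma_apply, arrS_sigma_apply] at hn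
      have h3 : 1 < (univ.filter fun e => arrS_sv A φ x e ≠ arrS_sv A φ y e).card := by
        have : (univ.filter fun e => arrS_sv A φ x e ≠ arrS_sv A φ y e).card = n := hn
        omega
      obtain ⟨e, he, f, hf, hef⟩ := Finset.one_lt_card.1 h3
      obtain ⟨z, hz1, ⟨g, hg1, hg2⟩, ⟨k, hk1, hk2⟩⟩ :=
        arrS_mid A φ hφ x y e f hef (mem_filter.1 he).2 (mem_filter.1 hf).2
      have hsum : hammingDist (arrS_sv A φ x) (arrS_sv A φ z) + hammingDist (arrS_sv A φ z) (arrS_sv A φ y) = n := by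
        rw [← hn]
        unfold hammingDist
        rw [← Finset.card_union_of_disjoint]
        · congr 1
          ext j
          simp only [mem_union, mem_filter, mem_univ, true_and]
          constructor
          · rintro (h | h)
            · rcases hz1 j with h1 | h1
              · exact absurd h1.symm h
              · rw [← h1]; exact h
            · rcases hz1 j with h1 | h1
              · rw [← h1]; exact h
              · exact absurd h1 h
          · intro h
            rcases hz1 j with h1 | h1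
            · right; rw [h1]; exact h
            · left; rw [h1]; exact h
        · rw [Finset.disjoint_left]
          intro j hj hj'
          rcases hz1 j with h1 | h1
          · exact (mem_filter.1 hj).2 h1.symm
          · exact (mem_filter.1 hj').2 h1
      have hpos1 : hammingDist (arrS_sv A φ x) (arrS_sv A φ z) ≠ 0 := by
        intro h
        rw [hammingDist_eq_zero] at h
        rw [← h] at hg2
        exact hg1 hg2
      have hpos2 : hammingDist (arrS_sv A φ z) (arrS_sv A φ y) ≠ 0 := by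
        intro h
        rw [hammingDist_eq_zero] at h
        rw [h] at hk2
        exact hk1 hk2.symm
      obtain ⟨p, hp⟩ := ih (hammingDist (arrS_sv A φ x) (arrS_sv A φ z)) (by omega) (A.chamber x) (A.chamber z)
        (by rw [arrS_sigma_apply, arrS_sigma_apply])
      obtain ⟨q, hq⟩ := ih (hammingDist (arrS_sv A φ z) (arrS_sv A φ y)) (by omega) (A.chamber z) (A.chamber y)
        (by rw [arrS_sigma_apply, arrS_sigma_apply])
      refine ⟨p.append q, ?_⟩
      rw [SimpleGraph.Walk.length_append, hp, hq]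
      exact hsum

theorem arrS_lower {C D : A.Chamber} (p : A.topeGraph.Walk C D) :
    hammingDist (arrS_sigma A φ hφ C) (arrS_sigma A φ hφ D) ≤ p.length := by
  induction p with
  | nil => simp
  | @cons C C' D h p ih =>
    have h1 := (arrS_adj A φ hφ C C').1 h
    have h2 := hammingDist_triangle (arrS_sigma A φ hφ C) (arrS_sigma A φ hφ C') (arrS_sigma A φ hφ D)
    rw [SimpleGraph.Walk.length_cons]
    omega

end

theorem arr_sign {d : ℕ} (A : Arrangement d) (φ : A.hyps → ((Fin d → ℝ) →ₗ[ℝ] ℝ))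
    (hφ : ∀ H, LinearMap.ker (φ H) = H.1) :
    ∃ σ : A.Chamber → (A.hyps → SignType), Function.Injective σ ∧
      (∀ X, X ∈ Set.range σ ↔ (X ∈ signs φ ∧ ∀ e, X e ≠ 0)) ∧
      (∀ C D, A.topeGraph.dist C D = (univ.filter fun e => σ C e ≠ σ D e).card) := by
  refine ⟨arrS_sigma A φ hφ, ?_, ?_, ?_⟩
  · intro C D h
    obtain ⟨x, rfl⟩ := Quotient.exists_rep C
    obtain ⟨y, rfl⟩ := Quotient.exists_rep D
    change arrS_sigma A φ hφ (A.chamber x) = arrS_sigma A φ hφ (A.chamber y) at h
    rw [arrS_sigma_apply, arrS_sigma_apply] at h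
    exact arrS_inj A φ hφ x y h
  · intro X
    constructor
    · rintro ⟨C, rfl⟩
      obtain ⟨x, rfl⟩ := Quotient.exists_rep C
      change arrS_sigma A φ hφ (A.chamber x) ∈ signs φ ∧ ∀ e, arrS_sigma A φ hφ (A.chamber x) e ≠ 0
      rw [arrS_sigma_apply]
      refine ⟨⟨x.1, rfl⟩, fun e h => ?_⟩
      exact arrS_ne A φ hφ x e (arrS_sign_zero.1 h)
    · rintro ⟨⟨x, rfl⟩, h⟩
      have hx : ∀ H ∈ A.hyps, x ∉ H := by
        intro H hH hmem
        have h1 : x ∈ LinearMap.ker (φ ⟨H, hH⟩) := by rw [hφ]; exact hmem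
        have h2 : φ ⟨H, hH⟩ x = 0 := h1
        exact h ⟨H, hH⟩ (arrS_sign_zero.2 h2)
      exact ⟨A.chamber ⟨x, hx⟩, arrS_sigma_apply A φ hφ ⟨x, hx⟩⟩
  · intro C D
    change A.topeGraph.dist C D = hammingDist (arrS_sigma A φ hφ C) (arrS_sigma A φ hφ D)
    obtain ⟨p, hp⟩ := arrS_walk A φ hφ _ C D rfl
    apply le_antisymm
    · rw [← hp]; exact SimpleGraph.dist_le p
    · obtain ⟨q, hq⟩ := p.reachable.exists_walk_length_eq_dist
      rw [← hq]; exact arrS_lower A φ hφ q

end Pool.Agent.Helper753_MagHom
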