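import Pool.Agent.Helper753_MagHom.Defs3
set_option autoImplicit false
open Finset
namespace Pool.Agent.Helper753_MagHom

theorem cdim_facet {M ι : Type} [AddCommGroup M] [Module ℝ M] [FiniteDimensional ℝ M]
    [Fintype ι] [DecidableEq ι] (φ : ι → (M →ₗ[ℝ] ℝ)) {X : ι → SignType} {T : Finset ι}
    (hX : X ∈ signs φ) (hT : T.Nonempty) (hd : Disjoint T (zs X)) (hpar : Par (signs φ) X T)
    (hc : zro X T ∈ signs φ) : cdim φ (zs X ∪ T) = cdim φ (zs X) + 1 := by
  obtain ⟨x₀, hx₀⟩ := hX
  obtain ⟨e, he⟩ := hT
  have hXi : ∀ i, X i = SignType.sign (φ i x₀) := fun i => (congrFun hx₀ i).symm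
  have hz : ∀ i, i ∈ zs X ↔ φ i x₀ = 0 := by
    intro i
    rw [mem_zs, hXi, sign_eq_zero_iff]
  have hex : φ e x₀ ≠ 0 := by
    intro h
    exact Finset.disjoint_left.1 hd he ((hz e).2 h)
  set P : Submodule ℝ (M →ₗ[ℝ] ℝ) := Submodule.span ℝ (φ '' ((zs X : Finset ι) : Set ι)) with hP
  have hnot : φ e ∉ P := by
    intro h
    have h1 : P ≤ LinearMap.ker (Module.Dual.eval ℝ M x₀) := by
      rw [hP, Submodule.span_le]
      rintro _ ⟨i, hi, rfl⟩
      exact (hz i).1 hi
    exact hex (h1 h)
  have hspan : Submodule.span ℝ (φ '' (((zs X ∪ T : Finset ι)) : Set ι)) = P ⊔ Submodule.span ℝ {φ e} := by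
    apply le_antisymm
    · rw [Submodule.span_le]
      rintro _ ⟨f, hf, rfl⟩
      rcases Finset.mem_union.1 hf with hf | hf
      · exact Submodule.mem_sup_left (Submodule.subset_span ⟨f, hf, rfl⟩)
      · let L : Option (zs X) → (M →ₗ[ℝ] ℝ) := fun o => o.elim (φ e) (fun i => φ i.1)
        have h1 : φ f ∈ Submodule.span ℝ (Set.range L) := by
          apply FiniteDimensional.mem_span_of_iInf_ker_le_ker
          intro x hx
          rw [Submodule.mem_iInf] at hx
          have h2 : φ e x = 0 := hx none
          have h3 : ∀ i ∈ zs X, φ i x = 0 := fun i hi => hx (some ⟨i, hi⟩)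
          have hG : (fun i => SignType.sign (φ i x)) ∈ signs φ := ⟨x, rfl⟩
          have h4 : zs X ⊆ zs (fun i => SignType.sign (φ i x)) := by
            intro i hi
            rw [mem_zs, h3 i hi, sign_zero]
          have h5 : e ∈ zs (fun i => SignType.sign (φ i x)) := by
            rw [mem_zs, h2, sign_zero]
          rcases hpar _ hG h4 with h6 | h6
          · have h7 := h6 hf
            rw [mem_zs, sign_eq_zero_iff] at h7
            exact h7
          · exact absurd h5 (Finset.disjoint_left.1 h6 he)
        have h8 : Submodule.span ℝ (Set.range L) ≤ P ⊔ Submodule.span ℝ {φ e} := by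
          rw [Submodule.span_le]
          rintro _ ⟨o, rfl⟩
          cases o with
          | none => exact Submodule.mem_sup_right (Submodule.mem_span_singleton_self _)
          | some i => exact Submodule.mem_sup_left (Submodule.subset_span ⟨i.1, i.2, rfl⟩)
        exact h8 h1
    · apply sup_le
      · rw [hP]
        apply Submodule.span_mono
        apply Set.image_mono
        intro i hi
        exact Finset.mem_union_left _ hi
      · rw [Submodule.span_singleton_le_iff_mem]
        exact Submodule.subset_span ⟨e, Finset.mem_union_right _ he, rfl⟩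
  unfold cdim
  rw [hspan, Submodule.finrank_sup_span_singleton hnot]

theorem cdim_empty {M ι : Type} [AddCommGroup M] [Module ℝ M] 
    (φ : ι → (M →ₗ[ℝ] ℝ)) : cdim φ ∅ = 0 := by
  unfold cdim
  rw [Finset.coe_empty, Set.image_empty, Submodule.span_empty, finrank_bot]

end Pool.Agent.Helper753_MagHom
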