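import Mathlib

/-!
# Real hyperplane arrangements, tope graphs, magnitude homology: definitions
-/

set_option autoImplicit false

namespace Pool.Agent.Helper753_MagHom

/-! ## magnitude homology of a graph -/

section Magnitude

variable {V : Type*} (G : SimpleGraph V)

/-- The tuples `(x₀, …, x_k)` with `x_{i-1} ≠ x_i` and `∑ d(x_{i-1}, x_i) = l`. -/
def MCgen (k l : ℕ) : Set (Fin (k + 1) → V) :=
  {x | (∀ i : Fin k, x i.castSucc ≠ x i.succ) ∧
    ∑ i : Fin k, G.dist (x i.castSucc) (x i.succ) = l}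

/-- The magnitude chain group `MC_{k,l}(G)`: the free abelian group on `MCgen G k l`, realised as
the group of the finitely supported integer functions on all tuples which are supported in
`MCgen G k l`. -/
noncomputable def MC (k l : ℕ) : Submodule ℤ ((Fin (k + 1) → V) →₀ ℤ) :=
  Finsupp.supported ℤ ℤ (MCgen G k l)

open Classical in
/-- The boundary of a tuple `(x₀, …, x_k)`: the sum over `0 < i < k` of `(-1) ^ i` times the tuple
with `x_i` removed, provided that `d(x_{i-1}, x_{i+1}) = d(x_{i-1}, x_i) + d(x_i, x_{i+1})`. -/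
noncomputable def bdryTuple (k : ℕ) (x : Fin (k + 1) → V) : (Fin k → V) →₀ ℤ :=
  ∑ i : Fin (k + 1), if h : 0 < i.1 ∧ i.1 < k then
      if G.dist (x ⟨i.1 - 1, by omega⟩) (x ⟨i.1 + 1, by omega⟩) =
          G.dist (x ⟨i.1 - 1, by omega⟩) (x i) + G.dist (x i) (x ⟨i.1 + 1, by omega⟩)
      then Finsupp.single (fun j => x (i.succAbove j)) ((-1 : ℤ) ^ i.1)
      else 0
    else 0

/-- The differential, extended linearly to all tuples. -/
noncomputable def bdry (k : ℕ) : ((Fin (k + 1) → V) →₀ ℤ) →ₗ[ℤ] ((Fin k → V) →₀ ℤ) :=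
  Finsupp.linearCombination ℤ (bdryTuple G k)

/-- The cycles: the elements of `MC_{k,l}` killed by `∂`. -/
noncomputable def cyc (k l : ℕ) : Submodule ℤ ((Fin (k + 1) → V) →₀ ℤ) :=
  MC G k l ⊓ LinearMap.ker (bdry G k)

/-- The boundaries: the image under `∂` of `MC_{k+1,l}`. -/
noncomputable def bnd (k l : ℕ) : Submodule ℤ ((Fin (k + 1) → V) →₀ ℤ) :=
  (MC G (k + 1) l).map (bdry G (k + 1))

/-- The magnitude homology group `MH_{k,l}(G)`: cycles modulo boundaries. -/
abbrev MH (k l : ℕ) : Type _ :=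
  cyc G k l ⧸ (bnd G k l).submoduleOf (cyc G k l)

end Magnitude

/-! ## real hyperplane arrangements -/

/-- A (central, real) hyperplane arrangement: a finite set of linear hyperplanes of `ℝ ^ d`. -/
structure Arrangement (d : ℕ) where
  /-- the hyperplanes -/
  hyps : Finset (Submodule ℝ (Fin d → ℝ))
  codim_one : ∀ H ∈ hyps, Module.finrank ℝ H + 1 = d

namespace Arrangement

variable {d : ℕ} (A : Arrangement d)

/-- the complement of the union of the hyperplanes, a subspace of `ℝ ^ d` -/
def Compl : Type := {x : Fin d → ℝ // ∀ H ∈ A.hyps, x ∉ H}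

instance : TopologicalSpace A.Compl := instTopologicalSpaceSubtype

/-- The chambers: the connected components of the complement. -/
def Chamber : Type := ConnectedComponents A.Compl

/-- the chamber of a point of the complement -/
def chamber (x : A.Compl) : A.Chamber := ConnectedComponents.mk x

/-- The hyperplane `H` separates the chambers `C` and `D`: they lie on different sides of `H`. -/
def Separates (H : Submodule ℝ (Fin d → ℝ)) (C D : A.Chamber) : Prop :=
  ∃ f : (Fin d → ℝ) →ₗ[ℝ] ℝ, LinearMap.ker f = H ∧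
    (∀ x : A.Compl, A.chamber x = C → f x.1 < 0) ∧ (∀ y : A.Compl, A.chamber y = D → 0 < f y.1)

lemma Separates.symm {H : Submodule ℝ (Fin d → ℝ)} {C D : A.Chamber} (h : A.Separates H C D) :
    A.Separates H D C := by
  obtain ⟨f, h1, h2, h3⟩ := h
  refine ⟨-f, ?_, ?_, ?_⟩
  · rw [← h1]; ext x; simp
  · intro x hx; simpa using h3 x hx
  · intro x hx; simpa using h2 x hx

/-- The tope graph: the vertices are the chambers, and two chambers are adjacent when exactly one
hyperplane of the arrangement separates them. -/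
def topeGraph : SimpleGraph A.Chamber where
  Adj C D := ∃! H, H ∈ A.hyps ∧ A.Separates H C D
  symm := ⟨by
    rintro C D ⟨H, ⟨h1, h2⟩, h3⟩
    exact ⟨H, ⟨h1, Separates.symm A h2⟩, fun H' h' => h3 H' ⟨h'.1, Separates.symm A h'.2⟩⟩⟩
  loopless := ⟨by
    rintro C ⟨H, ⟨_, f, _, h2, h3⟩, _⟩
    obtain ⟨x, rfl⟩ := Quotient.exists_rep C
    exact lt_asymm (h2 x rfl) (h3 x rfl)⟩

end Arrangement

/-! ## sign vectors -/

section Sign

variable {E : Type*}

/-- composition of sign vectors -/
def cmp (X Y : E → SignType) : E → SignType := fun e => if X e = 0 then Y e else X e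

/-- the axioms of the covectors of an oriented matroid (without `0 ∈ L`) -/
structure OM (L : Set (E → SignType)) : Prop where
  neg : ∀ X ∈ L, -X ∈ L
  comp : ∀ X ∈ L, ∀ Y ∈ L, cmp X Y ∈ L
  elim : ∀ X ∈ L, ∀ Y ∈ L, ∀ e, X e ≠ 0 → Y e = - X e →
    ∃ Z ∈ L, Z e = 0 ∧ ∀ f, ¬ (X f ≠ 0 ∧ Y f = - X f) → Z f = cmp X Y f

/-- `X` with the entries `e` negated for which `n e` is odd -/
def refl' (X : E → SignType) (n : E → ℕ) : E → SignType := fun e => (-1) ^ (n e) * X e

/-- `n → n'` iff `n' - n` is a nonzero `0/1` vector -/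
def Rn (n n' : E → ℕ) : Prop := n ≠ n' ∧ ∀ e, n' e = n e ∨ n' e = n e + 1

/-- the states: the nonzero `n` for which `C (-1) ^ n` is in `L` -/
def Wn (L : Set (E → SignType)) (X : E → SignType) : Set (E → ℕ) := {n | n ≠ 0 ∧ refl' X n ∈ L}

end Sign

end Pool.Agent.Helper753_MagHom
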