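import Pool.Agent.Helper753_MagHom.Path2
import Pool.Agent.Helper753_MagHom.Defs

set_option autoImplicit false
open Finset
namespace Pool.Agent.Helper753_MagHom

/-- sign vectors of the points of a vector space, w.r.t. a family of linear functionals -/
def signs {M ι : Type*} [AddCommGroup M] [Module ℝ M] (φ : ι → (M →ₗ[ℝ] ℝ)) :
    Set (ι → SignType) := Set.range fun (x : M) (i : ι) => SignType.sign (φ i x)

/-- index set of the basis of `MH_{k+1,l}` -/
def Idx {E : Type} [Fintype E] (L : Set (E → SignType)) (k l : ℕ) :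
    Set ((E → SignType) × (E → ℕ)) :=
  {p | p.1 ∈ L ∧ (∀ e, p.1 e ≠ 0) ∧ p.2 ≠ 0 ∧ refl' p.1 p.2 ∈ L ∧ ∑ e, p.2 e = l ∧
    SPH (dm Rn 0 p.2) (C Rn (Wn L p.1) 0 p.2) k}

end Pool.Agent.Helper753_MagHom
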