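import Pool.Agent.Helper753_MagHom.OM

set_option autoImplicit false
open Finset
namespace Pool.Agent.Helper753_MagHom

/-- the rank of a set of functionals -/
noncomputable def cdim {M ι : Type*} [AddCommGroup M] [Module ℝ M] (φ : ι → (M →ₗ[ℝ] ℝ))
    (S : Finset ι) : ℕ := Module.finrank ℝ (Submodule.span ℝ (φ '' (S : Set ι)))

section lev
variable {E : Type*} [Fintype E] [DecidableEq E]

/-- the level sets of `m` -/
def lev (m : E → ℕ) (j : ℕ) : Finset E := univ.filter fun e => j ≤ m e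

/-- all level sets of `m` are zero sets of faces of `X` -/
def Crit (L : Set (E → SignType)) (X : E → SignType) (m : E → ℕ) : Prop :=
  ∀ j, 1 ≤ j → zro X (lev m j) ∈ L

/-- the sum of the codimensions of the level sets (use only with `cd ∅ = 0`) -/
def deg (cd : Finset E → ℕ) (m : E → ℕ) : ℕ := ∑ j ∈ range (∑ e, m e), cd (lev m (j + 1))

end lev

/-- the index set of the basis of `MH_{k+1,l}`, in combinatorial terms -/
def Good {M ι : Type} [AddCommGroup M] [Module ℝ M] [Fintype ι] [DecidableEq ι]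
    (φ : ι → (M →ₗ[ℝ] ℝ)) (k l : ℕ) : Set ((ι → SignType) × (ι → ℕ)) :=
  {p | p.1 ∈ signs φ ∧ (∀ e, p.1 e ≠ 0) ∧ p.2 ≠ 0 ∧ Crit (signs φ) p.1 p.2 ∧ ∑ e, p.2 e = l ∧
    deg (cdim φ) p.2 = k + 1}

/-- `S` is the zero set of a sign vector -/
def IsFlat {M ι : Type} [AddCommGroup M] [Module ℝ M] [Fintype ι]
    (φ : ι → (M →ₗ[ℝ] ℝ)) (S : Finset ι) : Prop := ∃ x : M, ∀ i, i ∈ S ↔ φ i x = 0

/-- The intersection lattice: the intersections of the subsets of the arrangement, ordered by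
reverse inclusion. -/
def Arrangement.Flat {d : ℕ} (A : Arrangement d) : Type :=
  {X : (Submodule ℝ (Fin d → ℝ))ᵒᵈ //
    ∃ S : Set (Submodule ℝ (Fin d → ℝ)), S ⊆ A.hyps ∧ X = OrderDual.toDual (sInf S)}

instance {d : ℕ} (A : Arrangement d) : PartialOrder A.Flat :=
  inferInstanceAs (PartialOrder {X : (Submodule ℝ (Fin d → ℝ))ᵒᵈ //
    ∃ S : Set (Submodule ℝ (Fin d → ℝ)), S ⊆ A.hyps ∧ X = OrderDual.toDual (sInf S)})

end Pool.Agent.Helper753_MagHom
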