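import Pool.Agent.Helper753_MagHom.Defs2
set_option autoImplicit false
open Finset
namespace Pool.Agent.Helper753_MagHom

section EulerAux
open Classical

set_option linter.unusedSectionVars false

variable {M ι : Type} [AddCommGroup M] [Module ℝ M] [Fintype ι]

/-- sign vector of `x` restricted to the index set `s` (zero outside `s`) -/
noncomputable def sgOn (φ : ι → (M →ₗ[ℝ] ℝ)) (s : Finset ι) (x : M) : ι → SignType :=
  fun i => if i ∈ s then SignType.sign (φ i x) else 0

/-- rank of the functionals in `s` at which `F` vanishes -/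
noncomputable def rkOn (φ : ι → (M →ₗ[ℝ] ℝ)) (s : Finset ι) (F : ι → SignType) : ℕ :=
  Module.finrank ℝ (Submodule.span ℝ (φ '' {i | i ∈ s ∧ F i = 0}))

theorem sgOn_insert_update (φ : ι → (M →ₗ[ℝ] ℝ)) (s : Finset ι) (e : ι) (he : e ∉ s) (x : M) :
    sgOn φ (insert e s) x = Function.update (sgOn φ s x) e (SignType.sign (φ e x)) := by
  funext i
  by_cases hi : i = e
  · subst hi; simp [sgOn]
  · simp [sgOn, Function.update, hi]

theorem sgOn_update_zero (φ : ι → (M →ₗ[ℝ] ℝ)) (s : Finset ι) (e : ι) (he : e ∉ s) (x : M) :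
    Function.update (sgOn φ (insert e s) x) e 0 = sgOn φ s x := by
  funext i
  by_cases hi : i = e
  · subst hi; simp [sgOn, he]
  · simp [sgOn, Function.update, hi]

theorem sgOn_at (φ : ι → (M →ₗ[ℝ] ℝ)) (s : Finset ι) (e : ι) (he : e ∉ s) (x : M) :
    sgOn φ s x e = 0 := by simp [sgOn, he]

/-- small perturbation keeps the nonzero signs -/
theorem exists_eps (φ : ι → (M →ₗ[ℝ] ℝ)) (s : Finset ι) (x v : M)
    (hv : ∀ i ∈ s, φ i x = 0 → φ i v = 0) :
    ∃ ε : ℝ, 0 < ε ∧ ∀ t : ℝ, |t| ≤ ε → sgOn φ s (x + t • v) = sgOn φ s x := by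
  have h1 : ∀ i ∈ s, ∃ ε : ℝ, 0 < ε ∧ ∀ t : ℝ, |t| ≤ ε →
      SignType.sign (φ i (x + t • v)) = SignType.sign (φ i x) := by
    intro i hi
    by_cases h0 : φ i x = 0
    · refine ⟨1, one_pos, fun t _ => ?_⟩
      rw [map_add, map_smul, hv i hi h0, h0]; simp
    · have hpos : 0 < |φ i x| := abs_pos.mpr h0
      refine ⟨|φ i x| / (2 * (|φ i v| + 1)), by positivity, fun t ht => ?_⟩
      have hb : |t * φ i v| < |φ i x| := by
        rw [abs_mul]
        have h2 : |t| * |φ i v| ≤ |φ i x| / (2 * (|φ i v| + 1)) * |φ i v| :=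
          mul_le_mul_of_nonneg_right ht (abs_nonneg _)
        have h3 : |φ i x| / (2 * (|φ i v| + 1)) * |φ i v| < |φ i x| := by
          rw [div_mul_eq_mul_div, div_lt_iff₀ (by positivity)]
          nlinarith [abs_nonneg (φ i v)]
        linarith
      rw [map_add, map_smul, smul_eq_mul]
      rcases lt_or_gt_of_ne h0 with h | h
      · rw [sign_neg h, sign_neg]
        rw [abs_of_neg h] at hb
        have := (abs_lt.mp hb).2
        linarith
      · rw [sign_pos h, sign_pos]
        rw [abs_of_pos h] at hb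
        have := (abs_lt.mp hb).1
        linarith
  choose! ε hε using h1
  by_cases hs : s.Nonempty
  · refine ⟨s.inf' hs ε, ?_, ?_⟩
    · rw [Finset.lt_inf'_iff]; exact fun i hi => (hε i hi).1
    · intro t ht
      funext i
      by_cases hi : i ∈ s
      · simp only [sgOn, hi, if_true]
        exact (hε i hi).2 t (ht.trans (Finset.inf'_le _ hi))
      · simp [sgOn, hi]
  · rw [Finset.not_nonempty_iff_eq_empty] at hs
    subst hs
    exact ⟨1, one_pos, fun t _ => by funext i; simp [sgOn]⟩

theorem fibre_sum [FiniteDimensional ℝ M] (φ : ι → (M →ₗ[ℝ] ℝ)) (s : Finset ι) (e : ι)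
    (he : e ∉ s) (x : M) :
    ∑ t : SignType, (if Function.update (sgOn φ s x) e t ∈ Set.range (sgOn φ (insert e s)) then
      (-1 : ℤ) ^ rkOn φ (insert e s) (Function.update (sgOn φ s x) e t) else 0) =
      (-1 : ℤ) ^ rkOn φ s (sgOn φ s x) := by
  set G := sgOn φ s x with hG
  have hmem : ∀ t : SignType, (Function.update G e t ∈ Set.range (sgOn φ (insert e s)) ↔
      ∃ y : M, sgOn φ s y = G ∧ SignType.sign (φ e y) = t) := by
    intro t
    constructor
    · rintro ⟨y, hy⟩
      refine ⟨y, ?_, ?_⟩
      · have : Function.update (sgOn φ (insert e s) y) e 0 =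
            Function.update (Function.update G e t) e 0 := by rw [hy]
        rw [sgOn_update_zero φ s e he, Function.update_idem] at this
        rw [this]
        conv_rhs => rw [← Function.update_eq_self e G]
        rw [hG, sgOn_at φ s e he]
      · have := congrFun hy e
        rw [sgOn_insert_update φ s e he] at this
        simpa using this
    · rintro ⟨y, hy, ht⟩
      exact ⟨y, by rw [sgOn_insert_update φ s e he, hy, ht]⟩
  have hset_ne : ∀ t : SignType, t ≠ 0 →
      {i | i ∈ insert e s ∧ Function.update G e t i = 0} = {i | i ∈ s ∧ G i = 0} := by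
    intro t ht
    ext i
    simp only [Set.mem_ofPred_eq]
    by_cases hi : i = e
    · subst hi; simp [ht, he]
    · simp [Function.update, hi]
  have hset_0 : {i | i ∈ insert e s ∧ Function.update G e 0 i = 0} =
      insert e {i | i ∈ s ∧ G i = 0} := by
    ext i
    simp only [Set.mem_ofPred_eq, Set.mem_insert_iff]
    by_cases hi : i = e
    · subst hi; simp
    · simp [Function.update, hi]
  have hrk_ne : ∀ t : SignType, t ≠ 0 → rkOn φ (insert e s) (Function.update G e t) = rkOn φ s G := by
    intro t ht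
    rw [rkOn, hset_ne t ht, rkOn]
  have hsum : ∀ f : SignType → ℤ, ∑ t : SignType, f t = f 0 + f (-1) + f 1 := by
    intro f
    rw [show (Finset.univ : Finset SignType) = {0, -1, 1} from rfl]
    rw [Finset.sum_insert (by decide), Finset.sum_insert (by decide), Finset.sum_singleton]
    ring
  rw [hsum, hrk_ne (-1) (by decide), hrk_ne 1 (by decide)]
  simp only [hmem]
  by_cases hsp : φ e ∈ Submodule.span ℝ (φ '' {i | i ∈ s ∧ G i = 0})
  · -- the value is forced to be zero
    have hz : ∀ y : M, sgOn φ s y = G → φ e y = 0 := by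
      intro y hy
      have hle : Submodule.span ℝ (φ '' {i | i ∈ s ∧ G i = 0}) ≤
          LinearMap.ker (LinearMap.applyₗ (R := ℝ) (M₂ := ℝ) y : (M →ₗ[ℝ] ℝ) →ₗ[ℝ] ℝ) := by
        rw [Submodule.span_le]
        rintro _ ⟨i, ⟨hi, hi0⟩, rfl⟩
        have h := congrFun hy i
        rw [hi0] at h
        simp only [sgOn, hi, if_true, sign_eq_zero_iff] at h
        simpa using h
      simpa using hle hsp
    have h0 : ∃ y : M, sgOn φ s y = G ∧ SignType.sign (φ e y) = 0 :=
      ⟨x, rfl, by rw [hz x rfl]; simp⟩
    have hm : ¬ ∃ y : M, sgOn φ s y = G ∧ SignType.sign (φ e y) = -1 := by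
      rintro ⟨y, hy, h⟩; rw [hz y hy] at h; simp at h
    have hp : ¬ ∃ y : M, sgOn φ s y = G ∧ SignType.sign (φ e y) = 1 := by
      rintro ⟨y, hy, h⟩; rw [hz y hy] at h; simp at h
    rw [if_pos h0, if_neg hm, if_neg hp, rkOn, hset_0, Set.image_insert_eq,
      Submodule.span_insert_eq_span hsp, rkOn]
    ring
  · -- direction v
    have hv : ∃ v : M, (∀ i ∈ s, G i = 0 → φ i v = 0) ∧ φ e v ≠ 0 := by
      by_contra hcon
      push Not at hcon
      apply hsp
      have h1 : φ '' {i | i ∈ s ∧ G i = 0} =
          Set.range (fun i : {i | i ∈ s ∧ G i = 0} => φ i) := by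
        ext f; simp
      rw [h1]
      refine mem_span_of_iInf_ker_le_ker (L := fun i : {i | i ∈ s ∧ G i = 0} => φ i) ?_
      intro v hv
      simp only [Submodule.mem_iInf, LinearMap.mem_ker] at hv ⊢
      exact hcon v fun i hi hi0 => hv ⟨i, hi, hi0⟩
    obtain ⟨v, hv0, hve⟩ := hv
    have hvy : ∀ y : M, sgOn φ s y = G → ∀ i ∈ s, φ i y = 0 → φ i v = 0 := by
      intro y hy i hi h
      apply hv0 i hi
      have := congrFun hy i
      simp only [sgOn, hi, if_true, h, sign_zero] at this
      exact this.symm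
    have hboth : ∀ y : M, sgOn φ s y = G → φ e y = 0 →
        (∃ y : M, sgOn φ s y = G ∧ SignType.sign (φ e y) = -1) ∧
        (∃ y : M, sgOn φ s y = G ∧ SignType.sign (φ e y) = 1) := by
      intro y hy h0
      obtain ⟨ε, hε, h⟩ := exists_eps φ s y v (hvy y hy)
      have e1 : |ε| ≤ ε := (abs_of_pos hε).le
      have e2 : |-ε| ≤ ε := by rw [abs_neg]; exact e1
      have f1 : φ e (y + ε • v) = ε * φ e v := by rw [map_add, map_smul, h0]; simp
      have f2 : φ e (y + (-ε) • v) = -(ε * φ e v) := by rw [map_add, map_smul, h0]; simp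
      rcases lt_or_gt_of_ne hve with hh | hh
      · have hneg : ε * φ e v < 0 := mul_neg_of_pos_of_neg hε hh
        exact ⟨⟨_, (h ε e1).trans hy, by rw [f1, sign_neg hneg]⟩,
          ⟨_, (h (-ε) e2).trans hy, by rw [f2, sign_pos (by linarith)]⟩⟩
      · have hpos : 0 < ε * φ e v := mul_pos hε hh
        exact ⟨⟨_, (h (-ε) e2).trans hy, by rw [f2, sign_neg (by linarith)]⟩,
          ⟨_, (h ε e1).trans hy, by rw [f1, sign_pos hpos]⟩⟩
    have hzero : (∃ y : M, sgOn φ s y = G ∧ SignType.sign (φ e y) = -1) →
        (∃ y : M, sgOn φ s y = G ∧ SignType.sign (φ e y) = 1) →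
        ∃ y : M, sgOn φ s y = G ∧ SignType.sign (φ e y) = 0 := by
      rintro ⟨y, hy, h1⟩ ⟨z, hz, h2⟩
      rw [sign_eq_neg_one_iff] at h1
      rw [sign_eq_one_iff] at h2
      -- combination
      set a := φ e z with ha
      set b := -φ e y with hb
      have hb0 : 0 < b := by rw [hb]; linarith
      refine ⟨a • y + b • z, ?_, ?_⟩
      · funext i
        by_cases hi : i ∈ s
        · have hyi := congrFun hy i
          have hzi := congrFun hz i
          simp only [sgOn, hi, if_true] at hyi hzi ⊢
          rw [map_add, map_smul, map_smul, smul_eq_mul, smul_eq_mul]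
          rcases lt_trichotomy (φ i y) 0 with h | h | h
          · have hzn : φ i z < 0 := by
              rw [← sign_eq_neg_one_iff, hzi, ← hyi, sign_neg h]
            rw [← hyi, sign_neg h, sign_neg]
            nlinarith [mul_pos h2 (neg_pos.mpr h), mul_pos hb0 (neg_pos.mpr hzn)]
          · have hzn : φ i z = 0 := by
              rw [← sign_eq_zero_iff, hzi, ← hyi, h, sign_zero]
            rw [← hyi, h, hzn]; simp
          · have hzn : 0 < φ i z := by
              rw [← sign_eq_one_iff, hzi, ← hyi, sign_pos h]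
            rw [← hyi, sign_pos h, sign_pos]
            nlinarith [mul_pos h2 h, mul_pos hb0 hzn]
        · rw [← hy]; simp [sgOn, hi]
      · rw [map_add, map_smul, map_smul, smul_eq_mul, smul_eq_mul]
        have : a * φ e y + b * φ e z = 0 := by rw [hb, ha]; ring
        rw [this, sign_zero]
    have hrk0 : rkOn φ (insert e s) (Function.update G e 0) = rkOn φ s G + 1 := by
      rw [rkOn, hset_0, Set.image_insert_eq, rkOn, Submodule.span_insert]
      rw [sup_comm]
      exact Submodule.finrank_sup_span_singleton hsp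
    by_cases h0 : ∃ y : M, sgOn φ s y = G ∧ SignType.sign (φ e y) = 0
    · obtain ⟨y, hy, hy0⟩ := h0
      obtain ⟨hm, hp⟩ := hboth y hy (by rwa [sign_eq_zero_iff] at hy0)
      rw [if_pos ⟨y, hy, hy0⟩, if_pos hm, if_pos hp, hrk0]
      ring
    · rw [if_neg h0]
      by_cases hm : ∃ y : M, sgOn φ s y = G ∧ SignType.sign (φ e y) = -1
      · have hp : ¬ ∃ y : M, sgOn φ s y = G ∧ SignType.sign (φ e y) = 1 := fun hp => h0 (hzero hm hp)
        rw [if_pos hm, if_neg hp]; ring
      · have hp : ∃ y : M, sgOn φ s y = G ∧ SignType.sign (φ e y) = 1 := by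
          refine ⟨x, rfl, ?_⟩
          rcases hsx : SignType.sign (φ e x) with _ | _ | _
          · exact absurd ⟨x, rfl, hsx⟩ h0
          · exact absurd ⟨x, rfl, hsx⟩ hm
          · rfl
        rw [if_neg hm, if_pos hp]; ring

theorem euler_aux [FiniteDimensional ℝ M] (φ : ι → (M →ₗ[ℝ] ℝ)) (s : Finset ι) :
    ∑ F : ι → SignType, (if F ∈ Set.range (sgOn φ s) then (-1 : ℤ) ^ rkOn φ s F else 0) = 1 := by
  induction s using Finset.induction_on with
  | empty =>
    have : ∀ F : ι → SignType, F ∈ Set.range (sgOn φ ∅) ↔ F = 0 := by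
      intro F
      constructor
      · rintro ⟨x, rfl⟩; funext i; simp [sgOn]
      · rintro rfl; exact ⟨0, by funext i; simp [sgOn]⟩
    have h2 : {i : ι | i ∈ (∅ : Finset ι) ∧ (0 : ι → SignType) i = 0} = ∅ := by
      ext i; simp
    have h3 : rkOn φ ∅ 0 = 0 := by
      rw [rkOn, h2]; simp
    simp only [this, Finset.sum_ite_eq', Finset.mem_univ, if_true, h3, pow_zero]
  | insert e s he ih =>
    refine Eq.trans ?_ ih
    -- fibre over the update map
    have h1 : ∀ f : (ι → SignType) → ℤ,
        ∑ F : ι → SignType, f F = ∑ G : ι → SignType,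
          (if G e = 0 then ∑ t : SignType, f (Function.update G e t) else 0) := by
      intro f
      rw [← Finset.sum_filter]
      rw [Finset.sum_sigma']
      refine Finset.sum_bij' (fun F _ => ⟨Function.update F e 0, F e⟩)
        (fun p _ => Function.update p.1 e p.2) ?_ ?_ ?_ ?_ ?_
      · intro F _; simp
      · intro p _; simp
      · intro F _; simp
      · rintro ⟨G, t⟩ hp
        simp only [Finset.mem_sigma, Finset.mem_filter, Finset.mem_univ, true_and, and_true] at hp
        simp only [Function.update_idem, Function.update_self]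
        congr 1
        rw [← hp, Function.update_eq_self]
      · intro F _; simp
    rw [h1]
    refine Finset.sum_congr rfl fun G _ => ?_
    by_cases hG : G ∈ Set.range (sgOn φ s)
    · obtain ⟨x, rfl⟩ := hG
      rw [if_pos (sgOn_at φ s e he x), if_pos ⟨x, rfl⟩]
      exact fibre_sum φ s e he x
    · rw [if_neg hG]
      split_ifs with hGe
      · refine Finset.sum_eq_zero fun t _ => ?_
        rw [if_neg]
        rintro ⟨y, hy⟩
        apply hG
        refine ⟨y, ?_⟩
        have : Function.update (sgOn φ (insert e s) y) e 0 =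
            Function.update (Function.update G e t) e 0 := by rw [hy]
        rw [sgOn_update_zero φ s e he, Function.update_idem] at this
        rw [this]
        conv_rhs => rw [← Function.update_eq_self e G]
        rw [hGe]
      · rfl

end EulerAux

-- JOB L3
open Classical in
theorem euler {M ι : Type} [AddCommGroup M] [Module ℝ M] [FiniteDimensional ℝ M] [Fintype ι]
    (φ : ι → (M →ₗ[ℝ] ℝ)) :
    ∑ F ∈ (Set.toFinite (signs φ)).toFinset,
      (-1 : ℤ) ^ Module.finrank ℝ (Submodule.span ℝ (φ '' {i | F i = 0})) = 1 := by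
  have h := euler_aux φ Finset.univ
  rw [← Finset.sum_filter] at h
  refine Eq.trans ?_ h
  refine Finset.sum_congr ?_ ?_
  · ext F
    simp only [Set.Finite.mem_toFinset, signs, Finset.mem_filter, Finset.mem_univ, true_and]
    have : sgOn φ Finset.univ = fun (x : M) (i : ι) => SignType.sign (φ i x) := by
      funext x i; simp [sgOn]
    rw [this]
  · intro F _
    have : {i : ι | i ∈ (Finset.univ : Finset ι) ∧ F i = 0} = {i | F i = 0} := by
      ext i; simp
    rw [rkOn, this]

end Pool.Agent.Helper753_MagHom
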