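import Pool.Agent.Helper753_MagHom.Defs3
set_option autoImplicit false
open Finset
namespace Pool.Agent.Helper753_MagHom

section flats

variable {d : ℕ} {A : Arrangement d}

/-- the subspace of a flat -/
def car (F : A.Flat) : Submodule ℝ (Fin d → ℝ) := OrderDual.ofDual F.1

lemma car_le_iff (F G : A.Flat) : F ≤ G ↔ car G ≤ car F := Iff.rfl

lemma car_lt_iff (F G : A.Flat) : F < G ↔ car G < car F := Iff.rfl

lemma car_inj {F G : A.Flat} (h : car F = car G) : F = G := Subtype.ext h

/-- the flat of a set of hyperplanes -/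
def flatOf (S : Set (Submodule ℝ (Fin d → ℝ))) (hS : ∀ X ∈ S, X ∈ A.hyps) : A.Flat :=
  ⟨OrderDual.toDual (sInf S), S, fun X hX => hS X hX, rfl⟩

lemma car_flatOf (S : Set (Submodule ℝ (Fin d → ℝ))) (hS : ∀ X ∈ S, X ∈ A.hyps) :
    car (flatOf S hS) = sInf S := rfl

lemma exists_flatOf (F : A.Flat) :
    ∃ S : Set (Submodule ℝ (Fin d → ℝ)), (∀ X ∈ S, X ∈ A.hyps) ∧ car F = sInf S := by
  obtain ⟨X, S, hS, h⟩ := F
  subst h
  exact ⟨S, fun X hX => hS hX, rfl⟩

/-- the flat of a hyperplane -/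
def hypF (H : A.hyps) : A.Flat :=
  flatOf {H.1} (by intro X hX; rw [Set.mem_singleton_iff.1 hX]; exact H.2)

lemma car_hypF (H : A.hyps) : car (hypF H) = H.1 := sInf_singleton

lemma hyp_ne_top (H : A.hyps) : H.1 ≠ ⊤ := by
  intro h
  have := A.codim_one H.1 H.2
  rw [h] at this
  simp at this

lemma eq_top_of_hyp_lt (H : A.hyps) {X : Submodule ℝ (Fin d → ℝ)} (h : H.1 < X) : X = ⊤ := by
  have h1 := A.codim_one H.1 H.2
  have h2 := Submodule.finrank_lt_finrank_of_lt h
  apply Submodule.eq_top_of_finrank_eq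
  have h3 := Submodule.finrank_le X
  simp only [Module.finrank_fintype_fun_eq_card, Fintype.card_fin] at h3 ⊢
  omega

lemma isBot_iff (F : A.Flat) : IsBot F ↔ car F = ⊤ := by
  constructor
  · intro h
    have := h (flatOf ∅ (fun X hX => absurd hX (Set.notMem_empty X)))
    rw [car_le_iff, car_flatOf] at this
    simpa using this
  · intro h G
    rw [car_le_iff, h]
    exact le_top

/-- a flat is an atom -/
def IsAt {α : Type*} [PartialOrder α] (a : α) : Prop := ¬ IsBot a ∧ ∀ b, b < a → IsBot b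

lemma isAt_map {α β : Type*} [PartialOrder α] [PartialOrder β] (e : α ≃o β) {a : α} (h : IsAt a) :
    IsAt (e a) := by
  refine ⟨fun hb => h.1 fun x => ?_, fun b hb => ?_⟩
  · have := hb (e x)
    simpa using this
  · have h2 : e.symm b < a := by
      rw [← e.symm_apply_apply a]
      exact e.symm.lt_iff_lt.2 hb
    intro x
    have := h.2 _ h2 (e.symm x)
    simpa using this

lemma isAt_iff (F : A.Flat) : IsAt F ↔ ∃ H : A.hyps, F = hypF H := by
  constructor
  · rintro ⟨h1, h2⟩
    obtain ⟨S, hS, hF⟩ := exists_flatOf F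
    rw [isBot_iff] at h1
    have hne : S.Nonempty := by
      by_contra hS'
      rw [Set.not_nonempty_iff_eq_empty] at hS'
      rw [hF, hS'] at h1
      simp at h1
    obtain ⟨H, hH⟩ := hne
    refine ⟨⟨H, hS H hH⟩, ?_⟩
    by_contra hne
    have hle : hypF ⟨H, hS H hH⟩ ≤ F := by
      rw [car_le_iff, car_hypF, hF]
      exact sInf_le hH
    have := h2 _ (lt_of_le_of_ne hle (Ne.symm hne))
    rw [isBot_iff, car_hypF] at this
    exact hyp_ne_top ⟨H, hS H hH⟩ this
  · rintro ⟨H, rfl⟩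
    refine ⟨?_, ?_⟩
    · rw [isBot_iff, car_hypF]
      exact hyp_ne_top H
    · intro b hb
      rw [car_lt_iff, car_hypF] at hb
      rw [isBot_iff]
      exact eq_top_of_hyp_lt H hb

lemma hypF_inj {H H' : A.hyps} (h : hypF H = hypF H') : H = H' := by
  apply Subtype.ext
  rw [← car_hypF H, ← car_hypF H', h]

variable {d' : ℕ} {A' : Arrangement d'}

lemma exists_beta (ψ : A.Flat ≃o A'.Flat) (H : A.hyps) : ∃ H' : A'.hyps, ψ (hypF H) = hypF H' :=
  (isAt_iff _).1 (isAt_map ψ ((isAt_iff _).2 ⟨H, rfl⟩))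

/-- the bijection of the hyperplanes -/
noncomputable def betaFun (ψ : A.Flat ≃o A'.Flat) (H : A.hyps) : A'.hyps :=
  (exists_beta ψ H).choose

lemma hypF_betaFun (ψ : A.Flat ≃o A'.Flat) (H : A.hyps) : hypF (betaFun ψ H) = ψ (hypF H) :=
  ((exists_beta ψ H).choose_spec).symm

/-- the bijection of the hyperplanes -/
noncomputable def beta (ψ : A.Flat ≃o A'.Flat) : A.hyps ≃ A'.hyps where
  toFun := betaFun ψ
  invFun := betaFun ψ.symm
  left_inv H := by
    apply hypF_inj
    rw [hypF_betaFun, hypF_betaFun]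
    simp
  right_inv H := by
    apply hypF_inj
    rw [hypF_betaFun, hypF_betaFun]
    simp

lemma hypF_beta (ψ : A.Flat ≃o A'.Flat) (H : A.hyps) : hypF (beta ψ H) = ψ (hypF H) :=
  hypF_betaFun ψ H

lemma car_le_beta (ψ : A.Flat ≃o A'.Flat) (H : A.hyps) (F : A.Flat) :
    car (ψ F) ≤ (beta ψ H).1 ↔ car F ≤ H.1 := by
  rw [← car_hypF (beta ψ H), ← car_le_iff, hypF_beta, ψ.le_iff_le, car_le_iff, car_hypF]

lemma isFlat_iff (φ : A.hyps → ((Fin d → ℝ) →ₗ[ℝ] ℝ)) (hφ : ∀ H, LinearMap.ker (φ H) = H.1)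
    (S : Finset A.hyps) : IsFlat φ S ↔ ∃ F : A.Flat, ∀ H, H ∈ S ↔ car F ≤ H.1 := by
  constructor
  · rintro ⟨x, hx⟩
    refine ⟨flatOf {X | ∃ H ∈ S, X = H.1} (by rintro X ⟨H, -, rfl⟩; exact H.2), fun H => ?_⟩
    rw [car_flatOf]
    constructor
    · intro hH
      exact sInf_le ⟨H, hH, rfl⟩
    · intro hH
      rw [hx, ← LinearMap.mem_ker, hφ]
      apply hH
      rw [Submodule.mem_sInf]
      rintro X ⟨H', hH', rfl⟩
      rw [← hφ, LinearMap.mem_ker]
      exact (hx H').1 hH'
  · rintro ⟨F, hF⟩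
    -- a point of `car F` outside of the hyperplanes not in `S`
    have key : ∃ x ∈ car F, ∀ H : A.hyps, ¬ (car F ≤ H.1) → x ∉ H.1 := by
      by_contra hcon
      push Not at hcon
      have : ⋃ i : {H : A.hyps // ¬ (car F ≤ H.1)},
          ((i.1.1.comap (car F).subtype : Submodule ℝ (car F)) : Set (car F)) = Set.univ := by
        rw [Set.eq_univ_iff_forall]
        rintro ⟨x, hx⟩
        obtain ⟨H, h1, h2⟩ := hcon x hx
        rw [Set.mem_iUnion]
        exact ⟨⟨H, h1⟩, by simpa using h2⟩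
      obtain ⟨⟨H, hH⟩, h⟩ := Subspace.exists_eq_top_of_iUnion_eq_univ this
      apply hH
      intro x hx
      have h3 : (⟨x, hx⟩ : car F) ∈ (H.1.comap (car F).subtype : Submodule ℝ (car F)) := by
        rw [h]; trivial
      simpa using h3
    obtain ⟨x, hx, hx'⟩ := key
    refine ⟨x, fun H => ?_⟩
    rw [hF, ← LinearMap.mem_ker, hφ]
    constructor
    · intro h; exact h hx
    · intro h
      by_contra h'
      exact hx' H h' h

/-- the codimension of a flat -/
noncomputable def codimF (F : A.Flat) : ℕ := d - Module.finrank ℝ (car F)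

lemma finrank_car_le (F : A.Flat) : Module.finrank ℝ (car F) ≤ d := by
  have h3 := Submodule.finrank_le (car F)
  simpa using h3

lemma codimF_strict {F G : A.Flat} (h : F < G) : codimF F < codimF G := by
  have h2 := Submodule.finrank_lt_finrank_of_lt ((car_lt_iff _ _).1 h)
  have h3 := finrank_car_le F
  unfold codimF
  omega

lemma exists_codim_pred (F : A.Flat) (h : 0 < codimF F) :
    ∃ G : A.Flat, G < F ∧ codimF G + 1 = codimF F := by
  classical
  -- a smallest set of hyperplanes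
  have hex : ∃ n : ℕ, ∃ T : Finset (Submodule ℝ (Fin d → ℝ)), T ⊆ A.hyps ∧
      sInf (T : Set (Submodule ℝ (Fin d → ℝ))) = car F ∧ T.card = n := by
    obtain ⟨S, hS, hF⟩ := exists_flatOf F
    have hfin : S.Finite := A.hyps.finite_toSet.subset (fun X hX => hS X hX)
    refine ⟨_, hfin.toFinset, ?_, ?_, rfl⟩
    · intro X hX
      exact hS X (by simpa using hX)
    · simp [hF]
  obtain ⟨T, hT, hTF, hcard⟩ := Nat.find_spec hex
  have hmin : ∀ T' : Finset (Submodule ℝ (Fin d → ℝ)), T' ⊆ A.hyps → T'.card < T.card →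
      sInf (T' : Set (Submodule ℝ (Fin d → ℝ))) ≠ car F := by
    intro T' h1 h2 h3
    rw [hcard] at h2
    exact Nat.find_min hex h2 ⟨T', h1, h3, rfl⟩
  have hne : T.Nonempty := by
    by_contra hT'
    rw [Finset.not_nonempty_iff_eq_empty] at hT'
    subst hT'
    simp only [Finset.coe_empty, sInf_empty] at hTF
    unfold codimF at h
    rw [← hTF] at h
    simp at h
  obtain ⟨H, hH⟩ := hne
  have hT'sub : ∀ X ∈ ((T.erase H : Finset _) : Set (Submodule ℝ (Fin d → ℝ))), X ∈ A.hyps := by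
    intro X hX
    exact hT (Finset.mem_of_mem_erase hX)
  set G : A.Flat := flatOf _ hT'sub with hG
  have hGcar : car G = sInf ((T.erase H : Finset _) : Set (Submodule ℝ (Fin d → ℝ))) := rfl
  have hmeet : H ⊓ car G = car F := by
    rw [hGcar, ← hTF, ← sInf_insert, ← Finset.coe_insert, Finset.insert_erase hH]
  have hneq : car G ≠ car F := by
    rw [hGcar]
    apply hmin _ (fun X hX => hT'sub X hX)
    exact Finset.card_erase_lt_of_mem hH
  have hle : car F ≤ car G := by rw [← hmeet]; exact inf_le_right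
  have hlt : car F < car G := lt_of_le_of_ne hle (Ne.symm hneq)
  refine ⟨G, (car_lt_iff _ _).2 hlt, ?_⟩
  have h1 := Submodule.finrank_lt_finrank_of_lt hlt
  have h2 := Submodule.finrank_sup_add_finrank_inf_eq H (car G)
  rw [hmeet] at h2
  have h3 := A.codim_one H (hT hH)
  have h4 : Module.finrank ℝ (H ⊔ car G : Submodule ℝ (Fin d → ℝ)) ≤ d := by
    have := Submodule.finrank_le (H ⊔ car G)
    simpa using this
  have h5 := finrank_car_le G
  have h6 := finrank_car_le F
  unfold codimF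
  omega

lemma height_eq_codimF (F : A.Flat) : Order.height F = (codimF F : ℕ∞) := by
  induction' hn : codimF F using Nat.strong_induction_on with n ih generalizing F
  rw [Order.height_eq_iSup_lt_height]
  apply le_antisymm
  · apply iSup₂_le
    intro G hG
    have h1 := codimF_strict hG
    rw [hn] at h1
    rw [ih _ h1 G rfl]
    exact_mod_cast h1
  · rcases Nat.eq_zero_or_pos n with h0 | hpos
    · subst h0; simp
    · obtain ⟨G, hG, hG2⟩ := exists_codim_pred F (by omega)
      have h1 := codimF_strict hG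
      rw [hn] at h1
      have h2 : (n : ℕ∞) = Order.height G + 1 := by
        rw [ih _ h1 G rfl, ← hn, ← hG2]
        push_cast
        rfl
      rw [h2]
      exact le_iSup₂ (f := fun (y : A.Flat) (_ : y < F) => Order.height y + 1) G hG

lemma codimF_map (ψ : A.Flat ≃o A'.Flat) (F : A.Flat) : codimF (ψ F) = codimF F := by
  have h := Order.height_orderIso ψ F
  rw [height_eq_codimF, height_eq_codimF] at h
  exact_mod_cast h

lemma cdim_eq_codimF (φ : A.hyps → ((Fin d → ℝ) →ₗ[ℝ] ℝ)) (hφ : ∀ H, LinearMap.ker (φ H) = H.1)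
    (S : Finset A.hyps) (F : A.Flat) (hF : ∀ H, H ∈ S ↔ car F ≤ H.1) :
    cdim φ S = codimF F := by
  have h1 : cdim φ S + Module.finrank ℝ (Submodule.span ℝ (φ '' (S : Set A.hyps)) :
      Subspace ℝ (Module.Dual ℝ (Fin d → ℝ))).dualCoannihilator =
      Module.finrank ℝ (Fin d → ℝ) := Subspace.finrank_add_finrank_dualCoannihilator_eq
    (Submodule.span ℝ (φ '' (S : Set A.hyps)) : Subspace ℝ (Module.Dual ℝ (Fin d → ℝ)))
  have h2 : (Submodule.span ℝ (φ '' (S : Set A.hyps)) :
      Subspace ℝ (Module.Dual ℝ (Fin d → ℝ))).dualCoannihilator = car F := by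
    apply SetLike.coe_injective
    rw [Submodule.coe_dualCoannihilator_span]
    ext x
    simp only [Set.mem_ofPred_eq, SetLike.mem_coe, Set.forall_mem_image]
    constructor
    · intro h
      obtain ⟨T, hT, hFT⟩ := exists_flatOf F
      rw [hFT, Submodule.mem_sInf]
      intro X hX
      have h3 : (⟨X, hT X hX⟩ : A.hyps) ∈ S := by
        rw [hF, hFT]
        exact sInf_le hX
      have h4 := h h3
      rw [← LinearMap.mem_ker, hφ] at h4
      exact h4
    · intro h H hH
      have h4 : x ∈ H.1 := (hF H).1 hH h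
      rw [← hφ, LinearMap.mem_ker] at h4
      exact h4
  rw [h2] at h1
  have h3 := finrank_car_le F
  simp only [Module.finrank_fintype_fun_eq_card, Fintype.card_fin] at h1
  unfold codimF
  omega

end flats

-- JOB L4a
theorem flats_equiv {d d' : ℕ} (A : Arrangement d) (A' : Arrangement d') (ψ : A.Flat ≃o A'.Flat)
    (φ : A.hyps → ((Fin d → ℝ) →ₗ[ℝ] ℝ)) (hφ : ∀ H, LinearMap.ker (φ H) = H.1)
    (φ' : A'.hyps → ((Fin d' → ℝ) →ₗ[ℝ] ℝ)) (hφ' : ∀ H, LinearMap.ker (φ' H) = H.1) :
    ∃ β : A.hyps ≃ A'.hyps,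
      (∀ S : Finset A.hyps, IsFlat φ S ↔ IsFlat φ' (S.map β.toEmbedding)) ∧
      (∀ S : Finset A.hyps, IsFlat φ S → cdim φ S = cdim φ' (S.map β.toEmbedding)) := by
  have hmap : ∀ (S : Finset A.hyps) (F : A.Flat), (∀ H, H ∈ S ↔ car F ≤ H.1) →
      ∀ H', H' ∈ S.map (beta ψ).toEmbedding ↔ car (ψ F) ≤ H'.1 := by
    intro S F hF H'
    obtain ⟨H, rfl⟩ := (beta ψ).surjective H'
    rw [car_le_beta, ← hF]
    simp
  refine ⟨beta ψ, fun S => ?_, fun S hS => ?_⟩
  · rw [isFlat_iff φ hφ, isFlat_iff φ' hφ']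
    constructor
    · rintro ⟨F, hF⟩
      exact ⟨ψ F, hmap S F hF⟩
    · rintro ⟨F', hF'⟩
      refine ⟨ψ.symm F', fun H => ?_⟩
      have h1 := hF' (beta ψ H)
      rw [← ψ.apply_symm_apply F', car_le_beta] at h1
      rw [← h1]
      simp
  · obtain ⟨F, hF⟩ := (isFlat_iff φ hφ S).1 hS
    rw [cdim_eq_codimF φ hφ S F hF, cdim_eq_codimF φ' hφ' _ (ψ F) (hmap S F hF), codimF_map]

end Pool.Agent.Helper753_MagHom
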