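import Pool.Agent.Helper753_MagHom.Defs3
import Pool.Agent.Helper753_MagHom.Euler
import Pool.Agent.Helper753_MagHom.ArrSign
set_option autoImplicit false
set_option linter.unusedSectionVars false
set_option linter.unusedDecidableInType false
set_option linter.unusedFintypeInType false
open Finset
namespace Pool.Agent.Helper753_MagHom

section GE
variable {M ι : Type} [AddCommGroup M] [Module ℝ M] [Fintype ι] [DecidableEq ι]

/-- the sign vector of a point, restricted to `R` -/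
noncomputable def geRs (φ : ι → (M →ₗ[ℝ] ℝ)) (R : Finset ι) (x : M) : ι → SignType :=
  fun i => if i ∈ R then SignType.sign (φ i x) else 0

/-- the sign vectors on `R` with zero set `S` -/
def geH (φ : ι → (M →ₗ[ℝ] ℝ)) (R S : Finset ι) : Set (ι → SignType) :=
  {F | ∃ x, geRs φ R x = F ∧ ∀ i ∈ R, (i ∈ S ↔ φ i x = 0)}

lemma ge_flat_inter (φ : ι → (M →ₗ[ℝ] ℝ)) {R : Finset ι} (hR : IsFlat φ R) (x : M) :
    IsFlat φ (R.filter fun i => φ i x = 0) := by
  obtain ⟨y, hy⟩ := hR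
  have hO := OM_signs φ
  obtain ⟨z, hz⟩ := hO.comp _ ⟨y, rfl⟩ _ ⟨x, rfl⟩
  refine ⟨z, fun i => ?_⟩
  have h := congrFun hz i
  simp only [cmp, sign_eq_zero_iff] at h
  rw [mem_filter, hy]
  by_cases h0 : φ i y = 0
  · rw [if_pos h0] at h
    rw [← sign_eq_zero_iff (a := φ i z), h, sign_eq_zero_iff]
    simp [h0]
  · rw [if_neg h0] at h
    rw [← sign_eq_zero_iff (a := φ i z), h, sign_eq_zero_iff]
    simp [h0]

lemma ge_rn {A B : Type} [AddCommGroup A] [Module ℝ A] [AddCommGroup B] [Module ℝ B]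
    [FiniteDimensional ℝ A] (r : A →ₗ[ℝ] B) (V W : Submodule ℝ A) (hVW : V ≤ W)
    (hker : LinearMap.ker r = V) :
    Module.finrank ℝ (W.map r) + Module.finrank ℝ V = Module.finrank ℝ W := by
  have h3 := LinearMap.finrank_range_add_finrank_ker (r ∘ₗ W.subtype)
  have h4 : LinearMap.range (r ∘ₗ W.subtype) = W.map r := by
    rw [LinearMap.range_comp, Submodule.range_subtype]
  have h5 : Module.finrank ℝ (LinearMap.ker (r ∘ₗ W.subtype)) = Module.finrank ℝ V := by
    have h6 : LinearMap.ker (r ∘ₗ W.subtype) = V.comap W.subtype := by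
      rw [LinearMap.ker_comp, hker]
    rw [h6]
    exact LinearEquiv.finrank_eq (Submodule.comapSubtypeEquivOfLe hVW)
  rw [h4, h5] at h3
  exact h3

lemma ge_rank [FiniteDimensional ℝ M] (φ : ι → (M →ₗ[ℝ] ℝ)) {S S' : Finset ι} (h : S ⊆ S')
    (V : Submodule ℝ (M →ₗ[ℝ] ℝ)) (hV : V = Submodule.span ℝ (φ '' (S : Set ι)))
    (θ : ι → (V.dualCoannihilator →ₗ[ℝ] ℝ)) (T : Set ι)
    (hθ : ∀ i ∈ S', θ i = (φ i).comp (Submodule.subtype V.dualCoannihilator))
    (hT : ∀ i ∈ T, i ∉ S' → θ i = 0) (hT' : ∀ i ∈ S', i ∈ T) :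
    Module.finrank ℝ (Submodule.span ℝ (θ '' T)) = cdim φ S' - cdim φ S := by
  set W := Submodule.span ℝ (φ '' (S' : Set ι)) with hW
  set r : (M →ₗ[ℝ] ℝ) →ₗ[ℝ] (V.dualCoannihilator →ₗ[ℝ] ℝ) :=
    (V.dualCoannihilator.subtype).dualMap with hr
  have hVW : V ≤ W := by
    rw [hV]; exact Submodule.span_mono (Set.image_mono (by exact_mod_cast h))
  have h1 : Submodule.span ℝ (θ '' T) = W.map r := by
    rw [hW, Submodule.map_span]
    apply le_antisymm
    · rw [Submodule.span_le]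
      rintro _ ⟨i, hi, rfl⟩
      by_cases hi' : i ∈ S'
      · rw [hθ i hi']
        exact Submodule.subset_span ⟨φ i, ⟨i, by exact_mod_cast hi', rfl⟩, rfl⟩
      · rw [hT i hi hi']
        exact Submodule.zero_mem _
    · rw [Submodule.span_le]
      rintro _ ⟨_, ⟨i, hi, rfl⟩, rfl⟩
      have hi' : i ∈ S' := by exact_mod_cast hi
      refine Submodule.subset_span ⟨i, hT' i hi', ?_⟩
      rw [hθ i hi']; rfl
  have hker : LinearMap.ker r = V := by
    ext f
    rw [LinearMap.mem_ker]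
    have h2 : V.dualCoannihilator.dualAnnihilator = V := Subspace.dualCoannihilator_dualAnnihilator_eq
    constructor
    · intro hf
      rw [← h2, Submodule.mem_dualAnnihilator]
      intro w hw
      exact congrArg (fun g => g ⟨w, hw⟩) hf
    · intro hf
      rw [← h2, Submodule.mem_dualAnnihilator] at hf
      ext ⟨w, hw⟩
      exact hf w hw
  have h3 := ge_rn r V W hVW hker
  rw [h1]
  have h7 : cdim φ S = Module.finrank ℝ V := by rw [hV]; rfl
  have h8 : cdim φ S' = Module.finrank ℝ W := rfl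
  rw [h7, h8]
  omega

open Classical in
lemma ge_euler [FiniteDimensional ℝ M] (φ : ι → (M →ₗ[ℝ] ℝ)) {S R : Finset ι}
    (hR : IsFlat φ R) (hSR : S ⊆ R) :
    ∑ S' ∈ (univ : Finset (Finset ι)).filter (fun S' => IsFlat φ S' ∧ S ⊆ S' ∧ S' ⊆ R),
      (-1 : ℤ) ^ (cdim φ S' - cdim φ S) * ((geH φ R S').ncard : ℤ) = 1 := by
  set V := Submodule.span ℝ (φ '' (S : Set ι)) with hV
  let θ : ι → (V.dualCoannihilator →ₗ[ℝ] ℝ) := fun i =>
    if i ∈ R then (φ i).comp V.dualCoannihilator.subtype else 0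
  have hmem : ∀ x : M, x ∈ V.dualCoannihilator ↔ ∀ i ∈ S, φ i x = 0 := by
    intro x
    rw [Submodule.mem_dualCoannihilator]
    constructor
    · intro h i hi
      exact h _ (Submodule.subset_span ⟨i, by exact_mod_cast hi, rfl⟩)
    · intro h f hf
      refine Submodule.span_induction (p := fun f _ => f x = 0) ?_ ?_ ?_ ?_ hf
      · rintro _ ⟨i, hi, rfl⟩
        exact h i (by exact_mod_cast hi)
      · rfl
      · intro f g _ _ h1 h2
        simp [h1, h2]
      · intro a f _ h1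
        simp [h1]
  have hs : ∀ x : V.dualCoannihilator, (fun i => SignType.sign (θ i x)) = geRs φ R x.1 := by
    intro x
    funext i
    simp only [θ, geRs]
    split_ifs <;> simp
  have he := euler θ
  obtain ⟨g, hg0⟩ : ∃ g : (ι → SignType) → Finset ι, g = fun F => R.filter fun i => F i = 0 :=
    ⟨_, rfl⟩
  have hgm : ∀ F i, i ∈ g F ↔ i ∈ R ∧ F i = 0 := by
    intro F i; rw [hg0, mem_filter]
  rw [← Finset.sum_fiberwise_of_maps_to (g := g)
    (t := (univ : Finset (Finset ι)).filter (fun S' => IsFlat φ S' ∧ S ⊆ S' ∧ S' ⊆ R))] at he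
  · refine Eq.trans ?_ he
    refine Finset.sum_congr rfl ?_
    intro S' hS'
    rw [mem_filter] at hS'
    obtain ⟨-, hfl, h1, h2⟩ := hS'
    have hconst : ∀ F ∈ (Set.toFinite (signs θ)).toFinset.filter (fun F => g F = S'),
        (-1 : ℤ) ^ Module.finrank ℝ (Submodule.span ℝ (θ '' {i | F i = 0})) =
          (-1 : ℤ) ^ (cdim φ S' - cdim φ S) := by
      intro F hF
      rw [mem_filter, Set.Finite.mem_toFinset] at hF
      obtain ⟨⟨x, rfl⟩, hgF⟩ := hF
      congr 1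
      refine ge_rank φ h1 V hV θ _ ?_ ?_ ?_
      · intro i hi
        simp only [θ]
        rw [if_pos (h2 hi)]
      · intro i hi hi'
        simp only [θ]
        rw [if_neg]
        intro hiR
        apply hi'
        rw [← hgF, hgm]
        exact ⟨hiR, hi⟩
      · intro i hi
        rw [← hgF, hgm] at hi
        exact hi.2
    rw [Finset.sum_congr rfl hconst, Finset.sum_const, nsmul_eq_mul, mul_comm]
    congr 2
    rw [← Set.ncard_coe_finset]
    congr 1
    ext F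
    simp only [coe_filter, Set.Finite.mem_toFinset, Set.mem_ofPred_eq]
    constructor
    · rintro ⟨x, rfl, hx⟩
      have hxV : x ∈ V.dualCoannihilator := by
        rw [hmem]
        intro i hi
        exact (hx i (hSR hi)).mp (h1 hi)
      refine ⟨⟨⟨x, hxV⟩, hs ⟨x, hxV⟩⟩, ?_⟩
      ext i
      rw [hgm]
      simp only [geRs]
      constructor
      · rintro ⟨hi, h3⟩
        rw [if_pos hi, sign_eq_zero_iff] at h3
        exact (hx i hi).mpr h3
      · intro hi
        refine ⟨h2 hi, ?_⟩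
        rw [if_pos (h2 hi), sign_eq_zero_iff]
        exact (hx i (h2 hi)).mp hi
    · rintro ⟨⟨x, rfl⟩, hg⟩
      refine ⟨x.1, (hs x).symm, ?_⟩
      intro i hi
      rw [← hg, hgm]
      have h3 := congrFun (hs x) i
      simp only [geRs, if_pos hi] at h3
      simp only [hi, true_and, h3, sign_eq_zero_iff]
  · intro F hF
    rw [Set.Finite.mem_toFinset] at hF
    obtain ⟨x, rfl⟩ := hF
    rw [mem_filter]
    have h1 : g (fun i => SignType.sign (θ i x)) = R.filter fun i => φ i x.1 = 0 := by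
      ext i
      rw [hgm, mem_filter]
      simp only [θ]
      constructor
      · rintro ⟨hi, h3⟩
        rw [if_pos hi, sign_eq_zero_iff] at h3
        exact ⟨hi, h3⟩
      · rintro ⟨hi, h3⟩
        rw [if_pos hi, sign_eq_zero_iff]
        exact ⟨hi, h3⟩
    rw [h1]
    refine ⟨mem_univ _, ge_flat_inter φ hR x.1, ?_, filter_subset _ _⟩
    intro i hi
    rw [mem_filter]
    exact ⟨hSR hi, (hmem x.1).mp x.2 i hi⟩

variable {M' : Type} [AddCommGroup M'] [Module ℝ M']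

lemma ge_card [FiniteDimensional ℝ M] [FiniteDimensional ℝ M'] (φ : ι → (M →ₗ[ℝ] ℝ))
    (ψ : ι → (M' →ₗ[ℝ] ℝ)) (hflat : ∀ S, IsFlat φ S ↔ IsFlat ψ S)
    (hcd : ∀ S, IsFlat φ S → cdim φ S = cdim ψ S) (R : Finset ι) (hR : IsFlat φ R) :
    ∀ (n : ℕ) (S : Finset ι), IsFlat φ S → S ⊆ R → (R \ S).card = n →
      (geH φ R S).ncard = (geH ψ R S).ncard := by
  classical
  intro n
  induction n using Nat.strong_induction_on with
  | _ n ih =>
  intro S hS hSR hn
  have h1 := ge_euler φ hR hSR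
  have h2 := ge_euler ψ ((hflat R).mp hR) hSR
  have hfil : (univ : Finset (Finset ι)).filter (fun S' => IsFlat φ S' ∧ S ⊆ S' ∧ S' ⊆ R) =
      (univ : Finset (Finset ι)).filter (fun S' => IsFlat ψ S' ∧ S ⊆ S' ∧ S' ⊆ R) := by
    ext S'
    simp only [mem_filter, hflat]
  rw [← hfil] at h2
  have hmem : S ∈ (univ : Finset (Finset ι)).filter
      (fun S' => IsFlat φ S' ∧ S ⊆ S' ∧ S' ⊆ R) := by
    rw [mem_filter]; exact ⟨mem_univ _, hS, subset_rfl, hSR⟩
  rw [← Finset.add_sum_erase _ _ hmem] at h1 h2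
  have h3 : ∑ S' ∈ ((univ : Finset (Finset ι)).filter
      (fun S' => IsFlat φ S' ∧ S ⊆ S' ∧ S' ⊆ R)).erase S,
        (-1 : ℤ) ^ (cdim φ S' - cdim φ S) * ((geH φ R S').ncard : ℤ) =
      ∑ S' ∈ ((univ : Finset (Finset ι)).filter
      (fun S' => IsFlat φ S' ∧ S ⊆ S' ∧ S' ⊆ R)).erase S,
        (-1 : ℤ) ^ (cdim ψ S' - cdim ψ S) * ((geH ψ R S').ncard : ℤ) := by
    refine Finset.sum_congr rfl ?_
    intro S' hS'
    rw [mem_erase, mem_filter] at hS'
    obtain ⟨hne, -, hfl, h4, h5⟩ := hS'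
    rw [hcd S' hfl, hcd S hS]
    rw [ih (R \ S').card ?_ S' hfl h5 rfl]
    rw [← hn]
    apply Finset.card_lt_card
    refine ⟨sdiff_subset_sdiff subset_rfl h4, ?_⟩
    intro hsub
    apply hne
    apply subset_antisymm ?_ h4
    intro i hi
    by_contra hiS
    have := hsub (mem_sdiff.mpr ⟨h5 hi, hiS⟩)
    exact (mem_sdiff.mp this).2 hi
  rw [h3] at h1
  simp only [Nat.sub_self, pow_zero, one_mul] at h1 h2
  have : ((geH φ R S).ncard : ℤ) = (geH ψ R S).ncard := by linarith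
  exact_mod_cast this

lemma ge_H_equiv [FiniteDimensional ℝ M] [FiniteDimensional ℝ M'] (φ : ι → (M →ₗ[ℝ] ℝ))
    (ψ : ι → (M' →ₗ[ℝ] ℝ)) (hflat : ∀ S, IsFlat φ S ↔ IsFlat ψ S)
    (hcd : ∀ S, IsFlat φ S → cdim φ S = cdim ψ S) (R : Finset ι) (hR : IsFlat φ R)
    (S : Finset ι) (hS : IsFlat φ S) (hSR : S ⊆ R) : Nonempty (geH φ R S ≃ geH ψ R S) := by
  have h := ge_card φ ψ hflat hcd R hR _ S hS hSR rfl
  rw [← Nat.card_coe_set_eq, ← Nat.card_coe_set_eq] at h
  exact Finite.card_eq.mp h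

/-- sign vectors with zero set `S` and with the members of `l` parallel -/
def geN (φ : ι → (M →ₗ[ℝ] ℝ)) (l : List (Finset ι)) (S : Finset ι) : Set (ι → SignType) :=
  {F | F ∈ signs φ ∧ zs F = S ∧ ∀ R ∈ l, zro F R ∈ signs φ}

lemma geN_nil (φ : ι → (M →ₗ[ℝ] ℝ)) (S : Finset ι) : geN φ [] S = geH φ univ S := by
  ext F
  constructor
  · rintro ⟨⟨x, rfl⟩, hz, -⟩
    refine ⟨x, ?_, ?_⟩
    · funext i; simp [geRs]
    · intro i _
      rw [← hz, mem_zs, sign_eq_zero_iff]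
  · rintro ⟨x, rfl, hx⟩
    refine ⟨⟨x, ?_⟩, ?_, by simp⟩
    · funext i; simp [geRs]
    · ext i
      rw [mem_zs]
      simp only [geRs, mem_univ, if_true, sign_eq_zero_iff]
      exact (hx i (mem_univ i)).symm

/-- peel off the smallest set -/
def geN_cons (φ : ι → (M →ₗ[ℝ] ℝ)) (l : List (Finset ι)) (R S : Finset ι) (hSR : S ⊆ R)
    (hl : ∀ R' ∈ l, R ⊆ R') : geN φ (R :: l) S ≃ geN φ l R × geH φ R S where
  toFun F := (⟨zro F.1 R, by
      refine ⟨F.2.2.2 R (by simp), ?_, ?_⟩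
      · rw [zs_zro, F.2.2.1, union_eq_right]; exact hSR
      · intro R' hR'
        have : zro (zro F.1 R) R' = zro F.1 R' := by
          funext e
          simp only [zro]
          by_cases h1 : e ∈ R'
          · simp [h1]
          · have h2 : e ∉ R := fun h => h1 (hl R' hR' h)
            simp [h1, h2]
        rw [this]
        exact F.2.2.2 R' (by simp [hR'])⟩,
    ⟨fun i => if i ∈ R then F.1 i else 0, by
      obtain ⟨x, hx⟩ := F.2.1
      refine ⟨x, ?_, ?_⟩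
      · funext i
        simp only [geRs, ← hx]
      · intro i _
        rw [← F.2.2.1, mem_zs, ← hx, sign_eq_zero_iff]⟩)
  invFun p := ⟨cmp p.1.1 p.2.1, by
    obtain ⟨⟨G, hG1, hG2, hG3⟩, ⟨Y, hY⟩⟩ := p
    obtain ⟨x, hx1, hx2⟩ := hY
    have hGR : ∀ e, G e = 0 ↔ e ∈ R := fun e => by rw [← hG2, mem_zs]
    have hYR : ∀ e ∈ R, Y e = SignType.sign (φ e x) := by
      intro e he
      rw [← hx1]; simp [geRs, he]
    refine ⟨?_, ?_, ?_⟩
    · have : cmp G Y = cmp G (fun i => SignType.sign (φ i x)) := by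
        funext e
        simp only [cmp]
        by_cases he : G e = 0
        · rw [if_pos he, if_pos he, hYR e ((hGR e).mp he)]
        · rw [if_neg he, if_neg he]
      show cmp G Y ∈ signs φ
      rw [this]
      exact (OM_signs φ).comp _ hG1 _ ⟨x, rfl⟩
    · ext e
      rw [mem_zs]
      simp only [cmp]
      by_cases he : G e = 0
      · have heR := (hGR e).mp he
        rw [if_pos he, hYR e heR, sign_eq_zero_iff]
        exact (hx2 e heR).symm
      · rw [if_neg he]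
        simp only [he, false_iff]
        intro heS
        exact he ((hGR e).mpr (hSR heS))
    · intro R' hR'
      have hRR' : R ⊆ R' := by
        rcases List.mem_cons.mp hR' with h | h
        · rw [h]
        · exact hl R' h
      have : zro (cmp G Y) R' = zro G R' := by
        funext e
        simp only [zro, cmp]
        by_cases h1 : e ∈ R'
        · simp [h1]
        · have : G e ≠ 0 := fun h => h1 (hRR' ((hGR e).mp h))
          simp [h1, this]
      show zro (cmp G Y) R' ∈ signs φ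
      rw [this]
      rcases List.mem_cons.mp hR' with h | h
      · have : zro G R' = G := by
          funext e
          simp only [zro]
          by_cases h1 : e ∈ R'
          · rw [if_pos h1]; exact ((hGR e).mpr (h ▸ h1)).symm
          · rw [if_neg h1]
        rw [this]; exact hG1
      · exact hG3 R' h⟩
  left_inv F := by
    apply Subtype.ext
    funext e
    simp only [cmp, zro]
    by_cases he : e ∈ R
    · simp [he]
    · simp only [he, if_false]
      by_cases h0 : F.1 e = 0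
      · simp [h0]
      · simp [h0]
  right_inv p := by
    obtain ⟨⟨G, hG1, hG2, hG3⟩, ⟨Y, hY⟩⟩ := p
    obtain ⟨x, hx1, hx2⟩ := hY
    have hGR : ∀ e, G e = 0 ↔ e ∈ R := fun e => by rw [← hG2, mem_zs]
    apply Prod.ext
    · apply Subtype.ext
      funext e
      simp only [zro, cmp]
      by_cases he : e ∈ R
      · rw [if_pos he]; exact ((hGR e).mpr he).symm
      · rw [if_neg he, if_neg (fun h => he ((hGR e).mp h))]
    · apply Subtype.ext
      funext e
      simp only [cmp]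
      by_cases he : e ∈ R
      · rw [if_pos he, if_pos ((hGR e).mpr he)]
      · rw [if_neg he, ← hx1]
        simp [geRs, he]

lemma geN_equiv [FiniteDimensional ℝ M] [FiniteDimensional ℝ M'] (φ : ι → (M →ₗ[ℝ] ℝ))
    (ψ : ι → (M' →ₗ[ℝ] ℝ)) (hflat : ∀ S, IsFlat φ S ↔ IsFlat ψ S)
    (hcd : ∀ S, IsFlat φ S → cdim φ S = cdim ψ S) :
    ∀ (l : List (Finset ι)) (S : Finset ι), IsFlat φ S → (∀ R ∈ l, IsFlat φ R) →
      (∀ R ∈ l, S ⊆ R) → l.Pairwise (· ⊆ ·) → Nonempty (geN φ l S ≃ geN ψ l S) := by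
  intro l
  induction l with
  | nil =>
    intro S hS _ _ _
    rw [geN_nil, geN_nil]
    exact ge_H_equiv φ ψ hflat hcd univ ⟨0, by simp⟩ S hS (subset_univ _)
  | cons R l ih =>
    intro S hS hfl hsub hpw
    rw [List.pairwise_cons] at hpw
    have hSR := hsub R (by simp)
    have hR := hfl R (by simp)
    obtain ⟨e1⟩ := ih R hR (fun R' h => hfl R' (by simp [h])) hpw.1 hpw.2
    obtain ⟨e2⟩ := ge_H_equiv φ ψ hflat hcd R hR S hS hSR
    exact ⟨(geN_cons φ l R S hSR hpw.1).trans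
      ((Equiv.prodCongr e1 e2).trans (geN_cons ψ l R S hSR hpw.1).symm)⟩

lemma ge_lev_flat (φ : ι → (M →ₗ[ℝ] ℝ)) {X : ι → SignType} {m : ι → ℕ}
    (h0 : ∀ e, X e ≠ 0) (hc : Crit (signs φ) X m) (j : ℕ) (hj : 1 ≤ j) : IsFlat φ (lev m j) := by
  obtain ⟨x, hx⟩ := hc j hj
  refine ⟨x, fun i => ?_⟩
  have h := congrFun hx i
  simp only [zro] at h
  rw [← sign_eq_zero_iff (a := φ i x), h]
  by_cases h1 : i ∈ lev m j
  · simp [h1]
  · simp [h1, h0]

lemma ge_empty_flat (φ : ι → (M →ₗ[ℝ] ℝ)) {X : ι → SignType} (hX : X ∈ signs φ)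
    (h0 : ∀ e, X e ≠ 0) : IsFlat φ ∅ := by
  obtain ⟨x, hx⟩ := hX
  refine ⟨x, fun i => ?_⟩
  have h : SignType.sign (φ i x) = X i := congrFun hx i
  rw [← sign_eq_zero_iff (a := φ i x), h]
  simp [h0]

/-- the level sets, the smallest first -/
def geL (m : ι → ℕ) : List (Finset ι) :=
  ((List.range (∑ e, m e)).map (fun j => lev m (j + 1))).reverse

lemma ge_mem_L {m : ι → ℕ} {R : Finset ι} :
    R ∈ geL m ↔ ∃ j, j < ∑ e, m e ∧ lev m (j + 1) = R := by
  simp [geL]

lemma ge_L_pw (m : ι → ℕ) : (geL m).Pairwise (· ⊆ ·) := by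
  rw [geL, List.pairwise_reverse, List.pairwise_map]
  refine List.Pairwise.imp (R := (· < ·)) ?_ List.pairwise_lt_range
  intro a b hab e he
  simp only [lev, mem_filter, mem_univ, true_and] at he ⊢
  omega

lemma ge_N_iff (φ : ι → (M →ₗ[ℝ] ℝ)) (m : ι → ℕ) (X : ι → SignType) :
    X ∈ geN φ (geL m) ∅ ↔ X ∈ signs φ ∧ (∀ e, X e ≠ 0) ∧ Crit (signs φ) X m := by
  constructor
  · rintro ⟨h1, h2, h3⟩
    refine ⟨h1, ?_, ?_⟩
    · intro e he
      have : e ∈ zs X := mem_zs.mpr he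
      rw [h2] at this
      simp at this
    · intro j hj
      by_cases hj' : j ≤ ∑ e, m e
      · exact h3 _ (ge_mem_L.mpr ⟨j - 1, by omega, by congr 1; omega⟩)
      · have : zro X (lev m j) = X := by
          funext e
          simp only [zro]
          rw [if_neg]
          simp only [lev, mem_filter, mem_univ, true_and]
          have := Finset.single_le_sum (f := m) (fun i _ => Nat.zero_le _) (mem_univ e)
          omega
        rw [this]; exact h1
  · rintro ⟨h1, h2, h3⟩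
    refine ⟨h1, ?_, ?_⟩
    · ext e
      rw [mem_zs]
      simp [h2]
    · intro R hR
      obtain ⟨j, -, rfl⟩ := ge_mem_L.mp hR
      exact h3 _ (by omega)

lemma ge_good_same [FiniteDimensional ℝ M] [FiniteDimensional ℝ M'] (φ : ι → (M →ₗ[ℝ] ℝ))
    (ψ : ι → (M' →ₗ[ℝ] ℝ)) (hflat : ∀ S, IsFlat φ S ↔ IsFlat ψ S)
    (hcd : ∀ S, IsFlat φ S → cdim φ S = cdim ψ S) (k l : ℕ) :
    Nonempty (Good φ k l ≃ Good ψ k l) := by
  have hdeg : ∀ m : ι → ℕ, (∀ j, 1 ≤ j → IsFlat φ (lev m j)) →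
      deg (cdim φ) m = deg (cdim ψ) m := by
    intro m hm
    refine Finset.sum_congr rfl fun j _ => hcd _ (hm _ (by omega))
  have key : ∀ m : ι → ℕ, Nonempty ({X // (X, m) ∈ Good φ k l} ≃ {X // (X, m) ∈ Good ψ k l}) := by
    intro m
    by_cases hP : (∀ j, 1 ≤ j → IsFlat φ (lev m j)) ∧ IsFlat φ ∅ ∧ m ≠ 0 ∧ ∑ e, m e = l ∧
        deg (cdim φ) m = k + 1
    · obtain ⟨hf, h0, hm, hl, hd⟩ := hP
      have e1 : {X // (X, m) ∈ Good φ k l} ≃ geN φ (geL m) ∅ :=
        Equiv.subtypeEquivRight fun X => by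
          rw [ge_N_iff]
          constructor
          · rintro ⟨a, b, -, c, -⟩; exact ⟨a, b, c⟩
          · rintro ⟨a, b, c⟩; exact ⟨a, b, hm, c, hl, hd⟩
      have e2 : {X // (X, m) ∈ Good ψ k l} ≃ geN ψ (geL m) ∅ :=
        Equiv.subtypeEquivRight fun X => by
          rw [ge_N_iff]
          constructor
          · rintro ⟨a, b, -, c, -⟩; exact ⟨a, b, c⟩
          · rintro ⟨a, b, c⟩; exact ⟨a, b, hm, c, hl, (hdeg m hf) ▸ hd⟩
      obtain ⟨e3⟩ := geN_equiv φ ψ hflat hcd (geL m) ∅ h0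
        (by
          intro R hR
          obtain ⟨j, -, rfl⟩ := ge_mem_L.mp hR
          exact hf _ (by omega))
        (fun R _ => empty_subset R) (ge_L_pw m)
      exact ⟨e1.trans (e3.trans e2.symm)⟩
    · have h1 : IsEmpty {X // (X, m) ∈ Good φ k l} := by
        refine ⟨fun X => hP ?_⟩
        obtain ⟨X, a, b, hm, c, hl, hd⟩ := X
        exact ⟨ge_lev_flat φ b c, ge_empty_flat φ a b, hm, hl, hd⟩
      have h2 : IsEmpty {X // (X, m) ∈ Good ψ k l} := by
        refine ⟨fun X => hP ?_⟩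
        obtain ⟨X, a, b, hm, c, hl, hd⟩ := X
        have hf : ∀ j, 1 ≤ j → IsFlat φ (lev m j) := fun j hj =>
          (hflat _).mpr (ge_lev_flat ψ b c j hj)
        exact ⟨hf, (hflat _).mpr (ge_empty_flat ψ a b), hm, hl, (hdeg m hf).trans hd⟩
      exact ⟨Equiv.equivOfIsEmpty _ _⟩
  refine ⟨Equiv.trans (⟨fun p => ⟨p.1.2, p.1.1, p.2⟩, fun q => ⟨(q.2.1, q.1), q.2.2⟩,
    fun _ => rfl, fun _ => rfl⟩ : Good φ k l ≃ Σ m : ι → ℕ, {X // (X, m) ∈ Good φ k l})
    (Equiv.trans (Equiv.sigmaCongrRight fun m => Classical.choice (key m))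
      (⟨fun p => ⟨p.1.2, p.1.1, p.2⟩, fun q => ⟨(q.2.1, q.1), q.2.2⟩,
    fun _ => rfl, fun _ => rfl⟩ : Good ψ k l ≃ Σ m : ι → ℕ, {X // (X, m) ∈ Good ψ k l}).symm)⟩

lemma ge_tope_same [FiniteDimensional ℝ M] [FiniteDimensional ℝ M'] (φ : ι → (M →ₗ[ℝ] ℝ))
    (ψ : ι → (M' →ₗ[ℝ] ℝ)) (hflat : ∀ S, IsFlat φ S ↔ IsFlat ψ S)
    (hcd : ∀ S, IsFlat φ S → cdim φ S = cdim ψ S) :
    Nonempty ({X | X ∈ signs φ ∧ ∀ e, X e ≠ 0} ≃ {X | X ∈ signs ψ ∧ ∀ e, X e ≠ 0}) := by
  by_cases h0 : IsFlat φ ∅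
  · obtain ⟨e⟩ := geN_equiv φ ψ hflat hcd [] ∅ h0 (by simp) (by simp) List.Pairwise.nil
    have h : ∀ (N : Type) [AddCommGroup N] [Module ℝ N] (θ : ι → (N →ₗ[ℝ] ℝ)),
        {X | X ∈ signs θ ∧ ∀ e, X e ≠ 0} = geN θ [] ∅ := by
      intro N _ _ θ
      ext X
      constructor
      · rintro ⟨a, b⟩
        refine ⟨a, ?_, by simp⟩
        ext e
        rw [mem_zs]
        simp [b]
      · rintro ⟨a, b, -⟩
        refine ⟨a, ?_⟩
        intro e he
        have : e ∈ zs X := mem_zs.mpr he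
        rw [b] at this
        simp at this
    rw [h, h]
    exact ⟨e⟩
  · have h1 : IsEmpty {X | X ∈ signs φ ∧ ∀ e, X e ≠ 0} :=
      ⟨fun X => h0 (ge_empty_flat φ X.2.1 X.2.2)⟩
    have h2 : IsEmpty {X | X ∈ signs ψ ∧ ∀ e, X e ≠ 0} :=
      ⟨fun X => h0 ((hflat _).mpr (ge_empty_flat ψ X.2.1 X.2.2))⟩
    exact ⟨Equiv.equivOfIsEmpty _ _⟩

end GE

section RE
variable {M ι ι' : Type} [AddCommGroup M] [Module ℝ M] [Fintype ι] [DecidableEq ι]
  [Fintype ι'] [DecidableEq ι']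

lemma re_signs (φ' : ι' → (M →ₗ[ℝ] ℝ)) (β : ι ≃ ι') (X : ι → SignType) :
    X ∘ β.symm ∈ signs φ' ↔ X ∈ signs (fun i => φ' (β i)) := by
  constructor
  · rintro ⟨x, hx⟩
    refine ⟨x, ?_⟩
    funext i
    have := congrFun hx (β i)
    simpa using this
  · rintro ⟨x, rfl⟩
    refine ⟨x, ?_⟩
    funext i
    simp

lemma re_flat (φ' : ι' → (M →ₗ[ℝ] ℝ)) (β : ι ≃ ι') (S : Finset ι) :
    IsFlat φ' (S.map β.toEmbedding) ↔ IsFlat (fun i => φ' (β i)) S := by
  constructor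
  · rintro ⟨x, hx⟩
    refine ⟨x, fun i => ?_⟩
    have := hx (β i)
    simpa using this
  · rintro ⟨x, hx⟩
    refine ⟨x, fun i => ?_⟩
    have := hx (β.symm i)
    simp only [Equiv.apply_symm_apply] at this
    rw [← this, mem_map_equiv]

lemma re_cdim (φ' : ι' → (M →ₗ[ℝ] ℝ)) (β : ι ≃ ι') (S : Finset ι) :
    cdim φ' (S.map β.toEmbedding) = cdim (fun i => φ' (β i)) S := by
  have h : φ' '' ((S.map β.toEmbedding : Finset ι') : Set ι') =
      (fun i => φ' (β i)) '' (S : Set ι) := by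
    rw [coe_map, ← Set.image_comp]
    rfl
  unfold cdim
  rw [h]

lemma re_lev (β : ι ≃ ι') (m : ι → ℕ) (j : ℕ) :
    lev (m ∘ β.symm) j = (lev m j).map β.toEmbedding := by
  ext i
  rw [mem_map_equiv]
  simp [lev]

lemma re_zro (β : ι ≃ ι') (X : ι → SignType) (T : Finset ι) :
    zro (X ∘ β.symm) (T.map β.toEmbedding) = zro X T ∘ β.symm := by
  funext i
  simp only [zro, Function.comp_apply, mem_map_equiv]

lemma re_good (φ' : ι' → (M →ₗ[ℝ] ℝ)) (β : ι ≃ ι') (k l : ℕ) :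
    Nonempty (Good (fun i => φ' (β i)) k l ≃ Good φ' k l) := by
  refine ⟨Equiv.subtypeEquiv (Equiv.prodCongr (Equiv.arrowCongr β (Equiv.refl _))
    (Equiv.arrowCongr β (Equiv.refl _))) ?_⟩
  rintro ⟨X, m⟩
  have hX : (Equiv.arrowCongr β (Equiv.refl SignType)) X = X ∘ β.symm := rfl
  have hm : (Equiv.arrowCongr β (Equiv.refl ℕ)) m = m ∘ β.symm := rfl
  simp only [Equiv.prodCongr_apply, Prod.map_apply, hX, hm]
  have hsum : ∑ e, (m ∘ β.symm) e = ∑ e, m e := Equiv.sum_comp β.symm m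
  have hdeg : deg (cdim φ') (m ∘ β.symm) = deg (cdim fun i => φ' (β i)) m := by
    unfold deg
    rw [hsum]
    refine Finset.sum_congr rfl fun j _ => ?_
    rw [re_lev, re_cdim]
  have hcrit : Crit (signs φ') (X ∘ β.symm) (m ∘ β.symm) ↔
      Crit (signs fun i => φ' (β i)) X m := by
    unfold Crit
    refine forall_congr' fun j => ?_
    rw [re_lev, re_zro, re_signs]
  have hne : (∀ e, (X ∘ β.symm) e ≠ 0) ↔ ∀ e, X e ≠ 0 := by
    constructor
    · intro h e
      have := h (β e)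
      simpa using this
    · intro h e
      exact h _
  have hm0 : m ∘ β.symm ≠ 0 ↔ m ≠ 0 := by
    rw [not_iff_not]
    constructor
    · intro h
      funext e
      have := congrFun h (β e)
      simpa using this
    · rintro rfl
      rfl
  show ((_ ∧ _ ∧ _ ∧ _ ∧ _ ∧ _) ↔ (_ ∧ _ ∧ _ ∧ _ ∧ _ ∧ _))
  simp only
  rw [re_signs, hne, hm0, hcrit, hsum, hdeg]

lemma re_tope (φ' : ι' → (M →ₗ[ℝ] ℝ)) (β : ι ≃ ι') :
    Nonempty ({X | X ∈ signs (fun i => φ' (β i)) ∧ ∀ e, X e ≠ 0} ≃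
      {X | X ∈ signs φ' ∧ ∀ e, X e ≠ 0}) := by
  refine ⟨Equiv.subtypeEquiv (Equiv.arrowCongr β (Equiv.refl _)) ?_⟩
  intro X
  have hX : (Equiv.arrowCongr β (Equiv.refl SignType)) X = X ∘ β.symm := rfl
  rw [hX]
  have hne : (∀ e, (X ∘ β.symm) e ≠ 0) ↔ ∀ e, X e ≠ 0 := by
    constructor
    · intro h e
      have := h (β e)
      simpa using this
    · intro h e
      exact h _
  show (_ ∧ _ ↔ _ ∧ _)
  rw [re_signs, hne]

end RE

theorem Good_equiv {M M' ι ι' : Type} [AddCommGroup M] [Module ℝ M] [FiniteDimensional ℝ M]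
    [AddCommGroup M'] [Module ℝ M'] [FiniteDimensional ℝ M'] [Fintype ι] [DecidableEq ι]
    [Fintype ι'] [DecidableEq ι'] (φ : ι → (M →ₗ[ℝ] ℝ)) (φ' : ι' → (M' →ₗ[ℝ] ℝ)) (β : ι ≃ ι')
    (hflat : ∀ S : Finset ι, IsFlat φ S ↔ IsFlat φ' (S.map β.toEmbedding))
    (hcd : ∀ S : Finset ι, IsFlat φ S → cdim φ S = cdim φ' (S.map β.toEmbedding)) (k l : ℕ) :
    Nonempty (Good φ k l ≃ Good φ' k l) ∧
    Nonempty ({X | X ∈ signs φ ∧ ∀ e, X e ≠ 0} ≃ {X | X ∈ signs φ' ∧ ∀ e, X e ≠ 0}) := by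
  have h1 : ∀ S, IsFlat φ S ↔ IsFlat (fun i => φ' (β i)) S := fun S =>
    (hflat S).trans (re_flat φ' β S)
  have h2 : ∀ S, IsFlat φ S → cdim φ S = cdim (fun i => φ' (β i)) S := fun S hS =>
    (hcd S hS).trans (re_cdim φ' β S)
  obtain ⟨a⟩ := ge_good_same φ (fun i => φ' (β i)) h1 h2 k l
  obtain ⟨b⟩ := re_good φ' β k l
  obtain ⟨c⟩ := ge_tope_same φ (fun i => φ' (β i)) h1 h2
  obtain ⟨d⟩ := re_tope φ' β
  exact ⟨⟨a.trans b⟩, ⟨c.trans d⟩⟩

end Pool.Agent.Helper753_MagHom
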