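import Pool.Agent.Helper753_MagHom.Defs2
set_option autoImplicit false
open Finset
namespace Pool.Agent.Helper753_MagHom

section Pt

variable {V : Type*} {R : V → V → Prop}

/-- the `j`-th vertex of the path `s → u → t` -/
def pt (s : V) (u : List V) (t : V) : ℕ → V
  | 0 => s
  | j + 1 => u.getD j t

@[simp] lemma pt_zero (s : V) (u : List V) (t : V) : pt s u t 0 = s := rfl

lemma pt_succ (s : V) (u : List V) (t : V) (j : ℕ) : pt s u t (j + 1) = u.getD j t := rfl

lemma pt_cons_succ (s v : V) (u : List V) (t : V) (j : ℕ) :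
    pt s (v :: u) t (j + 1) = pt v u t j := by
  cases j with
  | zero => rfl
  | succ j => simp [pt]

lemma pt_len (s : V) (u : List V) (t : V) : pt s u t (u.length + 1) = t := by
  simp [pt]

lemma Val_iff_pt {s t : V} {u : List V} :
    Val R s t u ↔ ∀ j ≤ u.length, R (pt s u t j) (pt s u t (j + 1)) := by
  induction u generalizing s with
  | nil => simp [Val, pt]
  | cons v u ih =>
    simp only [Val, ih, List.length_cons]
    constructor
    · rintro ⟨h1, h2⟩ j hj
      cases j with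
      | zero => simpa [pt] using h1
      | succ j => rw [pt_cons_succ, pt_cons_succ]; exact h2 j (by omega)
    · intro h
      refine ⟨by simpa [pt] using h 0 (by omega), fun j hj => ?_⟩
      have := h (j+1) (by omega)
      rwa [pt_cons_succ, pt_cons_succ] at this

lemma pt_two (s v : V) (u : List V) (t : V) : pt s (v :: u) t 2 = hd u t := by
  cases u <;> simp [pt]

lemma Din_eq_sum (R : V → V → Prop) (s t : V) (u : List V) :
    Din R s t u = ∑ i ∈ range u.length, ((-1 : ℤ) ^ i) •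
      iff' (R (pt s u t i) (pt s u t (i + 2))) (Finsupp.single (u.eraseIdx i) (1 : ℤ)) := by
  induction u generalizing s with
  | nil => simp
  | cons v u ih =>
    rw [Din_cons, ih, List.length_cons, Finset.sum_range_succ', map_sum]
    simp only [map_smul, map_iff', cons'_single, zero_add, pt_zero, pt_two, pow_zero, one_smul,
      List.eraseIdx_cons_zero, List.eraseIdx_cons_succ]
    have : ∀ i, pt s (v :: u) t (i + 1 + 2) = pt v u t (i + 2) := fun i =>
      pt_cons_succ s v u t (i + 2)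
    simp only [pt_cons_succ, this, pow_succ, mul_neg, mul_one, neg_smul, Finset.sum_neg_distrib]
    abel

lemma pt_eraseIdx (s : V) (u : List V) (t : V) (i j : ℕ) :
    pt s (u.eraseIdx i) t j = pt s u t (if j < i + 1 then j else j + 1) := by
  cases j with
  | zero => simp
  | succ j =>
    rw [pt_succ, List.getD_eq_getElem?_getD, List.getElem?_eraseIdx]
    by_cases h : j < i
    · rw [if_pos h, if_pos (by omega), pt_succ, List.getD_eq_getElem?_getD]
    · rw [if_neg h, if_neg (by omega), pt_succ, List.getD_eq_getElem?_getD]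

end Pt

section Sgn

variable {E : Type}

lemma neg_one_pow_mul_ne (a : SignType) (ha : a ≠ 0) (n : ℕ) :
    (-1 : SignType) ^ n * a ≠ (-1) ^ (n + 1) * a := by
  rcases Nat.even_or_odd n with h | h
  · rw [h.neg_one_pow, h.add_one.neg_one_pow]
    revert ha; cases a <;> decide
  · rw [h.neg_one_pow, h.add_one.neg_one_pow]
    revert ha; cases a <;> decide

lemma neg_one_pow_mul_two (a : SignType) (n : ℕ) :
    (-1 : SignType) ^ (n + 1 + 1) * a = (-1) ^ n * a := by
  rw [pow_succ, pow_succ]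
  cases a <;> rcases neg_one_pow_eq_or SignType n with h | h <;> rw [h] <;> decide

lemma refl'_ne {X : E → SignType} {n : E → ℕ} (hX : ∀ e, X e ≠ 0) (e : E) : refl' X n e ≠ 0 := by
  have := hX e
  unfold refl'
  rcases neg_one_pow_eq_or SignType (n e) with h | h <;> rw [h] <;> revert this <;>
    cases X e <;> decide

lemma refl'_zero (X : E → SignType) : refl' X 0 = X := by
  funext e; simp [refl']

/-- the entries where two adjacent states differ -/
lemma refl'_ne_iff {X : E → SignType} (hX : ∀ e, X e ≠ 0) {n n' : E → ℕ} (h : Rn n n') (e : E) :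
    refl' X n e ≠ refl' X n' e ↔ n' e = n e + 1 := by
  unfold refl'
  rcases h.2 e with h1 | h1
  · rw [h1]; simp
  · rw [h1]
    simpa using neg_one_pow_mul_ne (X e) (hX e) (n e)

variable [Fintype E]

lemma card_iff {X : E → SignType} (hX : ∀ e, X e ≠ 0) {a b c : E → ℕ} (hab : Rn a b)
    (hbc : Rn b c) :
    (univ.filter fun e => refl' X a e ≠ refl' X c e).card =
      (univ.filter fun e => refl' X a e ≠ refl' X b e).card +
      (univ.filter fun e => refl' X b e ≠ refl' X c e).card ↔ Rn a c := by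
  have h1 : (univ.filter fun e => refl' X a e ≠ refl' X b e) =
      univ.filter fun e => b e = a e + 1 := by
    ext e; simp only [mem_filter, mem_univ, true_and]; exact refl'_ne_iff hX hab e
  have h2 : (univ.filter fun e => refl' X b e ≠ refl' X c e) =
      univ.filter fun e => c e = b e + 1 := by
    ext e; simp only [mem_filter, mem_univ, true_and]; exact refl'_ne_iff hX hbc e
  have h3 : (univ.filter fun e => refl' X a e ≠ refl' X c e) =
      univ.filter fun e => c e = a e + 1 := by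
    ext e; simp only [mem_filter, mem_univ, true_and]
    unfold refl'
    rcases hab.2 e with h1 | h1 <;> rcases hbc.2 e with h2 | h2
    · rw [h2, h1]; simp
    · rw [h2, h1]; simpa using neg_one_pow_mul_ne (X e) (hX e) (a e)
    · rw [h2, h1]; simpa using neg_one_pow_mul_ne (X e) (hX e) (a e)
    · rw [h2, h1, neg_one_pow_mul_two]; simp
  rw [h1, h2, h3]
  have hA : (univ.filter fun e => b e = a e + 1).card + (univ.filter fun e => c e = b e + 1).card =
      (univ.filter fun e => c e = a e + 1).card + 2 * (univ.filter fun e => c e = a e + 2).card := by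
    rw [Finset.card_filter, Finset.card_filter, Finset.card_filter, Finset.card_filter,
      ← Finset.sum_add_distrib, Finset.mul_sum, ← Finset.sum_add_distrib]
    apply Finset.sum_congr rfl
    intro e _
    rcases hab.2 e with h1 | h1 <;> rcases hbc.2 e with h2 | h2 <;> rw [h2, h1] <;> simp
  rw [hA]
  constructor
  · intro h
    have h0 : (univ.filter fun e => c e = a e + 2).card = 0 := by omega
    rw [Finset.card_eq_zero, Finset.filter_eq_empty_iff] at h0
    refine ⟨?_, fun e => ?_⟩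
    · intro hac
      apply hab.1
      funext e
      have := congrFun hac e
      rcases hab.2 e with h1 | h1 <;> rcases hbc.2 e with h2 | h2 <;> omega
    · have := h0 (mem_univ e)
      rcases hab.2 e with h1 | h1 <;> rcases hbc.2 e with h2 | h2 <;> omega
  · intro h
    have h0 : (univ.filter fun e => c e = a e + 2).card = 0 := by
      rw [Finset.card_eq_zero, Finset.filter_eq_empty_iff]
      intro e _ he
      rcases h.2 e with h1 | h1 <;> omega
    omega

end Sgn

section Tup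

variable {V E : Type}

/-- the tuple of vertices of the path `0 → u → m`, starting at the tope `X` -/
noncomputable def tup [Nonempty V] (σ : V → (E → SignType)) (p : (E → SignType) × (E → ℕ))
    (k : ℕ) (u : List (E → ℕ)) : Fin (k + 2) → V :=
  fun j => Function.invFun σ (refl' p.1 (pt 0 u p.2 j))

/-- the admissible pairs -/
def Adm [Fintype E] (L : Set (E → SignType)) (l : ℕ) : Set ((E → SignType) × (E → ℕ)) :=
  {p | p.1 ∈ L ∧ (∀ e, p.1 e ≠ 0) ∧ p.2 ≠ 0 ∧ refl' p.1 p.2 ∈ L ∧ ∑ e, p.2 e = l}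

/-- extension of a tuple -/
def ex {k : ℕ} (x : Fin (k + 2) → V) (j : ℕ) : V := if h : j < k + 2 then x ⟨j, h⟩ else x 0

open Classical in
/-- partial sums of the separation vectors -/
noncomputable def ps (σ : V → (E → SignType)) (y : ℕ → V) : ℕ → (E → ℕ)
  | 0 => 0
  | j + 1 => fun e => ps σ y j e + if σ (y j) e ≠ σ (y (j + 1)) e then 1 else 0

/-- the inner vertices -/
noncomputable def ls (σ : V → (E → SignType)) {k : ℕ} (x : Fin (k + 2) → V) : List (E → ℕ) :=
  (List.range k).map fun j => ps σ (ex x) (j + 1)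

lemma pt_ls (σ : V → (E → SignType)) {k : ℕ} (x : Fin (k + 2) → V) {j : ℕ} (hj : j ≤ k + 1) :
    pt 0 (ls σ x) (ps σ (ex x) (k + 1)) j = ps σ (ex x) j := by
  cases j with
  | zero => rfl
  | succ j =>
    rw [pt_succ, ls]
    by_cases h : j < k
    · simp [h]
    · have : j = k := by omega
      subst this
      simp

lemma refl'_ps (σ : V → (E → SignType)) (h0 : ∀ v e, σ v e ≠ 0) (y : ℕ → V) (j : ℕ) :
    refl' (σ (y 0)) (ps σ y j) = σ (y j) := by
  induction j with
  | zero => exact refl'_zero _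
  | succ j ih =>
    funext e
    have ih' := congrFun ih e
    unfold refl' at ih' ⊢
    by_cases h : σ (y j) e ≠ σ (y (j + 1)) e
    · have : ps σ y (j + 1) e = ps σ y j e + 1 := by simp [ps, h]
      rw [this, pow_succ, mul_assoc, mul_comm (-1 : SignType), ← mul_assoc, ih']
      have h1 := h0 (y j) e
      have h2 := h0 (y (j + 1)) e
      revert h h1 h2
      cases σ (y j) e <;> cases σ (y (j + 1)) e <;> decide
    · have : ps σ y (j + 1) e = ps σ y j e := by simp [ps, h]
      rw [this, ih']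
      push Not at h
      exact h

lemma Rn_ps {σ : V → (E → SignType)} (hσ : Function.Injective σ) (y : ℕ → V) {j : ℕ}
    (h : y j ≠ y (j + 1)) : Rn (ps σ y j) (ps σ y (j + 1)) := by
  constructor
  · intro h1
    apply h
    apply hσ
    funext e
    by_contra h2
    have := congrFun h1 e
    simp [ps, h2] at this
  · intro e
    by_cases h2 : σ (y j) e ≠ σ (y (j + 1)) e
    · right; simp [ps, h2]
    · left; simp [ps, h2]

lemma ps_tup [Nonempty V] {σ : V → (E → SignType)} {p : (E → SignType) × (E → ℕ)}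
    (hX : ∀ e, p.1 e ≠ 0) {k : ℕ} {u : List (E → ℕ)}
    (hu : ∀ j ≤ k, Rn (pt 0 u p.2 j) (pt 0 u p.2 (j + 1)))
    (hs : ∀ j ≤ k + 1, σ (Function.invFun σ (refl' p.1 (pt 0 u p.2 j))) = refl' p.1 (pt 0 u p.2 j))
    {j : ℕ} (hj : j ≤ k + 1) : ps σ (ex (tup σ p k u)) j = pt 0 u p.2 j := by
  induction j with
  | zero => rfl
  | succ j ih =>
    have e1 : σ (ex (tup σ p k u) j) = refl' p.1 (pt 0 u p.2 j) := by
      rw [ex, dif_pos (by omega), tup]; exact hs j (by omega)
    have e2 : σ (ex (tup σ p k u) (j + 1)) = refl' p.1 (pt 0 u p.2 (j + 1)) := by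
      rw [ex, dif_pos (by omega), tup]; exact hs (j + 1) (by omega)
    funext e
    rw [ps, ih (by omega), e1, e2]
    beta_reduce
    have h := refl'_ne_iff hX (hu j (by omega)) e
    by_cases h1 : pt 0 u p.2 (j + 1) e = pt 0 u p.2 j e + 1
    · rw [if_pos (h.mpr h1), h1]
    · rw [if_neg (fun h2 => h1 (h.mp h2))]
      rcases (hu j (by omega)).2 e with h3 | h3
      · rw [h3]; rfl
      · exact absurd h3 h1

variable [Fintype E]

lemma cd_congr {f g f' g' : E → SignType} (h1 : f = f') (h2 : g = g') :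
    (univ.filter fun e => f e ≠ g e).card = (univ.filter fun e => f' e ≠ g' e).card := by
  subst h1 h2; rfl

lemma sum_Rn {X : E → SignType} (hX : ∀ e, X e ≠ 0) {a b : E → ℕ} (hab : Rn a b) :
    (univ.filter fun e => refl' X a e ≠ refl' X b e).card + ∑ e, a e = ∑ e, b e := by
  have h1 : (univ.filter fun e => refl' X a e ≠ refl' X b e) =
      univ.filter fun e => b e = a e + 1 := by
    ext e; simp only [mem_filter, mem_univ, true_and]; exact refl'_ne_iff hX hab e
  rw [h1, Finset.card_filter, ← Finset.sum_add_distrib]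
  apply Finset.sum_congr rfl
  intro e _
  rcases hab.2 e with h1 | h1 <;> rw [h1] <;> simp
  omega

variable (G : SimpleGraph V) (L : Set (E → SignType)) (σ : V → (E → SignType))

section

variable [Nonempty V] {G L σ}
  (hrange : ∀ X, X ∈ Set.range σ ↔ (X ∈ L ∧ ∀ e, X e ≠ 0))
include hrange

lemma s_tup {l k : ℕ} {p : (E → SignType) × (E → ℕ)} (hp : p ∈ Adm L l) {u : List (E → ℕ)}
    (hu : u ∈ Cells Rn (Wn L p.1) 0 p.2 k) {j : ℕ} (hj : j ≤ k + 1) :
    σ (Function.invFun σ (refl' p.1 (pt 0 u p.2 j))) = refl' p.1 (pt 0 u p.2 j) := by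
  obtain ⟨h1, h2, h3, h4, h5⟩ := hp
  obtain ⟨hv, hw, hl⟩ := hu
  have : refl' p.1 (pt 0 u p.2 j) ∈ Set.range σ := by
    rw [hrange]
    refine ⟨?_, refl'_ne h2⟩
    cases j with
    | zero => rw [pt_zero, refl'_zero]; exact h1
    | succ j =>
      rw [pt_succ]
      by_cases h : j < u.length
      · rw [List.getD_eq_getElem _ _ h]
        exact (hw _ (List.getElem_mem h)).2
      · rw [List.getD_eq_default _ _ (by omega)]
        exact h4
  exact Function.invFun_eq this

lemma pair_tup {l k : ℕ} {p : (E → SignType) × (E → ℕ)} (hp : p ∈ Adm L l) {u : List (E → ℕ)}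
    (hu : u ∈ Cells Rn (Wn L p.1) 0 p.2 k) :
    σ (tup σ p k u 0) = p.1 ∧ ps σ (ex (tup σ p k u)) (k + 1) = p.2 ∧ ls σ (tup σ p k u) = u := by
  have hl : u.length = k := hu.2.2
  have hR : ∀ j ≤ k, Rn (pt 0 u p.2 j) (pt 0 u p.2 (j + 1)) := by
    have := Val_iff_pt.mp hu.1
    rwa [hl] at this
  have hps : ∀ j ≤ k + 1, ps σ (ex (tup σ p k u)) j = pt 0 u p.2 j := fun j hj =>
    ps_tup hp.2.1 hR (fun j hj => s_tup hrange hp hu hj) hj
  refine ⟨?_, ?_, ?_⟩
  · have := s_tup hrange hp hu (j := 0) (by omega)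
    rw [pt_zero, refl'_zero] at this
    have h2 : tup σ p k u 0 = Function.invFun σ p.1 := by
      simp [tup, refl'_zero]
    rw [h2]; exact this
  · rw [hps _ le_rfl]
    subst hl
    exact pt_len _ _ _
  · apply List.ext_getElem
    · simp [ls, hl]
    · intro i h1 h2
      have h3 : i < k := by omega
      simp only [ls, List.getElem_map, List.getElem_range]
      rw [hps _ (by omega), pt_succ, List.getD_eq_getElem _ _ h2]

lemma tup_mem (hdist : ∀ u v, G.dist u v = (univ.filter fun e => σ u e ≠ σ v e).card)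
    {l k : ℕ} {p : (E → SignType) × (E → ℕ)} (hp : p ∈ Adm L l) {u : List (E → ℕ)}
    (hu : u ∈ Cells Rn (Wn L p.1) 0 p.2 k) : tup σ p k u ∈ MCgen G (k + 1) l := by
  have hl : u.length = k := hu.2.2
  have hR : ∀ j ≤ k, Rn (pt 0 u p.2 j) (pt 0 u p.2 (j + 1)) := by
    have := Val_iff_pt.mp hu.1
    rwa [hl] at this
  have hs := fun j (hj : j ≤ k + 1) => s_tup hrange hp hu hj
  refine ⟨?_, ?_⟩
  · intro i h
    have h1 : σ (tup σ p k u i.castSucc) = σ (tup σ p k u i.succ) := by rw [h]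
    simp only [tup, Fin.val_castSucc, Fin.val_succ] at h1
    rw [hs i.1 (by omega), hs (i.1 + 1) (by omega)] at h1
    apply (hR i.1 (by omega)).1
    funext e
    by_contra h2
    have h3 : pt 0 u p.2 (i.1 + 1) e = pt 0 u p.2 i.1 e + 1 := by
      rcases (hR i.1 (by omega)).2 e with h3 | h3
      · exact absurd h3.symm h2
      · exact h3
    exact (refl'_ne_iff hp.2.1 (hR i.1 (by omega)) e).mpr h3 (congrFun h1 e)
  · have key : ∀ j ≤ k + 1, ∑ i ∈ range j,
        (univ.filter fun e => refl' p.1 (pt 0 u p.2 i) e ≠ refl' p.1 (pt 0 u p.2 (i + 1)) e).card =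
        ∑ e, pt 0 u p.2 j e := by
      intro j hj
      induction j with
      | zero => simp
      | succ j ih =>
        rw [Finset.sum_range_succ, ih (by omega), add_comm]
        exact sum_Rn hp.2.1 (hR j (by omega))
    have h1 := key (k + 1) le_rfl
    have h2 : pt 0 u p.2 (k + 1) = p.2 := by subst hl; exact pt_len _ _ _
    rw [h2, hp.2.2.2.2, Finset.sum_range] at h1
    rw [← h1]
    apply Finset.sum_congr rfl
    intro i _
    rw [hdist]
    exact cd_congr (hs i.1 (by omega)) (hs (i.1 + 1) (by omega))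

lemma exists_rep (hσ : Function.Injective σ)
    (hdist : ∀ u v, G.dist u v = (univ.filter fun e => σ u e ≠ σ v e).card)
    {l k : ℕ} {x : Fin (k + 2) → V} (hx : x ∈ MCgen G (k + 1) l) :
    ∃ p ∈ Adm L l, ∃ u ∈ Cells Rn (Wn L p.1) 0 p.2 k, tup σ p k u = x := by
  have h0 : ∀ v e, σ v e ≠ 0 := fun v => ((hrange (σ v)).mp ⟨v, rfl⟩).2
  have hne : ∀ j ≤ k, ex x j ≠ ex x (j + 1) := by
    intro j hj
    rw [ex, ex, dif_pos (by omega), dif_pos (by omega)]
    exact hx.1 ⟨j, by omega⟩
  have hx0 : ex x 0 = x 0 := by simp [ex]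
  have hrefl : ∀ j, refl' (σ (x 0)) (ps σ (ex x) j) = σ (ex x j) := fun j => by
    rw [← hx0]; exact refl'_ps σ h0 (ex x) j
  have hinL : ∀ v, σ v ∈ L := fun v => ((hrange (σ v)).mp ⟨v, rfl⟩).1
  have hR : ∀ j ≤ k, Rn (ps σ (ex x) j) (ps σ (ex x) (j + 1)) := fun j hj => Rn_ps hσ _ (hne j hj)
  have hmono : ∀ j ≤ k, ∀ e, ps σ (ex x) j e ≤ ps σ (ex x) (j + 1) e := by
    intro j hj e
    rcases (hR j hj).2 e with h | h <;> omega
  have hpos : ∀ j ≤ k, ps σ (ex x) (j + 1) ≠ 0 := by
    intro j hj h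
    apply (hR j hj).1
    funext e
    have h1 := hmono j hj e
    have h2 := congrFun h e
    simp only [Pi.zero_apply] at h2
    omega
  refine ⟨(σ (x 0), ps σ (ex x) (k + 1)), ⟨hinL _, h0 _, hpos k le_rfl, ?_, ?_⟩, ls σ x,
    ⟨?_, ?_, ?_⟩, ?_⟩
  · rw [hrefl]; exact hinL _
  · have key : ∀ j ≤ k + 1, ∑ i ∈ range j, G.dist (ex x i) (ex x (i + 1)) =
        ∑ e, ps σ (ex x) j e := by
      intro j hj
      induction j with
      | zero => simp [ps]
      | succ j ih =>
        rw [Finset.sum_range_succ, ih (by omega), hdist, Finset.card_filter,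
          ← Finset.sum_add_distrib]
        apply Finset.sum_congr rfl
        intro e _
        simp only [ps]
    have h1 := key (k + 1) le_rfl
    rw [← h1, ← hx.2, Finset.sum_range]
    apply Finset.sum_congr rfl
    intro i _
    rw [ex, ex, dif_pos (by omega), dif_pos (by omega)]
    rfl
  · rw [Val_iff_pt]
    have hl : (ls σ x).length = k := by simp [ls]
    rw [hl]
    intro j hj
    simp only
    rw [pt_ls σ x (by omega), pt_ls σ x (by omega)]
    exact hR j hj
  · intro w hw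
    simp only [ls, List.mem_map, List.mem_range] at hw
    obtain ⟨j, hj, rfl⟩ := hw
    exact ⟨hpos j (by omega), by simp only; rw [hrefl]; exact hinL _⟩
  · simp [ls]
  · funext j
    simp only [tup]
    rw [pt_ls σ x (by omega), hrefl, Function.leftInverse_invFun hσ]
    rw [ex, dif_pos j.2]

lemma bdry_tup (hdist : ∀ u v, G.dist u v = (univ.filter fun e => σ u e ≠ σ v e).card)
    {l k : ℕ} {p : (E → SignType) × (E → ℕ)} (hp : p ∈ Adm L l) {u : List (E → ℕ)}
    (hu : u ∈ Cells Rn (Wn L p.1) 0 p.2 (k + 1)) :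
    bdryTuple G (k + 2) (tup σ p (k + 1) u) =
      - Finsupp.lmapDomain ℤ ℤ (tup σ p k) (Din Rn 0 p.2 u) := by
  have hl : u.length = k + 1 := hu.2.2
  have hR : ∀ j ≤ k + 1, Rn (pt 0 u p.2 j) (pt 0 u p.2 (j + 1)) := by
    have := Val_iff_pt.mp hu.1
    rwa [hl] at this
  have hs := fun j (hj : j ≤ k + 1 + 1) => s_tup hrange hp hu hj
  rw [Din_eq_sum, hl, map_sum, bdryTuple, Fin.sum_univ_succ, Fin.sum_univ_castSucc,
    dif_neg (by simp), dif_neg (by simp), zero_add, add_zero, Finset.sum_range,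
    ← Finset.sum_neg_distrib]
  apply Finset.sum_congr rfl
  intro i _
  have hi := i.2
  rw [dif_pos (by simp; omega)]
  have hd : ∀ a b : Fin (k + 2 + 1), G.dist (tup σ p (k + 1) u a) (tup σ p (k + 1) u b) =
      (univ.filter fun e => refl' p.1 (pt 0 u p.2 a) e ≠ refl' p.1 (pt 0 u p.2 b) e).card := by
    intro a b
    rw [hdist]
    exact cd_congr (hs a.1 (by omega)) (hs b.1 (by omega))
  rw [hd, hd, hd]
  simp only [Fin.val_succ, Fin.val_castSucc, Nat.add_sub_cancel]
  have hc := card_iff hp.2.1 (hR i.1 (by omega)) (hR (i.1 + 1) (by omega))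
  have he : (fun j => tup σ p (k + 1) u (i.castSucc.succ.succAbove j)) =
      tup σ p k (u.eraseIdx i.1) := by
    funext j
    simp only [tup]
    rw [pt_eraseIdx]
    congr 3
    rw [Fin.succAbove]
    by_cases h : j.1 < i.1 + 1
    · rw [if_pos (by rw [Fin.lt_def]; simpa using h), if_pos h]; rfl
    · rw [if_neg (by rw [Fin.lt_def]; simpa using h), if_neg h]; rfl
  rw [he]
  by_cases h : Rn (pt 0 u p.2 i.1) (pt 0 u p.2 (i.1 + 2))
  · rw [if_pos (hc.mpr h), iff'_pos h, map_smul, Finsupp.lmapDomain_apply,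
      Finsupp.mapDomain_single, Finsupp.smul_single, ← Finsupp.single_neg]
    congr 1
    simp [pow_succ]
  · rw [if_neg (fun h2 => h (hc.mp h2)), iff'_neg h, smul_zero, map_zero, neg_zero]

end

lemma eq_of_supp' {A B : Type*} [AddCommGroup B] {f g : (A →₀ ℤ) →ₗ[ℤ] B} {x : A →₀ ℤ}
    (h : ∀ u, x u ≠ 0 → f (Finsupp.single u 1) = g (Finsupp.single u 1)) : f x = g x := by
  have h1 : x ∈ Finsupp.supported ℤ ℤ {u | x u ≠ 0} := by
    rw [Finsupp.mem_supported]
    intro u hu
    simpa using hu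
  have h2 : Finsupp.supported ℤ ℤ {u | x u ≠ 0} ≤ LinearMap.eqLocus f g := by
    rw [Finsupp.supported_eq_span_single, Submodule.span_le]
    rintro _ ⟨u, hu, rfl⟩
    exact h u hu
  exact h2 h1

omit [Fintype E] in
lemma QRel_Rn : QRel (Rn (E := E)) := by
  intro u v w x h1 h2 h3 h4
  refine ⟨⟨?_, ?_⟩, ⟨?_, ?_⟩⟩
  · intro h
    apply h1.1
    funext e
    have := congrFun h e
    rcases h1.2 e with a | a <;> rcases h2.2 e with b | b <;> omega
  · intro e
    rcases h1.2 e with a | a <;> rcases h2.2 e with b | b <;> rcases h3.2 e with c | c <;>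
      rcases h4.2 e with d | d <;> omega
  · intro h
    apply h2.1
    funext e
    have := congrFun h e
    rcases h2.2 e with b | b <;> rcases h3.2 e with c | c <;> omega
  · intro e
    rcases h1.2 e with a | a <;> rcases h2.2 e with b | b <;> rcases h3.2 e with c | c <;>
      rcases h4.2 e with d | d <;> omega

/-- path chains to tuple chains -/
noncomputable def J [Nonempty V] (σ : V → (E → SignType)) (p : (E → SignType) × (E → ℕ))
    (k : ℕ) : (List (E → ℕ) →₀ ℤ) →ₗ[ℤ] ((Fin (k + 2) → V) →₀ ℤ) :=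
  Finsupp.lmapDomain ℤ ℤ (tup σ p k)

/-- tuple chains to path chains -/
noncomputable def Pm (σ : V → (E → SignType)) (p : (E → SignType) × (E → ℕ)) (k : ℕ) :
    ((Fin (k + 2) → V) →₀ ℤ) →ₗ[ℤ] (List (E → ℕ) →₀ ℤ) :=
  Finsupp.linearCombination ℤ (fun x : Fin (k + 2) → V =>
    iff' (σ (x 0) = p.1 ∧ ps σ (ex x) (k + 1) = p.2) (Finsupp.single (ls σ x) (1 : ℤ)))

omit [Fintype E] in
lemma J_single [Nonempty V] (p : (E → SignType) × (E → ℕ)) (k : ℕ) (u : List (E → ℕ)) (a : ℤ) :
    J σ p k (Finsupp.single u a) = Finsupp.single (tup σ p k u) a := by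
  simp [J, Finsupp.lmapDomain_apply, Finsupp.mapDomain_single]

omit [Fintype E] in
lemma Pm_single (p : (E → SignType) × (E → ℕ)) (k : ℕ) (x : Fin (k + 2) → V) :
    Pm σ p k (Finsupp.single x 1) = iff' (σ (x 0) = p.1 ∧ ps σ (ex x) (k + 1) = p.2)
      (Finsupp.single (ls σ x) (1 : ℤ)) := by
  simp [Pm, Finsupp.linearCombination_single]

lemma bdry_single (k : ℕ) (x : Fin (k + 1) → V) :
    bdry G k (Finsupp.single x 1) = bdryTuple G k x := by
  simp [bdry, Finsupp.linearCombination_single]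

lemma bdry_one : bdry G 1 = 0 := by
  apply Finsupp.lhom_ext'
  intro x
  apply LinearMap.ext_ring
  simp only [LinearMap.comp_apply, Finsupp.lsingle_apply, LinearMap.zero_apply]
  rw [bdry_single, bdryTuple, Finset.sum_eq_zero]
  intro i _
  rw [dif_neg (by omega)]

section

variable [Nonempty V] {G L σ}
  (hrange : ∀ X, X ∈ Set.range σ ↔ (X ∈ L ∧ ∀ e, X e ≠ 0))
include hrange

lemma Pm_tup {l k : ℕ} {p : (E → SignType) × (E → ℕ)} (hp : p ∈ Adm L l) {u : List (E → ℕ)}
    (hu : u ∈ Cells Rn (Wn L p.1) 0 p.2 k) :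
    Pm σ p k (Finsupp.single (tup σ p k u) 1) = Finsupp.single u 1 := by
  obtain ⟨h1, h2, h3⟩ := pair_tup hrange hp hu
  rw [Pm_single, iff'_pos ⟨h1, h2⟩, h3]

lemma Pm_tup_ne {l k : ℕ} {p p' : (E → SignType) × (E → ℕ)} (hp : p ∈ Adm L l)
    (hne : p ≠ p') {u : List (E → ℕ)} (hu : u ∈ Cells Rn (Wn L p.1) 0 p.2 k) :
    Pm σ p' k (Finsupp.single (tup σ p k u) 1) = 0 := by
  obtain ⟨h1, h2, h3⟩ := pair_tup hrange hp hu
  rw [Pm_single, iff'_neg]
  rintro ⟨h4, h5⟩
  exact hne (Prod.ext (h1.symm.trans h4) (h2.symm.trans h5))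

lemma J_mem (hdist : ∀ u v, G.dist u v = (univ.filter fun e => σ u e ≠ σ v e).card)
    {l k : ℕ} {p : (E → SignType) × (E → ℕ)} (hp : p ∈ Adm L l) {y : List (E → ℕ) →₀ ℤ}
    (hy : y ∈ C Rn (Wn L p.1) 0 p.2 k) : J σ p k y ∈ MC G (k + 1) l := by
  have : C Rn (Wn L p.1) 0 p.2 k ≤ (MC G (k + 1) l).comap (J σ p k) := by
    apply C_le
    intro u hu
    rw [Submodule.mem_comap, J_single]
    exact Finsupp.single_mem_supported ℤ _ (tup_mem hrange hdist hp hu)
  exact this hy

lemma Pm_J {l k : ℕ} {p : (E → SignType) × (E → ℕ)} (hp : p ∈ Adm L l)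
    {y : List (E → ℕ) →₀ ℤ} (hy : y ∈ C Rn (Wn L p.1) 0 p.2 k) : Pm σ p k (J σ p k y) = y := by
  have : C Rn (Wn L p.1) 0 p.2 k ≤
      LinearMap.eqLocus ((Pm σ p k).comp (J σ p k)) LinearMap.id := by
    apply C_le
    intro u hu
    rw [LinearMap.mem_eqLocus, LinearMap.comp_apply, J_single, Pm_tup hrange hp hu]
    rfl
  exact this hy

lemma Pm_J_ne {l k : ℕ} {p p' : (E → SignType) × (E → ℕ)} (hp : p ∈ Adm L l) (hne : p ≠ p')
    {y : List (E → ℕ) →₀ ℤ} (hy : y ∈ C Rn (Wn L p.1) 0 p.2 k) : Pm σ p' k (J σ p k y) = 0 := by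
  have : C Rn (Wn L p.1) 0 p.2 k ≤ LinearMap.ker ((Pm σ p' k).comp (J σ p k)) := by
    apply C_le
    intro u hu
    rw [LinearMap.mem_ker, LinearMap.comp_apply, J_single, Pm_tup_ne hrange hp hne hu]
  exact this hy

lemma bdry_J (hdist : ∀ u v, G.dist u v = (univ.filter fun e => σ u e ≠ σ v e).card)
    {l k : ℕ} {p : (E → SignType) × (E → ℕ)} (hp : p ∈ Adm L l) {y : List (E → ℕ) →₀ ℤ}
    (hy : y ∈ C Rn (Wn L p.1) 0 p.2 (k + 1)) :
    bdry G (k + 2) (J σ p (k + 1) y) = - J σ p k (dm Rn 0 p.2 y) := by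
  have : C Rn (Wn L p.1) 0 p.2 (k + 1) ≤
      LinearMap.eqLocus ((bdry G (k + 2)).comp (J σ p (k + 1)))
        (-((J σ p k).comp (dm Rn 0 p.2))) := by
    apply C_le
    intro u hu
    rw [LinearMap.mem_eqLocus, LinearMap.comp_apply, J_single, bdry_single,
      bdry_tup hrange hdist hp hu, LinearMap.neg_apply, LinearMap.comp_apply, dm_single, one_smul]
    rfl
  exact this hy

lemma MC_le (hσ : Function.Injective σ)
    (hdist : ∀ u v, G.dist u v = (univ.filter fun e => σ u e ≠ σ v e).card) {l k : ℕ}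
    {S : Submodule ℤ ((Fin (k + 2) → V) →₀ ℤ)}
    (h : ∀ p ∈ Adm L l, ∀ u ∈ Cells Rn (Wn L p.1) 0 p.2 k,
      Finsupp.single (tup σ p k u) (1 : ℤ) ∈ S) : MC G (k + 1) l ≤ S := by
  rw [MC, Finsupp.supported_eq_span_single, Submodule.span_le]
  rintro _ ⟨x, hx, rfl⟩
  obtain ⟨p, hp, u, hu, rfl⟩ := exists_rep hrange hσ hdist hx
  exact h p hp u hu

lemma Pm_mem (hσ : Function.Injective σ)
    (hdist : ∀ u v, G.dist u v = (univ.filter fun e => σ u e ≠ σ v e).card) {l k : ℕ}
    (p : (E → SignType) × (E → ℕ)) {z : (Fin (k + 2) → V) →₀ ℤ} (hz : z ∈ MC G (k + 1) l) :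
    Pm σ p k z ∈ C Rn (Wn L p.1) 0 p.2 k := by
  have : MC G (k + 1) l ≤ (C Rn (Wn L p.1) 0 p.2 k).comap (Pm σ p k) := by
    apply MC_le hrange hσ hdist
    intro q hq u hu
    rw [Submodule.mem_comap]
    by_cases h : q = p
    · subst h
      rw [Pm_tup hrange hq hu]
      exact single_mem_C hu 1
    · rw [Pm_tup_ne hrange hq h hu]
      exact Submodule.zero_mem _
  exact this hz

lemma Pm_bdry (hσ : Function.Injective σ)
    (hdist : ∀ u v, G.dist u v = (univ.filter fun e => σ u e ≠ σ v e).card) {l k : ℕ}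
    (p : (E → SignType) × (E → ℕ)) {w : (Fin (k + 3) → V) →₀ ℤ} (hw : w ∈ MC G (k + 2) l) :
    Pm σ p k (bdry G (k + 2) w) = - dm Rn 0 p.2 (Pm σ p (k + 1) w) := by
  have : MC G (k + 2) l ≤ LinearMap.eqLocus ((Pm σ p k).comp (bdry G (k + 2)))
      (-((dm Rn 0 p.2).comp (Pm σ p (k + 1)))) := by
    apply MC_le hrange hσ hdist
    intro q hq u hu
    rw [LinearMap.mem_eqLocus, LinearMap.comp_apply, LinearMap.neg_apply, LinearMap.comp_apply]
    have h1 : bdry G (k + 2) (Finsupp.single (tup σ q (k + 1) u) 1) =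
        - J σ q k (dm Rn 0 q.2 (Finsupp.single u 1)) := by
      rw [← bdry_J hrange hdist hq (single_mem_C hu 1), J_single]
    have h2 : dm Rn 0 q.2 (Finsupp.single u 1) ∈ C Rn (Wn L q.1) 0 q.2 k :=
      dm_mem (single_mem_C hu 1)
    rw [h1, map_neg]
    by_cases h : q = p
    · subst h
      rw [Pm_J hrange hq h2, Pm_tup hrange hq hu]
    · rw [Pm_J_ne hrange hq h h2, Pm_tup_ne hrange hq h hu, map_zero]
  exact this hw

open Classical in
lemma decomp (hσ : Function.Injective σ)
    (hdist : ∀ u v, G.dist u v = (univ.filter fun e => σ u e ≠ σ v e).card) {l k : ℕ}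
    {z : (Fin (k + 2) → V) →₀ ℤ} (hz : z ∈ MC G (k + 1) l) :
    ∃ S : Finset ((E → SignType) × (E → ℕ)), (∀ p ∈ S, p ∈ Adm L l) ∧
      z = ∑ p ∈ S, J σ p k (Pm σ p k z) := by
  refine ⟨z.support.image fun x => (σ (x 0), ps σ (ex x) (k + 1)), ?_, ?_⟩
  · intro p hp
    rw [Finset.mem_image] at hp
    obtain ⟨x, hx, rfl⟩ := hp
    have hx' : x ∈ MCgen G (k + 1) l := by
      rw [MC, Finsupp.mem_supported] at hz
      exact hz hx
    obtain ⟨p, hp, u, hu, rfl⟩ := exists_rep hrange hσ hdist hx'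
    obtain ⟨h1, h2, h3⟩ := pair_tup hrange hp hu
    rw [h1, h2]
    exact hp
  · set S := z.support.image fun x => (σ (x 0), ps σ (ex x) (k + 1)) with hS
    have key : (LinearMap.id : ((Fin (k + 2) → V) →₀ ℤ) →ₗ[ℤ] ((Fin (k + 2) → V) →₀ ℤ)) z =
        (∑ p ∈ S, (J σ p k).comp (Pm σ p k)) z := by
      apply eq_of_supp'
      intro x hx
      have hxs : x ∈ z.support := by simpa using hx
      have hx' : x ∈ MCgen G (k + 1) l := by
        rw [MC, Finsupp.mem_supported] at hz
        exact hz hxs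
      have hmem : (σ (x 0), ps σ (ex x) (k + 1)) ∈ S := Finset.mem_image_of_mem _ hxs
      obtain ⟨p, hp, u, hu, rfl⟩ := exists_rep hrange hσ hdist hx'
      obtain ⟨h1, h2, h3⟩ := pair_tup hrange hp hu
      rw [h1, h2] at hmem
      rw [LinearMap.id_apply, LinearMap.sum_apply, Finset.sum_eq_single p]
      · rw [LinearMap.comp_apply, Pm_tup hrange hp hu, J_single]
      · intro q _ hq
        rw [LinearMap.comp_apply, Pm_tup_ne hrange hp (Ne.symm hq) hu, map_zero]
      · intro h
        exact absurd hmem h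
    rw [LinearMap.id_apply, LinearMap.sum_apply] at key
    exact key

end

end Tup

theorem MH_equiv {V E : Type} [Fintype E] [DecidableEq E] (G : SimpleGraph V)
    (L : Set (E → SignType)) (σ : V → (E → SignType)) (hσ : Function.Injective σ)
    (hrange : ∀ X, X ∈ Set.range σ ↔ (X ∈ L ∧ ∀ e, X e ≠ 0))
    (hdist : ∀ u v, G.dist u v = (univ.filter fun e => σ u e ≠ σ v e).card)
    (hloc : ∀ X ∈ L, (∀ e, X e ≠ 0) → ∀ m : E → ℕ, m ≠ 0 → refl' X m ∈ L →
      AC (dm Rn 0 m) (C Rn (Wn L X) 0 m) ∨ ∃ k, SPH (dm Rn 0 m) (C Rn (Wn L X) 0 m) k)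
    (k l : ℕ) : Nonempty (MH G (k + 1) l ≃ₗ[ℤ] (Idx L k l →₀ ℤ)) := by
  classical
  rcases isEmpty_or_nonempty V with hV | hV
  · have h1 : IsEmpty (Idx L k l) := by
      constructor
      rintro ⟨p, hp⟩
      obtain ⟨v, _⟩ := (hrange p.1).mpr ⟨hp.1, hp.2.1⟩
      exact hV.elim v
    have h2 : Subsingleton ((Fin (k + 1 + 1) → V) →₀ ℤ) := by
      have : IsEmpty (Fin (k + 1 + 1) → V) := ⟨fun f => hV.elim (f 0)⟩
      infer_instance
    have h3 : Subsingleton (cyc G (k + 1) l) := by
      constructor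
      intro a b
      exact Subtype.ext (Subsingleton.elim _ _)
    have h4 : Subsingleton (MH G (k + 1) l) := by
      constructor
      intro a b
      obtain ⟨a, rfl⟩ := Submodule.Quotient.mk_surjective _ a
      obtain ⟨b, rfl⟩ := Submodule.Quotient.mk_surjective _ b
      rw [Subsingleton.elim a b]
    exact ⟨{ toFun := fun _ => 0, invFun := fun _ => 0, map_add' := fun _ _ => by simp,
             map_smul' := fun _ _ => by simp, left_inv := fun _ => Subsingleton.elim _ _,
             right_inv := fun _ => Subsingleton.elim _ _ }⟩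
  have hAdm : ∀ p : Idx L k l, p.1 ∈ Adm L l := fun p =>
    ⟨p.2.1, p.2.2.1, p.2.2.2.1, p.2.2.2.2.1, p.2.2.2.2.2.1⟩
  have hS := fun p : Idx L k l => p.2.2.2.2.2.2
  choose g hg hdg hg1 hg2 _ using hS
  have hcyc : ∀ (p : (E → SignType) × (E → ℕ)), p ∈ Adm L l → ∀ y ∈ C Rn (Wn L p.1) 0 p.2 k,
      dm Rn 0 p.2 y = 0 → J σ p k y ∈ cyc G (k + 1) l := by
    intro p hp y hy hdy
    refine Submodule.mem_inf.mpr ⟨J_mem hrange hdist hp hy, ?_⟩
    rw [LinearMap.mem_ker]
    cases k with
    | zero =>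
      have : bdry G (0 + 1) = 0 := bdry_one G
      rw [this]; rfl
    | succ k => rw [bdry_J hrange hdist hp hy, hdy, map_zero, neg_zero]
  let F : (Idx L k l →₀ ℤ) →ₗ[ℤ] cyc G (k + 1) l := Finsupp.linearCombination ℤ
    (fun p : Idx L k l => (⟨J σ p.1 k (g p), hcyc p.1 (hAdm p) _ (hg p) (hdg p)⟩ :
      cyc G (k + 1) l))
  have hF1 : ∀ (p : Idx L k l) (n : ℤ),
      (F (Finsupp.single p n) : (Fin (k + 2) → V) →₀ ℤ) = n • J σ p.1 k (g p) := by
    intro p n
    simp only [F, Finsupp.linearCombination_single]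
    rfl
  have hPF : ∀ (p : Idx L k l) (a : Idx L k l →₀ ℤ), Pm σ p.1 k (F a) = a p • g p := by
    intro p a
    have key : ((Pm σ p.1 k).comp ((cyc G (k + 1) l).subtype.comp F)) a =
        ((LinearMap.toSpanSingleton ℤ _ (g p)).comp (Finsupp.lapply p)) a := by
      apply eq_of_supp'
      intro q _
      rw [LinearMap.comp_apply, LinearMap.comp_apply, LinearMap.comp_apply, Submodule.subtype_apply,
        hF1, one_smul]
      by_cases h : q = p
      · subst h
        rw [Pm_J hrange (hAdm q) (hg q)]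
        simp
      · rw [Pm_J_ne hrange (hAdm q) (fun h2 => h (Subtype.ext h2)) (hg q)]
        simp [Finsupp.single_eq_of_ne (Ne.symm h)]
    simpa using key
  let Q : Submodule ℤ (cyc G (k + 1) l) := (bnd G (k + 1) l).submoduleOf (cyc G (k + 1) l)
  have hinj : Function.Injective (Q.mkQ.comp F) := by
    rw [← LinearMap.ker_eq_bot, LinearMap.ker_eq_bot']
    intro a ha
    rw [LinearMap.comp_apply, Submodule.mkQ_apply, Submodule.Quotient.mk_eq_zero] at ha
    obtain ⟨w, hw, hw'⟩ := ha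
    ext p
    have h1 := congrArg (Pm σ p.1 k) hw'
    rw [Pm_bdry hrange hσ hdist p.1 hw] at h1
    have h2 : a p • g p = dm Rn 0 p.1.2 (-(Pm σ p.1 (k + 1) w)) := by
      rw [← hPF, map_neg, h1]
      rfl
    exact hg2 p (a p) _ (Submodule.neg_mem _ (Pm_mem hrange hσ hdist p.1 hw)) h2
  have hsurj : Function.Surjective (Q.mkQ.comp F) := by
    intro z
    obtain ⟨z, rfl⟩ := Submodule.Quotient.mk_surjective _ z
    obtain ⟨z, hz⟩ := z
    obtain ⟨hz1, hz2⟩ := Submodule.mem_inf.mp hz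
    rw [LinearMap.mem_ker] at hz2
    obtain ⟨S, hS, hdec⟩ := decomp hrange hσ hdist hz1
    have hlocal : ∀ p ∈ S, ∃ f : Idx L k l →₀ ℤ, ∃ w ∈ MC G (k + 2) l,
        J σ p k (Pm σ p k z) = F f + bdry G (k + 2) w := by
      intro p hp
      have hpA := hS p hp
      have hy0 := Pm_mem hrange hσ hdist p hz1
      have hdy0 : dm Rn 0 p.2 (Pm σ p k z) = 0 := by
        cases k with
        | zero => exact (C_isCx QRel_Rn _ _ _).zero _ hy0
        | succ k =>
          have := Pm_bdry hrange hσ hdist p hz1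
          rw [hz2, map_zero] at this
          rw [← neg_eq_zero, ← this]
      have hcase : (∃ hI : p ∈ Idx L k l, ∃ n : ℤ, ∃ y ∈ C Rn (Wn L p.1) 0 p.2 (k + 1),
          Pm σ p k z = n • g ⟨p, hI⟩ + dm Rn 0 p.2 y) ∨
          ∃ y ∈ C Rn (Wn L p.1) 0 p.2 (k + 1), Pm σ p k z = dm Rn 0 p.2 y := by
        by_cases hI : p ∈ Idx L k l
        · left
          obtain ⟨n, y, hy, e⟩ := hg1 ⟨p, hI⟩ _ hy0 hdy0
          exact ⟨hI, n, y, hy, e⟩
        · right
          rcases hloc p.1 hpA.1 hpA.2.1 p.2 hpA.2.2.1 hpA.2.2.2.1 with h | ⟨k', h⟩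
          · obtain ⟨y, hy, e⟩ := h k _ hy0 hdy0
            exact ⟨y, hy, e.symm⟩
          · have hk : k ≠ k' := by
              rintro rfl
              exact hI ⟨hpA.1, hpA.2.1, hpA.2.2.1, hpA.2.2.2.1, hpA.2.2.2.2, h⟩
            obtain ⟨_, _, _, _, _, h3⟩ := h
            obtain ⟨y, hy, e⟩ := h3 k hk _ hy0 hdy0
            exact ⟨y, hy, e.symm⟩
      rcases hcase with ⟨hI, n, y, hy, e⟩ | ⟨y, hy, e⟩
      · refine ⟨Finsupp.single ⟨p, hI⟩ n, -(J σ p (k + 1) y),
          Submodule.neg_mem _ (J_mem hrange hdist hpA hy), ?_⟩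
        rw [map_neg, bdry_J hrange hdist hpA hy, neg_neg, hF1, e, map_add, map_smul]
      · refine ⟨0, -(J σ p (k + 1) y),
          Submodule.neg_mem _ (J_mem hrange hdist hpA hy), ?_⟩
        rw [map_neg, bdry_J hrange hdist hpA hy, neg_neg, e, map_zero]
        simp
    choose! f w hw hfw using hlocal
    refine ⟨∑ p ∈ S, f p, ?_⟩
    rw [LinearMap.comp_apply, Submodule.mkQ_apply]
    refine (Submodule.Quotient.eq _).mpr ?_
    refine ⟨-∑ p ∈ S, w p, Submodule.neg_mem _ (Submodule.sum_mem _ fun p hp => hw p hp), ?_⟩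
    have h1 : z = (F (∑ p ∈ S, f p) : (Fin (k + 2) → V) →₀ ℤ) + bdry G (k + 2) (∑ p ∈ S, w p) := by
      conv_lhs => rw [hdec]
      rw [Finset.sum_congr rfl hfw, Finset.sum_add_distrib, map_sum, map_sum]
      congr 1
      rw [AddSubmonoidClass.coe_finsetSum]
    have h2 : bdry G (k + 1 + 1) (-∑ p ∈ S, w p) =
        (F (∑ p ∈ S, f p) : (Fin (k + 2) → V) →₀ ℤ) - z := by
      rw [map_neg]
      conv_rhs => rw [h1]
      rw [sub_add_cancel_left]
    exact h2
  exact ⟨(LinearEquiv.ofBijective _ ⟨hinj, hsurj⟩).symm⟩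

theorem MH_zero {V E : Type} [Fintype E] [DecidableEq E] (G : SimpleGraph V)
    (σ : V → (E → SignType)) (hσ : Function.Injective σ)
    (hdist : ∀ u v, G.dist u v = (univ.filter fun e => σ u e ≠ σ v e).card) (l : ℕ) :
    Nonempty (MH G 0 l ≃ₗ[ℤ] ({_v : V | l = 0} →₀ ℤ)) := by
  have hcyc : cyc G 0 l = MC G 0 l := by
    apply le_antisymm inf_le_left
    refine le_inf le_rfl ?_
    intro x _
    rw [LinearMap.mem_ker]
    have : bdry G 0 = 0 := by
      apply Finsupp.lhom_ext'
      intro x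
      apply LinearMap.ext_ring
      simp only [LinearMap.comp_apply, Finsupp.lsingle_apply, LinearMap.zero_apply]
      rw [bdry_single, bdryTuple, Finset.sum_eq_zero]
      intro i _
      rw [dif_neg (by omega)]
    rw [this]; rfl
  have hbnd : (bnd G 0 l).submoduleOf (cyc G 0 l) = ⊥ := by
    have : bnd G 0 l = ⊥ := by
      have h1 : bdry G (0 + 1) = 0 := bdry_one G
      rw [bnd, h1, Submodule.map_zero]
    rw [this]
    simp [Submodule.submoduleOf]
  let e1 : MH G 0 l ≃ₗ[ℤ] cyc G 0 l := Submodule.quotEquivOfEqBot _ hbnd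
  let e2 : cyc G 0 l ≃ₗ[ℤ] MC G 0 l := LinearEquiv.ofEq _ _ hcyc
  let e3 : MC G 0 l ≃ₗ[ℤ] (MCgen G 0 l →₀ ℤ) := Finsupp.supportedEquivFinsupp _
  let e4 : MCgen G 0 l ≃ {_v : V | l = 0} :=
    { toFun := fun x => ⟨x.1 0, by have := x.2.2; simpa using this.symm⟩
      invFun := fun v => ⟨fun _ => v.1, fun i => i.elim0, by have := v.2; simpa using this.symm⟩
      left_inv := fun x => Subtype.ext (funext fun i => by
        have : i = 0 := Fin.ext (by omega)
        subst this; rfl)
      right_inv := fun v => rfl }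
  exact ⟨((e1.trans e2).trans e3).trans (Finsupp.domLCongr e4)⟩

end Pool.Agent.Helper753_MagHom
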