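import Pool.Agent.Helper753_MagHom.Main3
import Pool.Agent.Helper753_MagHom.ArrSign
import Pool.Agent.Helper753_MagHom.MHequiv
import Pool.Agent.Helper753_MagHom.CdimFacet
import Pool.Agent.Helper753_MagHom.FlatsEquiv
import Pool.Agent.Helper753_MagHom.GoodEquiv

/-!
# Magnitude homology of real arrangements: assembly
-/

set_option autoImplicit false
set_option linter.unusedVariables false
open Finset
namespace Pool.Agent.Helper753_MagHom

lemma AC_not_SPH {A : Type*} [AddCommGroup A] {d : A →ₗ[ℤ] A} {M : ℕ → Submodule ℤ A}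
    (h : AC d M) {k : ℕ} (h' : SPH d M k) : False := by
  obtain ⟨g, hg, hdg, _, h2, _⟩ := h'
  obtain ⟨y, hy, hdy⟩ := h k g hg hdg
  have := h2 1 y hy (by rw [one_smul, hdy])
  exact absurd this one_ne_zero

lemma SPH_unique {A : Type*} [AddCommGroup A] {d : A →ₗ[ℤ] A} {M : ℕ → Submodule ℤ A} {k k' : ℕ}
    (h : SPH d M k) (h' : SPH d M k') : k = k' := by
  by_contra hne
  obtain ⟨g, hg, hdg, _, h2, _⟩ := h
  obtain ⟨_, _, _, _, _, h3⟩ := h'
  obtain ⟨y, hy, hdy⟩ := h3 k hne g hg hdg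
  have := h2 1 y hy (by rw [one_smul, hdy])
  exact absurd this one_ne_zero

section

variable {M ι : Type} [AddCommGroup M] [Module ℝ M] [FiniteDimensional ℝ M]
    [Fintype ι] [DecidableEq ι] (φ : ι → (M →ₗ[ℝ] ℝ))

lemma local_thm {X : ι → SignType} (hX : X ∈ signs φ) (hX0 : ∀ e, X e ≠ 0)
    {m : ι → ℕ} (hm : m ≠ 0) (hmL : refl' X m ∈ signs φ) :
      (Crit (signs φ) X m → ∃ k, k + 1 = deg (cdim φ) m ∧
        SPH (dm Rn 0 m) (C Rn (Wn (signs φ) X) 0 m) k) ∧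
      (¬ Crit (signs φ) X m → AC (dm Rn 0 m) (C Rn (Wn (signs φ) X) 0 m)) :=
  mainRn (OM_signs φ) (cdim φ) (cdim_empty φ)
    (fun X hX T hT hd hpar hc => cdim_facet φ hX hT hd hpar hc) hX hX0 hm hmL

lemma local_or {X : ι → SignType} (hX : X ∈ signs φ) (hX0 : ∀ e, X e ≠ 0)
    (m : ι → ℕ) (hm : m ≠ 0) (hmL : refl' X m ∈ signs φ) :
      AC (dm Rn 0 m) (C Rn (Wn (signs φ) X) 0 m) ∨
        ∃ k, SPH (dm Rn 0 m) (C Rn (Wn (signs φ) X) 0 m) k := by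
  obtain ⟨h1, h2⟩ := local_thm φ hX hX0 hm hmL
  by_cases hc : Crit (signs φ) X m
  · obtain ⟨k, _, hk⟩ := h1 hc
    exact Or.inr ⟨k, hk⟩
  · exact Or.inl (h2 hc)

lemma Idx_eq_Good (k l : ℕ) : Idx (signs φ) k l = Good φ k l := by
  ext p
  constructor
  · rintro ⟨h1, h2, h3, h4, h5, h6⟩
    obtain ⟨h7, h8⟩ := local_thm φ h1 h2 h3 h4
    have hc : Crit (signs φ) p.1 p.2 := by
      by_contra hc
      exact AC_not_SPH (h8 hc) h6
    obtain ⟨k', hk', h9⟩ := h7 hc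
    have := SPH_unique h6 h9
    exact ⟨h1, h2, h3, hc, h5, by rw [← hk', this]⟩
  · rintro ⟨h1, h2, h3, h4, h5, h6⟩
    have hz : zs p.1 = ∅ := by
      ext e
      simp [h2 e]
    have h4' : refl' p.1 p.2 ∈ signs φ :=
      refl_mem_of_Crit (OM_signs φ) _ p.1 h1 hz p.2 le_rfl h4
    obtain ⟨h7, h8⟩ := local_thm φ h1 h2 h3 h4'
    obtain ⟨k', hk', h9⟩ := h7 h4
    have : k' = k := by omega
    subst this
    exact ⟨h1, h2, h3, h4', h5, h9⟩

end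

/-- `MH_{k+1,l}` is free on the combinatorial index set. -/
theorem MH_succ {d : ℕ} (A : Arrangement d) (φ : A.hyps → ((Fin d → ℝ) →ₗ[ℝ] ℝ))
    (hφ : ∀ H, LinearMap.ker (φ H) = H.1) (k l : ℕ) :
    Nonempty (MH A.topeGraph (k + 1) l ≃ₗ[ℤ] (Good φ k l →₀ ℤ)) := by
  obtain ⟨σ, h1, h2, h3⟩ := arr_sign A φ hφ
  have := MH_equiv A.topeGraph (signs φ) σ h1 h2 h3
    (fun X hX hX0 m hm hmL => local_or φ hX hX0 m hm hmL) k l
  rw [Idx_eq_Good] at this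
  exact this

theorem MH_zero' {d : ℕ} (A : Arrangement d) (φ : A.hyps → ((Fin d → ℝ) →ₗ[ℝ] ℝ))
    (hφ : ∀ H, LinearMap.ker (φ H) = H.1) (l : ℕ) :
    Nonempty (MH A.topeGraph 0 l ≃ₗ[ℤ] ({_v : A.Chamber | l = 0} →₀ ℤ)) := by
  obtain ⟨σ, h1, h2, h3⟩ := arr_sign A φ hφ
  exact MH_zero A.topeGraph σ h1 h3 l

/-- The magnitude homology groups are free. -/
theorem MH_free {d : ℕ} (A : Arrangement d) (k l : ℕ) : Module.Free ℤ (MH A.topeGraph k l) := by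
  obtain ⟨φ, hφ⟩ := exists_functionals A
  cases k with
  | zero =>
    obtain ⟨e⟩ := MH_zero' A φ hφ l
    exact Module.Free.of_equiv e.symm
  | succ k =>
    obtain ⟨e⟩ := MH_succ A φ hφ k l
    exact Module.Free.of_equiv e.symm

/-- The intersection lattice determines the magnitude homology. -/
theorem MH_lattice {d d' : ℕ} (A : Arrangement d) (A' : Arrangement d')
    (h : Nonempty (A.Flat ≃o A'.Flat)) (k l : ℕ) :
    Nonempty (MH A.topeGraph k l ≃+ MH A'.topeGraph k l) := by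
  obtain ⟨ψ⟩ := h
  obtain ⟨φ, hφ⟩ := exists_functionals A
  obtain ⟨φ', hφ'⟩ := exists_functionals A'
  obtain ⟨β, hβ1, hβ2⟩ := flats_equiv A A' ψ φ hφ φ' hφ'
  cases k with
  | zero =>
    obtain ⟨e⟩ := MH_zero' A φ hφ l
    obtain ⟨e'⟩ := MH_zero' A' φ' hφ' l
    obtain ⟨_, ⟨t⟩⟩ := Good_equiv φ φ' β hβ1 hβ2 0 0
    obtain ⟨σ, h1, h2, _⟩ := arr_sign A φ hφ
    obtain ⟨σ', h1', h2', _⟩ := arr_sign A' φ' hφ'
    have hr : Set.range σ = {X | X ∈ signs φ ∧ ∀ e, X e ≠ 0} := Set.ext h2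
    have hr' : Set.range σ' = {X | X ∈ signs φ' ∧ ∀ e, X e ≠ 0} := Set.ext h2'
    let c : A.Chamber ≃ A'.Chamber :=
      (Equiv.ofInjective σ h1).trans (((Equiv.setCongr hr).trans t).trans
        ((Equiv.setCongr hr').symm.trans (Equiv.ofInjective σ' h1').symm))
    have c' : {_v : A.Chamber | l = 0} ≃ {_v : A'.Chamber | l = 0} :=
      c.subtypeEquiv (fun a => Iff.rfl)
    exact ⟨(e.trans ((Finsupp.domLCongr c').trans e'.symm)).toAddEquiv⟩
  | succ k =>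
    obtain ⟨e⟩ := MH_succ A φ hφ k l
    obtain ⟨e'⟩ := MH_succ A' φ' hφ' k l
    obtain ⟨⟨t⟩, _⟩ := Good_equiv φ φ' β hβ1 hβ2 k l
    exact ⟨(e.trans ((Finsupp.domLCongr t).trans e'.symm)).toAddEquiv⟩

end Pool.Agent.Helper753_MagHom
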