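import Pool.Agent.Helper753_MagHom.Path2

/-!
# Relabelling of the vertices
-/

set_option autoImplicit false

namespace Pool.Agent.Helper753_MagHom

section iso
variable {A A' : Type*} [AddCommGroup A] [AddCommGroup A'] {d : A →ₗ[ℤ] A} {d' : A' →ₗ[ℤ] A'}
  {M : ℕ → Submodule ℤ A} {M' : ℕ → Submodule ℤ A'}

lemma cycle_lift (hM : IsCx d M) (φ : A →ₗ[ℤ] A') (h2 : ∀ k, ∀ x ∈ M k, φ (d x) = d' (φ x))
    (h3 : ∀ k, ∀ y ∈ M' k, ∃ x ∈ M k, φ x = y) (h4 : ∀ k, ∀ x ∈ M k, φ x = 0 → x = 0)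
    {k : ℕ} {y : A'} (hy : y ∈ M' k) (hdy : d' y = 0) : ∃ x ∈ M k, φ x = y ∧ d x = 0 := by
  obtain ⟨x, hx, rfl⟩ := h3 k y hy
  refine ⟨x, hx, rfl, ?_⟩
  cases k with
  | zero => exact hM.zero x hx
  | succ k =>
    apply h4 k _ (hM.map k x hx)
    rw [h2 _ x hx, hdy]

lemma AC.of_iso (hM : IsCx d M) (φ : A →ₗ[ℤ] A') (h1 : ∀ k, ∀ x ∈ M k, φ x ∈ M' k)
    (h2 : ∀ k, ∀ x ∈ M k, φ (d x) = d' (φ x))
    (h3 : ∀ k, ∀ y ∈ M' k, ∃ x ∈ M k, φ x = y) (h4 : ∀ k, ∀ x ∈ M k, φ x = 0 → x = 0)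
    (h : AC d M) : AC d' M' := by
  intro k y hy hdy
  obtain ⟨x, hx, rfl, hdx⟩ := cycle_lift hM φ h2 h3 h4 hy hdy
  obtain ⟨z, hz, rfl⟩ := h k x hx hdx
  exact ⟨φ z, h1 _ z hz, (h2 _ z hz).symm⟩

lemma SPH.of_iso (hM : IsCx d M) (φ : A →ₗ[ℤ] A') (h1 : ∀ k, ∀ x ∈ M k, φ x ∈ M' k)
    (h2 : ∀ k, ∀ x ∈ M k, φ (d x) = d' (φ x))
    (h3 : ∀ k, ∀ y ∈ M' k, ∃ x ∈ M k, φ x = y) (h4 : ∀ k, ∀ x ∈ M k, φ x = 0 → x = 0)
    {k : ℕ} (h : SPH d M k) : SPH d' M' k := by
  obtain ⟨g, hg, hdg, a1, a2, a3⟩ := h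
  refine ⟨φ g, h1 _ g hg, by rw [← h2 _ g hg, hdg, map_zero], ?_, ?_, ?_⟩
  · intro y hy hdy
    obtain ⟨x, hx, rfl, hdx⟩ := cycle_lift hM φ h2 h3 h4 hy hdy
    obtain ⟨n, z, hz, rfl⟩ := a1 x hx hdx
    exact ⟨n, φ z, h1 _ z hz, by rw [map_add, map_smul, h2 _ z hz]⟩
  · intro n y hy e
    obtain ⟨z, hz, rfl⟩ := h3 _ y hy
    apply a2 n z hz
    have h5 : φ (n • g - d z) = 0 := by
      rw [map_sub, map_smul, h2 _ z hz, e, sub_self]
    have h6 : n • g - d z ∈ M k :=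
      (M k).sub_mem ((M k).smul_mem n hg) (hM.map k z hz)
    exact sub_eq_zero.mp (h4 k _ h6 h5)
  · intro j hj y hy hdy
    obtain ⟨x, hx, rfl, hdx⟩ := cycle_lift hM φ h2 h3 h4 hy hdy
    obtain ⟨z, hz, rfl⟩ := a3 j hj x hx hdx
    exact ⟨φ z, h1 _ z hz, (h2 _ z hz).symm⟩

end iso

section relabel

variable {V V' : Type*} {R : V → V → Prop} {R' : V' → V' → Prop} {f : V → V'} {W : Set V} {s t : V}

lemma hd_map (f : V → V') (u : List V) (t : V) : hd (u.map f) (f t) = f (hd u t) := by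
  cases u <;> simp

lemma Val_map (hR : ∀ u v, (u = s ∨ u ∈ W) → (v ∈ W ∨ v = t) → (R u v ↔ R' (f u) (f v)))
    {u : List V} (hu : ∀ w ∈ u, w ∈ W) : Val R s t u ↔ Val R' (f s) (f t) (u.map f) := by
  induction u generalizing s with
  | nil => exact hR s t (Or.inl rfl) (Or.inr rfl)
  | cons v u ih =>
    have hv : v ∈ W := hu v (by simp)
    have := ih (s := v) (fun a b ha hb => hR a b (by
      rcases ha with rfl | ha
      · exact Or.inr hv
      · exact Or.inr ha) hb) (fun w hw => hu w (List.mem_cons_of_mem _ hw))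
    rw [List.map_cons]
    exact and_congr (hR s v (Or.inl rfl) (Or.inl hv)) this

/-- the map of chain groups -/
noncomputable def mpd (f : V → V') : (List V →₀ ℤ) →ₗ[ℤ] (List V' →₀ ℤ) :=
  Finsupp.lmapDomain ℤ ℤ (List.map f)

lemma mpd_single (f : V → V') (u : List V) (a : ℤ) :
    mpd f (Finsupp.single u a) = Finsupp.single (u.map f) a := by
  simp [mpd, Finsupp.mapDomain_single]

lemma mpd_cons' (f : V → V') (v : V) (x : List V →₀ ℤ) :
    mpd f (cons' v x) = cons' (f v) (mpd f x) := by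
  have : (mpd f).comp (cons' v) = (cons' (f v)).comp (mpd f) := by
    apply Finsupp.lhom_ext
    intro u a
    simp [mpd_single]
  exact LinearMap.congr_fun this x

lemma mpd_Din (hR : ∀ u v, (u = s ∨ u ∈ W) → (v ∈ W ∨ v = t) → (R u v ↔ R' (f u) (f v)))
    {u : List V} (hu : ∀ w ∈ u, w ∈ W) :
    Din R' (f s) (f t) (u.map f) = mpd f (Din R s t u) := by
  induction u generalizing s with
  | nil => simp
  | cons v u ih =>
    have hv : v ∈ W := hu v (by simp)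
    have h1 := ih (s := v) (fun a b ha hb => hR a b (by
      rcases ha with rfl | ha
      · exact Or.inr hv
      · exact Or.inr ha) hb) (fun w hw => hu w (List.mem_cons_of_mem _ hw))
    rw [List.map_cons, Din_cons, Din_cons, h1, map_sub, mpd_cons', map_iff', mpd_single]
    congr 1
    have h2 : R s (hd u t) ↔ R' (f s) (hd (u.map f) (f t)) := by
      rw [hd_map]
      apply hR _ _ (Or.inl rfl)
      cases u with
      | nil => right; simp
      | cons w u => left; exact hu _ (by simp)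
    by_cases h3 : R s (hd u t)
    · rw [iff'_pos h3, iff'_pos (h2.mp h3)]
    · rw [iff'_neg h3, iff'_neg (fun h => h3 (h2.mpr h))]

lemma map_injOn (hf : Set.InjOn f W) :
    Set.InjOn (List.map f) {u : List V | ∀ w ∈ u, w ∈ W} := by
  intro u
  induction u with
  | nil =>
    intro _ v _ h
    cases v with
    | nil => rfl
    | cons a v => simp at h
  | cons a u ih =>
    intro hu v hv h
    cases v with
    | nil => simp at h
    | cons b v =>
      simp only [List.map_cons, List.cons.injEq] at h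
      have h1 := hf (hu a (by simp)) (hv b (by simp)) h.1
      have h2 := ih (fun w hw => hu w (List.mem_cons_of_mem _ hw))
        (fun w hw => hv w (List.mem_cons_of_mem _ hw)) h.2
      rw [h1, h2]

lemma exists_map {u : List V'} (hu : ∀ w ∈ u, w ∈ f '' W) :
    ∃ u' : List V, (∀ w ∈ u', w ∈ W) ∧ u'.map f = u := by
  induction u with
  | nil => exact ⟨[], by simp, rfl⟩
  | cons a u ih =>
    obtain ⟨u', h1, h2⟩ := ih (fun w hw => hu w (List.mem_cons_of_mem _ hw))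
    obtain ⟨b, hb, rfl⟩ := hu a (by simp)
    refine ⟨b :: u', ?_, by simp [h2]⟩
    intro w hw
    rcases List.mem_cons.mp hw with rfl | hw
    · exact hb
    · exact h1 w hw

lemma relabel_aux (hR : ∀ u v, (u = s ∨ u ∈ W) → (v ∈ W ∨ v = t) → (R u v ↔ R' (f u) (f v)))
    (hf : Set.InjOn f W) :
    (∀ k, ∀ x ∈ C R W s t k, mpd f x ∈ C R' (f '' W) (f s) (f t) k) ∧
    (∀ k, ∀ x ∈ C R W s t k, mpd f (dm R s t x) = dm R' (f s) (f t) (mpd f x)) ∧
    (∀ k, ∀ y ∈ C R' (f '' W) (f s) (f t) k, ∃ x ∈ C R W s t k, mpd f x = y) ∧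
    (∀ k, ∀ x ∈ C R W s t k, mpd f x = 0 → x = 0) := by
  refine ⟨?_, ?_, ?_, ?_⟩
  · intro k x hx
    have : C R W s t k ≤ (C R' (f '' W) (f s) (f t) k).comap (mpd f) := by
      apply C_le
      intro u hu
      rw [Submodule.mem_comap, mpd_single]
      apply single_mem_C
      refine ⟨(Val_map hR hu.2.1).mp hu.1, ?_, by simp [hu.2.2]⟩
      intro w hw
      obtain ⟨a, ha, rfl⟩ := List.mem_map.mp hw
      exact ⟨a, hu.2.1 a ha, rfl⟩
    exact this hx
  · intro k x hx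
    refine @eq_of_supp V (List V' →₀ ℤ) _ ((mpd f).comp (dm R s t))
      ((dm R' (f s) (f t)).comp (mpd f)) x ?_
    intro u hu
    have hc := (mem_C_iff.mp hx) u hu
    rw [LinearMap.comp_apply, LinearMap.comp_apply, dm_single, one_smul, mpd_single, dm_single,
      one_smul, mpd_Din hR hc.2.1]
  · intro k y hy
    have : C R' (f '' W) (f s) (f t) k ≤ (C R W s t k).map (mpd f) := by
      apply C_le
      intro u hu
      obtain ⟨u', h1, rfl⟩ := exists_map hu.2.1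
      refine ⟨Finsupp.single u' 1, single_mem_C ⟨(Val_map hR h1).mpr hu.1, h1, ?_⟩ 1, ?_⟩
      · simpa using hu.2.2
      · rw [mpd_single]
    exact this hy
  · intro k x hx h0
    have h1 := Finsupp.mapDomain_injOn (M := ℤ) {u : List V | ∀ w ∈ u, w ∈ W} (map_injOn hf)
    apply h1
    · intro u hu
      exact ((mem_C_iff.mp hx) u (Finsupp.mem_support_iff.mp hu)).2.1
    · intro u hu
      simp at hu
    · have : Finsupp.mapDomain (List.map f) x = mpd f x := rfl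
      rw [this, h0, Finsupp.mapDomain_zero]

theorem AC_relabel (hQ : QRel R)
    (hR : ∀ u v, (u = s ∨ u ∈ W) → (v ∈ W ∨ v = t) → (R u v ↔ R' (f u) (f v)))
    (hf : Set.InjOn f W) (h : AC (dm R s t) (C R W s t)) :
    AC (dm R' (f s) (f t)) (C R' (f '' W) (f s) (f t)) := by
  obtain ⟨h1, h2, h3, h4⟩ := relabel_aux hR hf
  exact AC.of_iso (C_isCx hQ W s t) (mpd f) h1 h2 h3 h4 h

theorem SPH_relabel (hQ : QRel R)
    (hR : ∀ u v, (u = s ∨ u ∈ W) → (v ∈ W ∨ v = t) → (R u v ↔ R' (f u) (f v)))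
    (hf : Set.InjOn f W) {k : ℕ} (h : SPH (dm R s t) (C R W s t) k) :
    SPH (dm R' (f s) (f t)) (C R' (f '' W) (f s) (f t)) k := by
  obtain ⟨h1, h2, h3, h4⟩ := relabel_aux hR hf
  exact SPH.of_iso (C_isCx hQ W s t) (mpd f) h1 h2 h3 h4 h

end relabel

end Pool.Agent.Helper753_MagHom
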