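import Pool.Agent.Helper753_MagHom.Ag
import Pool.Agent.Helper753_MagHom.Path3
import Pool.Agent.Helper753_MagHom.Defs3

/-!
# The main induction
-/

set_option autoImplicit false
set_option linter.unusedSectionVars false
set_option linter.unusedDecidableInType false
set_option linter.unusedFintypeInType false
open Finset
namespace Pool.Agent.Helper753_MagHom

section Mainsec

variable {E : Type*} [Fintype E] [DecidableEq E]

/-- the states on a path ending in the state `m` -/
lemma Val_inr_le {s : Vt E} {m : E → ℕ} {u : List (Vt E)} (h : Val Rl s (Sum.inr m) u) :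
    (∀ n, Sum.inr n ∈ u → (∀ e, n e ≤ m e) ∧ ∑ e, n e < ∑ e, m e) ∧
    (∀ n, s = Sum.inr n → (∀ e, n e ≤ m e) ∧ ∑ e, n e < ∑ e, m e) := by
  induction u generalizing s with
  | nil =>
    refine ⟨by simp, ?_⟩
    rintro n rfl
    have h' : Rn n m := h
    refine ⟨?_, Rn_sum_lt h'⟩
    intro e
    rcases h'.2 e with h1 | h1 <;> omega
  | cons v u ih =>
    obtain ⟨h1, h2⟩ := h
    obtain ⟨h3, h4⟩ := ih h2
    constructor
    · intro n hn
      rcases List.mem_cons.mp hn with h5 | h5
      · exact h4 n h5.symm
      · exact h3 n h5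
    · rintro n rfl
      cases v with
      | inl X => exact (h1 : False).elim
      | inr n' =>
        have h5 := h4 n' rfl
        have h6 : Rn n n' := h1
        have h7 := Rn_sum_lt h6
        refine ⟨?_, by omega⟩
        intro e
        have := h5.1 e
        rcases h6.2 e with h8 | h8 <;> omega

/-- the states on a path starting in the state `n` -/
lemma Val_inr_ge {n : E → ℕ} {t : Vt E} {u : List (Vt E)} (h : Val Rl (Sum.inr n) t u) :
    ∀ n', Sum.inr n' ∈ u → (∀ e, n e ≤ n' e) ∧ n ≠ n' := by
  induction u generalizing n with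
  | nil => simp
  | cons v u ih =>
    obtain ⟨h1, h2⟩ := h
    intro n' hn'
    cases v with
    | inl X => exact (h1 : False).elim
    | inr n1 =>
      have h3 : Rn n n1 := h1
      rcases List.mem_cons.mp hn' with h4 | h4
      · cases h4
        refine ⟨?_, h3.1⟩
        intro e
        rcases h3.2 e with h | h <;> omega
      · obtain ⟨h5, h6⟩ := ih h2 n' h4
        constructor
        · intro e
          have := h5 e
          rcases h3.2 e with h | h <;> omega
        · rintro rfl
          apply h3.1
          funext e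
          have := h5 e
          rcases h3.2 e with h | h <;> omega

/-- states containing the zero set of a face from which a path comes -/
lemma Val_inl_state {X : E → SignType} {t : Vt E} {u : List (Vt E)} (h : Val Rl (Sum.inl X) t u) :
    (∀ n, Sum.inr n ∈ u → ∀ e, X e = 0 → n e ≠ 0) ∧
    (∀ n, t = Sum.inr n → ∀ e, X e = 0 → n e ≠ 0) := by
  induction u generalizing X with
  | nil =>
    refine ⟨by simp, ?_⟩
    rintro n rfl e he
    have := h.2 e he
    omega
  | cons v u ih =>
    obtain ⟨h1, h2⟩ := h
    cases v with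
    | inl Y =>
      obtain ⟨h3, h4⟩ := ih h2
      constructor
      · intro n hn e he
        rcases List.mem_cons.mp hn with h5 | h5
        · cases h5
        · exact h3 n h5 e (mem_zs.mp (h1.1.zs (mem_zs.mpr he)))
      · intro n hn e he
        exact h4 n hn e (mem_zs.mp (h1.1.zs (mem_zs.mpr he)))
    | inr n1 =>
      have h3 : ∀ n, Sum.inr n ∈ Sum.inr n1 :: u → ∀ e, X e = 0 → n e ≠ 0 := by
        intro n hn e he
        have h5 := h1.2 e he
        rcases List.mem_cons.mp hn with h4 | h4
        · cases h4; omega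
        · have := (Val_inr_ge h2 n h4).1 e
          omega
      refine ⟨h3, ?_⟩
      rintro n rfl e he
      have h5 := h1.2 e he
      have := ((Val_inr_le h2).2 n1 rfl).1 e
      omega

variable (L : Set (E → SignType))

/-- the states -/
def Ws (X : E → SignType) : Set (Vt E) := {v | ∃ n, v = Sum.inr n ∧ n ≠ 0 ∧ refl' X n ∈ L}

/-- the proper faces -/
def Fs (X : E → SignType) : Set (Vt E) := {v | ∃ G ∈ L, v = Sum.inl G ∧ le' G X ∧ G ≠ X}

/-- finite set of states below `m` -/
noncomputable def Dst (X : E → SignType) (m : E → ℕ) (P : (E → ℕ) → Prop) : Finset (Vt E) := by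
  classical
  exact ((Fintype.piFinset (fun e => Finset.range (m e + 1))).filter
    (fun n => n ≠ 0 ∧ refl' X n ∈ L ∧ ∑ e, n e < ∑ e, m e ∧ P n)).image Sum.inr

variable {L}

lemma mem_Dst {X : E → SignType} {m : E → ℕ} {P : (E → ℕ) → Prop} {v : Vt E} :
    v ∈ Dst L X m P ↔ ∃ n, v = Sum.inr n ∧ n ≠ 0 ∧ refl' X n ∈ L ∧ (∀ e, n e ≤ m e) ∧
      ∑ e, n e < ∑ e, m e ∧ P n := by
  classical
  simp only [Dst, mem_image, mem_filter, Fintype.mem_piFinset, mem_range, Nat.lt_succ_iff]
  constructor
  · rintro ⟨n, ⟨h1, h2, h3, h4, h5⟩, rfl⟩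
    exact ⟨n, rfl, h2, h3, h1, h4, h5⟩
  · rintro ⟨n, rfl, h2, h3, h1, h4, h5⟩
    exact ⟨n, ⟨h1, h2, h3, h4, h5⟩, rfl⟩

lemma refl'_apply (X : E → SignType) (n : E → ℕ) (e : E) : refl' X n e = (-1) ^ (n e) * X e := rfl

lemma sgn_pow_mul_ne {a : SignType} (h : a ≠ 0) (n : ℕ) : (-1) ^ n * a ≠ 0 := by
  rcases Nat.even_or_odd n with h1 | h1
  · rw [h1.neg_one_pow, one_mul]; exact h
  · rw [h1.neg_one_pow]; revert h; cases a <;> decide

lemma refl'_zs (X : E → SignType) (n : E → ℕ) : zs (refl' X n) = zs X := by
  ext e
  rw [mem_zs, mem_zs, refl'_apply]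
  constructor
  · intro h
    by_contra h1
    exact sgn_pow_mul_ne h1 _ h
  · intro h
    rw [h, mul_zero]

/-- Step 1: faces and states together give an acyclic complex. -/
lemma step1 (hL : OM L) {X : E → SignType} (hX : X ∈ L) (hX0 : zs X = ∅) (N : ℕ) :
    ∀ m : E → ℕ, m ≠ 0 → refl' X m ∈ L → ∑ e, m e ≤ N →
      AC (dm Rl (Sum.inl X) (Sum.inr m)) (C Rl (Fs L X ∪ Ws L X) (Sum.inl X) (Sum.inr m)) := by
  classical
  induction N with
  | zero =>
    intro m hm _ hs
    exfalso
    apply hm
    funext e
    have := Finset.sum_eq_zero_iff.mp (Nat.le_zero.mp hs) e (mem_univ e)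
    simpa using this
  | succ N ih =>
    intro m hm hmL hs
    have hXe : ∀ e, X e ≠ 0 := by
      intro e he
      have : e ∈ zs X := mem_zs.mpr he
      rw [hX0] at this
      simp at this
    -- only faces
    have hbase : AC (dm Rl (Sum.inl X) (Sum.inr m)) (C Rl (Fs L X) (Sum.inl X) (Sum.inr m)) := by
      by_cases h01 : ∀ e, m e ≤ 1
      · have hz : zs X = zs (refl' X m) := (refl'_zs X m).symm
        have hne : X ≠ refl' X m := by
          intro h
          apply hm
          funext e
          have h1 := congrFun h e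
          rw [refl'_apply] at h1
          have h2 := h01 e
          have h3 : m e = 0 ∨ m e = 1 := by omega
          rcases h3 with h3 | h3
          · exact h3
          · exfalso
            rw [h3, pow_one] at h1
            have := hXe e
            revert h1 this
            cases X e <;> decide
        have hsep : ∀ e, e ∈ sep X (refl' X m) ↔ m e = 1 := by
          intro e
          rw [mem_sep, refl'_apply]
          have h2 := h01 e
          have h3 : m e = 0 ∨ m e = 1 := by omega
          rcases h3 with h3 | h3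
          · rw [h3]
            have := hXe e
            constructor
            · rintro ⟨h4, h5⟩
              exfalso
              rw [pow_zero, one_mul] at h5
              revert this h5
              cases X e <;> decide
            · intro h; omega
          · rw [h3, pow_one]
            simp [hXe e]
        have hal := (alpha_gamma hL (sep X (refl' X m)).card).1 X (refl' X m) (Sum.inr m) hX hmL hz
          hne le_rfl ⟨h01, fun e he => absurd he (hXe e)⟩ (by
            rintro v ⟨G, hG, rfl, h1, h2, h3⟩
            refine ⟨h01, ?_⟩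
            intro e he
            rcases mem_union.mp (h3 (mem_zs.mpr he)) with h4 | h4
            · rw [hX0] at h4; simp at h4
            · exact (hsep e).mp h4)
        have : C Rl (Pa L X (zs X ∪ sep X (refl' X m))) (Sum.inl X) (Sum.inr m) =
            C Rl (Fs L X) (Sum.inl X) (Sum.inr m) := by
          apply C_congr
          intro u hu
          constructor
          · intro h v hv
            obtain ⟨G, hG, rfl, h1, h2, h3⟩ := h v hv
            exact ⟨G, hG, rfl, h1, h2⟩
          · intro h v hv
            obtain ⟨G, hG, rfl, h1, h2⟩ := h v hv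
            refine ⟨G, hG, rfl, h1, h2, ?_⟩
            intro e he
            apply mem_union_right
            rw [hsep]
            obtain ⟨a, b, rfl⟩ := List.append_of_mem hv
            have h5 := (Val_append.mp hu).2
            have h6 := (Val_inl_state h5).2 m rfl e (mem_zs.mp he)
            have := h01 e
            omega
        rw [← this]
        exact hal
      · apply AC_of_no_path
        intro u hu hmem
        have h1 := Val_lst hu
        apply h01
        rcases lst_mem (Sum.inl X) u with h2 | h2
        · rw [h2] at h1; exact h1.1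
        · obtain ⟨G, hG, h3, _, _⟩ := hmem _ h2
          rw [h3] at h1; exact h1.1
    -- add the states
    have hDW : ∀ v ∈ Dst L X m (fun _ => True), v ∉ Fs L X := by
      intro v hv
      obtain ⟨n, rfl, _⟩ := mem_Dst.mp hv
      rintro ⟨G, _, h, _⟩
      cases h
    have hst := (add_left (s := Sum.inl X) (t := Sum.inr m) (D := Dst L X m (fun _ => True))
      QRel_Rl rk_lt hDW ?_).1
    · have : C Rl (Fs L X ∪ Ws L X) (Sum.inl X) (Sum.inr m) =
          C Rl (Fs L X ∪ (Dst L X m (fun _ => True) : Set (Vt E))) (Sum.inl X) (Sum.inr m) := by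
        apply C_congr
        intro u hu
        constructor
        · intro h v hv
          rcases h v hv with h1 | ⟨n, rfl, h2, h3⟩
          · exact Or.inl h1
          · right
            have h4 := (Val_inr_le hu).1 n hv
            exact Finset.mem_coe.mpr (mem_Dst.mpr ⟨n, rfl, h2, h3, h4.1, h4.2, trivial⟩)
        · intro h v hv
          rcases h v hv with h1 | h1
          · exact Or.inl h1
          · obtain ⟨n, rfl, h2, h3, _⟩ := mem_Dst.mp (Finset.mem_coe.mp h1)
            exact Or.inr ⟨n, rfl, h2, h3⟩
      rw [this]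
      exact hst.mpr hbase
    · intro v hv
      obtain ⟨n, rfl, h2, h3, h4, h5, _⟩ := mem_Dst.mp hv
      have h6 := ih n h2 h3 (by omega)
      have : C Rl (Fs L X ∪ Ws L X) (Sum.inl X) (Sum.inr n) =
          C Rl (Fs L X ∪ {u | u ∈ Dst L X m (fun _ => True) ∧ rk u < rk (Sum.inr n : Vt E)})
            (Sum.inl X) (Sum.inr n) := by
        apply C_congr
        intro u hu
        constructor
        · intro h w hw
          rcases h w hw with h1 | ⟨n', rfl, h2', h3'⟩
          · exact Or.inl h1
          · right
            have h7 := (Val_inr_le hu).1 n' hw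
            refine ⟨mem_Dst.mpr ⟨n', rfl, h2', h3', fun e => (h7.1 e).trans (h4 e), by omega,
              trivial⟩, ?_⟩
            simp only [rk]; omega
        · intro h w hw
          rcases h w hw with h1 | ⟨h1, _⟩
          · exact Or.inl h1
          · obtain ⟨n', rfl, h2', h3', _⟩ := mem_Dst.mp h1
            exact Or.inr ⟨n', rfl, h2', h3'⟩
      rw [← this]
      exact h6

/-- the states supported in the zero set of `G` -/
def Win (L : Set (E → SignType)) (X G : E → SignType) : Set (Vt E) :=
  {v | ∃ n, v = Sum.inr n ∧ n ≠ 0 ∧ refl' X n ∈ L ∧ ∀ e, n e ≠ 0 → G e = 0}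

/-- Step 2a -/
lemma step2a (hL : OM L) {X G : E → SignType} (hX : X ∈ L) (hX0 : zs X = ∅) (hG : G ∈ L)
    (hGX : le' G X) (hGne : G ≠ X) {n : E → ℕ} (hn : n ≠ 0) (hnL : refl' X n ∈ L)
    (hex : ∃ e, G e ≠ 0 ∧ n e ≠ 0) :
    AC (dm Rl (Sum.inl G) (Sum.inr n)) (C Rl (Win L X G) (Sum.inl G) (Sum.inr n)) := by
  by_cases h1 : ∀ e, G e ≠ 0 → n e ≤ 1
  · obtain ⟨e0, he0, hn0⟩ := hex
    let p : E → ℕ := fun e => if G e = 0 then n e else 0
    have hp1 : ∀ e, G e = 0 → p e = n e := fun e he => by simp [p, he]
    have hp2 : ∀ e, G e ≠ 0 → p e = 0 := fun e he => by simp [p, he]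
    by_cases hp0 : p = 0
    · apply AC_of_no_path
      intro u hu hmem
      have h2 := hGX.zs_ssubset hGne
      rw [hX0] at h2
      obtain ⟨e, he⟩ := (Finset.empty_ssubset.mp h2)
      have h3 := (Val_inl_state hu).2 n rfl e (mem_zs.mp he)
      apply h3
      rw [← hp1 e (mem_zs.mp he), hp0]; rfl
    · have hpL : refl' X p ∈ L := by
        have : refl' X p = cmp G (refl' X n) := by
          funext e
          simp only [cmp]
          split_ifs with h
          · rw [refl'_apply, refl'_apply, hp1 e h]
          · rw [refl'_apply, hp2 e h, pow_zero, one_mul, hGX e h]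
        rw [this]
        exact hL.comp G hG _ hnL
      have hpn : Rn p n := by
        constructor
        · intro h
          have h2 := congrFun h e0
          rw [hp2 e0 he0] at h2
          exact hn0 h2.symm
        · intro e
          by_cases he : G e = 0
          · left; exact (hp1 e he).symm
          · rw [hp2 e he]
            have := h1 e he
            omega
      refine AC_cone (p := Sum.inr p) QRel_Rl rk_lt ?_ hpn ?_ ?_
      · refine ⟨p, rfl, hp0, hpL, ?_⟩
        intro e he
        by_contra h
        exact he (hp2 e h)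
      · constructor
        · rintro ⟨h2, h3⟩
          refine ⟨?_, fun e he => by rw [hp1 e he]; exact h3 e he⟩
          intro e
          by_cases he : G e = 0
          · rw [hp1 e he]; exact h2 e
          · rw [hp2 e he]; omega
        · rintro ⟨h2, h3⟩
          refine ⟨?_, fun e he => by rw [← hp1 e he]; exact h3 e he⟩
          intro e
          by_cases he : G e = 0
          · rw [← hp1 e he]; exact h2 e
          · exact h1 e he
      · rintro v ⟨n', rfl, hn', hn'L, hn's⟩ hne
        have hne' : n' ≠ p := fun h => hne (by rw [h])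
        constructor
        · rintro ⟨_, h3⟩
          refine ⟨hne', ?_⟩
          intro e
          by_cases he : G e = 0
          · rw [hp1 e he]; exact h3 e
          · left
            rw [hp2 e he]
            by_contra h
            exact he (hn's e (fun h' => h h'.symm))
        · rintro ⟨_, h3⟩
          constructor
          · rintro rfl
            exact he0 (hn's e0 hn0)
          · intro e
            by_cases he : G e = 0
            · rw [← hp1 e he]; exact h3 e
            · have h4 : n' e = 0 := by
                by_contra h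
                exact he (hn's e h)
              have := h1 e he
              omega
  · push Not at h1
    obtain ⟨e, he, hne⟩ := h1
    apply AC_of_no_path
    intro u hu hmem
    have h1 := Val_lst hu
    rcases lst_mem (Sum.inl G) u with h2 | h2
    · rw [h2] at h1
      have := h1.1 e
      omega
    · obtain ⟨n', h3, h4, h5, h6⟩ := hmem _ h2
      rw [h3] at h1
      have h7 : n' e = 0 := by
        by_contra h
        exact he (h6 e h)
      have h8 : Rn n' n := h1
      have := h8.2 e
      omega

/-- Step 2b -/
lemma step2b (hL : OM L) {X G : E → SignType} (hX : X ∈ L) (hX0 : zs X = ∅) (hG : G ∈ L)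
    (hGX : le' G X) (hGne : G ≠ X) (N : ℕ) :
    ∀ n : E → ℕ, n ≠ 0 → refl' X n ∈ L → (∃ e, G e ≠ 0 ∧ n e ≠ 0) → ∑ e, n e ≤ N →
    AC (dm Rl (Sum.inl G) (Sum.inr n)) (C Rl (Ws L X) (Sum.inl G) (Sum.inr n)) := by
  classical
  induction N with
  | zero =>
    intro m hm _ _ hs
    exfalso
    apply hm
    funext e
    have := Finset.sum_eq_zero_iff.mp (Nat.le_zero.mp hs) e (mem_univ e)
    simpa using this
  | succ N ih =>
    intro m hm hmL hex hs
    have hbase := step2a hL hX hX0 hG hGX hGne hm hmL hex
    have hDW : ∀ v ∈ Dst L X m (fun n => ∃ e, G e ≠ 0 ∧ n e ≠ 0), v ∉ Win L X G := by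
      intro v hv
      obtain ⟨n, rfl, _, _, _, _, e, he1, he2⟩ := mem_Dst.mp hv
      rintro ⟨n', h, _, _, h1⟩
      cases h
      exact he1 (h1 e he2)
    have hst := (add_left (s := Sum.inl G) (t := Sum.inr m)
      (D := Dst L X m (fun n => ∃ e, G e ≠ 0 ∧ n e ≠ 0)) QRel_Rl rk_lt hDW ?_).1
    · have : C Rl (Ws L X) (Sum.inl G) (Sum.inr m) =
          C Rl (Win L X G ∪ (Dst L X m (fun n => ∃ e, G e ≠ 0 ∧ n e ≠ 0) : Set (Vt E)))
            (Sum.inl G) (Sum.inr m) := by
        apply C_congr
        intro u hu
        constructor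
        · intro h v hv
          obtain ⟨n, rfl, h2, h3⟩ := h v hv
          have h4 := (Val_inr_le hu).1 n hv
          by_cases h5 : ∃ e, G e ≠ 0 ∧ n e ≠ 0
          · right
            exact Finset.mem_coe.mpr (mem_Dst.mpr ⟨n, rfl, h2, h3, h4.1, h4.2, h5⟩)
          · left
            refine ⟨n, rfl, h2, h3, ?_⟩
            intro e he
            by_contra h6
            exact h5 ⟨e, h6, he⟩
        · intro h v hv
          rcases h v hv with ⟨n, rfl, h1, h2, _⟩ | h1
          · exact ⟨n, rfl, h1, h2⟩
          · obtain ⟨n, rfl, h2, h3, _⟩ := mem_Dst.mp (Finset.mem_coe.mp h1)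
            exact ⟨n, rfl, h2, h3⟩
      rw [this]
      exact hst.mpr hbase
    · intro v hv
      obtain ⟨n, rfl, h2, h3, h4, h5, h5'⟩ := mem_Dst.mp hv
      have h6 := ih n h2 h3 h5' (by omega)
      have : C Rl (Ws L X) (Sum.inl G) (Sum.inr n) =
          C Rl (Win L X G ∪ {u | u ∈ Dst L X m (fun n => ∃ e, G e ≠ 0 ∧ n e ≠ 0) ∧
            rk u < rk (Sum.inr n : Vt E)}) (Sum.inl G) (Sum.inr n) := by
        apply C_congr
        intro u hu
        constructor
        · intro h w hw
          obtain ⟨n', rfl, h2', h3'⟩ := h w hw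
          have h7 := (Val_inr_le hu).1 n' hw
          by_cases h8 : ∃ e, G e ≠ 0 ∧ n' e ≠ 0
          · right
            refine ⟨mem_Dst.mpr ⟨n', rfl, h2', h3', fun e => (h7.1 e).trans (h4 e), by omega,
              h8⟩, ?_⟩
            simp only [rk]; omega
          · left
            refine ⟨n', rfl, h2', h3', ?_⟩
            intro e he
            by_contra h9
            exact h8 ⟨e, h9, he⟩
        · intro h w hw
          rcases h w hw with ⟨n', rfl, h2', h3', _⟩ | ⟨h1, _⟩
          · exact ⟨n', rfl, h2', h3'⟩
          · obtain ⟨n', rfl, h2', h3', _⟩ := mem_Dst.mp h1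
            exact ⟨n', rfl, h2', h3'⟩
      rw [← this]
      exact h6

/-- Step 2: proper faces whose zero set is not the support of `m`. -/
lemma step2 (hL : OM L) {X G : E → SignType} (hX : X ∈ L) (hX0 : zs X = ∅) (hG : G ∈ L)
    (hGX : le' G X) (hGne : G ≠ X) {m : E → ℕ} (hm : m ≠ 0) (hmL : refl' X m ∈ L)
    (hz : zs G ≠ lev m 1) :
    AC (dm Rl (Sum.inl G) (Sum.inr m)) (C Rl (Ws L X) (Sum.inl G) (Sum.inr m)) := by
  by_cases hex : ∃ e, G e ≠ 0 ∧ m e ≠ 0
  · exact step2b hL hX hX0 hG hGX hGne _ m hm hmL hex le_rfl
  · apply AC_of_no_path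
    intro u hu _
    have h1 := (Val_inl_state hu).2 m rfl
    apply hz
    ext e
    simp only [mem_zs, lev, mem_filter, mem_univ, true_and]
    constructor
    · intro h
      have := h1 e h
      omega
    · intro h
      by_contra h2
      exact hex ⟨e, h2, by omega⟩

/-- Step 3: all proper faces can be removed. -/
lemma step3 (hL : OM L) {X : E → SignType} (hX : X ∈ L) (hX0 : zs X = ∅) {m : E → ℕ}
    (hm : m ≠ 0) (hmL : refl' X m ∈ L)
    (h : ∀ G ∈ L, le' G X → G ≠ X →
      AC (dm Rl (Sum.inl G) (Sum.inr m)) (C Rl (Ws L X) (Sum.inl G) (Sum.inr m))) :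
    AC (dm Rl (Sum.inl X) (Sum.inr m)) (C Rl (Ws L X) (Sum.inl X) (Sum.inr m)) := by
  classical
  have h1 := step1 hL hX hX0 _ m hm hmL le_rfl
  let D : Finset (Vt E) := (univ.filter (fun G : E → SignType => G ∈ L ∧ le' G X ∧ G ≠ X)).image
    Sum.inl
  have hD : ∀ v, v ∈ D ↔ v ∈ Fs L X := by
    intro v
    simp only [D, mem_image, mem_filter, mem_univ, true_and]
    constructor
    · rintro ⟨G, ⟨h1, h2⟩, rfl⟩; exact ⟨G, h1, rfl, h2⟩
    · rintro ⟨G, h1, rfl, h2⟩; exact ⟨G, ⟨h1, h2⟩, rfl⟩
  have hDW : ∀ v ∈ D, v ∉ Ws L X := by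
    intro v hv
    obtain ⟨G, _, rfl, _⟩ := (hD v).mp hv
    rintro ⟨n, h, _⟩
    cases h
  have h2 := (add_right (s := Sum.inl X) (t := Sum.inr m) (D := D) QRel_Rl rk_lt hDW (by
    intro v hv
    obtain ⟨G, hG, rfl, h3, h4⟩ := (hD v).mp hv
    exact h G hG h3 h4)).1
  apply h2.mp
  have : Fs L X ∪ Ws L X = Ws L X ∪ (D : Set (Vt E)) := by
    rw [Set.union_comm]
    congr 1
    ext v
    exact (Iff.trans (hD v).symm Finset.mem_coe.symm)
  rw [← this]
  exact h1

end Mainsec

end Pool.Agent.Helper753_MagHom
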