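import Pool.Agent.Helper753_MagHom.Main

/-!
# The main induction, second part
-/

set_option autoImplicit false
set_option linter.unusedSectionVars false
set_option linter.unusedDecidableInType false
set_option linter.unusedFintypeInType false
set_option linter.unusedVariables false
open Finset
namespace Pool.Agent.Helper753_MagHom

section gen

variable {V : Type*} {R R' : V → V → Prop}

lemma Val_congr {s t : V} {u : List V}
    (h : ∀ a b, (a = s ∨ a ∈ u) → (b ∈ u ∨ b = t) → (R a b ↔ R' a b)) :
    Val R s t u ↔ Val R' s t u := by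
  induction u generalizing s with
  | nil => exact h s t (Or.inl rfl) (Or.inr rfl)
  | cons v u ih =>
    refine and_congr (h s v (Or.inl rfl) (Or.inl (by simp))) (ih ?_)
    intro a b ha hb
    apply h
    · right
      rcases ha with rfl | ha
      · simp
      · exact List.mem_cons_of_mem _ ha
    · rcases hb with hb | hb
      · exact Or.inl (List.mem_cons_of_mem _ hb)
      · exact Or.inr hb

lemma Din_congr {s t : V} {u : List V}
    (h : ∀ a b, (a = s ∨ a ∈ u) → (b ∈ u ∨ b = t) → (R a b ↔ R' a b)) :
    Din R s t u = Din R' s t u := by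
  induction u generalizing s with
  | nil => simp
  | cons v u ih =>
    rw [Din_cons, Din_cons, ih]
    · congr 1
      have h2 : R s (hd u t) ↔ R' s (hd u t) := by
        apply h _ _ (Or.inl rfl)
        cases u with
        | nil => right; simp
        | cons w u => left; simp
      by_cases h3 : R s (hd u t)
      · rw [iff'_pos h3, iff'_pos (h2.mp h3)]
      · rw [iff'_neg h3, iff'_neg (fun h => h3 (h2.mpr h))]
    · intro a b ha hb
      apply h
      · right
        rcases ha with rfl | ha
        · simp
        · exact List.mem_cons_of_mem _ ha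
      · rcases hb with hb | hb
        · exact Or.inl (List.mem_cons_of_mem _ hb)
        · exact Or.inr hb

lemma Val_mono {s t : V} {u : List V} (h : ∀ a b, R a b → R' a b) (hu : Val R s t u) :
    Val R' s t u := by
  induction u generalizing s with
  | nil => exact h _ _ hu
  | cons v u ih => exact ⟨h _ _ hu.1, ih hu.2⟩

lemma thr_app (v : V) (u : List V) (x : List V →₀ ℤ) : thr v (app v u x) = app v u x := by
  have : (thr v).comp (app v u) = app v u := by
    apply Finsupp.lhom_ext
    intro w a
    rw [LinearMap.comp_apply, app_single, thr_single_pos (by simp)]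
  exact LinearMap.congr_fun this x

lemma thr_pre (v : V) (u : List V) (x : List V →₀ ℤ) : thr v (pre u v x) = pre u v x := by
  have : (thr v).comp (pre u v) = pre u v := by
    apply Finsupp.lhom_ext
    intro w a
    rw [LinearMap.comp_apply, pre_single, thr_single_pos (by simp)]
  exact LinearMap.congr_fun this x

end gen

section Mainsec2

variable {E : Type*} [Fintype E] [DecidableEq E]

/-- only the face `g` may be followed by a state -/
def Rg (g : E → SignType) (u v : Vt E) : Prop :=
  Rl u v ∧ ∀ X n, u = Sum.inl X → v = Sum.inr n → X = g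

lemma Rg_le {g : E → SignType} : ∀ u v : Vt E, Rg g u v → Rl u v := fun _ _ h => h.1

lemma rk_lt' {g : E → SignType} : ∀ u v : Vt E, Rg g u v → rk u < rk v :=
  fun u v h => rk_lt u v h.1

lemma Rg_inl {g : E → SignType} (u : Vt E) (Y : E → SignType) :
    Rl u (Sum.inl Y) ↔ Rg g u (Sum.inl Y) :=
  ⟨fun h => ⟨h, fun X n _ h2 => by cases h2⟩, fun h => h.1⟩

lemma Rg_inr {g : E → SignType} (n : E → ℕ) (v : Vt E) :
    Rl (Sum.inr n) v ↔ Rg g (Sum.inr n) v :=
  ⟨fun h => ⟨h, fun X n h1 _ => by cases h1⟩, fun h => h.1⟩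

lemma Rg_g {g : E → SignType} (v : Vt E) :
    Rl (Sum.inl g) v ↔ Rg g (Sum.inl g) v :=
  ⟨fun h => ⟨h, fun X n h1 _ => by cases h1; rfl⟩, fun h => h.1⟩

lemma QRel_Rg (g : E → SignType) : QRel (Rg g) := by
  rintro u v w x h1 h2 h3 h4
  obtain ⟨h5, h6⟩ := QRel_Rl u v w x h1.1 h2.1 h3.1 h4.1
  refine ⟨⟨h5, ?_⟩, ⟨h6, ?_⟩⟩
  · rintro X n rfl rfl
    cases x with
    | inl Z => exact (h3.1 : False).elim
    | inr n' => exact h4.2 X n' rfl rfl
  · rintro Y n rfl rfl
    cases w with
    | inr n' => exact h2.2 Y n' rfl rfl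
    | inl Z =>
      cases u with
      | inr n' => exact (h1.1 : False).elim
      | inl X =>
        exfalso
        have h7 := h4.2 X n rfl rfl
        have h8 := h3.2 Z n rfl rfl
        have h9 := rk_lt _ _ h1.1
        have h10 := rk_lt _ _ h2.1
        rw [h7] at h9
        rw [h8] at h10
        exact absurd (h9.trans h10) (lt_irrefl _)

/-- a path from a face to a state passes through `g` -/
lemma Rg_pass {g X : E → SignType} {n : E → ℕ} {u : List (Vt E)}
    (h : Val (Rg g) (Sum.inl X) (Sum.inr n) u) : X = g ∨ Sum.inl g ∈ u := by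
  induction u generalizing X with
  | nil => exact Or.inl (h.2 X n rfl rfl)
  | cons v u ih =>
    obtain ⟨h1, h2⟩ := h
    cases v with
    | inr m => exact Or.inl (h1.2 X m rfl rfl)
    | inl Y =>
      rcases ih h2 with h3 | h3
      · right; rw [h3]; simp
      · right; exact List.mem_cons_of_mem _ h3

variable (L : Set (E → SignType))

/-- faces containing `g` -/
def Fg (g : E → SignType) : Set (Vt E) := {v | ∃ Y ∈ L, v = Sum.inl Y ∧ le' g Y}

variable {L}

/-- Step 4a: suspensions. -/
lemma step4a (hL : OM L) (cd : Finset E → ℕ)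
    (hcd : ∀ X ∈ L, ∀ T : Finset E, T.Nonempty → Disjoint T (zs X) → Par L X T → zro X T ∈ L →
      cd (zs X ∪ T) = cd (zs X) + 1)
    {X g : E → SignType} (hg : g ∈ L) {m : E → ℕ} {k : ℕ}
    (h : SPH (dm Rl (Sum.inl g) (Sum.inr m)) (C Rl (Ws L X) (Sum.inl g) (Sum.inr m)) k) (N : ℕ) :
    ∀ Y ∈ L, le' g Y → (zs g).card - (zs Y).card ≤ N → ∃ r, cd (zs g) = cd (zs Y) + r ∧
      (Y ≠ g → 1 ≤ r) ∧ SPH (dm (Rg g) (Sum.inl Y) (Sum.inr m))
        (C (Rg g) (Ws L X ∪ Fg L g) (Sum.inl Y) (Sum.inr m)) (k + r) := by
  -- the case Y = g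
  have hgg : SPH (dm (Rg g) (Sum.inl g) (Sum.inr m))
        (C (Rg g) (Ws L X ∪ Fg L g) (Sum.inl g) (Sum.inr m)) k := by
    have h1 := SPH_relabel (R := Rl) (R' := Rg g) (f := id) (W := Ws L X) (s := Sum.inl g)
      (t := Sum.inr m) QRel_Rl (by
        intro u v hu hv
        rcases hu with rfl | ⟨n, rfl, _⟩
        · exact Rg_g v
        · exact Rg_inr n v) (fun a _ b _ h => h) h
    rw [Set.image_id] at h1
    have h2 : C (Rg g) (Ws L X) (Sum.inl g) (Sum.inr m) =
        C (Rg g) (Ws L X ∪ Fg L g) (Sum.inl g) (Sum.inr m) := by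
      apply C_congr
      intro u hu
      have hu' := Val_mono Rg_le hu
      constructor
      · intro h v hv
        exact Or.inl (h v hv)
      · intro h v hv
        rcases h v hv with h3 | ⟨Y, _, rfl, h3⟩
        · exact h3
        · obtain ⟨h4, h5⟩ := Val_inl_lt hu' Y hv
          exact absurd (h4.antisymm h3) h5
    rw [← h2]
    exact h1
  induction N with
  | zero =>
    intro Y hY hgY hc
    have h1 : g = Y := by
      apply hgY.eq_of_zs
      have h2 := hgY.zs
      have h3 : (zs g).card ≤ (zs Y).card := by omega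
      rw [Finset.eq_of_subset_of_card_le h2 h3]
    subst h1
    exact ⟨0, rfl, fun h => absurd rfl h, hgg⟩
  | succ N ih =>
    intro Y hY hgY hc
    by_cases hYg : Y = g
    · subst hYg
      exact ⟨0, rfl, fun h => absurd rfl h, hgg⟩
    · obtain ⟨T, hTne, hTd, hpar, hTg, hcL⟩ := exists_facet hL hY hg hgY (fun h => hYg h.symm)
      set c := zro Y T with hcdef
      have hgc : le' g c := le_zro hgY hTg
      have hcY : le' c Y := zro_le Y T
      have hcYne : c ≠ Y := zro_ne hTne hTd
      have hzc : zs c = zs Y ∪ T := zs_zro Y T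
      have hcard1 : (zs Y).card < (zs c).card := card_lt_card (hcY.zs_ssubset hcYne)
      have hcard2 : (zs c).card ≤ (zs g).card := card_le_card hgc.zs
      obtain ⟨r, hr1, hr2, hr3⟩ := ih c hcL hgc (by omega)
      have hcdc : cd (zs c) = cd (zs Y) + 1 := by rw [hzc]; exact hcd Y hY T hTne hTd hpar hcL
      refine ⟨r + 1, by omega, fun _ => by omega, ?_⟩
      -- the set without c
      let W0 : Set (Vt E) := (Ws L X ∪ Fg L g) \ {Sum.inl c}
      have hcF : (Sum.inl c : Vt E) ∈ Ws L X ∪ Fg L g := Or.inr ⟨c, hcL, rfl, hgc⟩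
      have hins : insert (Sum.inl c) W0 = Ws L X ∪ Fg L g := Set.insert_sdiff_self_of_mem hcF
      have hcW0 : (Sum.inl c : Vt E) ∉ W0 := fun h => h.2 rfl
      rw [← hins, ← add_assoc]
      refine SPH_susp (QRel_Rg g) rk_lt' hcW0 ?_ ?_ ?_ ?_
      · exact (Rg_inl _ _).mp ⟨hcY, hcYne⟩
      · -- no face between
        intro u hu hmem
        by_contra hne
        obtain ⟨v, hv⟩ := List.exists_mem_of_ne_nil u hne
        have hu' := Val_mono Rg_le hu
        obtain ⟨Z, rfl, h1, h2⟩ := (Val_inl_gt hu').1 v hv
        obtain ⟨h3, h4⟩ := Val_inl_lt hu' Z hv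
        have hZL : Z ∈ L := by
          rcases (hmem _ hv).1 with ⟨n, h5, _⟩ | ⟨Z', h5, h6, _⟩
          · cases h5
          · cases h6; exact h5
        rcases hpar Z hZL h3.zs with h5 | h5
        · exact h2 (h1.antisymm (le_zro h3 h5))
        · apply h4
          apply h3.eq_of_zs
          intro e he
          have h6 := h1.zs he
          rw [hzc] at h6
          rcases mem_union.mp h6 with h7 | h7
          · exact h7
          · exact absurd he (Finset.disjoint_left.mp h5 h7)
      · -- acyclic
        by_cases hcg : c = g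
        · apply AC_of_no_path
          intro u hu hmem
          rcases Rg_pass hu with h1 | h1
          · exact hYg h1
          · exact (hmem _ h1).2 (by rw [hcg]; rfl)
        · let W1 : Set (Vt E) := W0 \ {Sum.inl g}
          have hgW0 : (Sum.inl g : Vt E) ∈ W0 :=
            ⟨Or.inr ⟨g, hg, rfl, le'.refl g⟩, fun h => hcg (Sum.inl_injective h).symm⟩
          have hins1 : insert (Sum.inl g) W1 = W0 := Set.insert_sdiff_self_of_mem hgW0
          have hgW1 : (Sum.inl g : Vt E) ∉ W1 := fun h => h.2 rfl
          rw [← hins1]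
          refine (AC_left (QRel_Rg g) rk_lt' hgW1 ?_).mpr ?_
          · -- gamma
            have h1 := (alpha_gamma hL (zs g \ zs (zro Y T)).card).2 Y T g hY hcL hTne hTd hpar hg
              hgc (fun h => hcg h.symm) le_rfl
            have h2 := AC_relabel (R := Rl) (R' := Rg g) (f := id) (W := Pg L Y (zro Y T) g)
              (s := Sum.inl Y) (t := Sum.inl g) QRel_Rl (by
                intro u v hu hv
                rcases hv with ⟨Z, _, rfl, _⟩ | rfl
                · exact Rg_inl u Z
                · exact Rg_inl u g) (fun a _ b _ h => h) h1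
            rw [Set.image_id] at h2
            have h3 : C (Rg g) (Pg L Y (zro Y T) g) (Sum.inl Y) (Sum.inl g) =
                C (Rg g) W1 (Sum.inl Y) (Sum.inl g) := by
              apply C_congr
              intro u hu
              have hu' := Val_mono Rg_le hu
              constructor
              · intro hmem v hv
                obtain ⟨Z, hZ, rfl, h4, h5, h6, h7, h8⟩ := hmem v hv
                refine ⟨⟨Or.inr ⟨Z, hZ, rfl, h4⟩, ?_⟩, ?_⟩
                · intro h; exact h8 (by cases h; rfl)
                · intro h; exact h5 (by cases h; rfl)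
              · intro hmem v hv
                obtain ⟨Z, rfl, h4, h5⟩ := (Val_inl_gt hu').1 v hv
                obtain ⟨h6, h7⟩ := Val_inl_lt hu' Z hv
                obtain ⟨⟨h8, h9⟩, _⟩ := hmem _ hv
                rcases h8 with ⟨n, h10, _⟩ | ⟨Z', h10, h11, _⟩
                · cases h10
                · cases h11
                  refine ⟨Z, h10, rfl, h4, h5, h6, h7, ?_⟩
                  rintro rfl
                  exact h9 rfl
            rw [← h3]
            exact h2
          · apply AC_of_no_path
            intro u hu hmem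
            rcases Rg_pass hu with h1 | h1
            · exact hYg h1
            · exact hgW1 (hmem _ h1)
      · -- the complex starting at c
        have h1 : C (Rg g) W0 (Sum.inl c) (Sum.inr m) =
            C (Rg g) (Ws L X ∪ Fg L g) (Sum.inl c) (Sum.inr m) := by
          apply C_congr
          intro u hu
          have hu' := Val_mono Rg_le hu
          constructor
          · intro hmem v hv
            exact (hmem v hv).1
          · intro hmem v hv
            refine ⟨hmem v hv, ?_⟩
            rintro rfl
            exact (Val_inl_lt hu' c hv).2 rfl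
        rw [h1]
        exact hr3

/-- Step 4 -/
lemma step4 (hL : OM L) (cd : Finset E → ℕ) (hcd0 : cd ∅ = 0)
    (hcd : ∀ X ∈ L, ∀ T : Finset E, T.Nonempty → Disjoint T (zs X) → Par L X T → zro X T ∈ L →
      cd (zs X ∪ T) = cd (zs X) + 1)
    {X g : E → SignType} (hX : X ∈ L) (hX0 : zs X = ∅) (hg : g ∈ L) (hgX : le' g X) {m : E → ℕ}
    (hm : m ≠ 0) (hmL : refl' X m ∈ L) (hgm : zs g = lev m 1) {k : ℕ}
    (h : SPH (dm Rl (Sum.inl g) (Sum.inr m)) (C Rl (Ws L X) (Sum.inl g) (Sum.inr m)) k) :
    ∃ r, cd (zs g) = r + 1 ∧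
      SPH (dm Rl (Sum.inl X) (Sum.inr m)) (C Rl (Ws L X) (Sum.inl X) (Sum.inr m)) (k + r) := by
  classical
  have hgX' : X ≠ g := by
    rintro rfl
    apply hm
    funext e
    have h1 : e ∉ lev m 1 := by rw [← hgm, hX0]; simp
    simp only [lev, mem_filter, mem_univ, true_and] at h1
    simp only [Pi.zero_apply]
    omega
  obtain ⟨r, hr1, hr2, hr3⟩ := step4a hL cd hcd hg h _ X hX hgX le_rfl
  have hr : 1 ≤ r := hr2 hgX'
  obtain ⟨r', rfl⟩ : ∃ r', r = r' + 1 := ⟨r - 1, by omega⟩
  rw [hX0, hcd0] at hr1
  refine ⟨r', by omega, ?_⟩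
  -- the big faces
  let Big : Set (Vt E) := {v | ∃ Y ∈ L, v = Sum.inl Y ∧ le' Y X ∧ Y ≠ X ∧ (zs Y).card < (zs g).card}
  let W : Set (Vt E) := Ws L X ∪ Big
  have hgW : (Sum.inl g : Vt E) ∉ W := by
    rintro (⟨n, h1, _⟩ | ⟨Y, _, h1, _, _, h2⟩)
    · cases h1
    · cases h1; omega
  -- removing the small faces
  have hBigAC : AC (dm Rl (Sum.inl X) (Sum.inr m))
      (C Rl (insert (Sum.inl g) W) (Sum.inl X) (Sum.inr m)) := by
    have h1 := step1 hL hX hX0 _ m hm hmL le_rfl
    let D : Finset (Vt E) := (univ.filter (fun G : E → SignType => G ∈ L ∧ le' G X ∧ G ≠ X ∧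
      (zs g).card ≤ (zs G).card ∧ G ≠ g)).image Sum.inl
    have hD : ∀ v, v ∈ D ↔ ∃ G ∈ L, v = Sum.inl G ∧ le' G X ∧ G ≠ X ∧
        (zs g).card ≤ (zs G).card ∧ G ≠ g := by
      intro v
      simp only [D, mem_image, mem_filter, mem_univ, true_and]
      constructor
      · rintro ⟨G, ⟨h1, h2⟩, rfl⟩; exact ⟨G, h1, rfl, h2⟩
      · rintro ⟨G, h1, rfl, h2⟩; exact ⟨G, ⟨h1, h2⟩, rfl⟩
    have hDW : ∀ v ∈ D, v ∉ insert (Sum.inl g) W := by
      intro v hv
      obtain ⟨G, hG, rfl, h2, h3, h4, h5⟩ := (hD v).mp hv
      rintro (h6 | ⟨n, h6, _⟩ | ⟨Y, _, h6, _, _, h7⟩)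
      · cases h6; exact h5 rfl
      · cases h6
      · cases h6; omega
    have h2 := (add_right (s := Sum.inl X) (t := Sum.inr m) (D := D) QRel_Rl rk_lt hDW (by
      intro v hv
      obtain ⟨G, hG, rfl, h3, h4, h5, h6⟩ := (hD v).mp hv
      have h7 : zs G ≠ lev m 1 := by
        rw [← hgm]
        intro h8
        apply h6
        funext e
        by_cases he : G e = 0
        · have : e ∈ zs g := by rw [← h8]; exact mem_zs.mpr he
          rw [he, mem_zs.mp this]
        · have : e ∉ zs g := by rw [← h8]; exact fun h => he (mem_zs.mp h)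
          rw [← h3 e he, hgX e (fun h => this (mem_zs.mpr h))]
      have h8 := step2 hL hX hX0 hG h3 h4 hm hmL h7
      have h9 : C Rl (Ws L X) (Sum.inl G) (Sum.inr m) =
          C Rl (insert (Sum.inl g) W) (Sum.inl G) (Sum.inr m) := by
        apply C_congr
        intro u hu
        constructor
        · intro hmem w hw
          exact Or.inr (Or.inl (hmem w hw))
        · intro hmem w hw
          rcases hmem w hw with h10 | h10 | ⟨Y, hY, rfl, _, _, h10⟩
          · subst h10
            obtain ⟨h11, h12⟩ := Val_inl_lt hu g hw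
            have := card_lt_card (h11.zs_ssubset h12)
            omega
          · exact h10
          · obtain ⟨h11, h12⟩ := Val_inl_lt hu Y hw
            have := card_lt_card (h11.zs_ssubset h12)
            omega
      rw [← h9]
      exact h8)).1
    apply h2.mp
    have h3 : Fs L X ∪ Ws L X = insert (Sum.inl g) W ∪ (D : Set (Vt E)) := by
      ext v
      constructor
      · rintro (⟨G, hG, rfl, h4, h5⟩ | h4)
        · by_cases h6 : G = g
          · left; left; rw [h6]
          · by_cases h7 : (zs G).card < (zs g).card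
            · left; right; right
              exact ⟨G, hG, rfl, h4, h5, h7⟩
            · right
              exact Finset.mem_coe.mpr ((hD _).mpr ⟨G, hG, rfl, h4, h5, by omega, h6⟩)
        · left; right; left; exact h4
      · rintro ((h4 | h4 | ⟨Y, hY, rfl, h5, h6, _⟩) | h4)
        · subst h4; left; exact ⟨g, hg, rfl, hgX, fun h => hgX' h.symm⟩
        · right; exact h4
        · left; exact ⟨Y, hY, rfl, h5, h6⟩
        · obtain ⟨G, hG, rfl, h5, h6, _⟩ := (hD _).mp (Finset.mem_coe.mp h4)
          left; exact ⟨G, hG, rfl, h5, h6⟩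
    rw [← h3]
    exact h1
  -- structure of the paths through g
  have hpath : ∀ u, Val Rl (Sum.inl X) (Sum.inr m) u → (∀ w ∈ u, w ∈ insert (Sum.inl g) W) →
      ∀ a b, u = a ++ Sum.inl g :: b → (∀ w ∈ b, ∃ n, w = Sum.inr n) := by
    intro u hu hmem a b hab w hw
    subst hab
    have h1 := (Val_append.mp hu).2
    rcases hmem w (by simp [hw]) with h2 | ⟨n, h2, _⟩ | ⟨Y, hY, rfl, _, _, h2⟩
    · subst h2
      exact absurd rfl (Val_inl_lt h1 g hw).2
    · exact ⟨n, h2⟩
    · obtain ⟨h3, h4⟩ := Val_inl_lt h1 Y hw
      have := card_lt_card (h3.zs_ssubset h4)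
      omega
  -- the final removal of the big faces
  have hmain : SPH (dm Rl (Sum.inl X) (Sum.inr m)) (C Rl W (Sum.inl X) (Sum.inr m)) (k + r') := by
    refine SPH_thr QRel_Rl hgW (Rg g) ?_ ?_ hBigAC ?_
    · intro j u
      constructor
      · rintro ⟨h1, h2, h3⟩
        refine ⟨⟨Val_mono Rg_le h1, h2, h3⟩, ?_⟩
        rcases Rg_pass h1 with h4 | h4
        · exact absurd h4 hgX'
        · exact h4
      · rintro ⟨⟨h1, h2, h3⟩, h4⟩
        refine ⟨?_, h2, h3⟩
        obtain ⟨a, b, rfl⟩ := List.append_of_mem h4
        have h5 := hpath _ h1 h2 a b rfl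
        obtain ⟨h6, h7⟩ := Val_append.mp h1
        apply Val_append.mpr
        constructor
        · refine (Val_congr ?_).mp h6
          intro p q hp hq
          have h8 := (Val_inl_gt h6).1
          rcases hq with hq | rfl
          · obtain ⟨Y, rfl, _⟩ := h8 q hq
            exact Rg_inl _ _
          · exact Rg_inl _ _
        · refine (Val_congr ?_).mp h7
          intro p q hp hq
          rcases hp with rfl | hp
          · exact Rg_g q
          · obtain ⟨n, rfl⟩ := h5 p hp
            exact Rg_inr n q
    · rintro j u ⟨h1, h2, h3⟩ h4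
      obtain ⟨a, b, rfl⟩ := List.append_of_mem h4
      have h5 := hpath _ h1 h2 a b rfl
      obtain ⟨h6, h7⟩ := Val_append.mp h1
      rw [Din_append, Din_append, map_add, map_add, map_smul, map_smul, thr_app, thr_pre, map_iff',
        thr_single_neg]
      · have e1 : Din (Rg g) (Sum.inl X) (Sum.inl g) a = Din Rl (Sum.inl X) (Sum.inl g) a := by
          symm
          apply Din_congr
          intro p q hp hq
          have h8 := (Val_inl_gt h6).1
          rcases hq with hq | rfl
          · obtain ⟨Y, rfl, _⟩ := h8 q hq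
            exact Rg_inl _ _
          · exact Rg_inl _ _
        have e2 : Din (Rg g) (Sum.inl g) (Sum.inr m) b = Din Rl (Sum.inl g) (Sum.inr m) b := by
          symm
          apply Din_congr
          intro p q hp hq
          rcases hp with rfl | hp
          · exact Rg_g q
          · obtain ⟨n, rfl⟩ := h5 p hp
            exact Rg_inr n q
        have e3 : ¬ Rg g (lst (Sum.inl X) a) (hd b (Sum.inr m)) := by
          intro h8
          have h9 : ∃ Z, lst (Sum.inl X) a = Sum.inl Z ∧ Z ≠ g := by
            rcases lst_mem (Sum.inl X) a with h10 | h10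
            · exact ⟨X, h10, hgX'⟩
            · obtain ⟨Y, h11, _, h12⟩ := (Val_inl_gt h6).1 _ h10
              exact ⟨Y, h11, fun h => h12 h.symm⟩
          obtain ⟨Z, h10, h11⟩ := h9
          have h12 : ∃ n, hd b (Sum.inr m : Vt E) = Sum.inr n := by
            cases b with
            | nil => exact ⟨m, by simp⟩
            | cons w b =>
              obtain ⟨n, hn⟩ := h5 w (by simp)
              exact ⟨n, by simpa using hn⟩
          obtain ⟨n, h13⟩ := h12
          exact h11 (h8.2 Z n h10 h13)
        rw [e1, e2, iff'_neg e3]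
        congr 3
        by_cases h8 : Rl (lst (Sum.inl X) a) (hd b (Sum.inr m))
        · rw [iff'_pos h8]
        · rw [iff'_neg h8]
      · intro h8
        obtain ⟨h9, h10⟩ := Val_notMem rk_lt h1
        rcases List.mem_append.mp h8 with h11 | h11
        · exact h9 h11
        · exact h10 h11
    · have h1 : C (Rg g) (Ws L X ∪ Fg L g) (Sum.inl X) (Sum.inr m) =
          C (Rg g) (insert (Sum.inl g) W) (Sum.inl X) (Sum.inr m) := by
        apply C_congr
        intro u hu
        have hu' := Val_mono Rg_le hu
        constructor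
        · intro hmem v hv
          rcases hmem v hv with h2 | ⟨Y, hY, rfl, h2⟩
          · exact Or.inr (Or.inl h2)
          · obtain ⟨h3, h4⟩ := Val_inl_lt hu' Y hv
            by_cases h5 : Y = g
            · left; rw [h5]
            · right; right
              exact ⟨Y, hY, rfl, h3, h4, card_lt_card (h2.zs_ssubset (fun h => h5 h.symm))⟩
        · intro hmem v hv
          have h2 : Sum.inl g ∈ u := by
            rcases Rg_pass hu with h4 | h4
            · exact absurd h4 hgX'
            · exact h4
          obtain ⟨a, b, hab⟩ := List.append_of_mem h2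
          have h5 := hpath _ hu' hmem a b hab
          subst hab
          obtain ⟨h6, h7⟩ := Val_append.mp hu'
          rcases List.mem_append.mp hv with h8 | h8
          · obtain ⟨Y, rfl, h9, h10⟩ := (Val_inl_gt h6).1 v h8
            right
            rcases hmem _ hv with h11 | ⟨n, h11, _⟩ | ⟨Y', hY', h11, _⟩
            · cases h11; exact absurd rfl h10
            · cases h11
            · cases h11
              exact ⟨Y, hY', rfl, h9⟩
          · rcases List.mem_cons.mp h8 with h9 | h9
            · right; exact ⟨g, hg, h9, le'.refl g⟩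
            · obtain ⟨n, rfl⟩ := h5 v h9
              left
              rcases hmem _ hv with h11 | h11 | ⟨Y', hY', h11, _⟩
              · cases h11
              · exact h11
              · cases h11
      rw [← h1, add_assoc]
      exact hr3
  let D : Finset (Vt E) := (univ.filter (fun G : E → SignType => G ∈ L ∧ le' G X ∧ G ≠ X ∧
    (zs G).card < (zs g).card)).image Sum.inl
  have hD : ∀ v, v ∈ D ↔ v ∈ Big := by
    intro v
    simp only [D, Big, mem_image, mem_filter, mem_univ, true_and, Set.mem_setOf_eq]
    constructor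
    · rintro ⟨G, ⟨h1, h2⟩, rfl⟩; exact ⟨G, h1, rfl, h2⟩
    · rintro ⟨G, h1, rfl, h2⟩; exact ⟨G, ⟨h1, h2⟩, rfl⟩
  have hDW : ∀ v ∈ D, v ∉ Ws L X := by
    intro v hv
    obtain ⟨G, _, rfl, _⟩ := (hD v).mp hv
    rintro ⟨n, h, _⟩
    cases h
  have h2 := (add_right (s := Sum.inl X) (t := Sum.inr m) (D := D) QRel_Rl rk_lt hDW (by
    intro v hv
    obtain ⟨G, hG, rfl, h3, h4, h5⟩ := (hD v).mp hv
    exact step2 hL hX hX0 hG h3 h4 hm hmL (fun h => by rw [← hgm] at h; rw [h] at h5; omega))).2
      (k + r')
  apply h2.mp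
  have h3 : W = Ws L X ∪ (D : Set (Vt E)) := by
    change Ws L X ∪ Big = _
    congr 1
    ext v
    exact (Iff.trans (hD v).symm Finset.mem_coe.symm)
  rw [← h3]
  exact hmain

end Mainsec2

end Pool.Agent.Helper753_MagHom
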