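import Pool.Agent.Helper753_MagHom.Main2

/-!
# The main theorem
-/

set_option autoImplicit false
set_option linter.unusedSectionVars false
set_option linter.unusedDecidableInType false
set_option linter.unusedFintypeInType false
set_option linter.unusedVariables false
open Finset
namespace Pool.Agent.Helper753_MagHom

section Mainsec3

variable {E : Type*} [Fintype E] [DecidableEq E]

/-- indicator of the support -/
def ind (m : E → ℕ) : E → ℕ := fun e => if m e = 0 then 0 else 1
/-- `m` minus the indicator of its support -/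
def prd (m : E → ℕ) : E → ℕ := fun e => m e - 1

lemma prd_add_ind (m : E → ℕ) : prd m + ind m = m := by
  funext e
  simp only [prd, ind, Pi.add_apply]
  split_ifs with h <;> omega

lemma refl'_add (X : E → SignType) (n n' : E → ℕ) : refl' (refl' X n') n = refl' X (n + n') := by
  funext e
  simp only [refl', Pi.add_apply]
  rw [pow_add, mul_assoc]

lemma mem_lev {m : E → ℕ} {j : ℕ} {e : E} : e ∈ lev m j ↔ j ≤ m e := by simp [lev]

lemma lev_prd {m : E → ℕ} {j : ℕ} (hj : 1 ≤ j) : lev (prd m) j = lev m (j + 1) := by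
  ext e
  simp only [mem_lev, prd]
  omega

variable {L : Set (E → SignType)}

lemma zs_zro_of_tope {X : E → SignType} (hX0 : zs X = ∅) (S : Finset E) : zs (zro X S) = S := by
  rw [zs_zro, hX0, empty_union]

lemma refl_ind {X : E → SignType} {m : E → ℕ} :
    refl' X (ind m) = cmp (zro X (lev m 1)) (-X) := by
  funext e
  simp only [refl', ind, cmp, zro, mem_lev, Pi.neg_apply]
  by_cases h : m e = 0
  · rw [if_pos h, if_neg (show ¬ 1 ≤ m e by omega)]
    cases X e <;> decide
  · rw [if_neg h, if_pos (show 1 ≤ m e by omega), if_pos rfl]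
    cases X e <;> decide

/-- the first state is forced -/
lemma first_state {X g : E → SignType} {m n : E → ℕ} (hg : zs g = lev m 1)
    (h1 : Rl (Sum.inl g) (Sum.inr n)) (h2 : ∀ e, n e ≤ m e) : n = ind m := by
  funext e
  simp only [ind]
  split_ifs with h
  · have := h2 e; omega
  · apply h1.2 e
    rw [← mem_zs, hg, mem_lev]
    omega

lemma Rl_g_ind {g : E → SignType} {m : E → ℕ} (hg : zs g = lev m 1) :
    Rl (Sum.inl g) (Sum.inr (ind m)) := by
  constructor
  · intro e
    simp only [ind]
    split_ifs <;> omega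
  · intro e he
    rw [← mem_zs, hg, mem_lev] at he
    simp only [ind]
    rw [if_neg (by omega)]

lemma no_path_g {X g : E → SignType} {m n : E → ℕ} (hg : zs g = lev m 1) (hn : ∀ e, n e ≤ m e)
    (hnd : ¬ Rl (Sum.inl g) (Sum.inr n)) {u : List (Vt E)}
    (hu : Val Rl (Sum.inl g) (Sum.inr n) u) (hmem : ∀ w ∈ u, w ∈ Ws L X \ {Sum.inr (ind m)}) :
    False := by
  cases u with
  | nil => exact hnd hu
  | cons v u =>
    obtain ⟨⟨n', rfl, _, _⟩, h2⟩ := hmem v (by simp)
    have h3 := (Val_inr_le hu).1 n' (by simp)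
    have h4 := first_state (X := X) hg hu.1 (fun e => (h3.1 e).trans (hn e))
    exact h2 (by rw [h4]; rfl)

/-- Step 5a -/
lemma step5a {X g : E → SignType} {m : E → ℕ} (hg : zs g = lev m 1) (hm : m = ind m) :
    SPH (dm Rl (Sum.inl g) (Sum.inr m)) (C Rl (Ws L X) (Sum.inl g) (Sum.inr m)) 0 := by
  apply SPH_direct
  · have := Rl_g_ind hg
    rwa [← hm] at this
  · intro u hu hmem
    cases u with
    | nil => rfl
    | cons v u =>
      exfalso
      obtain ⟨n', rfl, _, _⟩ := hmem v (by simp)
      have h3 := (Val_inr_le hu).1 n' (by simp)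
      have h4 := first_state (X := X) hg hu.1 h3.1
      rw [← hm] at h4
      rw [h4] at h3
      exact absurd h3.2 (lt_irrefl _)

/-- the translation of the states -/
def tr (n : E → ℕ) : Vt E → Vt E := Sum.elim (fun _ => Sum.inr n) (fun n' => Sum.inr (n' + n))

lemma tr_rel {X X' : E → SignType} {m n : E → ℕ} (hX0 : zs X' = ∅) (hm : m ≠ 0) :
    ∀ u v : Vt E, (u = Sum.inl X' ∨ u ∈ Ws L X') → (v ∈ Ws L X' ∨ v = Sum.inr m) →
      (Rl u v ↔ Rl (tr n u) (tr n v)) := by
  intro u v hu hv
  obtain ⟨n', rfl, hn'⟩ : ∃ n', v = Sum.inr n' ∧ n' ≠ 0 := by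
    rcases hv with ⟨n', rfl, h, _⟩ | rfl
    · exact ⟨n', rfl, h⟩
    · exact ⟨m, rfl, hm⟩
  rcases hu with rfl | ⟨n1, rfl, _⟩
  · simp only [tr, Sum.elim_inl, Sum.elim_inr, Rl_inl_inr, Rl_inr_inr, Rn, Pi.add_apply]
    constructor
    · rintro ⟨h1, _⟩
      refine ⟨?_, fun e => by have := h1 e; omega⟩
      intro h
      apply hn'
      funext e
      have := congrFun h e
      simp only [Pi.add_apply, Pi.zero_apply] at this ⊢
      omega
    · rintro ⟨_, h2⟩
      refine ⟨fun e => by rcases h2 e with h | h <;> omega, ?_⟩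
      intro e he
      have : e ∈ zs X' := mem_zs.mpr he
      rw [hX0] at this
      simp at this
  · simp only [tr, Sum.elim_inr, Rl_inr_inr, Rn, Pi.add_apply]
    constructor
    · rintro ⟨h1, h2⟩
      refine ⟨?_, fun e => by rcases h2 e with h | h <;> omega⟩
      intro h
      apply h1
      funext e
      have := congrFun h e
      simp only [Pi.add_apply] at this
      omega
    · rintro ⟨h1, h2⟩
      refine ⟨?_, fun e => by rcases h2 e with h | h <;> omega⟩
      rintro rfl
      exact h1 rfl

lemma tr_inj {X' : E → SignType} (n : E → ℕ) : Set.InjOn (tr n) (Ws L X') := by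
  rintro _ ⟨n1, rfl, _⟩ _ ⟨n2, rfl, _⟩ h
  simp only [tr, Sum.elim_inr] at h
  have h1 := Sum.inr_injective h
  congr 1
  funext e
  have := congrFun h1 e
  simp only [Pi.add_apply] at this
  omega

lemma tr_congr {X : E → SignType} {m : E → ℕ} :
    C Rl (tr (ind m) '' (Ws L (refl' X (ind m)))) (Sum.inr (ind m)) (Sum.inr m) =
      C Rl (Ws L X \ {Sum.inr (ind m)}) (Sum.inr (ind m)) (Sum.inr m) := by
  apply C_congr
  intro u hu
  constructor
  · intro hmem v hv
    obtain ⟨_, ⟨n, rfl, hn, hnL⟩, rfl⟩ := hmem v hv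
    rw [refl'_add] at hnL
    refine ⟨⟨n + ind m, rfl, ?_, hnL⟩, ?_⟩
    · intro h
      apply hn
      funext e
      have := congrFun h e
      simp only [Pi.add_apply, Pi.zero_apply] at this ⊢
      omega
    · intro h
      apply hn
      have h1 := Sum.inr_injective (show (Sum.inr (n + ind m) : Vt E) = Sum.inr (ind m) from h)
      funext e
      have := congrFun h1 e
      simp only [Pi.add_apply, Pi.zero_apply] at this ⊢
      omega
  · intro hmem v hv
    obtain ⟨⟨n, rfl, hn, hnL⟩, hne⟩ := hmem v hv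
    obtain ⟨h1, h2⟩ := Val_inr_ge hu n hv
    have h3 : (fun e => n e - ind m e) + ind m = n := by
      funext e
      have := h1 e
      simp only [Pi.add_apply]
      omega
    refine ⟨Sum.inr (fun e => n e - ind m e), ⟨_, rfl, ?_, ?_⟩, ?_⟩
    · intro h
      rw [h, zero_add] at h3
      exact h2 h3
    · rw [refl'_add, h3]; exact hnL
    · simp only [tr, Sum.elim_inr]
      rw [h3]

lemma ind_ne_zero {m : E → ℕ} (hm : m ≠ 0) : ind m ≠ 0 := by
  intro h
  apply hm
  funext e
  have := congrFun h e
  simp only [ind, Pi.zero_apply] at this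
  by_contra h1
  rw [if_neg (show ¬ m e = 0 from h1)] at this
  omega

/-- Step 5b -/
lemma step5b (hL : OM L) {X g : E → SignType} (hX : X ∈ L) (hX0 : zs X = ∅) {m : E → ℕ} (hm : m ≠ 0)
    (hgdef : g = zro X (lev m 1)) (hg : g ∈ L) (hpm : prd m ≠ 0) :
    (AC (dm Rl (Sum.inl (refl' X (ind m))) (Sum.inr (prd m)))
        (C Rl (Ws L (refl' X (ind m))) (Sum.inl (refl' X (ind m))) (Sum.inr (prd m))) →
      AC (dm Rl (Sum.inl g) (Sum.inr m)) (C Rl (Ws L X) (Sum.inl g) (Sum.inr m))) ∧
    ∀ k, SPH (dm Rl (Sum.inl (refl' X (ind m))) (Sum.inr (prd m)))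
        (C Rl (Ws L (refl' X (ind m))) (Sum.inl (refl' X (ind m))) (Sum.inr (prd m))) k →
      SPH (dm Rl (Sum.inl g) (Sum.inr m)) (C Rl (Ws L X) (Sum.inl g) (Sum.inr m)) (k + 1) := by
  have hzg : zs g = lev m 1 := by rw [hgdef]; exact zs_zro_of_tope hX0 _
  have hX'L : refl' X (ind m) ∈ L := by
    rw [refl_ind, ← hgdef]
    exact hL.comp g hg _ (hL.neg X hX)
  have hX'0 : zs (refl' X (ind m)) = ∅ := by rw [refl'_zs, hX0]
  have hmne : m ≠ ind m := by
    intro h
    apply hpm
    have := prd_add_ind m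
    funext e
    have h1 := congrFun this e
    have h2 := congrFun h e
    simp only [Pi.add_apply, Pi.zero_apply] at h1 ⊢
    omega
  set W0 : Set (Vt E) := Ws L X \ {Sum.inr (ind m)} with hW0
  have hinW : (Sum.inr (ind m) : Vt E) ∈ Ws L X := ⟨ind m, rfl, ind_ne_zero hm, hX'L⟩
  have hins : insert (Sum.inr (ind m)) W0 = Ws L X := Set.insert_sdiff_self_of_mem hinW
  have hnW0 : (Sum.inr (ind m) : Vt E) ∉ W0 := fun h => h.2 rfl
  have hnodirect : ¬ Rl (Sum.inl g) (Sum.inr m) := by
    intro h
    exact hmne (first_state (X := X) hzg h (fun _ => le_rfl))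
  have hAC0 : AC (dm Rl (Sum.inl g) (Sum.inr m)) (C Rl W0 (Sum.inl g) (Sum.inr m)) := by
    apply AC_of_no_path
    intro u hu hmem
    exact no_path_g hzg (fun _ => le_rfl) hnodirect hu hmem
  have htm : tr (ind m) (Sum.inr (prd m)) = Sum.inr m := by
    simp only [tr, Sum.elim_inr]
    rw [prd_add_ind]
  have hts : tr (ind m) (Sum.inl (refl' X (ind m))) = Sum.inr (ind m) := rfl
  constructor
  · intro h
    have h1 := AC_relabel (R := Rl) (R' := Rl) (f := tr (ind m)) QRel_Rl
      (tr_rel (X := X) (n := ind m) hX'0 hpm) (tr_inj (ind m)) h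
    rw [htm, hts, tr_congr] at h1
    rw [← hins]
    exact (AC_right QRel_Rl rk_lt hnW0 h1).mpr hAC0
  · intro k h
    have h1 := SPH_relabel (R := Rl) (R' := Rl) (f := tr (ind m)) QRel_Rl
      (tr_rel (X := X) (n := ind m) hX'0 hpm) (tr_inj (ind m)) h
    rw [htm, hts, tr_congr] at h1
    rw [← hins]
    refine SPH_susp QRel_Rl rk_lt hnW0 (Rl_g_ind hzg) ?_ hAC0 h1
    intro u hu hmem
    cases u with
    | nil => rfl
    | cons v u =>
      exfalso
      obtain ⟨⟨n', rfl, _, _⟩, h2⟩ := hmem v (by simp)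
      have h3 := (Val_inr_le hu).1 n' (by simp)
      have h4 : n' = ind m := first_state (X := X) hzg hu.1 (fun e => (h3.1 e).trans (by
        simp only [ind]; split_ifs <;> omega))
      exact h2 (by rw [h4]; rfl)

/-! ### degrees -/

lemma deg_eq (cd : Finset E → ℕ) (hcd0 : cd ∅ = 0) {m : E → ℕ} {N : ℕ} (hN : ∀ e, m e ≤ N) :
    ∑ j ∈ range N, cd (lev m (j + 1)) = deg cd m := by
  have key : ∀ N N' : ℕ, N ≤ N' → (∀ e, m e ≤ N) →
      ∑ j ∈ range N, cd (lev m (j + 1)) = ∑ j ∈ range N', cd (lev m (j + 1)) := by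
    intro N N' h h1
    apply Finset.sum_subset (range_mono h)
    intro j _ hj
    rw [mem_range] at hj
    have : lev m (j + 1) = ∅ := by
      ext e
      simp only [mem_lev, notMem_empty, iff_false]
      have := h1 e
      omega
    rw [this, hcd0]
  have h1 : ∀ e, m e ≤ ∑ e, m e := fun e => Finset.single_le_sum (fun _ _ => Nat.zero_le _) (mem_univ e)
  rw [deg]
  rcases le_total N (∑ e, m e) with h | h
  · exact key N _ h hN
  · exact (key _ N h h1).symm

lemma deg_prd (cd : Finset E → ℕ) (hcd0 : cd ∅ = 0) (m : E → ℕ) :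
    deg cd m = cd (lev m 1) + deg cd (prd m) := by
  have h1 : ∀ e, m e ≤ ∑ e, m e := fun e => Finset.single_le_sum (fun _ _ => Nat.zero_le _) (mem_univ e)
  rw [← deg_eq cd hcd0 (m := m) (N := (∑ e, m e) + 1) (fun e => (h1 e).trans (Nat.le_succ _)),
    ← deg_eq cd hcd0 (m := prd m) (N := ∑ e, m e) (fun e => by
      have := h1 e; simp only [prd]; omega), Finset.sum_range_succ', add_comm]
  congr 1
  apply Finset.sum_congr rfl
  intro j _
  rw [lev_prd (by omega)]

lemma crit_prd (hL : OM L) {X : E → SignType} (hX : X ∈ L) (hX0 : zs X = ∅) {m : E → ℕ}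
    (hg : zro X (lev m 1) ∈ L) : Crit L X m ↔ Crit L (refl' X (ind m)) (prd m) := by
  have key : ∀ Y : E → SignType, ∀ j, 1 ≤ j →
      zro (refl' Y (ind m)) (lev m (j + 1)) = cmp (zro Y (lev m 1)) (-(zro Y (lev m (j + 1)))) := by
    intro Y j hj
    funext e
    simp only [zro, refl', cmp, ind, mem_lev, Pi.neg_apply]
    by_cases h1 : m e = 0
    · simp only [if_neg (show ¬ j + 1 ≤ m e by omega), if_pos h1, if_neg (show ¬ 1 ≤ m e by omega),
        pow_zero, one_mul]
      cases Y e <;> decide
    · rw [if_neg h1, if_pos (show 1 ≤ m e by omega), if_pos rfl]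
      by_cases h2 : j + 1 ≤ m e
      · rw [if_pos h2, if_pos h2]; rfl
      · rw [if_neg h2, if_neg h2]
        cases Y e <;> decide
  constructor
  · intro h j hj
    rw [lev_prd hj, key X j hj]
    exact hL.comp _ hg _ (hL.neg _ (h _ (by omega)))
  · intro h j hj
    rcases Nat.lt_or_ge j 2 with h1 | h1
    · have : j = 1 := by omega
      rw [this]; exact hg
    · obtain ⟨i, rfl⟩ : ∃ i, j = i + 1 := ⟨j - 1, by omega⟩
      have h2 := h i (by omega)
      rw [lev_prd (by omega)] at h2
      have h3 : zro X (lev m (i + 1)) =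
          cmp (zro X (lev m 1)) (-(zro (refl' X (ind m)) (lev m (i + 1)))) := by
        funext e
        simp only [zro, refl', cmp, ind, mem_lev, Pi.neg_apply]
        have hXe : X e ≠ 0 := by
          intro he
          have : e ∈ zs X := mem_zs.mpr he
          rw [hX0] at this
          simp at this
        by_cases h1 : m e = 0
        · rw [if_neg (show ¬ i + 1 ≤ m e by omega), if_neg (show ¬ 1 ≤ m e by omega), if_neg hXe]
        · rw [if_neg h1, if_pos (show 1 ≤ m e by omega), if_pos rfl]
          by_cases h2 : i + 1 ≤ m e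
          · rw [if_pos h2, if_pos h2]; rfl
          · rw [if_neg h2, if_neg h2]
            cases X e <;> decide
      rw [h3]
      exact hL.comp _ hg _ (hL.neg _ h2)

/-- The main theorem, on faces and states. -/
theorem mainThm (hL : OM L) (cd : Finset E → ℕ) (hcd0 : cd ∅ = 0)
    (hcd : ∀ X ∈ L, ∀ T : Finset E, T.Nonempty → Disjoint T (zs X) → Par L X T → zro X T ∈ L →
      cd (zs X ∪ T) = cd (zs X) + 1) (N : ℕ) :
    ∀ X ∈ L, zs X = ∅ → ∀ m : E → ℕ, m ≠ 0 → refl' X m ∈ L → ∑ e, m e ≤ N →
      (Crit L X m → ∃ k, k + 1 = deg cd m ∧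
        SPH (dm Rl (Sum.inl X) (Sum.inr m)) (C Rl (Ws L X) (Sum.inl X) (Sum.inr m)) k) ∧
      (¬ Crit L X m →
        AC (dm Rl (Sum.inl X) (Sum.inr m)) (C Rl (Ws L X) (Sum.inl X) (Sum.inr m))) := by
  induction N with
  | zero =>
    intro X _ _ m hm _ hs
    exfalso
    apply hm
    funext e
    have := Finset.sum_eq_zero_iff.mp (Nat.le_zero.mp hs) e (mem_univ e)
    simpa using this
  | succ N ih =>
    intro X hX hX0 m hm hmL hs
    -- faces with zero set `supp m`
    have huniq : ∀ G, le' G X → zs G = lev m 1 → G = zro X (lev m 1) := by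
      intro G hG hz
      exact (le_zro hG (by rw [hz])).eq_of_zs (by rw [zs_zro_of_tope hX0, hz])
    by_cases hg : zro X (lev m 1) ∈ L
    · have hzg : zs (zro X (lev m 1)) = lev m 1 := zs_zro_of_tope hX0 _
      by_cases hpm : prd m = 0
      · have hmi : m = ind m := by
          have := prd_add_ind m
          rw [hpm, zero_add] at this
          exact this.symm
        have hcrit : Crit L X m := by
          intro j hj
          rcases Nat.lt_or_ge j 2 with h1 | h1
          · have : j = 1 := by omega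
            rw [this]; exact hg
          · have : lev m j = ∅ := by
              ext e
              simp only [mem_lev, notMem_empty, iff_false]
              have h2 := congrFun hpm e
              simp only [prd, Pi.zero_apply] at h2
              omega
            rw [this]
            have : zro X ∅ = X := by funext e; simp [zro]
            rw [this]; exact hX
        refine ⟨fun _ => ?_, fun h => absurd hcrit h⟩
        have h1 : SPH (dm Rl (Sum.inl (zro X (lev m 1))) (Sum.inr m))
            (C Rl (Ws L X) (Sum.inl (zro X (lev m 1))) (Sum.inr m)) 0 := step5a hzg hmi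
        obtain ⟨r, hr, h2⟩ := step4 hL cd hcd0 hcd hX hX0 hg (zro_le _ _) hm hmL hzg h1
        refine ⟨0 + r, ?_, h2⟩
        rw [deg_prd cd hcd0 m, hpm]
        have : deg cd (0 : E → ℕ) = 0 := by simp [deg]
        rw [this, ← hzg, hr]
        omega
      · have hX'L : refl' X (ind m) ∈ L := by
          rw [refl_ind]
          exact hL.comp _ hg _ (hL.neg X hX)
        have hX'0 : zs (refl' X (ind m)) = ∅ := by rw [refl'_zs, hX0]
        have hmL' : refl' (refl' X (ind m)) (prd m) ∈ L := by
          rw [refl'_add, prd_add_ind]; exact hmL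
        have hsum : ∑ e, prd m e ≤ N := by
          have h1 : ∑ e, prd m e < ∑ e, m e := by
            apply Finset.sum_lt_sum
            · intro e _; simp only [prd]; omega
            · by_contra hc
              push Not at hc
              apply hm
              funext e
              have := hc e (mem_univ e)
              simp only [prd, Pi.zero_apply] at this ⊢
              omega
          omega
        obtain ⟨ih1, ih2⟩ := ih _ hX'L hX'0 (prd m) hpm hmL' hsum
        obtain ⟨h5, h6⟩ := step5b hL hX hX0 hm rfl hg hpm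
        rw [crit_prd hL hX hX0 hg]
        constructor
        · intro hc
          obtain ⟨k, hk, h7⟩ := ih1 hc
          obtain ⟨r, hr, h8⟩ := step4 hL cd hcd0 hcd hX hX0 hg (zro_le _ _) hm hmL hzg (h6 k h7)
          refine ⟨k + 1 + r, ?_, h8⟩
          rw [deg_prd cd hcd0 m, ← hk, ← hzg, hr]
          omega
        · intro hc
          have h7 := h5 (ih2 hc)
          apply step3 hL hX hX0 hm hmL
          intro G hG hGX hGne
          by_cases hz : zs G = lev m 1
          · rw [huniq G hGX hz]
            exact h7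
          · exact step2 hL hX hX0 hG hGX hGne hm hmL hz
    · have hnc : ¬ Crit L X m := fun h => hg (h 1 le_rfl)
      refine ⟨fun h => absurd h hnc, fun _ => ?_⟩
      apply step3 hL hX hX0 hm hmL
      intro G hG hGX hGne
      refine step2 hL hX hX0 hG hGX hGne hm hmL ?_
      intro hz
      apply hg
      rw [← huniq G hGX hz]
      exact hG

/-- The main theorem, on states only. -/
theorem mainRn (hL : OM L) (cd : Finset E → ℕ) (hcd0 : cd ∅ = 0)
    (hcd : ∀ X ∈ L, ∀ T : Finset E, T.Nonempty → Disjoint T (zs X) → Par L X T → zro X T ∈ L →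
      cd (zs X ∪ T) = cd (zs X) + 1) {X : E → SignType} (hX : X ∈ L) (hX0 : ∀ e, X e ≠ 0)
    {m : E → ℕ} (hm : m ≠ 0) (hmL : refl' X m ∈ L) :
      (Crit L X m → ∃ k, k + 1 = deg cd m ∧ SPH (dm Rn 0 m) (C Rn (Wn L X) 0 m) k) ∧
      (¬ Crit L X m → AC (dm Rn 0 m) (C Rn (Wn L X) 0 m)) := by
  have hX0' : zs X = ∅ := by
    ext e
    simp [hX0 e]
  obtain ⟨h1, h2⟩ := mainThm hL cd hcd0 hcd _ X hX hX0' m hm hmL le_rfl
  let f : Vt E → (E → ℕ) := Sum.elim (fun _ => 0) id
  have hR : ∀ u v : Vt E, (u = Sum.inl X ∨ u ∈ Ws L X) → (v ∈ Ws L X ∨ v = Sum.inr m) →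
      (Rl u v ↔ Rn (f u) (f v)) := by
    intro u v hu hv
    obtain ⟨n', rfl, hn'⟩ : ∃ n', v = Sum.inr n' ∧ n' ≠ 0 := by
      rcases hv with ⟨n', rfl, h, _⟩ | rfl
      · exact ⟨n', rfl, h⟩
      · exact ⟨m, rfl, hm⟩
    rcases hu with rfl | ⟨n1, rfl, _⟩
    · simp only [f, Sum.elim_inl, Sum.elim_inr, Rl_inl_inr, Rn, id, Pi.zero_apply]
      constructor
      · rintro ⟨h1, _⟩
        exact ⟨fun h => hn' h.symm, fun e => by have := h1 e; omega⟩
      · rintro ⟨_, h2⟩
        exact ⟨fun e => by rcases h2 e with h | h <;> omega, fun e he => absurd he (hX0 e)⟩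
    · exact Iff.rfl
  have hinj : Set.InjOn f (Ws L X) := by
    rintro _ ⟨n1, rfl, _⟩ _ ⟨n2, rfl, _⟩ h
    have : n1 = n2 := h
    rw [this]
  have himg : f '' (Ws L X) = Wn L X := by
    ext n
    constructor
    · rintro ⟨_, ⟨n', rfl, h3, h4⟩, rfl⟩
      exact ⟨h3, h4⟩
    · rintro ⟨h3, h4⟩
      exact ⟨Sum.inr n, ⟨n, rfl, h3, h4⟩, rfl⟩
  constructor
  · intro hc
    obtain ⟨k, hk, h3⟩ := h1 hc
    have h4 := SPH_relabel (R := Rl) (R' := Rn) (f := f) QRel_Rl hR hinj h3
    rw [himg] at h4
    exact ⟨k, hk, h4⟩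
  · intro hc
    have h4 := AC_relabel (R := Rl) (R' := Rn) (f := f) QRel_Rl hR hinj (h2 hc)
    rw [himg] at h4
    exact h4

/-- the level set criterion implies that the end point is in `L` -/
lemma refl_mem_of_Crit (hL : OM L) (N : ℕ) : ∀ X ∈ L, zs X = ∅ → ∀ m : E → ℕ, ∑ e, m e ≤ N →
    Crit L X m → refl' X m ∈ L := by
  induction N with
  | zero =>
    intro X hX _ m hs _
    have : m = 0 := by
      funext e
      have := Finset.sum_eq_zero_iff.mp (Nat.le_zero.mp hs) e (mem_univ e)
      simpa using this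
    rw [this]
    have : refl' X 0 = X := by funext e; simp [refl']
    rw [this]; exact hX
  | succ N ih =>
    intro X hX hX0 m hs hc
    by_cases hm : m = 0
    · rw [hm]
      have : refl' X 0 = X := by funext e; simp [refl']
      rw [this]; exact hX
    · have hg := hc 1 le_rfl
      have hX'L : refl' X (ind m) ∈ L := by
        rw [refl_ind]
        exact hL.comp _ hg _ (hL.neg X hX)
      have hX'0 : zs (refl' X (ind m)) = ∅ := by rw [refl'_zs, hX0]
      have hsum : ∑ e, prd m e ≤ N := by
        have h1 : ∑ e, prd m e < ∑ e, m e := by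
          apply Finset.sum_lt_sum
          · intro e _; simp only [prd]; omega
          · by_contra hc
            push Not at hc
            apply hm
            funext e
            have := hc e (mem_univ e)
            simp only [prd, Pi.zero_apply] at this ⊢
            omega
        omega
      have h1 := ih _ hX'L hX'0 (prd m) hsum ((crit_prd hL hX hX0 hg).mp hc)
      rw [refl'_add, prd_add_ind] at h1
      exact h1

end Mainsec3

end Pool.Agent.Helper753_MagHom
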