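import Pool.Agent.Helper753_MagHom.Defs2

/-!
# Covectors: zero sets, separation sets, facets
-/

set_option autoImplicit false
set_option linter.unusedSectionVars false
set_option linter.unusedDecidableInType false
set_option linter.unusedFintypeInType false
open Finset
namespace Pool.Agent.Helper753_MagHom

section OMsec

variable {E : Type*} [Fintype E] [DecidableEq E]

/-- zero set -/
def zs (X : E → SignType) : Finset E := univ.filter (fun e => X e = 0)
/-- separation set -/
def sep (X Y : E → SignType) : Finset E := univ.filter (fun e => X e ≠ 0 ∧ Y e = - X e)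
/-- conformal order -/
def le' (X Y : E → SignType) : Prop := ∀ e, X e ≠ 0 → Y e = X e
/-- `X` zeroed on `T` -/
def zro (X : E → SignType) (T : Finset E) : E → SignType := fun e => if e ∈ T then 0 else X e

@[simp] lemma mem_zs {X : E → SignType} {e : E} : e ∈ zs X ↔ X e = 0 := by simp [zs]
@[simp] lemma mem_sep {X Y : E → SignType} {e : E} : e ∈ sep X Y ↔ X e ≠ 0 ∧ Y e = - X e := by
  simp [sep]

lemma le'.trans {X Y Z : E → SignType} (h : le' X Y) (h' : le' Y Z) : le' X Z := by
  intro e he
  have := h e he
  rw [← this]; exact h' e (by rw [this]; exact he)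

lemma le'.refl (X : E → SignType) : le' X X := fun _ _ => rfl

lemma le'.zs {X Y : E → SignType} (h : le' X Y) : zs Y ⊆ zs X := by
  intro e he
  rw [mem_zs] at he ⊢
  by_contra h1
  exact h1 (by rw [← h e h1, he])

lemma le'.eq_of_zs {X Y : E → SignType} (h : le' X Y) (hz : Helper753_MagHom.zs X ⊆ Helper753_MagHom.zs Y) : X = Y := by
  funext e
  by_cases he : X e = 0
  · rw [he]; exact (mem_zs.mp (hz (mem_zs.mpr he))).symm
  · exact (h e he).symm

lemma le'.antisymm {X Y : E → SignType} (h : le' X Y) (h' : le' Y X) : X = Y := by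
  funext e
  by_cases he : X e = 0
  · by_cases he' : Y e = 0
    · rw [he, he']
    · exact (h' e he')
  · exact (h e he).symm

lemma le'.zs_ssubset {X Y : E → SignType} (h : le' X Y) (hne : X ≠ Y) : Helper753_MagHom.zs Y ⊂ Helper753_MagHom.zs X :=
  ⟨h.zs, fun h' => hne (h.eq_of_zs h')⟩

lemma sep_nonempty {X Y : E → SignType} (hz : zs X = zs Y) (hne : X ≠ Y) : (sep X Y).Nonempty := by
  by_contra h
  rw [not_nonempty_iff_eq_empty] at h
  apply hne
  funext e
  have h1 : X e = 0 ↔ Y e = 0 := by rw [← mem_zs, ← mem_zs, hz]
  have h2 : e ∉ sep X Y := by rw [h]; simp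
  rw [mem_sep] at h2
  revert h1 h2
  cases X e <;> cases Y e <;> decide

/-- outside of the separation set, vectors with the same zero set agree -/
lemma eq_of_notMem_sep {X Y : E → SignType} (hz : zs X = zs Y) {e : E} (he : e ∉ sep X Y) : Y e = X e := by
  have h1 : X e = 0 ↔ Y e = 0 := by rw [← mem_zs, ← mem_zs, hz]
  rw [mem_sep] at he
  revert h1 he
  cases X e <;> cases Y e <;> decide

variable {L : Set (E → SignType)}

lemma sign_ne_zero_neg {a : SignType} (h : a ≠ 0) : -a ≠ 0 := by
  revert h; cases a <;> decide

/-- the parallel class property -/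
def Par (L : Set (E → SignType)) (X : E → SignType) (T : Finset E) : Prop :=
  ∀ G ∈ L, zs X ⊆ zs G → T ⊆ zs G ∨ Disjoint T (zs G)

theorem lemW (hL : OM L) {X y : E → SignType} (hX : X ∈ L) (hy : y ∈ L) (hz : zs X = zs y)
    (hne : X ≠ y) : ∃ ym ∈ L, ∃ w ∈ L, zs ym = zs X ∧ sep X ym ⊂ sep X y ∧
      (∀ e ∈ sep X y \ sep X ym, w e = 0) ∧ (∀ e ∉ sep X y \ sep X ym, w e = y e) ∧
      Par L X (sep X y \ sep X ym) := by
  classical
  -- the maximal candidate
  let S : Finset (E → SignType) := univ.filter (fun y' => y' ∈ L ∧ zs y' = zs X ∧ sep X y' ⊂ sep X y)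
  have hS : S.Nonempty := by
    refine ⟨X, ?_⟩
    simp only [S, mem_filter, mem_univ, true_and]
    refine ⟨hX, ⟨?_, ?_⟩⟩
    · intro e he
      rw [mem_sep] at he
      exfalso
      revert he
      cases X e <;> decide
    · intro h
      obtain ⟨e, he⟩ := sep_nonempty hz hne
      have := h he
      rw [mem_sep] at this
      revert this
      cases X e <;> decide
  obtain ⟨ym, hymS, hmax⟩ := S.exists_max_image (fun y' => (sep X y').card) hS
  simp only [S, mem_filter, mem_univ, true_and] at hymS hmax
  obtain ⟨hym, hzym, hss⟩ := hymS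
  set T := sep X y \ sep X ym with hT
  obtain ⟨e, he1, he2⟩ := Finset.exists_of_ssubset hss
  have heT : e ∈ T := by rw [hT, mem_sdiff]; exact ⟨he1, he2⟩
  -- signs
  have hyT : ∀ f ∈ T, X f ≠ 0 ∧ y f = - X f ∧ ym f = X f := by
    intro f hf
    rw [hT, mem_sdiff] at hf
    have h1 := mem_sep.mp hf.1
    exact ⟨h1.1, h1.2, eq_of_notMem_sep hzym.symm hf.2⟩
  have hyoff : ∀ f ∉ T, ym f = y f := by
    intro f hf
    by_cases h1 : f ∈ sep X y
    · have h2 : f ∈ sep X ym := by
        by_contra h2
        exact hf (by rw [hT, mem_sdiff]; exact ⟨h1, h2⟩)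
      rw [(mem_sep.mp h1).2, (mem_sep.mp h2).2]
    · have h2 : f ∉ sep X ym := fun h => h1 (hss.1 h)
      rw [eq_of_notMem_sep hz h1, eq_of_notMem_sep hzym.symm h2]
  obtain ⟨w, hw, hwe, hwoff⟩ := hL.elim y hy ym hym e
    (by rw [(hyT e heT).2.1]; exact sign_ne_zero_neg (hyT e heT).1)
    (by rw [(hyT e heT).2.1, (hyT e heT).2.2, neg_neg])
  have hwoff' : ∀ f ∉ T, w f = y f := by
    intro f hf
    rw [hwoff f]
    · simp only [cmp]
      split_ifs with h
      · rw [hyoff f hf]
      · rfl
    · rw [hyoff f hf]
      rintro ⟨h1, h2⟩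
      revert h1 h2
      cases y f <;> decide
  -- key sublemma
  have key : ∀ v ∈ L, (∀ f ∉ T, v f = y f) → ∀ e ∈ T, v e = 0 → ∀ f ∈ T, v f = 0 := by
    intro v hv hvoff e he hve f hf
    by_contra hvf
    have hXf := hyT f hf
    have hXe := hyT e he
    have hyzs : ∀ g, y g = 0 ↔ X g = 0 := by
      intro g; rw [← mem_zs, ← mem_zs, hz]
    have hcase : v f = - X f ∨ v f = X f := by
      have := hXf.1
      revert hvf this
      cases v f <;> cases X f <;> decide
    rcases hcase with h | h
    · -- y' = cmp v X
      have h1 : cmp v X ∈ L := hL.comp v hv X hX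
      have h2 : zs (cmp v X) = zs X := by
        ext g
        rw [mem_zs, mem_zs]
        by_cases hg : g ∈ T
        · simp only [cmp]
          split_ifs with h3
          · rfl
          · exact ⟨fun h4 => absurd h4 h3, fun h4 => absurd h4 (hyT g hg).1⟩
        · simp only [cmp]
          rw [hvoff g hg]
          split_ifs with h3
          · rfl
          · exact hyzs g
      have h3 : sep X (cmp v X) ⊂ sep X y := by
        refine ⟨?_, ?_⟩
        · intro g hg
          rw [mem_sep] at hg ⊢
          refine ⟨hg.1, ?_⟩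
          by_cases hgT : g ∈ T
          · exact (hyT g hgT).2.1
          · have := hg.2
            simp only [cmp] at this
            rw [hvoff g hgT] at this
            split_ifs at this with h4
            · exact absurd ((hyzs g).mp h4) hg.1
            · exact this
        · intro hsub
          have h4 := hsub (mem_sep.mpr ⟨hXe.1, hXe.2.1⟩)
          rw [mem_sep] at h4
          have h5 := h4.2
          simp only [cmp, hve, if_true] at h5
          have := hXe.1
          revert h5 this
          cases X e <;> decide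
      have h4 := hmax _ ⟨h1, h2, h3⟩
      have h5 : sep X ym ⊂ sep X (cmp v X) := by
        refine ⟨?_, ?_⟩
        · intro g hg
          have hg' := mem_sep.mp (hss.1 hg)
          have hgT : g ∉ T := by rw [hT, mem_sdiff]; exact fun h => h.2 hg
          rw [mem_sep]
          refine ⟨hg'.1, ?_⟩
          simp only [cmp]
          rw [hvoff g hgT, hg'.2, if_neg (sign_ne_zero_neg hg'.1)]
        · intro hsub
          have h6 : f ∈ sep X (cmp v X) := by
            rw [mem_sep]
            refine ⟨hXf.1, ?_⟩
            simp only [cmp]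
            rw [if_neg hvf, h]
          have h7 := hsub h6
          rw [hT, mem_sdiff] at hf
          exact hf.2 h7
      have := card_lt_card h5
      omega
    · -- y' = cmp v y
      have h1 : cmp v y ∈ L := hL.comp v hv y hy
      have h2 : zs (cmp v y) = zs X := by
        ext g
        rw [mem_zs, mem_zs]
        by_cases hg : g ∈ T
        · simp only [cmp]
          split_ifs with h3
          · exact hyzs g
          · exact ⟨fun h4 => absurd h4 h3, fun h4 => absurd h4 (hyT g hg).1⟩
        · simp only [cmp]
          rw [hvoff g hg]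
          split_ifs with h3
          · exact hyzs g
          · exact hyzs g
      have h3 : sep X (cmp v y) ⊂ sep X y := by
        refine ⟨?_, ?_⟩
        · intro g hg
          rw [mem_sep] at hg ⊢
          refine ⟨hg.1, ?_⟩
          by_cases hgT : g ∈ T
          · exact (hyT g hgT).2.1
          · have := hg.2
            simp only [cmp] at this
            rw [hvoff g hgT] at this
            split_ifs at this with h4
            · exact this
            · exact this
        · intro hsub
          have h4 := hsub (mem_sep.mpr ⟨hXf.1, hXf.2.1⟩)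
          rw [mem_sep] at h4
          have h5 := h4.2
          simp only [cmp] at h5
          rw [if_neg hvf, h] at h5
          have := hXf.1
          revert h5 this
          cases X f <;> decide
      have h4 := hmax _ ⟨h1, h2, h3⟩
      have h5 : sep X ym ⊂ sep X (cmp v y) := by
        refine ⟨?_, ?_⟩
        · intro g hg
          have hg' := mem_sep.mp (hss.1 hg)
          have hgT : g ∉ T := by rw [hT, mem_sdiff]; exact fun h => h.2 hg
          rw [mem_sep]
          refine ⟨hg'.1, ?_⟩
          simp only [cmp]
          rw [hvoff g hgT, hg'.2, if_neg (sign_ne_zero_neg hg'.1)]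
        · intro hsub
          have h6 : e ∈ sep X (cmp v y) := by
            rw [mem_sep]
            refine ⟨hXe.1, ?_⟩
            simp only [cmp]
            rw [if_pos hve, hXe.2.1]
          have h7 := hsub h6
          rw [hT, mem_sdiff] at he
          exact he.2 h7
      have := card_lt_card h5
      omega
  have hwT : ∀ f ∈ T, w f = 0 := key w hw hwoff' e heT hwe
  refine ⟨ym, hym, w, hw, hzym, hss, hwT, hwoff', ?_⟩
  intro G hG hzG
  by_cases hd : Disjoint T (zs G)
  · exact Or.inr hd
  · left
    rw [Finset.not_disjoint_iff] at hd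
    obtain ⟨g, hgT, hgG⟩ := hd
    have h1 : cmp w G ∈ L := hL.comp w hw G hG
    have h2 : ∀ f ∉ T, cmp w G f = y f := by
      intro f hf
      simp only [cmp]
      rw [hwoff' f hf]
      split_ifs with h3
      · rw [h3]
        have : f ∈ zs X := by rw [hz, mem_zs]; exact h3
        exact mem_zs.mp (hzG this)
      · rfl
    have h3 : cmp w G g = 0 := by
      simp only [cmp]
      rw [if_pos (hwT g hgT)]
      exact mem_zs.mp hgG
    have h4 := key _ h1 h2 g hgT h3
    intro f hf
    have h5 := h4 f hf
    simp only [cmp] at h5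
    rw [if_pos (hwT f hf)] at h5
    exact mem_zs.mpr h5

lemma zs_zro (X : E → SignType) (T : Finset E) : zs (zro X T) = zs X ∪ T := by
  ext e
  simp only [mem_zs, zro, mem_union]
  split_ifs with h
  · simp [h]
  · simp [h]

lemma zro_le (X : E → SignType) (T : Finset E) : le' (zro X T) X := by
  intro e he
  simp only [zro] at he ⊢
  split_ifs with h
  · simp [h] at he
  · rfl

lemma le_zro {X G : E → SignType} {T : Finset E} (h : le' G X) (hT : T ⊆ zs G) : le' G (zro X T) := by
  intro e he
  simp only [zro]
  split_ifs with h1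
  · exact absurd (mem_zs.mp (hT h1)) he
  · exact h e he

lemma zro_ne {X : E → SignType} {T : Finset E} (hT : T.Nonempty) (hd : Disjoint T (zs X)) :
    zro X T ≠ X := by
  obtain ⟨e, he⟩ := hT
  intro h
  have h1 := congrFun h e
  simp only [zro, he, if_true] at h1
  exact (Finset.disjoint_left.mp hd he) (mem_zs.mpr h1.symm)

/-- the facet is a covector -/
lemma facet_mem (hL : OM L) {X y w G : E → SignType} {T : Finset E} (hz : zs X = zs y)
    (hw : w ∈ L) (hwT : ∀ e ∈ T, w e = 0) (hwoff : ∀ e ∉ T, w e = y e)
    (hG : G ∈ L) (hGX : le' G X) (hTG : T ⊆ zs G) (hGz : zs G ⊆ zs X ∪ sep X y) :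
    zro X T ∈ L := by
  have : zro X T = cmp G (-w) := by
    funext e
    simp only [zro, cmp, Pi.neg_apply]
    by_cases he : e ∈ T
    · rw [if_pos he, if_pos (mem_zs.mp (hTG he)), hwT e he]; rfl
    · rw [if_neg he, hwoff e he]
      split_ifs with h
      · rcases mem_union.mp (hGz (mem_zs.mpr h)) with h1 | h1
        · have h2 := h1
          rw [hz] at h2
          rw [mem_zs.mp h1, mem_zs.mp h2]; rfl
        · rw [(mem_sep.mp h1).2, neg_neg]
      · exact hGX e h
  rw [this]
  exact hL.comp G hG _ (hL.neg w hw)

/-- every proper face of `X` is contained in a facet -/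
lemma exists_facet (hL : OM L) {X G : E → SignType} (hX : X ∈ L) (hG : G ∈ L) (hGX : le' G X)
    (hne : G ≠ X) : ∃ T : Finset E, T.Nonempty ∧ Disjoint T (zs X) ∧ Par L X T ∧ T ⊆ zs G ∧
      zro X T ∈ L := by
  have hy : cmp G (-X) ∈ L := hL.comp G hG _ (hL.neg X hX)
  have hz : zs X = zs (cmp G (-X)) := by
    ext e
    rw [mem_zs, mem_zs]
    simp only [cmp, Pi.neg_apply]
    split_ifs with h
    · cases X e <;> decide
    · rw [hGX e h]
  have hsep : sep X (cmp G (-X)) = zs G \ zs X := by
    ext e
    rw [mem_sep, mem_sdiff, mem_zs, mem_zs]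
    simp only [cmp, Pi.neg_apply]
    split_ifs with h
    · tauto
    · rw [hGX e h]
      constructor
      · rintro ⟨h1, h2⟩
        exfalso
        revert h h2
        cases G e <;> decide
      · rintro ⟨h1, _⟩
        exact absurd h1 h
  have hne' : X ≠ cmp G (-X) := by
    intro h
    have h1 : (zs G \ zs X).Nonempty := by
      rw [Finset.sdiff_nonempty]
      exact (hGX.zs_ssubset hne).2
    rw [← hsep] at h1
    obtain ⟨e, he⟩ := h1
    rw [mem_sep, ← h] at he
    revert he
    cases X e <;> decide
  obtain ⟨ym, hym, w, hw, hzm, hss, hwT, hwoff, hpar⟩ := lemW hL hX hy hz hne'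
  have hTG : sep X (cmp G (-X)) \ sep X ym ⊆ zs G := by
    intro e he
    have := (mem_sdiff.mp he).1
    rw [hsep] at this
    exact (mem_sdiff.mp this).1
  refine ⟨sep X (cmp G (-X)) \ sep X ym, ?_, ?_, hpar, hTG, ?_⟩
  · rw [Finset.sdiff_nonempty]; exact hss.2
  · rw [Finset.disjoint_left]
    intro e he h1
    exact (mem_sep.mp (mem_sdiff.mp he).1).1 (mem_zs.mp h1)
  · refine facet_mem hL hz hw hwT hwoff hG hGX hTG ?_
    rw [hsep]
    intro e he
    by_cases h : e ∈ zs X
    · exact mem_union_left _ h
    · exact mem_union_right _ (mem_sdiff.mpr ⟨he, h⟩)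

end OMsec

end Pool.Agent.Helper753_MagHom
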