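import Mathlib
import Pool.Agent.Helper753_MagHom.Alg

/-!
# Complexes of paths

For a relation `R` on `V`, the complex of `R`-paths `s → v₁ → ... → vₖ → t` with `vᵢ ∈ W`; the
differential deletes the inner vertices that can be deleted.
-/

set_option autoImplicit false

namespace Pool.Agent.Helper753_MagHom

section Path

variable {V : Type*}

/-- the first vertex of the path `u → t` -/
def hd : List V → V → V
  | [], t => t
  | w :: _, _ => w

/-- the last vertex of the path `s → u` -/
def lst : V → List V → V
  | s, [] => s
  | _, w :: u => lst w u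

@[simp] lemma hd_nil (t : V) : hd [] t = t := rfl
@[simp] lemma hd_cons (w t : V) (u : List V) : hd (w :: u) t = w := rfl
@[simp] lemma lst_nil (s : V) : lst s [] = s := rfl
@[simp] lemma lst_cons (s w : V) (u : List V) : lst s (w :: u) = lst w u := rfl

@[simp] lemma hd_append_cons (u1 u2 : List V) (v t : V) : hd (u1 ++ v :: u2) t = hd u1 v := by
  cases u1 <;> rfl

/-- adding a vertex in front -/
noncomputable def cons' (v : V) : (List V →₀ ℤ) →ₗ[ℤ] (List V →₀ ℤ) :=
  Finsupp.lmapDomain ℤ ℤ (List.cons v)

/-- adding `v :: u` at the end -/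
noncomputable def app (v : V) (u : List V) : (List V →₀ ℤ) →ₗ[ℤ] (List V →₀ ℤ) :=
  Finsupp.lmapDomain ℤ ℤ (fun w => w ++ v :: u)

/-- adding `u ++ [v]` in front -/
noncomputable def pre (u : List V) (v : V) : (List V →₀ ℤ) →ₗ[ℤ] (List V →₀ ℤ) :=
  Finsupp.lmapDomain ℤ ℤ (fun w => u ++ v :: w)

@[simp] lemma cons'_single (v : V) (u : List V) (a : ℤ) :
    cons' v (Finsupp.single u a) = Finsupp.single (v :: u) a := by
  simp [cons', Finsupp.lmapDomain_apply, Finsupp.mapDomain_single]

@[simp] lemma app_single (v : V) (u w : List V) (a : ℤ) :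
    app v u (Finsupp.single w a) = Finsupp.single (w ++ v :: u) a := by
  simp [app, Finsupp.lmapDomain_apply, Finsupp.mapDomain_single]

@[simp] lemma pre_single (v : V) (u w : List V) (a : ℤ) :
    pre u v (Finsupp.single w a) = Finsupp.single (u ++ v :: w) a := by
  simp [pre, Finsupp.lmapDomain_apply, Finsupp.mapDomain_single]

lemma cons'_app (a v : V) (u : List V) (x : List V →₀ ℤ) :
    cons' a (app v u x) = app v u (cons' a x) := by
  have : (cons' a).comp (app v u) = (app v u).comp (cons' a) := by
    ext w : 2
    simp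
  exact LinearMap.congr_fun this x

lemma cons'_pre (a v : V) (u : List V) (x : List V →₀ ℤ) :
    cons' a (pre u v x) = pre (a :: u) v x := by
  have : (cons' a).comp (pre u v) = pre (a :: u) v := by
    ext w : 2
    simp
  exact LinearMap.congr_fun this x

lemma pre_nil (v : V) (x : List V →₀ ℤ) : pre [] v x = cons' v x := by
  have : pre [] v = cons' v := by
    ext w : 2
    simp
  exact LinearMap.congr_fun this x

lemma cons'_apply_cons (v : V) (u : List V) (x : List V →₀ ℤ) : cons' v x (v :: u) = x u := by
  rw [cons', Finsupp.lmapDomain_apply]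
  exact Finsupp.mapDomain_apply (fun a b h => by simpa using h) x u

lemma cons'_ne {v : V} {x : List V →₀ ℤ} {w : List V} (h : cons' v x w ≠ 0) :
    ∃ u, w = v :: u ∧ x u ≠ 0 := by
  classical
  have h1 : w ∈ (x.mapDomain (List.cons v)).support := by simpa [cons'] using h
  have := Finsupp.mapDomain_support h1
  rw [Finset.mem_image] at this
  obtain ⟨u, hu, rfl⟩ := this
  exact ⟨u, rfl, by simpa using hu⟩

lemma app_apply (v : V) (u w : List V) (x : List V →₀ ℤ) : app v u x (w ++ v :: u) = x w := by
  rw [app, Finsupp.lmapDomain_apply]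
  exact Finsupp.mapDomain_apply (fun a b h => by simpa using h) x w

lemma app_ne {v : V} {u : List V} {x : List V →₀ ℤ} {w : List V} (h : app v u x w ≠ 0) :
    ∃ a, w = a ++ v :: u ∧ x a ≠ 0 := by
  classical
  have h1 : w ∈ (x.mapDomain (fun w => w ++ v :: u)).support := by simpa [app] using h
  have := Finsupp.mapDomain_support h1
  rw [Finset.mem_image] at this
  obtain ⟨a, ha, rfl⟩ := this
  exact ⟨a, rfl, by simpa using ha⟩

lemma pre_apply (v : V) (u w : List V) (x : List V →₀ ℤ) : pre u v x (u ++ v :: w) = x w := by
  rw [pre, Finsupp.lmapDomain_apply]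
  exact Finsupp.mapDomain_apply (fun a b h => by simpa using h) x w

lemma pre_ne {v : V} {u : List V} {x : List V →₀ ℤ} {w : List V} (h : pre u v x w ≠ 0) :
    ∃ a, w = u ++ v :: a ∧ x a ≠ 0 := by
  classical
  have h1 : w ∈ (x.mapDomain (fun w => u ++ v :: w)).support := by simpa [pre] using h
  have := Finsupp.mapDomain_support h1
  rw [Finset.mem_image] at this
  obtain ⟨a, ha, rfl⟩ := this
  exact ⟨a, rfl, by simpa using ha⟩

variable (R : V → V → Prop)

open Classical in
/-- `a` if `p`, else `0` -/
noncomputable def iff' {A : Type*} [Zero A] (p : Prop) (a : A) : A := if p then a else 0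

lemma iff'_pos {A : Type*} [Zero A] {p : Prop} (h : p) (a : A) : iff' p a = a := by
  simp [iff', h]
lemma iff'_neg {A : Type*} [Zero A] {p : Prop} (h : ¬ p) (a : A) : iff' p a = 0 := by
  simp [iff', h]

lemma map_iff' {A B : Type*} [AddCommGroup A] [AddCommGroup B] (f : A →ₗ[ℤ] B) (p : Prop)
    (a : A) : f (iff' p a) = iff' p (f a) := by
  by_cases h : p
  · rw [iff'_pos h, iff'_pos h]
  · rw [iff'_neg h, iff'_neg h, map_zero]

/-- the differential on basis elements; a path is given by the list of its inner vertices -/
noncomputable def Din : V → V → List V → (List V →₀ ℤ)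
  | _, _, [] => 0
  | s, t, v :: u => iff' (R s (hd u t)) (Finsupp.single u (1 : ℤ)) - cons' v (Din v t u)

/-- the differential -/
noncomputable def dm (s t : V) : (List V →₀ ℤ) →ₗ[ℤ] (List V →₀ ℤ) :=
  Finsupp.linearCombination ℤ (Din R s t)

/-- `s → u₁ → ... → uₖ → t` is a path -/
def Val : V → V → List V → Prop
  | s, t, [] => R s t
  | s, t, v :: u => R s v ∧ Val v t u

/-- the paths of degree `k` -/
def Cells (W : Set V) (s t : V) (k : ℕ) : Set (List V) :=
  {u | Val R s t u ∧ (∀ w ∈ u, w ∈ W) ∧ u.length = k}

/-- the chain groups -/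
noncomputable def C (W : Set V) (s t : V) (k : ℕ) : Submodule ℤ (List V →₀ ℤ) :=
  Finsupp.supported ℤ ℤ (Cells R W s t k)

variable {R}

@[simp] lemma Din_nil (s t : V) : Din R s t [] = 0 := by simp [Din]

lemma Din_cons (s t v : V) (u : List V) : Din R s t (v :: u) =
    iff' (R s (hd u t)) (Finsupp.single u (1 : ℤ)) - cons' v (Din R v t u) := by simp [Din]

@[simp] lemma dm_single (s t : V) (u : List V) (a : ℤ) :
    dm R s t (Finsupp.single u a) = a • Din R s t u := by
  simp [dm, Finsupp.linearCombination_single]

lemma mem_C_iff {W : Set V} {s t : V} {k : ℕ} {x : List V →₀ ℤ} :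
    x ∈ C R W s t k ↔ ∀ u, x u ≠ 0 → u ∈ Cells R W s t k := by
  rw [C, Finsupp.mem_supported]
  constructor
  · intro h u hu
    exact h (by simpa using hu)
  · intro h u hu
    exact h u (by simpa using hu)

lemma single_mem_C {W : Set V} {s t : V} {k : ℕ} {u : List V} (hu : u ∈ Cells R W s t k) (a : ℤ) :
    Finsupp.single u a ∈ C R W s t k := Finsupp.single_mem_supported ℤ a hu

/-- to check a linear statement on chains, check it on paths -/
lemma C_le {W : Set V} {s t : V} {k : ℕ} {S : Submodule ℤ (List V →₀ ℤ)}
    (h : ∀ u ∈ Cells R W s t k, Finsupp.single u (1 : ℤ) ∈ S) : C R W s t k ≤ S := by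
  rw [C, Finsupp.supported_eq_span_single, Submodule.span_le]
  rintro _ ⟨u, hu, rfl⟩
  exact h u hu

lemma C_mono {W W' : Set V} (h : W ⊆ W') (s t : V) (k : ℕ) : C R W s t k ≤ C R W' s t k := by
  apply Finsupp.supported_mono
  rintro u ⟨h1, h2, h3⟩
  exact ⟨h1, fun w hw => h (h2 w hw), h3⟩

lemma Din_append (s t v : V) (u1 u2 : List V) :
    Din R s t (u1 ++ v :: u2) =
      app v u2 (Din R s v u1) +
      ((-1 : ℤ) ^ u1.length) •
        (iff' (R (lst s u1) (hd u2 t)) (Finsupp.single (u1 ++ u2) (1 : ℤ))) +
      ((-1 : ℤ) ^ (u1.length + 1)) • pre u1 v (Din R v t u2) := by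
  induction u1 generalizing s with
  | nil =>
    simp only [List.nil_append, Din_nil, map_zero, List.length_nil, pow_zero,
      one_smul, lst_nil, zero_add, pow_one, neg_smul, pre_nil]
    rw [Din_cons, sub_eq_add_neg]
  | cons a u1 ih =>
    rw [List.cons_append, Din_cons, ih, hd_append_cons, Din_cons]
    simp only [map_add, map_smul, map_sub, cons'_app, cons'_pre, map_iff', cons'_single,
      app_single, lst_cons, List.length_cons, pow_succ, List.cons_append]
    module

/-- lists in the support of `Din u` are sublists of `u`, of length one less -/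
lemma Din_support (s t : V) (u w : List V) (h : Din R s t u w ≠ 0) :
    w.Sublist u ∧ w.length + 1 = u.length := by
  classical
  induction u generalizing s w with
  | nil => simp at h
  | cons v u ih =>
    rw [Din_cons] at h
    have : iff' (R s (hd u t)) (Finsupp.single u (1 : ℤ)) w ≠ 0 ∨
        cons' v (Din R v t u) w ≠ 0 := by
      by_contra hc
      push Not at hc
      exact h (by rw [Finsupp.sub_apply, hc.1, hc.2, sub_zero])
    rcases this with h1 | h1
    · by_cases h2 : R s (hd u t)
      · rw [iff'_pos h2] at h1
        have : u = w := by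
          by_contra hne
          rw [Finsupp.single_apply, if_neg hne] at h1
          exact h1 rfl
        subst this
        exact ⟨List.sublist_cons_self v u, by simp⟩
      · rw [iff'_neg h2] at h1
        simp at h1
    · obtain ⟨w', rfl, hw'⟩ := cons'_ne h1
      have h2 := ih v w' hw'
      exact ⟨h2.1.cons_cons v, by simp [h2.2]⟩

lemma Val_hd {t v : V} {u : List V} (h : Val R v t u) : R v (hd u t) := by
  cases u with
  | nil => simpa [Val] using h
  | cons w u => simpa using h.1

lemma Val_skip {s t v : V} {u : List V} (h : Val R v t u) (hs : R s (hd u t)) : Val R s t u := by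
  cases u with
  | nil => simpa [Val] using hs
  | cons w u => exact ⟨by simpa using hs, h.2⟩

lemma Din_mem {W : Set V} {s t : V} {k : ℕ} {u : List V} (hu : u ∈ Cells R W s t (k + 1)) :
    Din R s t u ∈ C R W s t k := by
  induction u generalizing s k with
  | nil => simp
  | cons v u ih =>
    obtain ⟨⟨hv, hval⟩, hW, hlen⟩ := hu
    rw [Din_cons]
    have hlen' : u.length = k := by simpa using hlen
    have hW' : ∀ w ∈ u, w ∈ W := fun w hw => hW w (List.mem_cons_of_mem _ hw)
    apply Submodule.sub_mem
    · by_cases h : R s (hd u t)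
      · rw [iff'_pos h]
        exact single_mem_C ⟨Val_skip hval h, hW', hlen'⟩ 1
      · rw [iff'_neg h]
        exact Submodule.zero_mem _
    · rw [mem_C_iff]
      intro w hw
      obtain ⟨w', rfl, hw''⟩ := cons'_ne hw
      cases k with
      | zero =>
        have := (Din_support v t u w' hw'').2
        omega
      | succ k =>
        have h3 := ih (s := v) (k := k) ⟨hval, hW', hlen'⟩
        have h4 := (mem_C_iff.mp h3) w' hw''
        exact ⟨⟨hv, h4.1⟩, by
          intro x hx
          rcases List.mem_cons.mp hx with rfl | hx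
          · exact hW _ (by simp)
          · exact h4.2.1 x hx, by simp [h4.2.2]⟩

lemma dm_mem {W : Set V} {s t : V} {k : ℕ} {x : List V →₀ ℤ} (hx : x ∈ C R W s t (k + 1)) :
    dm R s t x ∈ C R W s t k := by
  have : C R W s t (k + 1) ≤ (C R W s t k).comap (dm R s t) := by
    apply C_le
    intro u hu
    rw [Submodule.mem_comap, dm_single, one_smul]
    exact Din_mem hu
  exact this hx

/-- the part of the differential that deletes the first vertex -/
noncomputable def ph (R : V → V → Prop) (s t : V) : (List V →₀ ℤ) →ₗ[ℤ] (List V →₀ ℤ) :=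
  Finsupp.linearCombination ℤ
    (fun u : List V => iff' (R s (hd u t)) (Finsupp.single u (1 : ℤ)))

lemma ph_single (s t : V) (u : List V) :
    ph R s t (Finsupp.single u 1) = iff' (R s (hd u t)) (Finsupp.single u (1 : ℤ)) := by
  simp [ph, Finsupp.linearCombination_single]

lemma dm_cons' (s t v : V) (x : List V →₀ ℤ) :
    dm R s t (cons' v x) = ph R s t x - cons' v (dm R v t x) := by
  have : (dm R s t).comp (cons' v) = ph R s t - (cons' v).comp (dm R v t) := by
    ext u : 2
    simp only [LinearMap.comp_apply, Finsupp.lsingle_apply, LinearMap.sub_apply, dm_single,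
      one_smul, cons'_single, ph_single]
    rw [Din_cons]
  exact LinearMap.congr_fun this x

lemma ph_cons' (s t w : V) (x : List V →₀ ℤ) :
    ph R s t (cons' w x) = iff' (R s w) (cons' w x) := by
  by_cases h : R s w
  · rw [iff'_pos h]
    have : (ph R s t).comp (cons' w) = cons' w := by
      ext x : 2
      simp [ph_single, iff'_pos h]
    exact LinearMap.congr_fun this x
  · rw [iff'_neg h]
    have : (ph R s t).comp (cons' w) = 0 := by
      ext x : 2
      simp [ph_single, iff'_neg h]
    exact LinearMap.congr_fun this x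

/-- the axiom needed for `d² = 0` -/
def QRel (R : V → V → Prop) : Prop :=
  ∀ u v w x, R u v → R v w → R w x → R u x → R u w ∧ R v x

lemma dm_Din (hQ : QRel R) {s t : V} {u : List V} (hu : Val R s t u) :
    dm R s t (Din R s t u) = 0 := by
  induction u generalizing s with
  | nil => simp
  | cons v u ih =>
    obtain ⟨hv, hval⟩ := hu
    rw [Din_cons, map_sub, dm_cons', ih hval, map_zero, sub_zero, map_iff', dm_single, one_smul]
    cases u with
    | nil =>
      simp only [Din_nil, map_zero, sub_zero]
      by_cases h : R s (hd [] t)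
      · rw [iff'_pos h]
      · rw [iff'_neg h]
    | cons w u =>
      obtain ⟨hw, hval'⟩ := hval
      have hx : R w (hd u t) := Val_hd hval'
      rw [Din_cons, Din_cons, map_sub, ph_cons', map_iff', ph_single, hd_cons]
      by_cases h1 : R s (hd u t)
      · obtain ⟨h2, h3⟩ := hQ s v w _ hv hw hx h1
        simp only [iff'_pos h1, iff'_pos h2, iff'_pos h3]
        abel
      · by_cases h2 : R s w
        · simp only [iff'_neg h1, iff'_pos h2]
          by_cases h3 : R v (hd u t)
          · simp only [iff'_pos h3]; abel
          · simp only [iff'_neg h3]; abel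
        · simp only [iff'_neg h1, iff'_neg h2]
          by_cases h3 : R v (hd u t)
          · simp only [iff'_pos h3]; abel
          · simp only [iff'_neg h3]; abel

lemma C_isCx (hQ : QRel R) (W : Set V) (s t : V) : IsCx (dm R s t) (C R W s t) where
  map := fun _ _ hx => dm_mem hx
  zero := by
    intro x hx
    have : C R W s t 0 ≤ LinearMap.ker (dm R s t) := by
      apply C_le
      intro u hu
      have : u = [] := List.length_eq_zero_iff.mp hu.2.2
      subst this
      simp
    exact this hx
  sq := by
    intro k x hx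
    have : C R W s t k ≤ LinearMap.ker ((dm R s t).comp (dm R s t)) := by
      apply C_le
      intro u hu
      rw [LinearMap.mem_ker, LinearMap.comp_apply, dm_single, one_smul]
      exact dm_Din hQ hu.1
    exact this hx

lemma Val_append {s t v : V} {u1 u2 : List V} :
    Val R s t (u1 ++ v :: u2) ↔ Val R s v u1 ∧ Val R v t u2 := by
  induction u1 generalizing s with
  | nil => simp [Val]
  | cons a u1 ih => simp [Val, ih, and_assoc]

lemma Val_rank {ρ : V → ℕ} (hρ : ∀ u v, R u v → ρ u < ρ v) {s t : V} {u : List V}
    (h : Val R s t u) : ρ s < ρ t ∧ ∀ w ∈ u, ρ s < ρ w ∧ ρ w < ρ t := by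
  induction u generalizing s with
  | nil => exact ⟨hρ _ _ h, by simp⟩
  | cons a u ih =>
    have h1 := ih h.2
    have h2 := hρ _ _ h.1
    refine ⟨h2.trans h1.1, ?_⟩
    intro w hw
    rcases List.mem_cons.mp hw with rfl | hw
    · exact ⟨h2, h1.1⟩
    · exact ⟨h2.trans (h1.2 w hw).1, (h1.2 w hw).2⟩

lemma Val_notMem {ρ : V → ℕ} (hρ : ∀ u v, R u v → ρ u < ρ v) {s t v : V} {u1 u2 : List V}
    (h : Val R s t (u1 ++ v :: u2)) : v ∉ u1 ∧ v ∉ u2 := by
  obtain ⟨h1, h2⟩ := Val_append.mp h
  constructor
  · intro hv
    exact absurd ((Val_rank hρ h1).2 v hv).2 (lt_irrefl _)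
  · intro hv
    exact absurd ((Val_rank hρ h2).2 v hv).1 (lt_irrefl _)

lemma last_split {v : V} {a a' b b' : List V} (hb : v ∉ b) (hb' : v ∉ b')
    (h : a ++ v :: b = a' ++ v :: b') : a = a' ∧ b = b' := by
  rcases List.append_eq_append_iff.mp h with ⟨c, h1, h2⟩ | ⟨c, h1, h2⟩
  · cases c with
    | nil => simp at h1 h2; exact ⟨h1.symm, h2⟩
    | cons x c =>
      simp only [List.cons_append, List.cons.injEq] at h2
      exact absurd (by rw [h2.2]; simp) hb
  · cases c with
    | nil => simp at h1 h2; exact ⟨h1, h2.symm⟩
    | cons x c =>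
      simp only [List.cons_append, List.cons.injEq] at h2
      exact absurd (by rw [h2.2]; simp) hb'

lemma first_split {v : V} {a a' b b' : List V} (ha : v ∉ a) (ha' : v ∉ a')
    (h : a ++ v :: b = a' ++ v :: b') : a = a' ∧ b = b' := by
  rcases List.append_eq_append_iff.mp h with ⟨c, h1, h2⟩ | ⟨c, h1, h2⟩
  · cases c with
    | nil => simp at h1 h2; exact ⟨h1.symm, h2⟩
    | cons x c =>
      simp only [List.cons_append, List.cons.injEq] at h2
      exact absurd (by rw [h1, ← h2.1]; simp) ha'
  · cases c with
    | nil => simp at h1 h2; exact ⟨h1, h2.symm⟩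
    | cons x c =>
      simp only [List.cons_append, List.cons.injEq] at h2
      exact absurd (by rw [h1, ← h2.1]; simp) ha

/-- linear maps agreeing on the basis elements of the support -/
lemma eq_of_supp {B : Type*} [AddCommGroup B] {f g : (List V →₀ ℤ) →ₗ[ℤ] B} {x : List V →₀ ℤ}
    (h : ∀ u, x u ≠ 0 → f (Finsupp.single u (1 : ℤ)) = g (Finsupp.single u 1)) : f x = g x := by
  have hx : x ∈ Finsupp.supported ℤ ℤ {u : List V | x u ≠ 0} := by
    rw [Finsupp.mem_supported]
    intro u hu
    simpa using hu
  have : Finsupp.supported ℤ ℤ {u : List V | x u ≠ 0} ≤ LinearMap.eqLocus f g := by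
    rw [Finsupp.supported_eq_span_single, Submodule.span_le]
    rintro _ ⟨u, hu, rfl⟩
    exact h u hu
  exact this hx

/-- the part of a chain ending in `v :: u` -/
noncomputable def Lc (v : V) (u : List V) : (List V →₀ ℤ) →ₗ[ℤ] (List V →₀ ℤ) :=
  Finsupp.lcomapDomain (fun w => w ++ v :: u) (fun a b h => by simpa using h)

/-- the part of a chain starting with `u ++ [v]` -/
noncomputable def Rc (u : List V) (v : V) : (List V →₀ ℤ) →ₗ[ℤ] (List V →₀ ℤ) :=
  Finsupp.lcomapDomain (fun w => u ++ v :: w) (fun a b h => by simpa using h)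

lemma Lc_apply (v : V) (u w : List V) (x : List V →₀ ℤ) : Lc v u x w = x (w ++ v :: u) := rfl
lemma Rc_apply (v : V) (u w : List V) (x : List V →₀ ℤ) : Rc u v x w = x (u ++ v :: w) := rfl

lemma single_ne {u w : List V} {a : ℤ} (h : Finsupp.single u a w ≠ 0) : w = u := by
  classical
  by_contra hne
  rw [Finsupp.single_apply, if_neg (fun h => hne h.symm)] at h
  exact h rfl

lemma smul_apply_ne {c : ℤ} {x : List V →₀ ℤ} {w : List V} (h : (c • x) w ≠ 0) : x w ≠ 0 := by
  intro h0
  rw [Finsupp.smul_apply, h0, smul_zero] at h
  exact h rfl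

lemma iff'_ne {p : Prop} {x : List V →₀ ℤ} {w : List V} (h : iff' p x w ≠ 0) : x w ≠ 0 := by
  by_cases hp : p
  · rwa [iff'_pos hp] at h
  · rw [iff'_neg hp] at h; simp at h

lemma Lc_Din {s t v : V} {u u2 : List V} (hv : v ∉ u2)
    (hnd : ∀ a b, u = a ++ v :: b → v ∉ a ∧ v ∉ b)
    (hlen : ∀ a b, u = a ++ v :: b → b.length ≤ u2.length) :
    Lc v u2 (Din R s t u) = dm R s v (Lc v u2 (Finsupp.single u 1)) := by
  by_cases hu : v ∈ u
  · obtain ⟨a, b, rfl⟩ := List.append_of_mem hu
    obtain ⟨hva, hvb⟩ := hnd a b rfl
    have hl := hlen a b rfl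
    have hT2 : ∀ w, iff' (R (lst s a) (hd b t)) (Finsupp.single (a ++ b) (1 : ℤ))
        (w ++ v :: u2) = 0 := by
      intro w
      by_contra h
      have := single_ne (iff'_ne h)
      have hm : v ∈ a ++ b := by rw [← this]; simp
      rcases List.mem_append.mp hm with h | h
      · exact hva h
      · exact hvb h
    have hT3 : ∀ w, pre a v (Din R v t b) (w ++ v :: u2) = 0 := by
      intro w
      by_contra h
      obtain ⟨c, hc, hc'⟩ := pre_ne h
      obtain ⟨h1, h2⟩ := Din_support v t b c hc'
      obtain ⟨h3, h4⟩ := last_split hv (fun hvc => hvb (h1.subset hvc)) hc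
      rw [h4] at hl
      omega
    by_cases hb : b = u2
    · subst hb
      have : Lc v b (Finsupp.single (a ++ v :: b) (1 : ℤ)) = Finsupp.single a 1 := by
        classical
        ext w
        rw [Lc_apply, Finsupp.single_apply, Finsupp.single_apply]
        simp
      rw [this, dm_single, one_smul]
      ext w
      rw [Lc_apply, Din_append]
      simp only [Finsupp.add_apply, Finsupp.smul_apply, hT2, hT3, app_apply, smul_zero, add_zero]
    · have : Lc v u2 (Finsupp.single (a ++ v :: b) (1 : ℤ)) = 0 := by
        ext w
        rw [Lc_apply, Finsupp.zero_apply]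
        by_contra h
        have := single_ne h
        exact hb (last_split hv hvb this).2.symm
      rw [this, map_zero]
      ext w
      rw [Lc_apply, Din_append]
      have hT1 : app v b (Din R s v a) (w ++ v :: u2) = 0 := by
        by_contra h
        obtain ⟨c, hc, hc'⟩ := app_ne h
        exact hb (last_split hv hvb hc).2.symm
      simp only [Finsupp.add_apply, Finsupp.smul_apply, hT1, hT2, hT3, smul_zero, add_zero,
        Finsupp.zero_apply]
  · have h1 : Lc v u2 (Finsupp.single u (1 : ℤ)) = 0 := by
      ext w
      rw [Lc_apply, Finsupp.zero_apply]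
      by_contra h
      have := single_ne h
      exact hu (by rw [← this]; simp)
    rw [h1, map_zero]
    ext w
    rw [Lc_apply, Finsupp.zero_apply]
    by_contra h
    exact hu ((Din_support s t u _ h).1.subset (by simp))

lemma Rc_Din {s t v : V} {u u1 : List V} (hv : v ∉ u1)
    (hnd : ∀ a b, u = a ++ v :: b → v ∉ a ∧ v ∉ b)
    (hlen : ∀ a b, u = a ++ v :: b → a.length ≤ u1.length) :
    Rc u1 v (Din R s t u) = ((-1 : ℤ) ^ (u1.length + 1)) •
      dm R v t (Rc u1 v (Finsupp.single u 1)) := by
  by_cases hu : v ∈ u
  · obtain ⟨a, b, rfl⟩ := List.append_of_mem hu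
    obtain ⟨hva, hvb⟩ := hnd a b rfl
    have hl := hlen a b rfl
    have hT2 : ∀ w, iff' (R (lst s a) (hd b t)) (Finsupp.single (a ++ b) (1 : ℤ))
        (u1 ++ v :: w) = 0 := by
      intro w
      by_contra h
      have := single_ne (iff'_ne h)
      have hm : v ∈ a ++ b := by rw [← this]; simp
      rcases List.mem_append.mp hm with h | h
      · exact hva h
      · exact hvb h
    have hT1 : ∀ w, app v b (Din R s v a) (u1 ++ v :: w) = 0 := by
      intro w
      by_contra h
      obtain ⟨c, hc, hc'⟩ := app_ne h
      obtain ⟨h1, h2⟩ := Din_support s v a c hc'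
      obtain ⟨h3, h4⟩ := first_split hv (fun hvc => hva (h1.subset hvc)) hc
      rw [h3] at hl
      omega
    by_cases ha : a = u1
    · subst ha
      have : Rc a v (Finsupp.single (a ++ v :: b) (1 : ℤ)) = Finsupp.single b 1 := by
        classical
        ext w
        rw [Rc_apply, Finsupp.single_apply, Finsupp.single_apply]
        simp
      rw [this, dm_single, one_smul]
      ext w
      rw [Rc_apply, Din_append]
      simp only [Finsupp.add_apply, Finsupp.smul_apply, hT2, hT1, pre_apply, smul_zero, add_zero,
        zero_add]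
    · have : Rc u1 v (Finsupp.single (a ++ v :: b) (1 : ℤ)) = 0 := by
        ext w
        rw [Rc_apply, Finsupp.zero_apply]
        by_contra h
        have := single_ne h
        exact ha (first_split hv hva this).1.symm
      rw [this, map_zero, smul_zero]
      ext w
      rw [Rc_apply, Din_append]
      have hT3 : pre a v (Din R v t b) (u1 ++ v :: w) = 0 := by
        by_contra h
        obtain ⟨c, hc, hc'⟩ := pre_ne h
        exact ha (first_split hv hva hc).1.symm
      simp only [Finsupp.add_apply, Finsupp.smul_apply, hT1, hT2, hT3, smul_zero, add_zero,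
        Finsupp.zero_apply]
  · have h1 : Rc u1 v (Finsupp.single u (1 : ℤ)) = 0 := by
      ext w
      rw [Rc_apply, Finsupp.zero_apply]
      by_contra h
      have := single_ne h
      exact hu (by rw [← this]; simp)
    rw [h1, map_zero, smul_zero]
    ext w
    rw [Rc_apply, Finsupp.zero_apply]
    by_contra h
    exact hu ((Din_support s t u _ h).1.subset (by simp))

lemma cell_insert {ρ : V → ℕ} (hρ : ∀ u v, R u v → ρ u < ρ v) {W : Set V} {s t v : V}
    {k : ℕ} {a b : List V} (h : a ++ v :: b ∈ Cells R (insert v W) s t k) :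
    a ∈ Cells R W s v a.length ∧ b ∈ Cells R W v t b.length ∧ a.length + 1 + b.length = k ∧
      v ∉ a ∧ v ∉ b := by
  obtain ⟨h1, h2, h3⟩ := h
  obtain ⟨hva, hvb⟩ := Val_notMem hρ h1
  obtain ⟨h4, h5⟩ := Val_append.mp h1
  refine ⟨⟨h4, ?_, rfl⟩, ⟨h5, ?_, rfl⟩, ?_, hva, hvb⟩
  · intro w hw
    rcases h2 w (by simp [hw]) with rfl | h
    · exact absurd hw hva
    · exact h
  · intro w hw
    rcases h2 w (by simp [hw]) with rfl | h
    · exact absurd hw hvb
    · exact h
  · simp at h3; omega

lemma cell_of_split {W : Set V} {s t v : V} {i j : ℕ} {a b : List V}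
    (ha : a ∈ Cells R W s v i) (hb : b ∈ Cells R W v t j) :
    a ++ v :: b ∈ Cells R (insert v W) s t (i + 1 + j) := by
  refine ⟨Val_append.mpr ⟨ha.1, hb.1⟩, ?_, ?_⟩
  · intro w hw
    rcases List.mem_append.mp hw with h | h
    · exact Or.inr (ha.2.1 w h)
    · rcases List.mem_cons.mp h with h | h
      · exact Or.inl h
      · exact Or.inr (hb.2.1 w h)
  · have h1 := ha.2.2
    have h2 := hb.2.2
    simp; omega

/-- Adding a vertex `v` such that the paths from `s` to `v` form an exact complex. -/
theorem Qac_left {ρ : V → ℕ} (hQ : QRel R) (hρ : ∀ u v, R u v → ρ u < ρ v) {W : Set V} {s t v : V}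
    (hvW : v ∉ W) (hAC : AC (dm R s v) (C R W s v)) :
    Qac (dm R s t) (C R (insert v W) s t) (C R W s t) := by
  classical
  have key : ∀ j k, ∀ x ∈ C R (insert v W) s t k,
      (∀ u, x u ≠ 0 → ∀ a b, u = a ++ v :: b → b.length < j) →
      (∀ i, k = i + 1 → dm R s t x ∈ C R W s t i) →
      ∃ y ∈ C R (insert v W) s t (k + 1), x - dm R s t y ∈ C R W s t k := by
    intro j
    induction j with
    | zero =>
      intro k x hx hs _
      refine ⟨0, Submodule.zero_mem _, ?_⟩
      rw [map_zero, sub_zero, mem_C_iff]
      intro u hu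
      obtain ⟨h1, h2, h3⟩ := (mem_C_iff.mp hx) u hu
      refine ⟨h1, fun w hw => ?_, h3⟩
      rcases h2 w hw with rfl | h
      · obtain ⟨a, b, rfl⟩ := List.append_of_mem hw
        exact absurd (hs _ hu a b rfl) (by omega)
      · exact h
    | succ j ih =>
      intro k x hx hs hdx
      set T : Finset (List V) := (x.support.image (fun u => u.drop (u.length - j))).filter
        (fun b => b.length = j ∧ ∃ a, x (a ++ v :: b) ≠ 0) with hT
      have hTmem : ∀ a b, x (a ++ v :: b) ≠ 0 → b.length = j → b ∈ T := by
        intro a b hab hb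
        rw [hT, Finset.mem_filter, Finset.mem_image]
        refine ⟨⟨a ++ v :: b, by simpa using hab, ?_⟩, hb, a, hab⟩
        have : (a ++ v :: b).length - j = (a ++ [v]).length := by simp; omega
        rw [this, show a ++ v :: b = (a ++ [v]) ++ b by simp, List.drop_left]
      have hT' : ∀ b ∈ T, b.length = j ∧ ∃ a, x (a ++ v :: b) ≠ 0 := fun b hb =>
        (Finset.mem_filter.mp hb).2
      have hcell : ∀ a b, x (a ++ v :: b) ≠ 0 → a ++ v :: b ∈ Cells R (insert v W) s t k :=
        fun a b h => (mem_C_iff.mp hx) _ h
      -- the components are cycles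
      have hY : ∀ b ∈ T, ∃ y ∈ C R W s v (k - 1 - j + 1), dm R s v y = Lc v b x := by
        intro b hb
        obtain ⟨hbj, a0, ha0⟩ := hT' b hb
        obtain ⟨_, _, hk, _, hvb⟩ := cell_insert hρ (hcell a0 b ha0)
        obtain ⟨i, rfl⟩ : ∃ i, k = i + 1 := ⟨k - 1, by omega⟩
        apply hAC
        · rw [mem_C_iff]
          intro a ha
          rw [Lc_apply] at ha
          obtain ⟨h1, _, h3, _, _⟩ := cell_insert hρ (hcell a b ha)
          have : a.length = i + 1 - 1 - j := by omega
          rwa [this] at h1
        · have e : Lc v b (dm R s t x) = dm R s v (Lc v b x) := by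
            have := @eq_of_supp V (List V →₀ ℤ) _ ((Lc v b).comp (dm R s t))
              ((dm R s v).comp (Lc v b)) x ?_
            · exact this
            · intro u hu
              rw [LinearMap.comp_apply, LinearMap.comp_apply, dm_single, one_smul]
              apply Lc_Din hvb
              · rintro a' b' rfl
                exact ((cell_insert hρ (hcell a' b' hu)).2.2.2)
              · intro a' b' hu'
                have := hs u hu a' b' hu'
                omega
          rw [← e]
          ext a
          rw [Lc_apply, Finsupp.zero_apply]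
          by_contra h
          have := ((mem_C_iff.mp (hdx i rfl)) _ h).2.1 v (by simp)
          exact hvW this
      choose! Y hY1 hY2 using hY
      set y : List V →₀ ℤ := ∑ b ∈ T, app v b (Y b) with hy
      have hysupp : ∀ u, y u ≠ 0 → ∃ a b, u = a ++ v :: b ∧ b ∈ T ∧ Y b a ≠ 0 := by
        intro u hu
        rw [hy, Finsupp.finsetSum_apply] at hu
        obtain ⟨b, hb, hne⟩ := Finset.exists_ne_zero_of_sum_ne_zero hu
        obtain ⟨a, rfl, ha⟩ := app_ne hne
        exact ⟨a, b, rfl, hb, ha⟩
      have hkT : ∀ b ∈ T, k = (k - 1 - j) + 1 + j ∧ b ∈ Cells R W v t j := by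
        intro b hb
        obtain ⟨hbj, a0, ha0⟩ := hT' b hb
        obtain ⟨_, h2, hk, _, hvb⟩ := cell_insert hρ (hcell a0 b ha0)
        rw [hbj] at h2
        exact ⟨by omega, h2⟩
      have hyC : y ∈ C R (insert v W) s t (k + 1) := by
        rw [mem_C_iff]
        intro u hu
        obtain ⟨a, b, rfl, hb, ha⟩ := hysupp u hu
        obtain ⟨hk, h2⟩ := hkT b hb
        have h1 := (mem_C_iff.mp (hY1 b hb)) a ha
        have := cell_of_split h1 h2
        have e : k - 1 - j + 1 + 1 + j = k + 1 := by omega
        rwa [e] at this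
      have hx'C : x - dm R s t y ∈ C R (insert v W) s t k :=
        Submodule.sub_mem _ hx (dm_mem hyC)
      have hfin : (∀ u, (x - dm R s t y) u ≠ 0 → ∀ a b, u = a ++ v :: b → b.length < j) →
          (∀ i, k = i + 1 → dm R s t (x - dm R s t y) ∈ C R W s t i) →
          ∃ y ∈ C R (insert v W) s t (k + 1), x - dm R s t y ∈ C R W s t k := by
        intro hA hB
        obtain ⟨y', hy'C, hy'⟩ := ih k (x - dm R s t y) hx'C hA hB
        refine ⟨y + y', Submodule.add_mem _ hyC hy'C, ?_⟩
        rw [map_add]
        have : x - (dm R s t y + dm R s t y') = x - dm R s t y - dm R s t y' := by abel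
        rwa [this]
      apply hfin
      · intro u hu a b hub
        subst hub
        by_contra hbj
        push Not at hbj
        have hc := (mem_C_iff.mp hx'C) _ hu
        obtain ⟨_, _, _, hva, hvb⟩ := cell_insert hρ hc
        apply hu
        have e : Lc v b (dm R s t y) = dm R s v (Lc v b y) := by
          have := @eq_of_supp V (List V →₀ ℤ) _ ((Lc v b).comp (dm R s t))
            ((dm R s v).comp (Lc v b)) y ?_
          · exact this
          · intro u hu
            rw [LinearMap.comp_apply, LinearMap.comp_apply, dm_single, one_smul]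
            have hcu := (mem_C_iff.mp hyC) _ hu
            apply Lc_Din hvb
            · rintro a' b' rfl
              exact ((cell_insert hρ hcu).2.2.2)
            · rintro a' b' rfl
              obtain ⟨a'', b'', he, hb'', _⟩ := hysupp _ hu
              obtain ⟨_, _, _, hva', hvb'⟩ := cell_insert hρ hcu
              have hcu'' := hcu
              rw [he] at hcu''
              obtain ⟨_, _, _, _, hvb''⟩ := cell_insert hρ hcu''
              obtain ⟨_, h4⟩ := last_split hvb' hvb'' he
              rw [h4, (hT' b'' hb'').1]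
              exact hbj
        have hval : (x - dm R s t y) (a ++ v :: b) = (Lc v b x - dm R s v (Lc v b y)) a := by
          rw [← e]; rfl
        rw [hval]
        have hLy : ∀ a', b ∉ T → y (a' ++ v :: b) = 0 := by
          intro a' hbT
          by_contra h
          have hcu := (mem_C_iff.mp hyC) _ h
          obtain ⟨a'', b'', he, hb'', _⟩ := hysupp _ h
          have hcu'' := hcu
          rw [he] at hcu''
          obtain ⟨_, _, _, _, hvb''⟩ := cell_insert hρ hcu''
          obtain ⟨_, h4⟩ := last_split hvb hvb'' he
          exact hbT (h4 ▸ hb'')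
        by_cases hbT : b ∈ T
        · have h1 : Lc v b y = Y b := by
            ext a'
            rw [Lc_apply, hy, Finsupp.finsetSum_apply, Finset.sum_eq_single b]
            · exact app_apply v b a' (Y b)
            · intro b' hb' hne
              by_contra h
              obtain ⟨a'', he, ha''⟩ := app_ne h
              have hvb' : v ∉ b' := by
                obtain ⟨_, a0, ha0⟩ := hT' b' hb'
                exact (cell_insert hρ (hcell a0 b' ha0)).2.2.2.2
              exact hne (last_split hvb hvb' he).2.symm
            · intro h; exact absurd hbT h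
          rw [h1, hY2 b hbT, sub_self, Finsupp.zero_apply]
        · have h1 : Lc v b y = 0 := by
            ext a'
            rw [Lc_apply, hLy a' hbT, Finsupp.zero_apply]
          have h2 : Lc v b x = 0 := by
            ext a'
            rw [Lc_apply, Finsupp.zero_apply]
            by_contra h
            have h3 := hs _ h a' b rfl
            exact hbT (hTmem a' b h (by omega))
          rw [h1, h2, map_zero, sub_zero, Finsupp.zero_apply]
      · intro i hi
        rw [map_sub, (C_isCx hQ _ s t).sq _ _ hyC, sub_zero]
        exact hdx i hi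
  intro k x hx hdx
  refine key (k + 1) k x hx ?_ hdx
  rintro u hu a b rfl
  have := (cell_insert hρ ((mem_C_iff.mp hx) _ hu)).2.2.1
  omega

/-- Adding a vertex `v` such that the paths from `v` to `t` form an exact complex. -/
theorem Qac_right {ρ : V → ℕ} (hQ : QRel R) (hρ : ∀ u v, R u v → ρ u < ρ v) {W : Set V}
    {s t v : V} (hvW : v ∉ W) (hAC : AC (dm R v t) (C R W v t)) :
    Qac (dm R s t) (C R (insert v W) s t) (C R W s t) := by
  classical
  have key : ∀ j k, ∀ x ∈ C R (insert v W) s t k,
      (∀ u, x u ≠ 0 → ∀ a b, u = a ++ v :: b → a.length < j) →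
      (∀ i, k = i + 1 → dm R s t x ∈ C R W s t i) →
      ∃ y ∈ C R (insert v W) s t (k + 1), x - dm R s t y ∈ C R W s t k := by
    intro j
    induction j with
    | zero =>
      intro k x hx hs _
      refine ⟨0, Submodule.zero_mem _, ?_⟩
      rw [map_zero, sub_zero, mem_C_iff]
      intro u hu
      obtain ⟨h1, h2, h3⟩ := (mem_C_iff.mp hx) u hu
      refine ⟨h1, fun w hw => ?_, h3⟩
      rcases h2 w hw with rfl | h
      · obtain ⟨a, b, rfl⟩ := List.append_of_mem hw
        exact absurd (hs _ hu a b rfl) (by omega)
      · exact h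
    | succ j ih =>
      intro k x hx hs hdx
      set T : Finset (List V) := (x.support.image (fun u => u.take j)).filter
        (fun a => a.length = j ∧ ∃ b, x (a ++ v :: b) ≠ 0) with hT
      have hTmem : ∀ a b, x (a ++ v :: b) ≠ 0 → a.length = j → a ∈ T := by
        intro a b hab hb
        rw [hT, Finset.mem_filter, Finset.mem_image]
        refine ⟨⟨a ++ v :: b, by simpa using hab, ?_⟩, hb, b, hab⟩
        rw [← hb, List.take_left]
      have hT' : ∀ a ∈ T, a.length = j ∧ ∃ b, x (a ++ v :: b) ≠ 0 := fun b hb =>
        (Finset.mem_filter.mp hb).2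
      have hcell : ∀ a b, x (a ++ v :: b) ≠ 0 → a ++ v :: b ∈ Cells R (insert v W) s t k :=
        fun a b h => (mem_C_iff.mp hx) _ h
      have hY : ∀ a ∈ T, ∃ y ∈ C R W v t (k - 1 - j + 1), dm R v t y = Rc a v x := by
        intro a hb
        obtain ⟨hbj, b0, ha0⟩ := hT' a hb
        obtain ⟨_, _, hk, hva, _⟩ := cell_insert hρ (hcell a b0 ha0)
        obtain ⟨i, rfl⟩ : ∃ i, k = i + 1 := ⟨k - 1, by omega⟩
        apply hAC
        · rw [mem_C_iff]
          intro b ha
          rw [Rc_apply] at ha
          obtain ⟨_, h1, h3, _, _⟩ := cell_insert hρ (hcell a b ha)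
          have : b.length = i + 1 - 1 - j := by omega
          rwa [this] at h1
        · have e : Rc a v (dm R s t x) = ((-1 : ℤ) ^ (a.length + 1)) •
              dm R v t (Rc a v x) := by
            have := @eq_of_supp V (List V →₀ ℤ) _ ((Rc a v).comp (dm R s t))
              (((-1 : ℤ) ^ (a.length + 1)) • (dm R v t).comp (Rc a v)) x ?_
            · exact this
            · intro u hu
              rw [LinearMap.comp_apply, LinearMap.smul_apply, LinearMap.comp_apply, dm_single,
                one_smul]
              apply Rc_Din hva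
              · rintro a' b' rfl
                exact ((cell_insert hρ (hcell a' b' hu)).2.2.2)
              · intro a' b' hu'
                have := hs u hu a' b' hu'
                omega
          have h0 : Rc a v (dm R s t x) = 0 := by
            ext b
            rw [Rc_apply, Finsupp.zero_apply]
            by_contra h
            have := ((mem_C_iff.mp (hdx i rfl)) _ h).2.1 v (by simp)
            exact hvW this
          rw [h0] at e
          have hunit : IsUnit ((-1 : ℤ) ^ (a.length + 1)) := (isUnit_one.neg).pow _
          rcases Int.isUnit_iff.mp hunit with h | h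
          · rw [h, one_smul] at e; exact e.symm
          · rw [h, neg_one_smul] at e
            exact neg_eq_zero.mp e.symm
      choose! Y hY1 hY2 using hY
      set y : List V →₀ ℤ := ∑ a ∈ T, ((-1 : ℤ) ^ (a.length + 1)) • pre a v (Y a) with hy
      have hysupp : ∀ u, y u ≠ 0 → ∃ a b, u = a ++ v :: b ∧ a ∈ T ∧ Y a b ≠ 0 := by
        intro u hu
        rw [hy, Finsupp.finsetSum_apply] at hu
        obtain ⟨a, hb, hne⟩ := Finset.exists_ne_zero_of_sum_ne_zero hu
        obtain ⟨b, rfl, ha⟩ := pre_ne (smul_apply_ne hne)
        exact ⟨a, b, rfl, hb, ha⟩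
      have hkT : ∀ a ∈ T, k = (k - 1 - j) + 1 + j ∧ a ∈ Cells R W s v j := by
        intro b hb
        obtain ⟨hbj, a0, ha0⟩ := hT' b hb
        obtain ⟨h2, _, hk, _, hvb⟩ := cell_insert hρ (hcell b a0 ha0)
        rw [hbj] at h2
        exact ⟨by omega, h2⟩
      have hyC : y ∈ C R (insert v W) s t (k + 1) := by
        rw [mem_C_iff]
        intro u hu
        obtain ⟨a, b, rfl, hb, ha⟩ := hysupp u hu
        obtain ⟨hk, h2⟩ := hkT a hb
        have h1 := (mem_C_iff.mp (hY1 a hb)) b ha
        have := cell_of_split h2 h1
        have e : j + 1 + (k - 1 - j + 1) = k + 1 := by omega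
        rwa [e] at this
      have hx'C : x - dm R s t y ∈ C R (insert v W) s t k :=
        Submodule.sub_mem _ hx (dm_mem hyC)
      have hfin : (∀ u, (x - dm R s t y) u ≠ 0 → ∀ a b, u = a ++ v :: b → a.length < j) →
          (∀ i, k = i + 1 → dm R s t (x - dm R s t y) ∈ C R W s t i) →
          ∃ y ∈ C R (insert v W) s t (k + 1), x - dm R s t y ∈ C R W s t k := by
        intro hA hB
        obtain ⟨y', hy'C, hy'⟩ := ih k (x - dm R s t y) hx'C hA hB
        refine ⟨y + y', Submodule.add_mem _ hyC hy'C, ?_⟩
        rw [map_add]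
        have : x - (dm R s t y + dm R s t y') = x - dm R s t y - dm R s t y' := by abel
        rwa [this]
      apply hfin
      · intro u hu a b hub
        subst hub
        by_contra hbj
        push Not at hbj
        have hc := (mem_C_iff.mp hx'C) _ hu
        obtain ⟨_, _, _, hva, hvb⟩ := cell_insert hρ hc
        apply hu
        have e : Rc a v (dm R s t y) = ((-1 : ℤ) ^ (a.length + 1)) • dm R v t (Rc a v y) := by
          have := @eq_of_supp V (List V →₀ ℤ) _ ((Rc a v).comp (dm R s t))
            (((-1 : ℤ) ^ (a.length + 1)) • (dm R v t).comp (Rc a v)) y ?_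
          · exact this
          · intro u hu
            rw [LinearMap.comp_apply, LinearMap.smul_apply, LinearMap.comp_apply, dm_single,
              one_smul]
            have hcu := (mem_C_iff.mp hyC) _ hu
            apply Rc_Din hva
            · rintro a' b' rfl
              exact ((cell_insert hρ hcu).2.2.2)
            · rintro a' b' rfl
              obtain ⟨a'', b'', he, hb'', _⟩ := hysupp _ hu
              obtain ⟨_, _, _, hva', hvb'⟩ := cell_insert hρ hcu
              have hcu'' := hcu
              rw [he] at hcu''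
              obtain ⟨_, _, _, hva'', _⟩ := cell_insert hρ hcu''
              obtain ⟨h4, _⟩ := first_split hva' hva'' he
              rw [h4, (hT' a'' hb'').1]
              exact hbj
        have hval : (x - dm R s t y) (a ++ v :: b) =
            (Rc a v x - ((-1 : ℤ) ^ (a.length + 1)) • dm R v t (Rc a v y)) b := by
          rw [← e]; rfl
        rw [hval]
        have hLy : ∀ b', a ∉ T → y (a ++ v :: b') = 0 := by
          intro b' hbT
          by_contra h
          have hcu := (mem_C_iff.mp hyC) _ h
          obtain ⟨a'', b'', he, hb'', _⟩ := hysupp _ h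
          have hcu'' := hcu
          rw [he] at hcu''
          obtain ⟨_, _, _, hva'', _⟩ := cell_insert hρ hcu''
          obtain ⟨h4, _⟩ := first_split hva hva'' he
          exact hbT (h4 ▸ hb'')
        by_cases hbT : a ∈ T
        · have h1 : Rc a v y = ((-1 : ℤ) ^ (a.length + 1)) • Y a := by
            ext b'
            rw [Rc_apply, hy, Finsupp.finsetSum_apply, Finset.sum_eq_single a]
            · rw [Finsupp.smul_apply, Finsupp.smul_apply, pre_apply]
            · intro a' hb' hne
              by_contra h
              obtain ⟨b'', he, ha''⟩ := pre_ne (smul_apply_ne h)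
              have hva' : v ∉ a' := by
                obtain ⟨_, a0, ha0⟩ := hT' a' hb'
                exact (cell_insert hρ (hcell a' a0 ha0)).2.2.2.1
              exact hne (first_split hva hva' he).1.symm
            · intro h; exact absurd hbT h
          rw [h1, map_smul, smul_smul, ← pow_add, hY2 a hbT]
          have : ((-1 : ℤ) ^ (a.length + 1 + (a.length + 1))) = 1 := by
            rw [← two_mul, pow_mul]; simp
          rw [this, one_smul, sub_self, Finsupp.zero_apply]
        · have h1 : Rc a v y = 0 := by
            ext a'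
            rw [Rc_apply, hLy a' hbT, Finsupp.zero_apply]
          have h2 : Rc a v x = 0 := by
            ext a'
            rw [Rc_apply, Finsupp.zero_apply]
            by_contra h
            have h3 := hs _ h a a' rfl
            exact hbT (hTmem a a' h (by omega))
          rw [h1, h2, map_zero, smul_zero, sub_zero, Finsupp.zero_apply]
      · intro i hi
        rw [map_sub, (C_isCx hQ _ s t).sq _ _ hyC, sub_zero]
        exact hdx i hi
  intro k x hx hdx
  refine key (k + 1) k x hx ?_ hdx
  rintro u hu a b rfl
  have := (cell_insert hρ ((mem_C_iff.mp hx) _ hu)).2.2.1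
  omega

end Path

end Pool.Agent.Helper753_MagHom
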