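import Mathlib
import Pool.Agent.Helper753_MagHom.Path

/-!
# Complexes of paths: cones and suspensions
-/

set_option autoImplicit false

namespace Pool.Agent.Helper753_MagHom

section Path2

variable {V : Type*} {R : V → V → Prop}

lemma C_congr {W W' : Set V} {s t : V} (h : ∀ u, Val R s t u → ((∀ w ∈ u, w ∈ W) ↔ ∀ w ∈ u, w ∈ W')) :
    C R W s t = C R W' s t := by
  funext k
  rw [C, C]
  congr 1
  ext u
  constructor
  · rintro ⟨h1, h2, h3⟩; exact ⟨h1, (h u h1).mp h2, h3⟩
  · rintro ⟨h1, h2, h3⟩; exact ⟨h1, (h u h1).mpr h2, h3⟩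

lemma C_insert_mono (W : Set V) (v s t : V) (k : ℕ) : C R W s t k ≤ C R (insert v W) s t k :=
  C_mono (Set.subset_insert v W) s t k

/-- no paths: exact -/
lemma AC_of_no_path {W : Set V} {s t : V} (h : ∀ u, Val R s t u → (∀ w ∈ u, w ∈ W) → False) :
    AC (dm R s t) (C R W s t) := by
  intro k x hx _
  have : x = 0 := by
    ext u
    rw [Finsupp.zero_apply]
    by_contra hu
    obtain ⟨h1, h2, _⟩ := (mem_C_iff.mp hx) u hu
    exact h u h1 h2
  exact ⟨0, Submodule.zero_mem _, by rw [map_zero, this]⟩

section lr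
variable {ρ : V → ℕ} (hQ : QRel R) (hρ : ∀ u v, R u v → ρ u < ρ v) {W : Set V} {s t v : V}
include hQ hρ

lemma AC_left (hv : v ∉ W) (h : AC (dm R s v) (C R W s v)) :
    AC (dm R s t) (C R (insert v W) s t) ↔ AC (dm R s t) (C R W s t) :=
  AC.quot_iff (C_isCx hQ _ s t) (fun k => C_insert_mono W v s t k) (Qac_left hQ hρ hv h)

lemma AC_right (hv : v ∉ W) (h : AC (dm R v t) (C R W v t)) :
    AC (dm R s t) (C R (insert v W) s t) ↔ AC (dm R s t) (C R W s t) :=
  AC.quot_iff (C_isCx hQ _ s t) (fun k => C_insert_mono W v s t k) (Qac_right hQ hρ hv h)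

lemma SPH_left {k : ℕ} (hv : v ∉ W) (h : AC (dm R s v) (C R W s v)) :
    SPH (dm R s t) (C R (insert v W) s t) k ↔ SPH (dm R s t) (C R W s t) k :=
  ⟨SPH.to_sub (C_isCx hQ _ s t) (fun k => C_insert_mono W v s t k) (Qac_left hQ hρ hv h),
   SPH.of_quot (C_isCx hQ _ s t) (fun k => C_insert_mono W v s t k) (Qac_left hQ hρ hv h)⟩

lemma SPH_right {k : ℕ} (hv : v ∉ W) (h : AC (dm R v t) (C R W v t)) :
    SPH (dm R s t) (C R (insert v W) s t) k ↔ SPH (dm R s t) (C R W s t) k :=
  ⟨SPH.to_sub (C_isCx hQ _ s t) (fun k => C_insert_mono W v s t k) (Qac_right hQ hρ hv h),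
   SPH.of_quot (C_isCx hQ _ s t) (fun k => C_insert_mono W v s t k) (Qac_right hQ hρ hv h)⟩

end lr

lemma Val_last {s t p : V} {u : List V} (h : Val R s t u) (hp : R (lst s u) p) : Val R s p u := by
  induction u generalizing s with
  | nil => exact hp
  | cons a u ih => exact ⟨h.1, ih h.2 hp⟩

lemma Val_lst {s t : V} {u : List V} (h : Val R s t u) : R (lst s u) t := by
  induction u generalizing s with
  | nil => exact h
  | cons a u ih => exact ih h.2

lemma lst_mem (s : V) (u : List V) : lst s u = s ∨ lst s u ∈ u := by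
  induction u generalizing s with
  | nil => simp
  | cons a u ih =>
    rw [lst_cons]
    rcases ih a with h | h
    · right; rw [h]; simp
    · right; exact List.mem_cons_of_mem _ h

lemma lst_append_cons (s v : V) (a b : List V) : lst s (a ++ v :: b) = lst v b := by
  induction a generalizing s with
  | nil => simp
  | cons x a ih => simp [ih]

/-- the cone lemma: `p` is a gate in front of `t` -/
lemma AC_cone {ρ : V → ℕ} (hQ : QRel R) (hρ : ∀ u v, R u v → ρ u < ρ v) {W : Set V} {s t p : V}
    (hpW : p ∈ W) (hpt : R p t) (hs : R s t ↔ R s p)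
    (h : ∀ u ∈ W, u ≠ p → (R u t ↔ R u p)) : AC (dm R s t) (C R W s t) := by
  classical
  intro k x hx hdx
  -- a path through `p` ends in `p`
  have hend : ∀ a b, Val R s t (a ++ p :: b) → (∀ w ∈ a ++ p :: b, w ∈ W) → b = [] := by
    intro a b hv hw
    by_contra hb
    have h1 := (Val_append.mp hv).2
    have h2 : lst p b ∈ b := by
      cases b with
      | nil => exact absurd rfl hb
      | cons c b =>
        rcases lst_mem c b with h | h
        · rw [lst_cons, h]; simp
        · rw [lst_cons]; exact List.mem_cons_of_mem _ h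
    have h3 := (Val_rank hρ h1).2 _ h2
    have h4 : lst p b ≠ p := by
      intro he; rw [he] at h3; exact lt_irrefl _ h3.1
    have h5 := (h _ (hw _ (by simp [h2])) h4).mp (Val_lst h1)
    exact absurd (hρ _ _ h5) (by omega)
  have hR : ∀ u, Val R s t u → (∀ w ∈ u, w ∈ W) → p ∉ u → R (lst s u) p := by
    intro u hu hw hp
    rcases lst_mem s u with h1 | h1
    · rw [h1]; apply hs.mp; rw [← h1]; exact Val_lst hu
    · exact (h _ (hw _ h1) (fun he => hp (he ▸ h1))).mp (Val_lst hu)
  have hR' : ∀ u, Val R s p u → (∀ w ∈ u, w ∈ W) → R (lst s u) t := by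
    intro u hu hw
    rcases lst_mem s u with h1 | h1
    · rw [h1]; apply hs.mpr; rw [← h1]; exact Val_lst hu
    · refine (h _ (hw _ h1) (fun he => ?_)).mpr (Val_lst hu)
      have := (Val_rank hρ hu).2 _ h1
      rw [he] at this
      exact lt_irrefl _ this.2
  obtain ⟨z, hz⟩ : ∃ z, z = Lc p [] x := ⟨_, rfl⟩
  obtain ⟨x0, hx0⟩ : ∃ x0, x0 = x - app p [] z := ⟨_, rfl⟩
  have hx0s : ∀ u, x0 u ≠ 0 → x u ≠ 0 ∧ p ∉ u ∧ u ∈ Cells R W s t k := by
    intro u hu
    have hne : ∀ a, u ≠ a ++ [p] := by
      rintro a rfl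
      apply hu
      rw [hx0, Finsupp.sub_apply, app_apply, hz, Lc_apply, sub_self]
    have hxu : x u ≠ 0 := by
      intro h0
      apply hu
      rw [hx0, Finsupp.sub_apply, h0, zero_sub, neg_eq_zero]
      by_contra hc
      obtain ⟨a, ha, _⟩ := app_ne hc
      exact hne a ha
    have hc := (mem_C_iff.mp hx) u hxu
    refine ⟨hxu, ?_, hc⟩
    intro hp
    obtain ⟨a, b, rfl⟩ := List.append_of_mem hp
    have := hend a b hc.1 hc.2.1
    subst this
    exact hne a rfl
  -- the differential of `x0 ++ [p]`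
  have hd0 : ∀ (j : ℕ) (y : List V →₀ ℤ), (∀ u, y u ≠ 0 → u.length = j ∧ R (lst s u) t) →
      dm R s t (app p [] y) = app p [] (dm R s p y) + ((-1 : ℤ) ^ j) • y := by
    intro j y hy
    have := @eq_of_supp V (List V →₀ ℤ) _ ((dm R s t).comp (app p []))
      ((app p []).comp (dm R s p) + ((-1 : ℤ) ^ j) • LinearMap.id) y ?_
    · exact this
    · intro u hu
      obtain ⟨h1, h2⟩ := hy u hu
      simp only [LinearMap.comp_apply, app_single, dm_single, one_smul, LinearMap.add_apply,
        LinearMap.smul_apply, LinearMap.id_apply]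
      rw [Din_append, Din_nil, map_zero, smul_zero, add_zero, hd_nil, iff'_pos h2,
        List.append_nil, h1]
  refine ⟨((-1 : ℤ) ^ k) • app p [] x0, Submodule.smul_mem _ _ ?_, ?_⟩
  · rw [mem_C_iff]
    intro u hu
    obtain ⟨a, rfl, ha⟩ := app_ne hu
    obtain ⟨_, h1, h2⟩ := hx0s a ha
    refine ⟨Val_append.mpr ⟨Val_last h2.1 (hR a h2.1 h2.2.1 h1), hpt⟩, ?_, ?_⟩
    · intro w hw
      rcases List.mem_append.mp hw with h | h
      · exact h2.2.1 w h
      · simp at h; exact h ▸ hpW
    · have := h2.2.2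
      simp [this]
  · have e0 := hd0 k x0 (fun u hu => by
      obtain ⟨_, _, h2⟩ := hx0s u hu
      exact ⟨h2.2.2, Val_lst h2.1⟩)
    have hsq : ((-1 : ℤ) ^ k) * ((-1 : ℤ) ^ k) = 1 := by
      rw [← mul_pow]; simp
    obtain ⟨z', hz'⟩ : ∃ z', z' = z - ((-1 : ℤ) ^ k) • dm R s p x0 := ⟨_, rfl⟩
    have e1 : x - dm R s t (((-1 : ℤ) ^ k) • app p [] x0) = app p [] z' := by
      rw [map_smul, e0, smul_add, smul_smul, hsq, one_smul, hz', map_sub, map_smul]
      have : x = x0 + app p [] z := by rw [hx0]; abel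
      nth_rw 1 [this]
      abel
    have hyC : ((-1 : ℤ) ^ k) • app p [] x0 ∈ C R W s t (k + 1) := by
      apply Submodule.smul_mem
      rw [mem_C_iff]
      intro u hu
      obtain ⟨a, rfl, ha⟩ := app_ne hu
      obtain ⟨_, h1, h2⟩ := hx0s a ha
      refine ⟨Val_append.mpr ⟨Val_last h2.1 (hR a h2.1 h2.2.1 h1), hpt⟩, ?_, ?_⟩
      · intro w hw
        rcases List.mem_append.mp hw with h | h
        · exact h2.2.1 w h
        · simp at h; exact h ▸ hpW
      · have := h2.2.2
        simp [this]
    have hC1 : app p [] z' ∈ C R W s t k := by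
      rw [← e1]
      exact Submodule.sub_mem _ hx (dm_mem hyC)
    have hz's : ∀ u, z' u ≠ 0 → u ++ [p] ∈ Cells R W s t k := by
      intro u hu
      apply (mem_C_iff.mp hC1)
      rwa [app_apply]
    have hz'p : ∀ u, z' u ≠ 0 → p ∉ u := fun u hu =>
      (Val_notMem hρ (hz's u hu).1).1
    have hz0 : z' = 0 := by
      by_cases hk : k = 0
      · ext u
        rw [Finsupp.zero_apply]
        by_contra hu
        have := (hz's u hu).2.2
        simp at this; omega
      · have e2 := hd0 (k - 1) z' (fun u hu => by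
          have h1 := hz's u hu
          have h2 := (Val_append.mp h1.1).1
          have h3 := h1.2.2
          simp at h3
          exact ⟨by omega, hR' u h2 (fun w hw => h1.2.1 w (by simp [hw]))⟩)
        have e3 : dm R s t (app p [] z') = 0 := by
          rw [← e1, map_sub, hdx, (C_isCx hQ W s t).sq _ _ hyC, sub_zero]
        rw [e3] at e2
        ext u
        rw [Finsupp.zero_apply]
        by_contra hu
        have e4 := DFunLike.congr_fun e2 u
        rw [Finsupp.zero_apply, Finsupp.add_apply, Finsupp.smul_apply] at e4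
        have e5 : app p [] (dm R s p z') u = 0 := by
          by_contra hc
          obtain ⟨a, ha, _⟩ := app_ne hc
          exact hz'p u hu (by rw [ha]; simp)
        rw [e5, zero_add] at e4
        have hu' : ((-1 : ℤ) ^ (k - 1)) ≠ 0 := pow_ne_zero _ (by norm_num)
        rcases smul_eq_zero.mp e4.symm with h | h
        · exact hu' h
        · exact hu h
    rw [hz0, map_zero] at e1
    exact (sub_eq_zero.mp e1).symm

section add

variable {ρ : V → ℕ} (hQ : QRel R) (hρ : ∀ u v, R u v → ρ u < ρ v) {W : Set V} {s t : V}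
include hQ hρ

/-- adding a finite set of vertices, in the order given by the rank -/
lemma add_left {D : Finset V} (hD : ∀ v ∈ D, v ∉ W)
    (h : ∀ v ∈ D, AC (dm R s v) (C R (W ∪ {u | u ∈ D ∧ ρ u < ρ v}) s v)) :
    (AC (dm R s t) (C R (W ∪ D) s t) ↔ AC (dm R s t) (C R W s t)) ∧
    ∀ k, (SPH (dm R s t) (C R (W ∪ D) s t) k ↔ SPH (dm R s t) (C R W s t) k) := by
  classical
  induction D using Finset.induction_on_max_value ρ with
  | empty => simp
  | insert a D ha hmax ih =>
    have ih' := ih (fun v hv => hD v (Finset.mem_insert_of_mem hv)) (by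
      intro v hv
      have h1 := h v (Finset.mem_insert_of_mem hv)
      have : (W ∪ {u | u ∈ insert a D ∧ ρ u < ρ v}) = (W ∪ {u | u ∈ D ∧ ρ u < ρ v}) := by
        ext u
        simp only [Set.mem_union, Set.mem_setOf_eq, Finset.mem_insert]
        constructor
        · rintro (h2 | ⟨rfl | h2, h3⟩)
          · exact Or.inl h2
          · exact absurd (hmax v hv) (by omega)
          · exact Or.inr ⟨h2, h3⟩
        · rintro (h2 | ⟨h2, h3⟩)
          · exact Or.inl h2
          · exact Or.inr ⟨Or.inr h2, h3⟩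
      rwa [this] at h1)
    have haW : a ∉ W ∪ (D : Set V) := by
      rintro (h1 | h1)
      · exact hD a (Finset.mem_insert_self a D) h1
      · exact ha (by simpa using h1)
    have hAC : AC (dm R s a) (C R (W ∪ (D : Set V)) s a) := by
      have h1 := h a (Finset.mem_insert_self a D)
      have : C R (W ∪ {u | u ∈ insert a D ∧ ρ u < ρ a}) s a = C R (W ∪ (D : Set V)) s a := by
        apply C_congr
        intro u hu
        have hr := (Val_rank hρ hu).2
        constructor
        · intro h2 w hw
          rcases h2 w hw with h3 | ⟨h3, h4⟩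
          · exact Or.inl h3
          · rcases Finset.mem_insert.mp h3 with rfl | h3
            · omega
            · exact Or.inr (by simpa using h3)
        · intro h2 w hw
          rcases h2 w hw with h3 | h3
          · exact Or.inl h3
          · exact Or.inr ⟨Finset.mem_insert_of_mem (by simpa using h3), (hr w hw).2⟩
      rwa [this] at h1
    have e : W ∪ ((insert a D : Finset V) : Set V) = insert a (W ∪ (D : Set V)) := by
      ext u; simp
    rw [e]
    constructor
    · rw [AC_left hQ hρ haW hAC]; exact ih'.1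
    · intro k
      rw [SPH_left hQ hρ haW hAC]; exact ih'.2 k

lemma add_right {D : Finset V} (hD : ∀ v ∈ D, v ∉ W)
    (h : ∀ v ∈ D, AC (dm R v t) (C R W v t)) :
    (AC (dm R s t) (C R (W ∪ D) s t) ↔ AC (dm R s t) (C R W s t)) ∧
    ∀ k, (SPH (dm R s t) (C R (W ∪ D) s t) k ↔ SPH (dm R s t) (C R W s t) k) := by
  classical
  induction D using Finset.induction_on_max_value ρ with
  | empty => simp
  | insert a D ha hmax ih =>
    have ih' := ih (fun v hv => hD v (Finset.mem_insert_of_mem hv))
      (fun v hv => h v (Finset.mem_insert_of_mem hv))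
    have haW : a ∉ W ∪ (D : Set V) := by
      rintro (h1 | h1)
      · exact hD a (Finset.mem_insert_self a D) h1
      · exact ha (by simpa using h1)
    have hAC : AC (dm R a t) (C R (W ∪ (D : Set V)) a t) := by
      have h1 := h a (Finset.mem_insert_self a D)
      have : C R W a t = C R (W ∪ (D : Set V)) a t := by
        apply C_congr
        intro u hu
        have hr := (Val_rank hρ hu).2
        constructor
        · intro h2 w hw
          exact Or.inl (h2 w hw)
        · intro h2 w hw
          rcases h2 w hw with h3 | h3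
          · exact h3
          · have := hmax w (by simpa using h3)
            have := (hr w hw).1
            omega
      rwa [this] at h1
    have e : W ∪ ((insert a D : Finset V) : Set V) = insert a (W ∪ (D : Set V)) := by
      ext u; simp
    rw [e]
    constructor
    · rw [AC_right hQ hρ haW hAC]; exact ih'.1
    · intro k
      rw [SPH_right hQ hρ haW hAC]; exact ih'.2 k

end add

section susp

variable {ρ : V → ℕ} (hQ : QRel R) (hρ : ∀ u v, R u v → ρ u < ρ v) {W : Set V} {s t v : V}

lemma ph_mem {k : ℕ} {x : List V →₀ ℤ} (hx : x ∈ C R W v t k) : ph R s t x ∈ C R W s t k := by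
  have : C R W v t k ≤ (C R W s t k).comap (ph R s t) := by
    apply C_le
    intro u hu
    rw [Submodule.mem_comap, ph_single]
    by_cases h : R s (hd u t)
    · rw [iff'_pos h]
      exact single_mem_C ⟨Val_skip hu.1 h, hu.2.1, hu.2.2⟩ 1
    · rw [iff'_neg h]
      exact Submodule.zero_mem _
  exact this hx

lemma cons'_mem (hsv : R s v) {k : ℕ} {x : List V →₀ ℤ} (hx : x ∈ C R W v t k) :
    cons' v x ∈ C R (insert v W) s t (k + 1) := by
  rw [mem_C_iff]
  intro u hu
  obtain ⟨a, rfl, ha⟩ := cons'_ne hu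
  obtain ⟨h1, h2, h3⟩ := (mem_C_iff.mp hx) a ha
  refine ⟨⟨hsv, h1⟩, ?_, by simp [h3]⟩
  intro w hw
  rcases List.mem_cons.mp hw with h | h
  · exact Or.inl h
  · exact Or.inr (h2 w h)

include hρ in
/-- splitting a chain when `v` can only come first -/
lemma split_first (hvW : v ∉ W) (honly : ∀ u, Val R s v u → (∀ w ∈ u, w ∈ W) → u = [])
    {j : ℕ} {x : List V →₀ ℤ} (hx : x ∈ C R (insert v W) s t j) :
    x - cons' v (Rc [] v x) ∈ C R W s t j ∧ (∀ i, j = i + 1 → Rc [] v x ∈ C R W v t i) := by
  constructor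
  · rw [mem_C_iff]
    intro u hu
    have hne : ∀ a, u ≠ v :: a := by
      rintro a rfl
      apply hu
      rw [Finsupp.sub_apply, cons'_apply_cons, Rc_apply]
      simp
    have hxu : x u ≠ 0 := by
      intro h0
      apply hu
      rw [Finsupp.sub_apply, h0, zero_sub, neg_eq_zero]
      by_contra hc
      obtain ⟨a, ha, _⟩ := cons'_ne hc
      exact hne a ha
    have hc := (mem_C_iff.mp hx) u hxu
    refine ⟨hc.1, ?_, hc.2.2⟩
    intro w hw
    rcases hc.2.1 w hw with rfl | h
    · obtain ⟨a, b, rfl⟩ := List.append_of_mem hw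
      obtain ⟨h1, _, _, _, _⟩ := cell_insert hρ hc
      have := honly a h1.1 h1.2.1
      subst this
      exact absurd rfl (hne b)
    · exact h
  · rintro i rfl
    rw [mem_C_iff]
    intro u hu
    rw [Rc_apply] at hu
    have hc := (mem_C_iff.mp hx) _ hu
    obtain ⟨_, h2, h3, _, _⟩ := cell_insert hρ hc
    have : u.length = i := by simp at h3; omega
    rwa [this] at h2

lemma Rc_zero_of_mem (hvW : v ∉ W) {j : ℕ} {x : List V →₀ ℤ} (hx : x ∈ C R W s t j) :
    Rc [] v x = 0 := by
  ext u
  rw [Rc_apply, Finsupp.zero_apply]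
  by_contra h
  exact hvW (((mem_C_iff.mp hx) _ h).2.1 v (by simp))

lemma Rc_cons' (x : List V →₀ ℤ) : Rc [] v (cons' v x) = x := by
  ext u
  rw [Rc_apply]
  exact cons'_apply_cons v u x

include hQ hρ in
/-- suspension -/
lemma SPH_susp (hvW : v ∉ W) (hsv : R s v)
    (honly : ∀ u, Val R s v u → (∀ w ∈ u, w ∈ W) → u = [])
    (hAC : AC (dm R s t) (C R W s t)) {k : ℕ} (h : SPH (dm R v t) (C R W v t) k) :
    SPH (dm R s t) (C R (insert v W) s t) (k + 1) := by
  obtain ⟨g, hg, hdg, h1, h2, h3⟩ := h
  have hM := C_isCx hQ (insert v W) s t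
  have hconsg := cons'_mem hsv hg
  have e1 : dm R s t (cons' v g) = ph R s t g := by rw [dm_cons', hdg, map_zero, sub_zero]
  obtain ⟨w, hw, hdw⟩ := hAC k (ph R s t g) (ph_mem hg) (by rw [← e1, hM.sq _ _ hconsg])
  have hwM := C_insert_mono W v s t _ hw
  -- general facts
  have hRd : ∀ j, ∀ x ∈ C R (insert v W) s t (j + 1),
      Rc [] v (dm R s t x) = - dm R v t (Rc [] v x) := by
    intro j x hx
    obtain ⟨ha, hb⟩ := split_first hρ hvW honly hx
    have : x = cons' v (Rc [] v x) + (x - cons' v (Rc [] v x)) := by abel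
    have e : dm R s t x = ph R s t (Rc [] v x) - cons' v (dm R v t (Rc [] v x)) +
        dm R s t (x - cons' v (Rc [] v x)) := by
      conv_lhs => rw [this]
      rw [map_add, dm_cons']
    rw [e, map_add, map_sub, Rc_cons', Rc_zero_of_mem hvW (dm_mem ha),
      Rc_zero_of_mem hvW (ph_mem (hb j rfl))]
    abel
  -- reduction of a chain whose `v`-part is a boundary
  have hred : ∀ j, ∀ x ∈ C R (insert v W) s t (j + 1), dm R s t x = 0 →
      ∀ y1 ∈ C R W v t (j + 1), dm R v t y1 = Rc [] v x →
      ∃ y ∈ C R (insert v W) s t (j + 2), dm R s t y = x := by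
    intro j x hx hdx y1 hy1 e
    obtain ⟨ha, _⟩ := split_first hρ hvW honly hx
    have hc1 := cons'_mem (W := W) hsv hy1
    have hmem : x + dm R s t (cons' v y1) ∈ C R W s t (j + 1) := by
      rw [dm_cons', e]
      have : x + (ph R s t y1 - cons' v (Rc [] v x)) =
        (x - cons' v (Rc [] v x)) + ph R s t y1 := by abel
      rw [this]
      exact Submodule.add_mem _ ha (ph_mem hy1)
    obtain ⟨z, hz, hdz⟩ := hAC _ _ hmem (by rw [map_add, hdx, hM.sq _ _ hc1, add_zero])
    exact ⟨z - cons' v y1, Submodule.sub_mem _ (C_insert_mono W v s t _ hz) hc1, by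
      rw [map_sub, hdz]; abel⟩
  refine ⟨cons' v g - w, Submodule.sub_mem _ hconsg hwM, by rw [map_sub, e1, hdw, sub_self],
    ?_, ?_, ?_⟩
  · intro x hx hdx
    have hx1 := (split_first hρ hvW honly hx).2 k rfl
    obtain ⟨n, y1, hy1, e⟩ := h1 (Rc [] v x) hx1 (by
      have := hRd k x hx
      rw [hdx, map_zero] at this
      exact (neg_eq_zero.mp this.symm))
    have hG : cons' v g - w ∈ C R (insert v W) s t (k + 1) := Submodule.sub_mem _ hconsg hwM
    obtain ⟨y, hy, hdy⟩ := hred k (x - n • (cons' v g - w))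
      (Submodule.sub_mem _ hx (Submodule.smul_mem _ _ hG))
      (by rw [map_sub, hdx, map_smul, map_sub, e1, hdw, sub_self, smul_zero, sub_zero])
      y1 hy1 (by
        rw [map_sub, map_smul, map_sub, Rc_cons', Rc_zero_of_mem hvW hw, sub_zero, e]
        abel)
    exact ⟨n, y, hy, by rw [hdy]; abel⟩
  · intro n y hy e
    have hy1 := (split_first hρ hvW honly hy).2 (k + 1) rfl
    refine h2 n (-(Rc [] v y)) (Submodule.neg_mem _ hy1) ?_
    have := hRd (k + 1) y hy
    rw [← e, map_smul, map_sub, Rc_cons', Rc_zero_of_mem hvW hw, sub_zero] at this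
    rw [map_neg]; exact this
  · intro j hj x hx hdx
    cases j with
    | zero =>
      have hx0 : x ∈ C R W s t 0 := by
        rw [mem_C_iff]
        intro u hu
        obtain ⟨a, b, c⟩ := (mem_C_iff.mp hx) u hu
        have : u = [] := List.length_eq_zero_iff.mp c
        subst this
        exact ⟨a, by simp, rfl⟩
      obtain ⟨y, hy, hdy⟩ := hAC 0 x hx0 hdx
      exact ⟨y, C_insert_mono W v s t _ hy, hdy⟩
    | succ j =>
      have hx1 := (split_first hρ hvW honly hx).2 j rfl
      obtain ⟨y1, hy1, e⟩ := h3 j (by omega) (Rc [] v x) hx1 (by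
        have := hRd j x hx
        rw [hdx, map_zero] at this
        exact (neg_eq_zero.mp this.symm))
      exact hred j x hx hdx y1 hy1 e

end susp

/-- the part of a chain consisting of the paths through `v` -/
noncomputable def thr (v : V) : (List V →₀ ℤ) →ₗ[ℤ] (List V →₀ ℤ) :=
  Finsupp.linearCombination ℤ (fun u : List V => iff' (v ∈ u) (Finsupp.single u (1 : ℤ)))

lemma thr_single_pos {v : V} {u : List V} (h : v ∈ u) (a : ℤ) :
    thr v (Finsupp.single u a) = Finsupp.single u a := by
  simp [thr, Finsupp.linearCombination_single, iff'_pos h]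

lemma thr_single_neg {v : V} {u : List V} (h : v ∉ u) (a : ℤ) :
    thr v (Finsupp.single u a) = 0 := by
  simp [thr, Finsupp.linearCombination_single, iff'_neg h]

lemma thr_apply (v : V) (x : List V →₀ ℤ) (u : List V) : thr v x u = iff' (v ∈ u) (x u) := by
  classical
  induction x using Finsupp.induction_linear with
  | zero => simp [iff']
  | add f g hf hg =>
    rw [map_add, Finsupp.add_apply, hf, hg, Finsupp.add_apply]
    by_cases h : v ∈ u
    · rw [iff'_pos h, iff'_pos h, iff'_pos h]
    · rw [iff'_neg h, iff'_neg h, iff'_neg h, add_zero]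
  | single w a =>
    by_cases hw : v ∈ w
    · rw [thr_single_pos hw]
      by_cases h : v ∈ u
      · rw [iff'_pos h]
      · rw [iff'_neg h, Finsupp.single_apply, if_neg]
        rintro rfl; exact h hw
    · rw [thr_single_neg hw, Finsupp.zero_apply]
      by_cases h : v ∈ u
      · rw [iff'_pos h, Finsupp.single_apply, if_neg]
        rintro rfl; exact hw h
      · rw [iff'_neg h]

/-- Removing a vertex `v` from an exact complex; `R'` is a relation whose paths are the paths
through `v`. -/
theorem SPH_thr (hQ : QRel R) {W : Set V} {s t v : V}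
    (hvW : v ∉ W) (R' : V → V → Prop)
    (hR' : ∀ k u, u ∈ Cells R' (insert v W) s t k ↔ u ∈ Cells R (insert v W) s t k ∧ v ∈ u)
    (hD : ∀ k u, u ∈ Cells R (insert v W) s t k → v ∈ u → Din R' s t u = thr v (Din R s t u))
    (hAC : AC (dm R s t) (C R (insert v W) s t)) {k : ℕ}
    (h : SPH (dm R' s t) (C R' (insert v W) s t) (k + 1)) : SPH (dm R s t) (C R W s t) k := by
  refine SPH.of_quot_AC (C_isCx hQ _ s t) (fun k => C_insert_mono W v s t k)
    (Q := C R' (insert v W) s t) (dQ := dm R' s t) (π := thr v) ?_ ?_ ?_ ?_ ?_ ?_ hAC h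
  · intro k x hx
    rw [mem_C_iff]
    intro u hu
    rw [thr_apply] at hu
    by_cases hv : v ∈ u
    · rw [iff'_pos hv] at hu
      exact (hR' k u).mpr ⟨(mem_C_iff.mp hx) u hu, hv⟩
    · rw [iff'_neg hv] at hu; exact absurd rfl hu
  · intro k x hx h0
    rw [mem_C_iff]
    intro u hu
    have hc := (mem_C_iff.mp hx) u hu
    refine ⟨hc.1, ?_, hc.2.2⟩
    intro w hw
    rcases hc.2.1 w hw with rfl | h
    · have := DFunLike.congr_fun h0 u
      rw [thr_apply, iff'_pos hw, Finsupp.zero_apply] at this
      exact absurd this hu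
    · exact h
  · intro k x hx
    rw [mem_C_iff]
    intro u hu
    exact ((hR' k u).mp ((mem_C_iff.mp hx) u hu)).1
  · intro k x hx
    ext u
    rw [thr_apply]
    by_cases hv : v ∈ u
    · rw [iff'_pos hv]
    · rw [iff'_neg hv]
      by_contra hne
      exact hv ((hR' k u).mp ((mem_C_iff.mp hx) u (fun h => hne h.symm))).2
  · intro k x hx
    ext u
    rw [thr_apply, Finsupp.zero_apply]
    by_cases hv : v ∈ u
    · rw [iff'_pos hv]
      by_contra hne
      exact hvW (((mem_C_iff.mp hx) u hne).2.1 v hv)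
    · rw [iff'_neg hv]
  · intro k x hx
    have := @eq_of_supp V (List V →₀ ℤ) _ ((thr v).comp (dm R s t))
      ((dm R' s t).comp (thr v)) x ?_
    · exact this
    · intro u hu
      have hc := (mem_C_iff.mp hx) u hu
      rw [LinearMap.comp_apply, LinearMap.comp_apply, dm_single, one_smul]
      by_cases hv : v ∈ u
      · rw [thr_single_pos hv, dm_single, one_smul, hD k u hc hv]
      · rw [thr_single_neg hv, map_zero]
        ext w
        rw [thr_apply, Finsupp.zero_apply]
        by_cases hvw : v ∈ w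
        · rw [iff'_pos hvw]
          by_contra hne
          exact hv ((Din_support s t u w hne).1.subset hvw)
        · rw [iff'_neg hvw]

/-- the complex with only the path `s → t` -/
lemma SPH_direct {W : Set V} {s t : V} (hst : R s t)
    (honly : ∀ u, Val R s t u → (∀ w ∈ u, w ∈ W) → u = []) :
    SPH (dm R s t) (C R W s t) 0 := by
  classical
  have hz : ∀ j, ∀ x ∈ C R W s t (j + 1), x = 0 := by
    intro j x hx
    ext u
    rw [Finsupp.zero_apply]
    by_contra hu
    obtain ⟨h1, h2, h3⟩ := (mem_C_iff.mp hx) u hu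
    rw [honly u h1 h2] at h3
    simp at h3
  refine ⟨Finsupp.single [] 1, single_mem_C (u := []) ⟨hst, by simp, rfl⟩ 1, by simp, ?_, ?_, ?_⟩
  · intro x hx _
    refine ⟨x [], 0, Submodule.zero_mem _, ?_⟩
    rw [map_zero, add_zero]
    ext u
    by_cases hu : u = []
    · subst hu; simp
    · have : x u = 0 := by
        by_contra hne
        obtain ⟨h1, h2, h3⟩ := (mem_C_iff.mp hx) u hne
        exact hu (honly u h1 h2)
      rw [this, Finsupp.smul_apply, Finsupp.single_apply, if_neg (fun h => hu h.symm), smul_zero]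
  · intro n y hy e
    rw [hz 0 y hy, map_zero] at e
    have := DFunLike.congr_fun e []
    simpa using this
  · intro j hj x hx _
    obtain ⟨i, rfl⟩ : ∃ i, j = i + 1 := ⟨j - 1, by omega⟩
    exact ⟨0, Submodule.zero_mem _, by rw [map_zero, hz i x hx]⟩

end Path2

end Pool.Agent.Helper753_MagHom
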